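import Pool.Agent.Lib.MP_1ae3da_al.Z.Gp
import Pool.Agent.Lib.MP_1ae3da_al.C.AGa

/-! The averaging idempotents. -/

namespace Pool.Agent.Lib.MP_1ae3da_al.CT.Z

open Submodule

variable {F X : Type} [Field F] [CharZero F] [Group X] [Finite X] {E E' U D : Subgroup X}
  {p c : ℕ}

omit [CharZero F] [Finite X] in
theorem zAv_def [Fintype E] : av F E = (Nat.card E : F)⁻¹ • ∑ x : E, gu F X x := by
  rw [av, finsum_eq_sum_of_fintype]

theorem zAv_card : (Nat.card E : F) ≠ 0 := Nat.cast_ne_zero.2 Nat.card_pos.ne'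

theorem zAv_mul {a : MonoidAlgebra F X} (h : ∀ x ∈ E, gu F X x * a = a) : av F E * a = a := by
  have _ := Fintype.ofFinite E
  rw [zAv_def, smul_mul_assoc, Finset.sum_mul, Finset.sum_congr rfl fun x _ => h x.1 x.2,
    Finset.sum_const, Finset.card_univ, ← Nat.card_eq_fintype_card, ← Nat.cast_smul_eq_nsmul F,
    inv_smul_smul₀ zAv_card]

theorem zAv_mul' {a : MonoidAlgebra F X} (h : ∀ x ∈ E, a * gu F X x = a) : a * av F E = a := by
  have _ := Fintype.ofFinite E
  rw [zAv_def, mul_smul_comm, Finset.mul_sum, Finset.sum_congr rfl fun x _ => h x.1 x.2,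
    Finset.sum_const, Finset.card_univ, ← Nat.card_eq_fintype_card, ← Nat.cast_smul_eq_nsmul F,
    inv_smul_smul₀ zAv_card]

omit [CharZero F] in
theorem zAv_map [Fintype E] (δ : MulAut X) :
    av F (E.map δ.toMonoidHom) = (Nat.card E : F)⁻¹ • ∑ x : E, gu F X (δ x) := by
  have _ := Fintype.ofFinite (E.map δ.toMonoidHom)
  rw [zAv_def, ← Nat.card_congr (E.equivMapOfInjective δ.toMonoidHom δ.injective).toEquiv,
    ← Equiv.sum_comp (E.equivMapOfInjective δ.toMonoidHom δ.injective).toEquiv]
  rfl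

/-- the coefficient of `x`. -/
noncomputable def zAvCo (F : Type) {X : Type} [Field F] [Group X] (x : X) :
    MonoidAlgebra F X →ₗ[F] F := (MonoidAlgebra.basis X F).coord x

omit [CharZero F] [Finite X] in
theorem zAv_co [DecidableEq X] (x y : X) : zAvCo F x (gu F X y) = if y = x then 1 else 0 := by
  have : gu F X y = MonoidAlgebra.basis X F y := (MonoidAlgebra.basis_apply F y).symm
  rw [this, zAvCo, Module.Basis.coord_apply, Module.Basis.repr_self, Finsupp.single_apply]

theorem zAv_co_av (x : X) : zAvCo F x (av F E) ≠ 0 ↔ x ∈ E := by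
  classical
  have _ := Fintype.ofFinite E
  rw [zAv_def, map_smul, map_sum, smul_ne_zero_iff, and_iff_right (inv_ne_zero zAv_card)]
  simp only [zAv_co]
  refine ⟨fun h => ?_, fun h => ?_⟩
  · obtain ⟨y, -, hy⟩ := Finset.exists_ne_zero_of_sum_ne_zero h
    by_cases e : (y : X) = x
    · exact e ▸ y.2
    · exact absurd (if_neg e) hy
  · rw [Finset.sum_eq_single (⟨x, h⟩ : E) (fun y _ hy => if_neg fun e => hy (Subtype.ext e))
      (by simp), if_pos rfl]
    exact one_ne_zero

theorem zAv_inj (h : av F E = av F E') : E = E' :=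
  Subgroup.ext fun x => by rw [← zAv_co_av (F := F), h, zAv_co_av]

theorem gu_av {x : X} (hx : x ∈ E) : gu F X x * av F E = av F E := by
  have _ := Fintype.ofFinite E
  rw [zAv_def, mul_smul_comm, Finset.mul_sum, ← Equiv.sum_comp (Equiv.mulLeft (⟨x, hx⟩ : E))
    fun y : E => gu F X y]
  simp only [gu_mul]
  rfl

theorem av_gu {x : X} (hx : x ∈ E) : av F E * gu F X x = av F E := by
  have _ := Fintype.ofFinite E
  rw [zAv_def, smul_mul_assoc, Finset.sum_mul, ← Equiv.sum_comp (Equiv.mulRight (⟨x, hx⟩ : E))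
    fun y : E => gu F X y]
  simp only [gu_mul]
  rfl

theorem av_idem : av F E * av F E = av F E := zAv_mul fun _ hx => gu_av hx

theorem av_bot : av F (⊥ : Subgroup X) = 1 := by
  rw [← mul_one (av F ⊥)]
  exact zAv_mul fun x hx => by rw [Subgroup.mem_bot.1 hx, gu_one, mul_one]

theorem av_mem : av F E ∈ span F (Hm F (gu F X) E) := by
  have _ := Fintype.ofFinite E
  rw [zAv_def]
  exact smul_mem _ _ (sum_mem fun x _ => subset_span (aga_mem.2 x.2))

theorem av_map {σ : RingAut F} {γ : RingAut (MonoidAlgebra F X)} (hγ : SL F σ γ) {δ : MulAut X}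
    (h : ∀ x, γ (gu F X x) = gu F X (δ x)) : γ (av F E) = av F (E.map δ.toMonoidHom) := by
  have _ := Fintype.ofFinite E
  rw [zAv_map, zAv_def, hγ, map_sum, map_inv₀, map_natCast]
  simp only [h]

theorem av_conj (g : X) :
    gu F X g * av F E = av F (E.map (MulAut.conj g).toMonoidHom) * gu F X g := by
  have _ := Fintype.ofFinite E
  rw [zAv_map, zAv_def, mul_smul_comm, smul_mul_assoc, Finset.mul_sum, Finset.sum_mul]
  simp only [gu_mul, MulAut.conj_apply, inv_mul_cancel_right]

theorem av_comm {t : X} :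
    gu F X t * av F E = av F E * gu F X t ↔ t ∈ Subgroup.normalizer (E : Set X) := by
  rw [av_conj, Subgroup.mem_normalizer_iff_map_conj_eq]
  refine ⟨fun h => zAv_inj (F := F) ?_, fun h => congrArg (fun S => av F S * gu F X t) h⟩
  have := congrArg (· * gu F X t⁻¹) h
  simp only [mul_assoc, gu_mul, mul_inv_cancel, gu_one, mul_one] at this
  exact this

theorem av_sup (h : ∀ x ∈ E, ∀ y ∈ E', x * y = y * x) :
    av F E * av F E' = av F (E ⊔ E') := by
  have _ := Fintype.ofFinite E
  have c : ∀ y ∈ E', gu F X y * av F E = av F E * gu F X y := fun y hy => by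
    rw [zAv_def, mul_smul_comm, smul_mul_assoc, Finset.mul_sum, Finset.sum_mul]
    exact congrArg _ (Finset.sum_congr rfl fun x _ => by rw [gu_mul, gu_mul, h x x.2 y hy])
  have k : ∀ x ∈ E ⊔ E', gu F X x * (av F E * av F E') = av F E * av F E' := fun x hx => by
    rw [Subgroup.sup_eq_closure] at hx
    induction hx using Subgroup.closure_induction with
    | mem x hx =>
      rcases hx with hx | hx
      · rw [← mul_assoc, gu_av hx]
      · rw [← mul_assoc, c x hx, mul_assoc, gu_av hx]
    | one => rw [gu_one, one_mul]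
    | mul x y _ _ p q => rw [← gu_mul, mul_assoc, q, p]
    | inv x _ p =>
      conv_lhs => rw [← p]
      rw [← mul_assoc, gu_mul, inv_mul_cancel, gu_one, one_mul]
  rw [← zAv_mul k, ← mul_assoc, zAv_mul' fun x hx => av_gu (Subgroup.mem_sup_left hx),
    zAv_mul' fun x hx => av_gu (Subgroup.mem_sup_right hx)]

theorem av_hom {K : Type} [Group K] [Finite K] (φ : K →* X) :
    ∑ᶠ d : K, gu F X (φ d) = (Nat.card K : F) • av F φ.range := by
  have _ := Fintype.ofFinite K
  rw [finsum_eq_sum_of_fintype, ← zAv_mul (E := φ.range) (a := ∑ d : K, gu F X (φ d)) (by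
    rintro _ ⟨k, rfl⟩
    rw [Finset.mul_sum, ← Equiv.sum_comp (Equiv.mulLeft k) fun d : K => gu F X (φ d)]
    simp only [gu_mul, Equiv.coe_mulLeft, map_mul]), Finset.mul_sum,
    Finset.sum_congr rfl fun d _ => av_gu (F := F) (E := φ.range) ⟨d, rfl⟩, Finset.sum_const,
    Finset.card_univ, ← Nat.card_eq_fintype_card, Nat.cast_smul_eq_nsmul]

theorem an_dc {u v : X} (hu : u ∈ U) (hv : v ∈ U) (x : X) : an F U (u * x * v) = an F U x := by
  rw [an, an, ← gu_mul, ← gu_mul, ← mul_assoc, ← mul_assoc, av_gu hu, mul_assoc _ (gu F X v),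
    gu_av hv]

theorem an_left {t : X} (ht : t ∈ Subgroup.normalizer (U : Set X)) (x : X) :
    an F U (t * x) = gu F X t * an F U x := by
  rw [an, an, ← gu_mul, ← mul_assoc, ← av_comm.2 ht]
  simp only [mul_assoc]

theorem an_right {t : X} (ht : t ∈ Subgroup.normalizer (U : Set X)) (x : X) :
    an F U (x * t) = an F U x * gu F X t := by
  rw [an, an, ← gu_mul, mul_assoc _ _ (gu F X t), ← av_comm.2 ht]
  simp only [mul_assoc]

theorem an_nrm {t : X} (ht : t ∈ Subgroup.normalizer (U : Set X)) :
    an F U t = gu F X t * av F U := by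
  rw [an, ← av_comm.2 ht, mul_assoc, av_idem]

theorem av_an (x : X) : av F U * an F U x = an F U x ∧ an F U x * av F U = an F U x := by
  rw [an]
  exact ⟨by rw [← mul_assoc, ← mul_assoc, av_idem], by rw [mul_assoc _ (av F U), av_idem]⟩

theorem an_mul (x y : X) :
    an F U x * an F U y = (Nat.card U : F)⁻¹ • ∑ᶠ u : U, an F U (x * u * y) := by
  have _ := Fintype.ofFinite U
  have : an F U x * an F U y = av F U * gu F X x * av F U * (gu F X y * av F U) := by
    rw [an, an, mul_assoc (av F U) (gu F X y), mul_assoc _ (av F U), ← mul_assoc (av F U) (av F U),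
      av_idem, mul_assoc _ (av F U)]
  rw [this, finsum_eq_sum_of_fintype]
  simp only [an, ← gu_mul]
  generalize gu F X y = b
  generalize gu F X x = a
  conv_lhs => rw [mul_assoc, ← mul_assoc (av F U) b]; enter [2, 1, 1]; rw [zAv_def]
  simp only [smul_mul_assoc, mul_smul_comm, Finset.sum_mul, Finset.mul_sum, mul_assoc]

omit [CharZero F] [Finite X] in
theorem zAv_an [Fintype U] (x : X) : an F U x =
    ((Nat.card U : F)⁻¹ * (Nat.card U : F)⁻¹) • ∑ v : U, ∑ u : U, gu F X (u * x * v) := by
  rw [an, zAv_def]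
  simp only [smul_mul_assoc, mul_smul_comm, Finset.sum_mul, Finset.mul_sum, gu_mul]
  rw [← Finset.smul_sum, smul_smul]

/-- hint: the coefficient of `n` in `an n'` vanishes for `n ≠ n'` (`Pg.dc`) and is a positive
rational number for `n = n'`. -/
theorem an_ind (h : Pg p c U D) :
    LinearIndependent F fun n : Subgroup.normalizer (D : Set X) => an F U n := by
  classical
  have _ := Fintype.ofFinite U
  have _ := Fintype.ofFinite (Subgroup.normalizer (D : Set X))
  refine Fintype.linearIndependent_iff.2 fun g hg n => ?_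
  have e := congrArg (zAvCo F (n : X)) hg
  rw [map_sum, map_zero, Finset.sum_eq_single n (fun m _ hm => by
    rw [map_smul, zAv_an, map_smul, map_sum, Finset.sum_eq_zero fun v _ => by
      rw [map_sum]
      exact Finset.sum_eq_zero fun u _ => by
        rw [zAv_co, if_neg fun e => hm (Subtype.ext (h.dc m.2 n.2 u.2 v.2 e))], smul_zero,
      smul_zero]) (by simp), map_smul, zAv_an, map_smul] at e
  refine (smul_eq_zero.1 e).resolve_right (smul_ne_zero
    (mul_ne_zero (inv_ne_zero zAv_card) (inv_ne_zero zAv_card)) ?_)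
  have : zAvCo F (n : X) (∑ v : U, ∑ u : U, gu F X (u * n * v)) =
      ((∑ v : U, ∑ u : U, if (u : X) * n * v = n then 1 else 0 : ℕ) : F) := by
    simp only [map_sum, zAv_co, Nat.cast_sum, Nat.cast_ite, Nat.cast_one, Nat.cast_zero]
  rw [this, Nat.cast_ne_zero]
  intro z
  have := Finset.sum_eq_zero_iff.1 (Finset.sum_eq_zero_iff.1 z 1 (Finset.mem_univ _)) 1
    (Finset.mem_univ _)
  simp at this

theorem an_span (h : Pg p c U D) (z : MonoidAlgebra F X) : av F U * z * av F U ∈
    span F (Set.range fun n : Subgroup.normalizer (D : Set X) => an F U n) := by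
  induction z using MonoidAlgebra.induction_linear with
  | zero => simp
  | add a b p q => rw [mul_add, add_mul]; exact add_mem p q
  | single x d =>
    obtain ⟨u, hu, n, hn, v, hv, rfl⟩ := h.bru x
    rw [← aga_smul, mul_smul_comm, smul_mul_assoc]
    exact smul_mem _ _ (subset_span ⟨⟨n, hn⟩, (an_dc hu hv n).symm⟩)

end Pool.Agent.Lib.MP_1ae3da_al.CT.Z
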