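import Mathlib

/-! Split `BN`-pairs: the `p`-part of the torus is stable under the automorphisms fixing a Sylow
`p`-subgroup, and its normaliser is `N`. -/

namespace Pool.Agent.Lib.MP_1ae3da_al.SLI

open scoped Pointwise

variable {p r : ℕ} {X : Type} [Group X]

lemma bn_fix [hp : Fact p.Prime] [hr : Fact r.Prime] [Finite X] (hpr : p ≠ r) (U W W' : Sylow r X)
    {E : Subgroup X} (hE : IsPGroup p E) (hU : ∀ e ∈ E, e • U = U) (hW : ∀ e ∈ E, e • W = W)
    (hW' : ∀ e ∈ E, e • W' = W') (hc : ∀ u ∈ U, (∀ e ∈ E, e * u = u * e) → u = 1) {u : X}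
    (hu : u ∈ U) (h : u • W = W') : W = W' := by
  let Y := {y : X // y ∈ U ∧ y • W = W'}
  let act : MulAction E Y :=
    { smul := fun e y => ⟨e.1 * y.1 * e.1⁻¹,
        (Subgroup.mem_normalizer_iff.mp
          (Sylow.smul_eq_iff_mem_normalizer.mp (hU e.1 e.2)) _).mp y.2.1, by
        rw [mul_smul, mul_smul, hW _ (inv_mem e.2), y.2.2, hW' _ e.2]⟩
      one_smul := fun y => Subtype.ext (by
        show (1 : X) * y.1 * 1⁻¹ = y.1
        group)
      mul_smul := fun a b y => Subtype.ext (by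
        show (a.1 * b.1) * y.1 * (a.1 * b.1)⁻¹ = a.1 * (b.1 * y.1 * b.1⁻¹) * a.1⁻¹
        group) }
  let V : Subgroup X := (U : Subgroup X) ⊓ MulAction.stabilizer X W
  have hY : Nat.card V = Nat.card Y := Nat.card_congr
    { toFun := fun v => ⟨u * v.1, mul_mem hu v.2.1, by
        rw [mul_smul, MulAction.mem_stabilizer_iff.mp v.2.2, h]⟩
      invFun := fun y => ⟨u⁻¹ * y.1, Subgroup.mem_inf.mpr ⟨mul_mem (inv_mem hu) y.2.1, by
        rw [MulAction.mem_stabilizer_iff, mul_smul, y.2.2, ← h, inv_smul_smul]⟩⟩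
      left_inv := fun v => Subtype.ext (inv_mul_cancel_left _ _)
      right_inv := fun y => Subtype.ext (mul_inv_cancel_left _ _) }
  obtain ⟨k, hk⟩ := (U.isPGroup'.to_le (inf_le_left : V ≤ U)).exists_card_eq
  have hn : ¬ p ∣ Nat.card Y := fun hd => by
    rw [← hY, hk] at hd
    exact hpr ((Nat.prime_dvd_prime_iff_eq hp.out hr.out).mp (hp.out.dvd_of_dvd_pow hd))
  obtain ⟨y, hy⟩ := hE.nonempty_fixed_point_of_prime_not_dvd_card Y hn
  have h1 : y.1 = 1 := hc y.1 y.2.1 fun e he => by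
    have : e * y.1 * e⁻¹ = y.1 := congrArg Subtype.val (hy ⟨e, he⟩)
    exact mul_inv_eq_iff_eq_mul.mp this
  rw [← y.2.2, h1, one_smul]

/-- the torus. -/
abbrev Tor (U : Sylow r X) (N : Subgroup X) : Subgroup X := N ⊓ Subgroup.normalizer (U : Set X)

/-- a split `BN`-pair whose torus acts on `U` with large `p`-parts of orbits. -/
structure BN (p : ℕ) (U : Sylow r X) (N : Subgroup X) : Prop where
  ne : p ≠ r
  ab : ∀ x ∈ Tor U N, ∀ y ∈ Tor U N, x * y = y * x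
  nrm : N ≤ Subgroup.normalizer (Tor U N : Set X)
  bru : ∀ x, ∃ u ∈ U, ∃ n ∈ N, ∃ v ∈ U, x = u * n * v
  val : ∀ u ∈ U, u ≠ 1 → 2 * padicValNat p ((Tor U N).relIndex N) <
    padicValNat p ((Subgroup.centralizer {u}).relIndex (Tor U N))

namespace BN
variable {U : Sylow r X} {N : Subgroup X}

/-- the `p`-part of the torus. -/
def D (h : BN p U N) : Subgroup X where
  carrier := {t | t ∈ Tor U N ∧ ∃ k, t ^ p ^ k = 1}
  one_mem' := ⟨one_mem _, 0, one_pow _⟩
  inv_mem' := fun ⟨ht, k, hk⟩ => ⟨inv_mem ht, k, by rw [inv_pow, hk, inv_one]⟩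
  mul_mem' := fun {a b} ⟨ha, k, hk⟩ ⟨hb, l, hl⟩ => ⟨mul_mem ha hb, k + l, by
    have hc : Commute a b := h.ab a ha b hb
    rw [hc.mul_pow, pow_add, pow_mul, hk, one_pow, mul_comm (p ^ k), pow_mul, hl, one_pow,
      mul_one]⟩

variable (h : BN p U N)

lemma D_le : h.D ≤ Tor U N := fun _ hx => hx.1

lemma D_p : IsPGroup p h.D := fun x => by
  obtain ⟨k, hk⟩ := x.2.2
  exact ⟨k, Subtype.ext hk⟩

lemma T_smul {t : X} (ht : t ∈ Tor U N) : t • U = U :=
  Sylow.smul_eq_iff_mem_normalizer.mpr ht.2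

include h in
lemma T_conj {n t : X} (hn : n ∈ N) : n * t * n⁻¹ ∈ Tor U N ↔ t ∈ Tor U N :=
  (Subgroup.mem_normalizer_iff.mp (h.nrm hn) t).symm

include h in
lemma T_smul' {n t : X} (hn : n ∈ N) (ht : t ∈ Tor U N) : t • n • U = n • U := by
  have := T_smul ((h.T_conj (inv_mem hn)).mpr ht)
  rw [inv_inv, mul_smul, mul_smul, inv_smul_eq_iff] at this
  exact this

include h in
lemma mem_T {n t : X} (hn : n ∈ N) (ht : t ∈ N) (e : t • n • U = n • U) : t ∈ Tor U N := by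
  refine (h.T_conj (inv_mem hn)).mp (Subgroup.mem_inf.mpr
    ⟨mul_mem (mul_mem (inv_mem hn) ht) (inv_mem (inv_mem hn)), ?_⟩)
  refine Sylow.smul_eq_iff_mem_normalizer.mp ?_
  rw [inv_inv, mul_smul, mul_smul, e, inv_smul_smul]

lemma N_le : N ≤ Subgroup.normalizer (h.D : Set X) := by
  have key : ∀ n ∈ N, ∀ t ∈ h.D, n * t * n⁻¹ ∈ h.D := fun n hn t ⟨ht, k, hk⟩ =>
    ⟨(h.T_conj hn).mpr ht, k, by rw [conj_pow, hk, mul_one, mul_inv_cancel]⟩
  intro n hn
  rw [Subgroup.mem_normalizer_iff]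
  refine fun t => ⟨key n hn t, fun ht => ?_⟩
  have := key _ (inv_mem hn) _ ht
  rwa [show n⁻¹ * (n * t * n⁻¹) * n⁻¹⁻¹ = t by group] at this

variable [hp : Fact p.Prime] [Finite X]

lemma not_dvd : ¬ p ∣ h.D.relIndex (Tor U N) := by
  let Q : Sylow p (Tor U N) := default
  have : (Q : Subgroup (Tor U N)) ≤ h.D.subgroupOf (Tor U N) := fun x hx => by
    obtain ⟨k, hk⟩ := Q.isPGroup' ⟨x, hx⟩
    exact ⟨x.2, k, congrArg (fun y => y.1.1) hk⟩
  exact fun hd => Q.not_dvd_index (hd.trans (Subgroup.index_dvd_of_le this))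

lemma dvd_idx {u : X} (hu : u ∈ U) (h1 : u ≠ 1) :
    p ^ (2 * padicValNat p ((Tor U N).relIndex N) + 1) ∣
      (Subgroup.centralizer {u}).relIndex h.D := by
  have h2 := (padicValNat_dvd_iff_le (p := p) Subgroup.index_ne_zero_of_finite).mpr (h.val u hu h1)
  have h3 := Subgroup.relIndex_mul_relIndex (Subgroup.centralizer {u} ⊓ h.D) h.D (Tor U N)
    inf_le_right h.D_le
  rw [Subgroup.inf_relIndex_right] at h3
  have h4 := h2.trans (Subgroup.relIndex_dvd_of_le_left (Tor U N)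
    (inf_le_left : Subgroup.centralizer {u} ⊓ h.D ≤ _))
  rw [← h3] at h4
  exact (Nat.Coprime.pow_left _
    ((Nat.Prime.coprime_iff_not_dvd hp.out).mpr h.not_dvd)).dvd_of_dvd_mul_right h4

lemma idx_le {S : Subgroup X} (hS : IsPGroup p S) (h1 : h.D ≤ S) (h2 : S ≤ N) :
    h.D.relIndex S ≤ p ^ padicValNat p ((Tor U N).relIndex N) := by
  obtain ⟨k, hk⟩ := hS.index (h.D.subgroupOf S)
  have h3 := Subgroup.relIndex_mul_relIndex h.D S N h1 h2
  rw [← Subgroup.relIndex_mul_relIndex h.D (Tor U N) N h.D_le inf_le_left] at h3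
  have hk' : h.D.relIndex S = p ^ k := hk
  rw [hk'] at h3 ⊢
  have h4 : p ^ k ∣ (Tor U N).relIndex N := (Nat.Coprime.pow_left _
    ((Nat.Prime.coprime_iff_not_dvd hp.out).mpr h.not_dvd)).dvd_of_dvd_mul_left ⟨_, h3.symm⟩
  exact Nat.pow_le_pow_right hp.out.pos
    ((padicValNat_dvd_iff_le Subgroup.index_ne_zero_of_finite).mp h4)

lemma idx_lt {S : Subgroup X} (hS : IsPGroup p S) (h1 : h.D ≤ S) (h2 : S ≤ N) {u : X} (hu : u ∈ U)
    (h3 : u ≠ 1) : h.D.relIndex S ^ 2 < (Subgroup.centralizer {u}).relIndex h.D := by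
  refine (Nat.pow_le_pow_left (h.idx_le hS h1 h2) 2).trans_lt ?_
  rw [← pow_mul]
  exact (Nat.pow_lt_pow_right hp.out.one_lt (by omega)).trans_le
    (Nat.le_of_dvd (Nat.pos_of_ne_zero Subgroup.index_ne_zero_of_finite) (h.dvd_idx hu h3))

lemma fix_of {S E : Subgroup X} (hS : IsPGroup p S) (h1 : h.D ≤ S) (h2 : S ≤ N)
    (hE : E.relIndex h.D ≤ h.D.relIndex S) {u : X} (hu : u ∈ U) (hc : ∀ e ∈ E, e * u = u * e) :
    u = 1 := by
  by_contra h3
  have h4 := h.idx_lt hS h1 h2 hu h3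
  have h5 : (Subgroup.centralizer {u}).relIndex h.D ≤ E.relIndex h.D :=
    Subgroup.relIndex_le_of_le_left
      (fun e he => Subgroup.mem_centralizer_singleton_iff.mpr (hc e he))
      Subgroup.index_ne_zero_of_finite
  nlinarith

lemma fixD {u : X} (hu : u ∈ U) (hc : ∀ e ∈ h.D, e * u = u * e) : u = 1 :=
  h.fix_of h.D_p le_rfl (h.D_le.trans inf_le_left) le_rfl hu hc

variable [hr : Fact r.Prime]

lemma ex_n {E : Subgroup X} (hE : E ≤ h.D) (hc : ∀ u ∈ U, (∀ e ∈ E, e * u = u * e) → u = 1)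
    {W : Sylow r X} (hW : ∀ e ∈ E, e • W = W) : ∃ n ∈ N, n • U = W := by
  obtain ⟨g, rfl⟩ := MulAction.exists_smul_eq X U W
  obtain ⟨u, hu, n, hn, v, hv, rfl⟩ := h.bru g
  refine ⟨n, hn, bn_fix h.ne U _ _ (h.D_p.to_le hE) (fun e he => T_smul (h.D_le (hE he)))
    (fun e he => h.T_smul' hn (h.D_le (hE he))) hW hc hu ?_⟩
  rw [mul_smul, mul_smul, Sylow.smul_eq_iff_mem_normalizer.mpr (Subgroup.le_normalizer hv)]

lemma stab_le {S : Subgroup X} (hS : IsPGroup p S) (h1 : h.D ≤ S) (h2 : S ≤ N) (γ : MulAut X)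
    (hγ : ∀ x, γ x ∈ S ↔ x ∈ S) {d : X} (hd : d ∈ h.D) : γ d ∈ h.D := by
  have hSS : S.map γ.toMonoidHom = S := by
    ext x
    constructor
    · rintro ⟨y, hy, rfl⟩
      exact (hγ y).mpr hy
    · intro hx
      exact ⟨γ.symm x, (hγ _).mp (by simpa using hx), by simp⟩
  have hW : ∀ t ∈ h.D, γ t • γ • U = γ • U := fun t ht => by
    have e : MulAut.conj (γ t) * γ = γ * MulAut.conj t := by ext; simp
    rw [Sylow.smul_def, smul_smul, e, mul_smul, ← Sylow.smul_def, T_smul (h.D_le ht)]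
  have hi : (h.D ⊓ h.D.map γ.toMonoidHom).relIndex h.D ≤ h.D.relIndex S := by
    rw [inf_comm, Subgroup.inf_relIndex_right,
      ← Subgroup.relIndex_map_map_of_injective (f := γ.toMonoidHom) h.D S γ.injective, hSS]
    exact Subgroup.relIndex_le_of_le_right h1 Subgroup.index_ne_zero_of_finite
  obtain ⟨n, hn, e⟩ := h.ex_n (E := h.D ⊓ h.D.map γ.toMonoidHom) (W := γ • U) inf_le_left
    (fun u hu hc => h.fix_of hS h1 h2 hi hu hc) (by
      rintro _ ⟨-, t, ht, rfl⟩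
      exact hW t ht)
  obtain ⟨k, hk⟩ := hd.2
  exact ⟨h.mem_T hn (h2 ((hγ d).mpr (h1 hd))) (by rw [e, hW d hd]), k,
    by rw [← map_pow, hk, map_one]⟩

lemma stab {S : Subgroup X} (hS : IsPGroup p S) (h1 : h.D ≤ S) (h2 : S ≤ N) (γ : MulAut X)
    (hγ : ∀ x, γ x ∈ S ↔ x ∈ S) (d : X) : γ d ∈ h.D ↔ d ∈ h.D :=
  ⟨fun hd => by
    simpa using h.stab_le hS h1 h2 γ⁻¹ (fun x => by rw [← hγ, MulAut.apply_inv_self]) hd,
    h.stab_le hS h1 h2 γ hγ⟩

lemma eq_one {w : X} (hw : w ∈ U) (hn : w ∈ Subgroup.normalizer (h.D : Set X)) : w = 1 := by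
  refine h.fixD hw fun d hd => ?_
  have h1 : w * d * w⁻¹ * d⁻¹ ∈ h.D :=
    mul_mem ((Subgroup.mem_normalizer_iff.mp hn d).mp hd) (inv_mem hd)
  have h2 : w * d * w⁻¹ * d⁻¹ ∈ (U : Subgroup X) := by
    rw [mul_assoc w, mul_assoc w]
    exact mul_mem hw ((Subgroup.mem_normalizer_iff.mp (h.D_le hd).2 _).mp (inv_mem hw))
  have h3 := Subgroup.disjoint_def.mp
    (IsPGroup.disjoint_of_ne p r h.ne _ _ h.D_p U.isPGroup') h1 h2
  rw [mul_inv_eq_one, mul_inv_eq_iff_eq_mul] at h3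
  exact h3.symm

lemma norm_eq : Subgroup.normalizer (h.D : Set X) = N := by
  refine le_antisymm (fun x hx => ?_) h.N_le
  obtain ⟨n, hn, e⟩ := h.ex_n (W := x • U) le_rfl (fun u => h.fixD) fun d hd => by
    have := T_smul (h.D_le ((Subgroup.mem_normalizer_iff''.mp hx d).mp hd))
    rwa [mul_smul, mul_smul, inv_smul_eq_iff] at this
  obtain ⟨u, hu, n', hn', v, hv, e'⟩ := h.bru (n⁻¹ * x)
  have h1 : n' • U = U := by
    have h2 : (u * n' * v) • U = U := by rw [← e', mul_smul, ← e, inv_smul_smul]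
    rw [mul_smul, mul_smul, Sylow.smul_eq_iff_mem_normalizer.mpr (Subgroup.le_normalizer hv),
      ← eq_inv_smul_iff] at h2
    rw [h2, Sylow.smul_eq_iff_mem_normalizer.mpr (Subgroup.le_normalizer (inv_mem hu))]
  have h3 : n'⁻¹ * u * n' * v ∈ U := mul_mem ((Subgroup.mem_normalizer_iff''.mp
    (Sylow.smul_eq_iff_mem_normalizer.mp h1) u).mp hu) hv
  have h4 : n'⁻¹ * u * n' * v = n'⁻¹ * (n⁻¹ * x) := by rw [e']; group
  have h5 := h.eq_one h3 (h4 ▸ mul_mem (inv_mem (h.N_le hn')) (mul_mem (inv_mem (h.N_le hn)) hx))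
  rw [h4, inv_mul_eq_one, eq_inv_mul_iff_mul_eq] at h5
  exact h5 ▸ mul_mem hn hn'

include h in
lemma ne_top (hU : (U : Subgroup X) ≠ ⊥) : N ≠ ⊤ := fun e => hU <| by
  rw [eq_bot_iff]
  exact fun u hu => h.eq_one hu (h.N_le (e ▸ Subgroup.mem_top u))

omit hp hr [Finite X] in
lemma sub_le (Q : Sylow p N) : h.D.subgroupOf N ≤ Q := by
  have : (h.D.subgroupOf N).Normal := Subgroup.normal_subgroupOf_of_le_normalizer h.N_le
  exact IsPGroup.le_sylow_of_normal (N := h.D.subgroupOf N) h.D_p.comap_subtype Q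

omit hp hr [Finite X] in
lemma le_syl {R : Sylow p X} (hR : (R : Subgroup X) ≤ N) : h.D ≤ R := fun x hx =>
  h.sub_le (R.subtype hR) (x := ⟨x, (h.D_le hx).1⟩) hx

include h in
lemma ex_syl : ∃ R : Sylow p X, (R : Subgroup X) ≤ N := by
  let Q : Sylow p N := default
  let S : Subgroup X := (Q : Subgroup N).map N.subtype
  have hS : IsPGroup p S := Q.isPGroup'.map _
  have h2 : S ≤ N := Subgroup.map_subtype_le _
  have h1 : h.D ≤ S := fun x hx => ⟨⟨x, (h.D_le hx).1⟩, h.sub_le Q hx, rfl⟩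
  have h3 : Subgroup.normalizer (S : Set X) ≤ N := fun x hx => by
    rw [← h.norm_eq, Subgroup.mem_normalizer_iff]
    exact fun d => (h.stab hS h1 h2 (MulAut.conj x)
      (fun y => (Subgroup.mem_normalizer_iff.mp hx y).symm) d).symm
  have hc : Nat.card S = p ^ (Nat.card N).factorization p := by
    rw [Subgroup.card_map_of_injective N.subtype_injective, Q.card_eq_multiplicity]
  refine ⟨hS.toSylow fun hd => ?_, h2⟩
  have h4 : p ^ ((Nat.card N).factorization p + 1) ∣ Nat.card X := by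
    rw [← S.card_mul_index, hc, pow_succ]
    exact Nat.mul_dvd_mul_left _ hd
  exact Nat.pow_succ_factorization_not_dvd Nat.card_pos.ne' hp.out
    ((Sylow.prime_pow_dvd_card_normalizer h4 hc).trans (Subgroup.card_dvd_of_le h3))

end BN

end Pool.Agent.Lib.MP_1ae3da_al.SLI
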