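import Pool.Agent.Lib.MP_1ae3da_al.Z.SL2

/-! Central quotients of `SL_m(F)`: the diagonal subgroup and its normaliser. -/

namespace Pool.Agent.Lib.MP_1ae3da_al.SLI

open Matrix

variable {F : Type} [Field F] {m : ℕ} {X : Type} [Group X] {π : SLm m F →* X}

lemma ker_sc (hk : π.ker ≤ Subgroup.center _) {a b : SLm m F} (h : π a = π b) :
    ∃ l : F, l ^ m = 1 ∧ l ≠ 0 ∧ ∀ i j, a.1 i j = l * b.1 i j := by
  have h1 : a * b⁻¹ ∈ π.ker := by rw [MonoidHom.mem_ker, map_mul, map_inv, h, mul_inv_cancel]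
  obtain ⟨l, hl, h2⟩ := Matrix.SpecialLinearGroup.mem_center_iff.mp (hk h1)
  rw [Fintype.card_fin] at hl
  have h3 : a.1 = (a * b⁻¹).1 * b.1 :=
    congrArg Subtype.val (show a = a * b⁻¹ * b by rw [inv_mul_cancel_right])
  rcases Nat.eq_zero_or_pos m with rfl | hm
  · exact ⟨1, by simp, one_ne_zero, fun i => i.elim0⟩
  refine ⟨l, hl, fun h0 => ?_, fun i j => ?_⟩
  · rw [h0, zero_pow hm.ne'] at hl
    exact zero_ne_one hl
  · have h4 : (a * b⁻¹).1 = diagonal fun _ => l := h2.symm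
    rw [h3, h4, diagonal_mul]

lemma el_comm' (hk : π.ker ≤ Subgroup.center _) {i j : Fin m} (hij : i ≠ j) (z : Fˣ) {g : SLm m F}
    (hg : g.1 i j ≠ 0) (h : π g * π (el hij z) = π (el hij z) * π g) :
    (z ^ 2) ^ m = 1 ∧ (g.1 i i ≠ 0 → z ^ 2 = 1) := by
  rw [← map_mul, ← map_mul] at h
  obtain ⟨l, hl, -, h1⟩ := ker_sc hk h
  have h2 : (g.1 * (el hij z).1) i j = l * ((el hij z).1 * g.1) i j := h1 i j
  have h3 : (g.1 * (el hij z).1) i i = l * ((el hij z).1 * g.1) i i := h1 i i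
  rw [el_val, mul_diagonal, diagonal_mul, if_neg hij.symm, if_pos rfl, if_pos rfl, mul_comm,
    ← mul_assoc] at h2
  rw [el_val, mul_diagonal, diagonal_mul, if_pos rfl, mul_comm, ← mul_assoc] at h3
  have h4 : l * (z : F) ^ 2 = 1 := by
    rw [pow_two, ← mul_assoc, ← mul_right_cancel₀ hg h2, Units.inv_mul]
  refine ⟨Units.ext ?_, fun h0 => Units.ext ?_⟩
  · have := congrArg (· ^ m) h4
    simp only [mul_pow, hl, one_mul, one_pow] at this
    simpa using this
  · have h5 : (1 : F) * z = l * z := by rw [one_mul]; exact mul_right_cancel₀ h0 h3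
    rw [← mul_right_cancel₀ z.ne_zero h5, one_mul] at h4
    simpa using h4

lemma mem_DQ_iff [Finite F] (hk : π.ker ≤ Subgroup.center _) (A : Subgroup Fˣ)
    (P : Subgroup (alternatingGroup (Fin m))) {z : Fˣ} (hz : z ∈ A)
    (hz2 : ((z ^ Nat.card P) ^ 2) ^ m ≠ 1) {x : X} :
    x ∈ (DS m A).map π ↔ x ∈ (DS m A ⊔ P.map (pm m F)).map π ∧
      ∀ y ∈ (DS m A ⊔ P.map (pm m F)).map π, x * y ^ Nat.card P = y ^ Nat.card P * x := by
  constructor
  · rintro ⟨x, hx, rfl⟩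
    refine ⟨⟨x, Subgroup.mem_sup_left hx, rfl⟩, ?_⟩
    rintro _ ⟨y, hy, rfl⟩
    rw [← map_pow, ← map_mul, ← map_mul, DS_comm hx (pow_mem_DS A P hy)]
  · rintro ⟨⟨x, hx, rfl⟩, h⟩
    obtain ⟨d, hd, s, -, rfl⟩ := mem_sup hx
    have : s = 1 := by
      refine pm_diag (F := F) fun i j hij => ?_
      by_contra h0
      refine hz2 (el_comm' hk hij _ h0 ?_).1
      have h1 := h _ ⟨_, Subgroup.mem_sup_left (el_mem hij hz), rfl⟩
      rw [← map_pow, el_pow, ← map_mul, ← map_mul, mul_assoc, ← mul_assoc _ d,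
        ← DS_comm hd (el_mem hij (pow_mem hz _)), mul_assoc, map_mul, map_mul π d, map_mul,
        map_mul] at h1
      exact mul_left_cancel h1
    exact ⟨d, hd, by rw [this, map_one, mul_one]⟩

lemma conj_diag (hk : π.ker ≤ Subgroup.center _) {A : Subgroup Fˣ} {g y : SLm m F}
    (hg : π g ∈ Subgroup.normalizer ((DS m A).map π : Set X)) (hy : y ∈ DS m A) :
    ∃ d : Fin m → F, g.1 * y.1 = diagonal d * g.1 := by
  obtain ⟨w, hw, h⟩ := (Subgroup.mem_normalizer_iff.mp hg (π y)).mp ⟨y, hy, rfl⟩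
  obtain ⟨d, -, hd⟩ := mem_DS.mp hw
  have h1 : π (g * y) = π (w * g) := by rw [map_mul, map_mul, h, inv_mul_cancel_right]
  obtain ⟨l, -, -, h2⟩ := ker_sc hk h1
  refine ⟨fun i => l * d i, ?_⟩
  ext i j
  have h3 : (g.1 * y.1) i j = l * (w.1 * g.1) i j := h2 i j
  rw [h3, hd, diagonal_mul, diagonal_mul, mul_assoc]

lemma mon_of_norm (hk : π.ker ≤ Subgroup.center _) {A : Subgroup Fˣ} {z : Fˣ} (hz : z ∈ A)
    (hz2 : z ^ 2 ≠ 1) {g : SLm m F}
    (hg : π g ∈ Subgroup.normalizer ((DS m A).map π : Set X)) : ∃ σ, IsMon g.1 σ := by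
  have h1 : ∀ i j, j ≠ lead g i → g.1 i j = 0 := by
    intro i j hj
    by_contra h0
    obtain ⟨d, hd⟩ := conj_diag hk hg (el_mem hj hz)
    have h2 := congrFun (congrFun hd i) j
    have h3 := congrFun (congrFun hd i) (lead g i)
    rw [el_val, mul_diagonal, diagonal_mul, if_pos rfl, mul_comm] at h2
    rw [el_val, mul_diagonal, diagonal_mul, if_neg hj.symm, if_pos rfl, mul_comm] at h3
    have h4 : z⁻¹ = z := Units.ext
      ((mul_right_cancel₀ (lead_ne g i) h3).trans (mul_right_cancel₀ h0 h2).symm)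
    apply hz2
    rw [pow_two]
    nth_rewrite 1 [← h4]
    exact inv_mul_cancel z
  have h2 : Function.Surjective (lead g) := fun j => by
    by_contra hn
    push Not at hn
    exact g.det_ne_zero (det_eq_zero_of_column_eq_zero j fun i => h1 i j (hn i).symm)
  exact ⟨Equiv.ofBijective _ (Finite.surjective_iff_bijective.mp h2), h1⟩

lemma mon_ne {g : SLm m F} {σ : Equiv.Perm (Fin m)} (h : IsMon g.1 σ) (i : Fin m) :
    g.1 i (σ i) ≠ 0 := by
  obtain ⟨j, hj⟩ := row_ex g i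
  by_cases e : j = σ i
  · rwa [← e]
  · exact absurd (h i j e) hj

lemma mon_uniq (hk : π.ker ≤ Subgroup.center _) {g g' : SLm m F} {σ σ' : Equiv.Perm (Fin m)}
    (h : IsMon g.1 σ) (h' : IsMon g'.1 σ') (e : π g = π g') : σ = σ' := by
  obtain ⟨l, -, -, h1⟩ := ker_sc hk e
  ext1 i
  by_contra hne
  exact mon_ne h i (by rw [h1, h' i _ hne, mul_zero])

lemma mon_mul {g g' : Matrix (Fin m) (Fin m) F} {σ σ' : Equiv.Perm (Fin m)}
    (h : IsMon g σ) (h' : IsMon g' σ') : IsMon (g * g') (σ' * σ) := by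
  intro i j hj
  rw [Matrix.mul_apply]
  refine Finset.sum_eq_zero fun k _ => ?_
  by_cases e : k = σ i
  · rw [h' k j (by rwa [e]), mul_zero]
  · rw [h i k e, zero_mul]

lemma ex_mon (hm : 0 < m) (σ : Equiv.Perm (Fin m)) : ∃ g : SLm m F, IsMon g.1 σ := by
  let d : Fin m → F := Pi.mulSingle ⟨0, hm⟩ ((Equiv.Perm.sign σ : ℤ) : F)
  refine ⟨⟨diagonal d * σ.permMatrix F, ?_⟩, fun i j hj => ?_⟩
  · rw [det_mul, det_diagonal, det_permutation]
    simp only [d, Finset.prod_pi_mulSingle', Finset.mem_univ, if_true]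
    rw [← Int.cast_mul, ← Units.val_mul, Int.units_mul_self]
    simp
  · show (diagonal d * σ.permMatrix F) i j = 0
    rw [diagonal_mul]
    simp [PEquiv.toMatrix_apply, Equiv.toPEquiv_apply, hj.symm]

lemma mon_one_comm {g g' : SLm m F} (h : IsMon g.1 1) (h' : IsMon g'.1 1) : g * g' = g' * g := by
  have e : ∀ {a : SLm m F}, IsMon a.1 1 → a.1 = diagonal fun i => a.1 i i := fun {a} ha => by
    ext i j
    by_cases hij : i = j
    · rw [hij, diagonal_apply_eq]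
    · rw [diagonal_apply_ne _ hij, ha i j (Ne.symm hij)]
  apply Subtype.ext
  show g.1 * g'.1 = g'.1 * g.1
  rw [e h, e h', diagonal_mul_diagonal, diagonal_mul_diagonal]
  simp only [mul_comm]

lemma norm_map [Finite F] (π : SLm m F →* X) (A : Subgroup Fˣ) {n : SLm m F}
    {σ : Equiv.Perm (Fin m)} (h : IsMon n.1 σ) :
    π n ∈ Subgroup.normalizer ((DS m A).map π : Set X) :=
  Subgroup.le_normalizer_map π ⟨n, mon_norm A h, rfl⟩

/-- the normaliser of the diagonal subgroup is abelian by the symmetric group. -/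
lemma weyl [Finite F] (hm : 0 < m) (hπ : Function.Surjective π) (hk : π.ker ≤ Subgroup.center _)
    {A : Subgroup Fˣ} {z : Fˣ} (hz : z ∈ A) (hz2 : z ^ 2 ≠ 1) :
    ∃ f : Subgroup.normalizer ((DS m A).map π : Set X) →* Equiv.Perm (Fin m),
      Function.Surjective f ∧ ∀ a ∈ f.ker, ∀ b ∈ f.ker, a * b = b * a := by
  have h0 : ∀ x : Subgroup.normalizer ((DS m A).map π : Set X),
      ∃ σ : Equiv.Perm (Fin m), ∃ g, π g = x ∧ IsMon g.1 σ := fun x => by
    obtain ⟨g, hg⟩ := hπ x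
    obtain ⟨σ, hσ⟩ := mon_of_norm hk hz hz2 (hg ▸ x.2)
    exact ⟨σ, g, hg, hσ⟩
  choose s g hg hs using h0
  have hmul : ∀ x y, s (x * y) = s y * s x := fun x y =>
    mon_uniq hk (g' := g x * g y) (hs _) (mon_mul (hs x) (hs y))
      (by rw [map_mul, hg, hg, hg]; rfl)
  refine ⟨MonoidHom.mk' (fun x => (s x)⁻¹) fun x y => by rw [hmul, _root_.mul_inv_rev], fun σ => ?_,
    fun a ha b hb => ?_⟩
  · obtain ⟨n, hn⟩ := ex_mon (F := F) hm σ⁻¹
    refine ⟨⟨π n, norm_map π A hn⟩, ?_⟩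
    show (s _)⁻¹ = σ
    rw [mon_uniq hk (hs _) hn (hg _), inv_inv]
  · have ha' : s a = 1 := inv_eq_one.mp ha
    have hb' : s b = 1 := inv_eq_one.mp hb
    apply Subtype.ext
    show a.1 * b.1 = b.1 * a.1
    rw [← hg a, ← hg b, ← map_mul, ← map_mul, mon_one_comm (ha' ▸ hs a) (hb' ▸ hs b)]

lemma normQ_ne_top (hm : 2 ≤ m) (hk : π.ker ≤ Subgroup.center _) {A : Subgroup Fˣ} {z : Fˣ}
    (hz : z ∈ A) (hz2 : z ^ 2 ≠ 1) : Subgroup.normalizer ((DS m A).map π : Set X) ≠ ⊤ := by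
  intro h
  let i : Fin m := ⟨0, by omega⟩
  let j : Fin m := ⟨1, by omega⟩
  have hij : i ≠ j := by simp [i, j]
  let u : SLm m F := Matrix.SpecialLinearGroup.transvection hij 1
  have hu : u.1 = 1 + Matrix.single i j 1 := rfl
  obtain ⟨σ, hσ⟩ := mon_of_norm hk hz hz2 (g := u) (h ▸ Subgroup.mem_top _)
  have e1 : u.1 i i = 1 := by rw [hu]; simp [hij.symm]
  have e2 : u.1 i j = 1 := by rw [hu]; simp [hij]
  by_cases e : i = σ i
  · exact one_ne_zero (e2 ▸ hσ i j (e ▸ hij.symm))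
  · exact one_ne_zero (e1 ▸ hσ i i e)

lemma orderOf_dvd_relIndexQ (hk : π.ker ≤ Subgroup.center _) (A : Subgroup Fˣ) {z : Fˣ}
    (hz : z ∈ A) {u : SLm m F} (hu : u ∈ US m F) (h1 : u ≠ 1) :
    orderOf z ∣ 2 * (Subgroup.centralizer {π u}).relIndex ((DS m A).map π) := by
  obtain ⟨i, j, hij, h0⟩ : ∃ i j, i ≠ j ∧ u.1 i j ≠ 0 := by
    by_contra hn
    push Not at hn
    apply h1
    ext i j
    by_cases hij : i = j
    · subst hij
      have := (mem_US'.mp hu).2 i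
      simpa using this
    · have := hn i j hij
      simpa [Matrix.one_apply_ne hij] using this
  have : ((Subgroup.centralizer {π u}).subgroupOf ((DS m A).map π)).Normal := ⟨fun a ha g => by
    have : g * a * g⁻¹ = a := by
      obtain ⟨_, g, hg, rfl⟩ := g
      obtain ⟨_, a, ha', rfl⟩ := a
      rw [mul_inv_eq_iff_eq_mul]
      apply Subtype.ext
      show π g * π a = π a * π g
      rw [← map_mul, ← map_mul, DS_comm hg ha']
    rwa [this]⟩
  have h := Subgroup.pow_index_mem ((Subgroup.centralizer {π u}).subgroupOf ((DS m A).map π))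
    ⟨π (el hij z), _, el_mem hij hz, rfl⟩
  have h' : π (el hij z) ^ (Subgroup.centralizer {π u}).relIndex ((DS m A).map π) ∈
    Subgroup.centralizer {π u} := h
  rw [← map_pow, el_pow, Subgroup.mem_centralizer_singleton_iff] at h'
  have := (el_comm' hk hij _ h0 h'.symm).2 (by rw [(mem_US'.mp hu).2 i]; exact one_ne_zero)
  rw [← pow_mul, mul_comm] at this
  exact orderOf_dvd_of_pow_eq_one this

lemma relIndexQ_le [Finite F] (π : SLm m F →* X) (A : Subgroup Fˣ)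
    (P : Subgroup (alternatingGroup (Fin m))) :
    ((DS m A).map π).relIndex ((DS m A ⊔ P.map (pm m F)).map π) ≤ Nat.card P := by
  rw [← Subgroup.relIndex_comap, ← relIndex_sup A P]
  refine Nat.le_of_dvd (Nat.pos_of_ne_zero Subgroup.index_ne_zero_of_finite)
    (Subgroup.relIndex_dvd_of_le_left _ (Subgroup.le_comap_map π _))

/-- every central quotient of `SL_m(q)`, `p` odd, `v_p(q - 1) > 2 v_p(m!)`, every Sylow `R`. -/
theorem sl_quot (F : Type) [Field F] [Fintype F] {m : ℕ} (hm : 2 ≤ m) (r p : ℕ) [Fact r.Prime]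
    [CharP F r] [hp : Fact p.Prime] (h2 : p ≠ 2)
    (hv : 2 * padicValNat p m.factorial < padicValNat p (Fintype.card F - 1))
    (X : Type) [Group X] (π : SLm m F →* X) (hπ : Function.Surjective π)
    (hk : π.ker ≤ Subgroup.center _) (R : Sylow p X) :
    ∃ (U : Sylow r X) (D : Subgroup X), p ≠ r ∧ D ≤ R ∧ (∀ x ∈ D, ∀ y ∈ D, x * y = y * x) ∧
      (∀ γ : MulAut X, (∀ x, γ x ∈ R ↔ x ∈ R) → ∀ x, γ x ∈ D ↔ x ∈ D) ∧
      D ≤ Subgroup.normalizer (U : Set X) ∧
      (∀ x, ∃ u ∈ U, ∃ n ∈ Subgroup.normalizer (D : Set X), ∃ v ∈ U, x = u * n * v) ∧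
      (∀ u ∈ U, u ≠ 1 → D.relIndex R ^ 2 < (Subgroup.centralizer {u}).relIndex D) ∧
      Subgroup.normalizer (D : Set X) ≠ ⊤ ∧
      ∃ f : Subgroup.normalizer (D : Set X) →* Equiv.Perm (Fin m),
        Function.Surjective f ∧ ∀ a ∈ f.ker, ∀ b ∈ f.ker, a * b = b * a := by
  classical
  have : Finite X := Finite.of_surjective π hπ
  set a := padicValNat p m.factorial with ha
  set c := padicValNat p (Fintype.card F - 1) with hc
  have hp1 := hp.out.one_lt
  have h1 : 1 < Fintype.card F := Fintype.one_lt_card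
  have hq : p ∣ Fintype.card F - 1 := dvd_of_one_le_padicValNat (by omega)
  have : Nontrivial (Fin m) := Fin.nontrivial_iff_two_le.mpr hm
  let A : Sylow p Fˣ := default
  let P : Sylow p (alternatingGroup (Fin m)) := default
  have hA : Nat.card A = p ^ c := by
    rw [A.card_eq_multiplicity, Nat.card_units, Nat.card_eq_fintype_card,
      Nat.factorization_def _ hp.out]
  have hco : Nat.Coprime p 2 := (Nat.coprime_primes hp.out Nat.prime_two).mpr h2
  have hP : Nat.card P = p ^ a := by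
    have h := two_mul_nat_card_alternatingGroup (α := Fin m)
    rw [Nat.card_perm, Nat.card_eq_fintype_card (α := Fin m), Fintype.card_fin] at h
    rw [P.card_eq_multiplicity, ha, ← h, padicValNat.mul two_ne_zero Nat.card_pos.ne',
      padicValNat.eq_zero_of_not_dvd ((Nat.Prime.coprime_iff_not_dvd hp.out).mp hco), zero_add,
      Nat.factorization_def _ hp.out]
  obtain ⟨z₀, hz₀⟩ := IsCyclic.exists_ofOrder_eq_natCard (α := (A : Subgroup Fˣ))
  have hz : orderOf (z₀ : Fˣ) = p ^ c := by rw [Subgroup.orderOf_coe, hz₀, hA]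
  have hdv : ∀ t, p ^ c ∣ 2 * t → p ^ c ∣ t := fun t h =>
    (Nat.Coprime.pow_left c hco).dvd_of_dvd_mul_left h
  have hz2 : (((z₀ : Fˣ) ^ p ^ a) ^ 2) ^ m ≠ 1 := fun h => by
    rw [← pow_mul, ← pow_mul, mul_left_comm] at h
    have h3 := hdv _ (hz ▸ orderOf_dvd_of_pow_eq_one h)
    have h4 : p ^ a * p ^ (a + 1) ∣ p ^ a * m.factorial := by
      rw [← pow_add]
      exact ((pow_dvd_pow p (by omega)).trans h3).trans
        (Nat.mul_dvd_mul_left _ (Nat.dvd_factorial (by omega) le_rfl))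
    exact pow_succ_padicValNat_not_dvd m.factorial_ne_zero
      (Nat.dvd_of_mul_dvd_mul_left (pow_pos hp.out.pos a) h4)
  have hz1 : (z₀ : Fˣ) ^ 2 ≠ 1 := fun h => hz2 (by
    rw [pow_right_comm (z₀ : Fˣ) (p ^ a) 2, h, one_pow, one_pow])
  have hR : Nat.card (DS m A ⊔ (P : Subgroup _).map (pm m F) : Subgroup (SLm m F)) =
      p ^ (Nat.card (SLm m F)).factorization p := by
    rw [card_sup, card_DS (by omega), val_SL (by omega) h2 hq, hA, hP, pow_add, pow_mul]
  obtain ⟨g, hg⟩ := MulAction.exists_smul_eq X ((Sylow.ofCard _ hR).mapSurjective hπ) R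
  let ρ : SLm m F →* X := (MulAut.conj g).toMonoidHom.comp π
  have hρ : Function.Surjective ρ := (MulAut.conj g).surjective.comp hπ
  have hkρ : ρ.ker ≤ Subgroup.center _ := fun x hx =>
    hk ((MulAut.conj g).injective (hx.trans (map_one _).symm))
  have hRR : (R : Subgroup X) = (DS m A ⊔ (P : Subgroup _).map (pm m F)).map ρ := by
    rw [← hg, ← Subgroup.map_map]
    rfl
  have hmem : ∀ x, x ∈ R ↔ x ∈ (DS m A ⊔ (P : Subgroup _).map (pm m F)).map ρ := fun x =>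
    hRR ▸ Iff.rfl
  refine ⟨(uSyl F (by omega) r).mapSurjective hρ, (DS m A).map ρ, ?_,
    hRR ▸ Subgroup.map_mono le_sup_left, ?_, fun γ hγ x => ?_, ?_, fun x => ?_, ?_,
    normQ_ne_top hm hkρ z₀.2 hz1, weyl (by omega) hρ hkρ z₀.2 hz1⟩
  · rintro rfl
    obtain ⟨f, -, hf⟩ := FiniteField.card F p
    have h : p ∣ Fintype.card F := by rw [hf]; exact dvd_pow_self p f.ne_zero
    exact hp1.ne' (Nat.dvd_one.mp ((Nat.dvd_sub_iff_right h1.le h).mp hq))
  · rintro _ ⟨x, hx, rfl⟩ _ ⟨y, hy, rfl⟩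
    rw [← map_mul, ← map_mul, DS_comm hx hy]
  · have hz3 : (((z₀ : Fˣ) ^ Nat.card P) ^ 2) ^ m ≠ 1 := by rwa [hP]
    rw [mem_DQ_iff hkρ _ _ z₀.2 hz3, mem_DQ_iff hkρ _ _ z₀.2 hz3]
    simp only [← hmem]
    refine and_congr (hγ x) ⟨fun h y hy => γ.injective ?_, fun h y hy => ?_⟩
    · rw [map_mul, map_mul, map_pow]
      exact h _ ((hγ y).mpr hy)
    · obtain ⟨w, rfl⟩ := γ.surjective y
      rw [← map_pow, ← map_mul, ← map_mul, h w ((hγ w).mp hy)]
  · exact (Subgroup.map_mono (DS_le_norm _)).trans (Subgroup.le_normalizer_map ρ)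
  · obtain ⟨x, rfl⟩ := hρ x
    obtain ⟨u, hu, n, ⟨σ, hσ⟩, v, hv', h⟩ := bruhat x
    exact ⟨ρ u, ⟨u, hu, rfl⟩, ρ n, norm_map ρ _ hσ, ρ v, ⟨v, hv', rfl⟩,
      by rw [h, map_mul, map_mul]⟩
  · rintro _ ⟨u, hu, rfl⟩ hu1
    have h := hdv _ (hz ▸ orderOf_dvd_relIndexQ hkρ _ z₀.2 hu (fun e => hu1 (e ▸ map_one ρ)))
    have h0 : (Subgroup.centralizer {ρ u}).relIndex ((DS m A).map ρ) ≠ 0 :=
      Subgroup.index_ne_zero_of_finite
    have h5 := relIndexQ_le ρ A P
    rw [hP, ← hRR] at h5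
    refine (Nat.pow_le_pow_left h5 2).trans_lt ?_
    rw [← pow_mul]
    exact (Nat.pow_lt_pow_right hp1 (by omega)).trans_le (Nat.le_of_dvd (Nat.pos_of_ne_zero h0) h)

end Pool.Agent.Lib.MP_1ae3da_al.SLI
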