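import Pool.Agent.Lib.MP_1ae3da_al.Z.Kz

/-! The limit of the averaging: a canonical homomorphism. -/

namespace Pool.Agent.Lib.MP_1ae3da_al.CT.Z

open Submodule

variable {F A N : Type} [Field F] [Ring A] [Algebra F A] [Group N] [Finite N] {p c w m : ℕ}
  {Λ : AddSubgroup A} {D : Subgroup N} {θ : N → A}

/-- the iterates of the averaging converge to a canonical homomorphism. -/
theorem kz [CharZero F] (hp : p ≠ 0) (h : Ltt F p Λ) (hi : D.index = p ^ w * m) (hm : ¬ p ∣ m)
    (hc : 2 * w < c) (ha : Ap F p c Λ D θ) :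
    ∃ Θ : N → A, (∀ x y, Θ (x * y) = Θ x * Θ y) ∧ (∀ x, Θ x - θ x ∈ Lk F p 1 Λ) ∧
      (∀ t, Exa θ t → Θ t = θ t) ∧
      ∀ (σ : RingAut F) (γ : RingAut A) (δ : N ≃* N), SL F σ γ → (∀ y ∈ Λ, γ y ∈ Λ) →
        (∀ x, γ (θ x) = θ (δ x)) → ∀ x, γ (Θ x) = Θ (δ x) := by
  have := Fintype.ofFinite N
  have h1 : ∀ k, Ap F p (c + k) Λ D ((stp F)^[k] θ) := fun k => by
    induction k with
    | zero => exact ha
    | succ k ih =>
      rw [Function.iterate_succ_apply']
      exact (kz_step hp h hi hm (by omega) ih).1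
  have h2 : ∀ x k, (stp F)^[k + 1] θ x - (stp F)^[k] θ x ∈ Lk F p (k + 1) Λ := fun x k => by
    rw [Function.iterate_succ_apply']
    exact Lk_anti (by omega) ((kz_step hp h hi hm (by omega) (h1 k)).2 x)
  choose Θ hΘ using fun x => h.cpl (fun k => (stp F)^[k + 1] θ x - θ x)
    fun k => by simpa using Lk_anti (by omega) (h2 x (k + 1))
  have h3 : ∀ x k, Θ x + θ x - (stp F)^[k + 1] θ x ∈ Lk F p k Λ := fun x k => by
    have := hΘ x k
    rwa [← sub_add, add_sub_right_comm] at *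
  have h4 : ∀ x, Θ x + θ x ∈ Λ := fun x => by
    simpa using add_mem (Lk_le (h3 x 0)) ((h1 1).mem x)
  refine ⟨fun x => Θ x + θ x, fun x y => ?_, fun x => ?_, fun t ht => ?_,
    fun σ γ δ hγ hΛ hn x => ?_⟩
  · refine sub_eq_zero.1 (h.sep _ fun k => ?_)
    have e : ∀ a b d a' b' d' : A,
        d - a * b = (d - d') - (a' * b' - d') - (a - a') * b - a' * (b - b') := by
      intros; noncomm_ring
    rw [e _ _ _ ((stp F)^[k + 1] θ x) ((stp F)^[k + 1] θ y) ((stp F)^[k + 1] θ (x * y))]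
    exact sub_mem (sub_mem (sub_mem (h3 _ k) (Lk_anti (by omega) ((h1 (k + 1)).df x y)))
      (h.mul_right (h3 x k) (h4 y))) (h.mul_left ((h1 (k + 1)).mem x) (h3 y k))
  · have := add_mem (add_mem (h3 x 1) (Lk_anti (by omega) (h2 x 1))) (h2 x 0)
    simpa using this
  · have h5 : ∀ k, Exa ((stp F)^[k] θ) t ∧ (stp F)^[k] θ t = θ t := fun k => by
      induction k with
      | zero => exact ⟨ht, rfl⟩
      | succ k ih =>
        rw [Function.iterate_succ_apply']
        exact ⟨(kz_exa ih.1).1, (kz_exa ih.1).2.trans ih.2⟩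
    refine sub_eq_zero.1 (h.sep _ fun k => ?_)
    have := h3 t k
    rwa [(h5 _).2] at this
  · have h5 : ∀ k x, γ ((stp F)^[k] θ x) = (stp F)^[k] θ (δ x) := fun k => by
      induction k with
      | zero => exact hn
      | succ k ih =>
        rw [Function.iterate_succ_apply']
        exact kz_nat hγ δ ih
    refine sub_eq_zero.1 (h.sep _ fun k => ?_)
    have := sub_mem (map_Lk hγ hΛ (h3 x k)) (h3 (δ x) k)
    rwa [map_sub, h5, sub_sub_sub_cancel_right] at this

end Pool.Agent.Lib.MP_1ae3da_al.CT.Z
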