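import Pool.Agent.Lib.MP_1ae3da_al.Z.Hk
import Pool.Agent.Lib.MP_1ae3da_al.Z.Kl
import Pool.Agent.Lib.MP_1ae3da_al.C.AFin
import Pool.Agent.Lib.MP_1ae3da_al.C.THm

/-! The canonical isomorphism onto the corner. -/

namespace Pool.Agent.Lib.MP_1ae3da_al.CT.Z

open Submodule

variable {F k X : Type} [Field F] [Field k] [Group X] [Finite X] {U D : Subgroup X}
  {p c w m : ℕ} {O R : Subring F} {r : F → k} {GG : Subgroup (RingAut F)}

omit [Finite X] in
theorem zTh_nrm {δ : MulAut X} (hD : ∀ x, δ x ∈ D ↔ x ∈ D) (x : X) :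
    δ x ∈ Subgroup.normalizer (D : Set X) ↔ x ∈ Subgroup.normalizer (D : Set X) := by
  have e : ∀ y, δ x * δ y * (δ x)⁻¹ ∈ D ↔ x * y * x⁻¹ ∈ D := fun y => by
    rw [← map_inv, ← map_mul, ← map_mul, hD]
  rw [Subgroup.mem_normalizer_iff, Subgroup.mem_normalizer_iff]
  constructor
  · intro k y
    rw [← e, ← k, hD]
  · intro k y
    obtain ⟨z, rfl⟩ := δ.surjective y
    rw [e, ← k, hD]

/-- hint: `lat_nak` with `W` the span of the `Θ n`: `av E * Θ n` lies in `W` because
`gu d * Θ n = gu d * av U * Θ n = Θ d * Θ n`; then `an_span`; independence by `an_ind` and the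
dimension (all `Θ n` lie in the corner as `Θ 1 = av U`). -/
theorem th_bas (hP : PM p O R r GG) (h : Pg p c U D)
    {Θ : Subgroup.normalizer (D : Set X) → MonoidAlgebra F X}
    (h1 : ∀ x y, Θ (x * y) = Θ x * Θ y) (h2 : ∀ x, Θ x - an F U x ∈ Lk F p 1 (La O U D))
    (h3 : ∀ t : Subgroup.normalizer (D : Set X), (t : X) ∈ Subgroup.normalizer (U : Set X) →
      Θ t = gu F X t * av F U) :
    LinearIndependent F Θ ∧ ∀ z, av F U * z * av F U ∈ span F (Set.range Θ) := by
  classical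
  have := hP.charF
  have := Fintype.ofFinite (Subgroup.normalizer (D : Set X))
  have e1 : Θ 1 = av F U := by
    rw [h3 1 (one_mem _)]
    exact (congrArg (· * av F U) gu_one).trans (one_mul _)
  have hA : ∀ E ≤ D, ∀ n, ∀ a ∈ span F (Hm F (gu F X) E), a * Θ n ∈ span F (Set.range Θ) := by
    intro E hE n a ha
    rw [span_Hm] at ha
    induction ha using span_induction with
    | mem x hx =>
      obtain ⟨d, hd, rfl⟩ := hx
      have hd' : d ∈ D := hE hd
      have k : Θ (⟨d, Subgroup.le_normalizer hd'⟩ * n) = gu F X d * Θ n := by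
        rw [h1, h3 _ (h.nrm hd'), mul_assoc, ← e1, ← h1, one_mul]
      rw [← k]
      exact subset_span ⟨_, rfl⟩
    | zero => rw [zero_mul]; exact zero_mem _
    | add x y _ _ hx hy => rw [add_mul]; exact add_mem hx hy
    | smul c x _ hx => rw [smul_mul_assoc]; exact smul_mem _ _ hx
  have hB := lat_nak hP (LaS_fin (F := F) (U := U) (D := D)) (span F (Set.range Θ)) (by
    rintro _ ⟨E, hE, n, hn, rfl⟩
    refine ⟨av F E * Θ ⟨n, hn⟩, hA E hE _ _ av_mem, ?_⟩
    obtain ⟨y, hy, e⟩ := h2 ⟨n, hn⟩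
    refine ⟨-(av F E * y), neg_mem (av_La h hE hy), ?_⟩
    rw [smul_neg, ← mul_smul_comm, ← e, mul_sub, neg_sub])
  have hC : span F (Set.range fun n : Subgroup.normalizer (D : Set X) => an F U n) ≤
      span F (Set.range Θ) := by
    rw [span_le]
    rintro _ ⟨n, rfl⟩
    exact hB _ ⟨⊥, bot_le, n, n.2, by rw [av_bot, one_mul]⟩
  refine ⟨?_, fun z => hC (an_span h z)⟩
  have := Module.Finite.span_of_finite F (Set.finite_range Θ)
  rw [linearIndependent_iff_card_le_finrank_span,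
    linearIndependent_iff_card_eq_finrank_span.1 (an_ind (F := F) h)]
  exact finrank_mono hC

/-- hint: `kz` for `hk_ap`; extend linearly (`am_lin (gs_ind _)`). For `nat` take `n` from
`Pg.cnj` and apply `hk_map` to the composite of `γ` with conjugation by `n⁻¹` (`ga_aut`,
`ga_ext`), whose group automorphism restricts to the normaliser (`resA`). -/
theorem th_cor (hP : PM p O R r GG) (h : Pg p c U D) (hm : ¬ p ∣ m)
    (hi : D.relIndex (Subgroup.normalizer (D : Set X)) = p ^ w * m) (hc : 2 * w < c) :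
    ∃ Θ, Cor (Ga GG D) (Subgroup.normalizer (D : Set X)) (av F U) Θ := by
  classical
  have := hP.charF
  have := Fintype.ofFinite (Subgroup.normalizer (D : Set X))
  obtain ⟨Θ, h1, h2, h3, h4⟩ := kz hP.prime.ne_zero (hk_lat hP h) hi hm hc (hk_ap hP h)
  have h3' : ∀ t : Subgroup.normalizer (D : Set X), (t : X) ∈ Subgroup.normalizer (U : Set X) →
      Θ t = gu F X t * av F U := fun t ht => (h3 t (hk_exa t ht)).trans (an_nrm ht)
  obtain ⟨hI, hS⟩ := th_bas hP h h1 h2 h3'
  obtain ⟨T, hT⟩ := am_lin (gs_ind (F := F) (Subgroup.normalizer (D : Set X))) Θ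
  have hT' : ∀ x (hx : x ∈ Subgroup.normalizer (D : Set X)), T (gu F X x) = Θ ⟨x, hx⟩ :=
    fun x hx => hT ⟨x, hx⟩
  have hsp : span F (Hm F (gu F X) (Subgroup.normalizer (D : Set X))) =
      span F (Set.range (gs F (Subgroup.normalizer (D : Set X)))) := by
    rw [gs_hm, span_Hm_top]
  refine ⟨T, av_idem, ?_, ?_, ?_, ?_, ?_, ?_⟩
  · rw [← gu_one, hT' 1 (one_mem _), h3' _ (one_mem _)]
    exact (congrArg (· * av F U) gu_one).trans (one_mul _)
  · intro a ha b hb
    rw [hsp] at ha hb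
    have k : ∀ x, T (gs F (Subgroup.normalizer (D : Set X)) x * b) = Θ x * T b := fun x =>
      LinearMap.eqOn_span' (f := T ∘ₗ LinearMap.mulLeft F (gs F _ x))
        (g := LinearMap.mulLeft F (Θ x) ∘ₗ T) (by
          rintro _ ⟨y, rfl⟩
          change T (gs F _ x * gs F _ y) = Θ x * T (gs F _ y)
          rw [gs_mul, hT, hT, h1]) hb
    exact LinearMap.eqOn_span' (f := T ∘ₗ LinearMap.mulRight F b)
      (g := LinearMap.mulRight F (T b) ∘ₗ T) (by
        rintro _ ⟨x, rfl⟩
        change T (gs F _ x * b) = T (gs F _ x) * T b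
        rw [k, hT]) ha
  · intro a ha h0
    rw [hsp, mem_span_range_iff_exists_fun] at ha
    obtain ⟨f, rfl⟩ := ha
    simp only [map_sum, map_smul, hT] at h0
    exact Finset.sum_eq_zero fun i _ => by
      rw [Fintype.linearIndependent_iff.1 hI f h0 i, zero_smul]
  · intro z
    obtain ⟨f, hf⟩ := (mem_span_range_iff_exists_fun F).1 (hS z)
    refine ⟨∑ i, f i • gs F _ i, ?_, ?_⟩
    · rw [hsp]
      exact sum_mem fun i _ => smul_mem _ _ (subset_span ⟨i, rfl⟩)
    · simp only [map_sum, map_smul, hT, hf]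
  · intro t ht e
    rw [hT' t ht]
    exact h3' _ (av_comm.1 e)
  · rintro γ ⟨⟨σ, hσ, hγ⟩, δ, hδ, hD⟩
    obtain ⟨n, hn, hU⟩ := h.cnj δ hD
    have ed : ∀ x, (MulAut.conj n⁻¹ * δ) x = n⁻¹ * δ x * n := fun x => by simp
    obtain ⟨γ', hγ', hδ'⟩ := ga_aut (F := F) σ (MulAut.conj n⁻¹ * δ)
    have hD' : ∀ x, (MulAut.conj n⁻¹ * δ) x ∈ D ↔ x ∈ D := fun x => by
      rw [← hD x]
      exact ((Subgroup.mem_normalizer_iff.1 (inv_mem hn)) (δ x)).symm
    have hU' : ∀ x, (MulAut.conj n⁻¹ * δ) x ∈ U ↔ x ∈ U := fun x => by rw [ed, hU]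
    obtain ⟨k1, k2, k3⟩ := hk_map hP hσ hγ' hδ' hD' hU'
    have k4 : ∀ a, γ a * gu F X n = gu F X n * γ' a := fun a =>
      gu_ext σ ⊤ ((AddMonoidHom.mulRight (gu F X n)).comp γ.toAddMonoidHom)
        ((AddMonoidHom.mulLeft (gu F X n)).comp γ'.toAddMonoidHom)
        (fun c a => by
          change γ (c • a) * _ = σ c • (γ a * _)
          rw [hγ, smul_mul_assoc])
        (fun c a => by
          change _ * γ' (c • a) = σ c • (_ * γ' a)
          rw [hγ', mul_smul_comm])
        (fun x _ => by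
          change γ (gu F X x) * _ = _ * γ' (gu F X x)
          rw [hδ, hδ', gu_mul, gu_mul, ed]
          congr 1
          group) a (by rw [gu_span]; trivial)
    have k5 := h4 σ γ' (resA _ _ (zTh_nrm hD')) hγ' k3 fun x => k2 x
    refine ⟨n, hn, by rw [k4, k1], fun a ha => ?_⟩
    rw [k4, mul_assoc, k4, ← mul_assoc, gu_mul, inv_mul_cancel, gu_one, one_mul]
    congr 1
    exact gu_ext σ _ (γ'.toAddMonoidHom.comp T.toAddMonoidHom)
      (T.toAddMonoidHom.comp γ'.toAddMonoidHom)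
      (fun c a => by
        change γ' (T (c • a)) = σ c • γ' (T a)
        rw [map_smul, hγ'])
      (fun c a => by
        change T (γ' (c • a)) = σ c • T (γ' a)
        rw [hγ', map_smul])
      (fun x hx => by
        change γ' (T (gu F X x)) = T (γ' (gu F X x))
        rw [hT' x hx, k5, hδ', hT' _ ((zTh_nrm hD' x).2 hx)]
        rfl) a ha

end Pool.Agent.Lib.MP_1ae3da_al.CT.Z
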