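import Pool.Agent.Lib.MP_1ae3da_al.Z.Df
import Pool.Agent.Lib.MP_1ae3da_al.C.RFit

/-! Lattices over the complete ring. -/

namespace Pool.Agent.Lib.MP_1ae3da_al.CT.Z

open Submodule

variable {F k A : Type} [Field F] [Field k] [Ring A] [Algebra F A] {p : ℕ} {Λ : AddSubgroup A}
  {O R : Subring F} {r : F → k} {GG : Subgroup (RingAut F)}

theorem mem_Lk {n : ℕ} {x : A} : x ∈ Lk F p n Λ ↔ ∃ y ∈ Λ, x = (p : F) ^ n • y := Iff.rfl

theorem Lk_zero : Lk F p 0 Λ = Λ := by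
  ext x
  simp [mem_Lk]

theorem zLat_nat (m : ℕ) {x : A} (hx : x ∈ Λ) : (m : F) • x ∈ Λ := by
  rw [Nat.cast_smul_eq_nsmul]
  exact nsmul_mem hx m

theorem Lk_anti {m n : ℕ} (h : m ≤ n) : Lk F p n Λ ≤ Lk F p m Λ := by
  rintro _ ⟨y, hy, rfl⟩
  obtain ⟨d, rfl⟩ := Nat.exists_eq_add_of_le h
  exact ⟨((p ^ d : ℕ) : F) • y, zLat_nat _ hy, by rw [smul_smul, pow_add, Nat.cast_pow]⟩

theorem Lk_le {n : ℕ} : Lk F p n Λ ≤ Λ := (Lk_anti (Nat.zero_le n)).trans Lk_zero.le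

theorem Ltt.mul_Lk (h : Ltt F p Λ) {m n : ℕ} {x y : A} (hx : x ∈ Lk F p m Λ)
    (hy : y ∈ Lk F p n Λ) : x * y ∈ Lk F p (m + n) Λ := by
  obtain ⟨a, ha, rfl⟩ := hx
  obtain ⟨b, hb, rfl⟩ := hy
  exact ⟨a * b, h.mul a ha b hb, by rw [smul_mul_smul_comm, pow_add]⟩

theorem Ltt.mul_left (h : Ltt F p Λ) {n : ℕ} {x y : A} (hx : x ∈ Λ) (hy : y ∈ Lk F p n Λ) :
    x * y ∈ Lk F p n Λ := by
  obtain ⟨b, hb, rfl⟩ := hy
  exact ⟨x * b, h.mul x hx b hb, mul_smul_comm _ _ _⟩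

theorem Ltt.mul_right (h : Ltt F p Λ) {n : ℕ} {x y : A} (hx : x ∈ Lk F p n Λ) (hy : y ∈ Λ) :
    x * y ∈ Lk F p n Λ := by
  obtain ⟨a, ha, rfl⟩ := hx
  exact ⟨a * y, h.mul a ha y hy, smul_mul_assoc _ _ _⟩

theorem Ltt.inv_Lk (h : Ltt F p Λ) {m n : ℕ} (hm : ¬ p ∣ m) {x : A} (hx : x ∈ Lk F p n Λ) :
    (m : F)⁻¹ • x ∈ Lk F p n Λ := by
  obtain ⟨a, ha, rfl⟩ := hx
  exact ⟨_, h.inv m hm a ha, smul_comm _ _ _⟩

theorem nat_Lk {m n : ℕ} (hm : p ^ n ∣ m) {x : A} (hx : x ∈ Λ) : (m : F) • x ∈ Lk F p n Λ := by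
  obtain ⟨d, rfl⟩ := hm
  exact ⟨_, zLat_nat (F := F) d hx, by rw [smul_smul, Nat.cast_mul, Nat.cast_pow]⟩

theorem map_Lk {σ : RingAut F} {γ : RingAut A} (hγ : SL F σ γ) (h : ∀ y ∈ Λ, γ y ∈ Λ) {n : ℕ}
    {x : A} (hx : x ∈ Lk F p n Λ) : γ x ∈ Lk F p n Λ := by
  obtain ⟨a, ha, rfl⟩ := hx
  exact ⟨_, h a ha, by rw [hγ, map_pow, map_natCast]⟩

theorem zLat_iff (M : Submodule O A) (n : ℕ) (x : M) :
    x ∈ (Ideal.span {(p : O)}) ^ n • (⊤ : Submodule O M) ↔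
      (x : A) ∈ Lk F p n M.toAddSubgroup := by
  rw [Ideal.span_singleton_pow, Submodule.ideal_span_singleton_smul,
    Submodule.mem_smul_pointwise_iff_exists]
  have e : ∀ y : A, ((p : O) ^ n) • y = (p : F) ^ n • y := fun y => by
    rw [Subring.smul_def]; simp
  constructor
  · rintro ⟨y, -, rfl⟩
    exact ⟨y, y.2, e y⟩
  · rintro ⟨y, hy, h⟩
    exact ⟨⟨y, hy⟩, mem_top, Subtype.ext ((e y).trans h.symm)⟩

/-- a finitely generated multiplicatively closed span is a complete lattice. -/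
theorem lat_span (h : PM p O R r GG) {S : Set A} (hS : S.Finite)
    (hm : ∀ x ∈ S, ∀ y ∈ S, x * y ∈ span O S) : Ltt F p (span O S).toAddSubgroup := by
  have := h.dvr
  have := h.cpl
  have : Module.Finite O (span O S) := Module.Finite.span_of_finite O hS
  have : Module.IsTorsionFree O A := Module.IsTorsionFree.of_smul_eq_zero fun c y hc => by
    rw [Subring.smul_def, smul_eq_zero] at hc
    exact hc.imp_left Subtype.ext
  have : Module.Free O (span O S) := Module.free_of_finite_type_torsion_free'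
  have hc := rfit_cpl (span O S) (Ideal.span {(p : O)})
  refine ⟨fun x hx y hy => ?_, fun n hn x hx => (span O S).smul_mem ⟨_, h.inv n hn⟩ hx,
    fun x hx => ?_, fun x hx => ?_⟩
  · have : span O S * span O S ≤ span O S := by
      rw [span_mul_span, span_le]
      rintro _ ⟨a, ha, b, hb, rfl⟩
      exact hm a ha b hb
    exact this (mul_mem_mul hx hy)
  · have h1 : ∀ m n, m ≤ n → x m - x n ∈ Lk F p m (span O S).toAddSubgroup := fun m n hmn => by
      induction n, hmn using Nat.le_induction with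
      | base => rw [sub_self]; exact zero_mem _
      | succ n hmn ih => simpa using sub_mem ih (Lk_anti hmn (hx n))
    obtain ⟨L, hL⟩ := hc.toIsPrecomplete.prec
      (f := fun n => (⟨x 0 - x n, Lk_le (h1 0 n (Nat.zero_le n))⟩ : span O S)) fun {m n} hmn =>
        SModEq.sub_mem.2 ((zLat_iff _ _ _).2 (by simpa using neg_mem (h1 m n hmn)))
    refine ⟨x 0 - L, fun n => ?_⟩
    have := (zLat_iff _ _ _).1 (SModEq.sub_mem.1 (hL n))
    rw [sub_right_comm]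
    exact this
  · exact congrArg Subtype.val (hc.toIsHausdorff.haus (⟨x, Lk_le (hx 0)⟩ : span O S) fun n =>
      SModEq.sub_mem.2 ((zLat_iff _ _ _).2 (by simpa using hx n)))

/-- Nakayama. -/
theorem lat_nak (h : PM p O R r GG) {S : Set A} (hS : S.Finite) (W : Submodule F A)
    (hW : ∀ x ∈ S, ∃ y ∈ W, x - y ∈ Lk F p 1 (span O S).toAddSubgroup) : ∀ x ∈ S, x ∈ W := by
  have := h.cpl
  refine fun x hx => Submodule.le_of_le_smul_of_le_jacobson_bot (N := W.restrictScalars O)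
    (fg_span hS) (IsAdicComplete.le_jacobson_bot (Ideal.span {(p : O)})) (span_le.2 fun z hz => ?_)
    (subset_span hx)
  obtain ⟨y, hy, u, hu, he⟩ := hW z hz
  rw [sub_eq_iff_eq_add'] at he
  rw [he]
  refine add_mem_sup hy ?_
  have e : (p : F) ^ 1 • u = (p : O) • u := by rw [Subring.smul_def]; simp
  rw [e]
  exact smul_mem_smul (Ideal.mem_span_singleton_self _) hu

theorem lat_map (h : PM p O R r GG) {σ : RingAut F} (hσ : σ ∈ GG) {γ : RingAut A}
    (hγ : SL F σ γ) {S : Set A} (hS : ∀ x ∈ S, γ x ∈ S) :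
    ∀ y ∈ (span O S).toAddSubgroup, γ y ∈ (span O S).toAddSubgroup := by
  intro y hy
  change γ y ∈ span O S
  induction hy using span_induction with
  | mem x hx => exact subset_span (hS x hx)
  | zero => rw [map_zero]; exact zero_mem _
  | add x y _ _ h1 h2 => rw [map_add]; exact add_mem h1 h2
  | smul c x _ h1 =>
    rw [Subring.smul_def, hγ]
    exact (span O S).smul_mem ⟨σ c, ((h.gal σ hσ).1 c).2 c.2⟩ h1

end Pool.Agent.Lib.MP_1ae3da_al.CT.Z
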