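import Pool.Agent.Lib.MP_1ae3da_al.Z.Df

/-! Orbit sums, and the group data from the hypotheses on Sylow subgroups. -/

namespace Pool.Agent.Lib.MP_1ae3da_al.CT.Z

open Submodule

variable {p : ℕ} {X : Type} [Group X] [Finite X] {U D : Subgroup X}

/-- hint: split `U` into the orbits of `D` under conjugation; the sum over `d` is the order of the
stabiliser times the sum over the orbit. -/
theorem ob_sum {F V : Type} [Field F] [CharZero F] [AddCommGroup V] [Module F V]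
    (hn : D ≤ Subgroup.normalizer (U : Set X)) (M : AddSubgroup V) (f : X → V)
    (h : ∀ u ∈ U, ∃ y : V, ∑ᶠ d : D, f (d * u * (d : X)⁻¹) = (Nat.card D : F) • y ∧
      (((Subgroup.centralizer {u}).relIndex D : ℕ) : F) • y ∈ M) : ∑ᶠ u : U, f u ∈ M := by
  classical
  have := Fintype.ofFinite X
  have key : ∀ S : Finset X, (∀ u ∈ S, u ∈ U) → (∀ u ∈ S, ∀ d : D, d * u * (d : X)⁻¹ ∈ S ∧
      ∀ v, v ∉ S → d * v * (d : X)⁻¹ ∉ S) → ∑ u ∈ S, f u ∈ M := by
    intro S
    induction S using Finset.strongInduction with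
    | H S ih =>
    intro hU hS
    rcases S.eq_empty_or_nonempty with rfl | ⟨u, hu⟩
    · exact zero_mem _
    have hs : Finset.univ.image (fun d : D => d * u * (d : X)⁻¹) ⊆ S := fun v hv => by
      obtain ⟨d, -, rfl⟩ := Finset.mem_image.1 hv
      exact (hS u hu d).1
    have ho : ∀ (d : D) v, d * v * (d : X)⁻¹ ∈ Finset.univ.image (fun d : D => d * u * (d : X)⁻¹) ↔
        v ∈ Finset.univ.image (fun d : D => d * u * (d : X)⁻¹) := fun d v => by
      simp only [Finset.mem_image, Finset.mem_univ, true_and]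
      refine ⟨fun ⟨a, e⟩ => ⟨d⁻¹ * a, ?_⟩, fun ⟨a, e⟩ => ⟨d * a, ?_⟩⟩
      · rw [show v = (d : X)⁻¹ * (d * v * (d : X)⁻¹) * d by group, ← e]
        push_cast
        group
      · rw [← e]
        push_cast
        group
    rw [← Finset.sum_sdiff hs]
    refine add_mem (ih _ (Finset.sdiff_ssubset hs ⟨_, Finset.mem_image_of_mem _
      (Finset.mem_univ 1)⟩) (fun v hv => hU v (Finset.mem_sdiff.1 hv).1) fun v hv d => ?_) ?_
    · simp only [Finset.mem_sdiff, ho] at hv ⊢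
      exact ⟨⟨(hS v hv.1 d).1, hv.2⟩, fun z hz h1 =>
        hz ⟨by_contra fun h2 => (hS v hv.1 d).2 z h2 h1.1, h1.2⟩⟩
    obtain ⟨y, e, hy⟩ := h u (hU u hu)
    rw [finsum_eq_sum_of_fintype, Finset.sum_comp f fun d : D => d * u * (d : X)⁻¹,
      Finset.sum_congr rfl (g := fun v =>
        Nat.card ((Subgroup.centralizer {u}).subgroupOf D) • f v) fun v hv => ?_,
      ← Finset.smul_sum, ← Nat.cast_smul_eq_nsmul F,
      ← ((Subgroup.centralizer {u}).subgroupOf D).card_mul_index, Nat.cast_mul, mul_smul] at e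
    · rw [smul_right_injective V (Nat.cast_ne_zero.2 Nat.card_pos.ne') e]
      exact hy
    obtain ⟨a, -, rfl⟩ := Finset.mem_image.1 hv
    rw [← Fintype.card_subtype, ← Nat.card_eq_fintype_card]
    refine congrArg (· • _) (Nat.card_congr (Equiv.subtypeEquiv (Equiv.mulLeft a⁻¹) fun d => ?_))
    rw [Subgroup.mem_subgroupOf, Subgroup.mem_centralizer_singleton_iff]
    change _ ↔ (a : X)⁻¹ * d * u = u * ((a : X)⁻¹ * d)
    refine ⟨fun e => ?_, fun e => ?_⟩
    · rw [show (a : X)⁻¹ * d * u = (a : X)⁻¹ * (d * u * (d : X)⁻¹) * d by group, e]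
      group
    · rw [show (d : X) * u * (d : X)⁻¹ = a * ((a : X)⁻¹ * d * u) * (d : X)⁻¹ by group, e]
      group
  rw [finsum_eq_sum_of_fintype, ← Finset.sum_subtype (Finset.univ.filter (· ∈ U)) (by simp) f]
  refine key _ (by simp) fun u hu d => ?_
  simp only [Finset.mem_filter, Finset.mem_univ, true_and] at hu ⊢
  exact ⟨(Subgroup.mem_normalizer_iff.1 (hn d.2) u).1 hu,
    fun v hv h1 => hv ((Subgroup.mem_normalizer_iff.1 (hn d.2) v).2 h1)⟩

theorem ob_pg {r : ℕ} (hp : p.Prime) (hr : r.Prime) (hpr : p ≠ r) (R : Sylow p X) (U : Sylow r X)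
    (hDR : D ≤ R) (hab : ∀ x ∈ D, ∀ y ∈ D, x * y = y * x)
    (hst : ∀ γ : MulAut X, (∀ x, γ x ∈ R ↔ x ∈ R) → ∀ x, γ x ∈ D ↔ x ∈ D)
    (hDU : D ≤ Subgroup.normalizer (U : Set X))
    (hB : ∀ x, ∃ u ∈ U, ∃ n ∈ Subgroup.normalizer (D : Set X), ∃ v ∈ U, x = u * n * v)
    (hc : ∀ u ∈ U, u ≠ 1 → D.relIndex R ^ 2 < (Subgroup.centralizer {u}).relIndex D) :
    ∃ w m : ℕ, ¬ p ∣ m ∧ D.relIndex (Subgroup.normalizer (D : Set X)) = p ^ w * m ∧
      Pg p (2 * w + 1) U D := by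
  have : Fact p.Prime := ⟨hp⟩
  have : Fact r.Prime := ⟨hr⟩
  have hRN : (R : Subgroup X) ≤ Subgroup.normalizer (D : Set X) := fun g hg =>
    Subgroup.mem_normalizer_iff.2 fun x => (hst (MulAut.conj g) (fun y =>
      (Subgroup.mem_normalizer_iff.1 (Subgroup.le_normalizer hg) y).symm) x).symm
  have hD : IsPGroup p D := R.isPGroup'.to_le hDR
  obtain ⟨w, hw⟩ := R.isPGroup'.index (D.subgroupOf R)
  refine ⟨w, (R : Subgroup X).relIndex (Subgroup.normalizer (D : Set X)),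
    fun h => R.not_dvd_index (h.trans (Subgroup.relIndex_dvd_index_of_le hRN)), ?_,
    hp, Nat.succ_pos _, fun h => ?_, hD, hab, hDU, hB, fun u hu h1 => ?_, fun δ _ => ?_⟩
  · rw [← hw]
    exact (Subgroup.relIndex_mul_relIndex _ _ _ hDR hRN).symm
  · obtain ⟨j, hj⟩ := U.isPGroup'.exists_card_eq
    rw [hj] at h
    exact hpr ((Nat.prime_dvd_prime_iff_eq hp hr).1 (hp.dvd_of_dvd_pow h))
  · obtain ⟨j, hj⟩ := hD.index ((Subgroup.centralizer {u}).subgroupOf D)
    have h2 := hc u hu h1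
    rw [Subgroup.relIndex, Subgroup.relIndex, hw, hj, ← pow_mul] at h2
    rw [Subgroup.relIndex, hj]
    have := (Nat.pow_lt_pow_iff_right hp.one_lt).1 h2
    exact pow_dvd_pow _ (by omega)
  · obtain ⟨g, hg⟩ := MulAction.exists_smul_eq X U
      (U.mapSurjective (f := δ.toMonoidHom) δ.surjective)
    have e : (U : Subgroup X).map (MulAut.conj g).toMonoidHom = (U : Subgroup X).map δ.toMonoidHom :=
      congrArg Sylow.toSubgroup hg
    refine ⟨g, fun x => ⟨fun h => ?_, fun h => ?_⟩⟩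
    · obtain ⟨y, hy, e1⟩ := e.le ⟨_, h, rfl⟩
      have e2 : δ y = g * (g⁻¹ * δ x * g) * g⁻¹ := e1
      rwa [← δ.injective (e2.trans (by group) : δ y = δ x)]
    · obtain ⟨y, hy, e1⟩ := e.ge ⟨_, h, rfl⟩
      have e2 : g * y * g⁻¹ = δ x := e1
      rwa [← e2, show g⁻¹ * (g * y * g⁻¹) * g = y by group]

end Pool.Agent.Lib.MP_1ae3da_al.CT.Z
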