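import Pool.Agent.Lib.MP_1ae3da_al.Z.Av
import Pool.Agent.Lib.MP_1ae3da_al.Z.Ob
import Pool.Agent.Lib.MP_1ae3da_al.Z.Lat

/-! The corner is a group algebra modulo `p ^ c`. -/

namespace Pool.Agent.Lib.MP_1ae3da_al.CT.Z

open Submodule

variable {F k X : Type} [Field F] [Field k] [Group X] [Finite X] {U D : Subgroup X} {p c : ℕ}
  {O R : Subring F} {r : F → k} {GG : Subgroup (RingAut F)}

theorem LaS_fin : (LaS F U D).Finite :=
  (Set.finite_range fun q : Subgroup X × X => av F q.1 * an F U q.2).subset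
    fun _ ⟨E, _, n, _, e⟩ => ⟨(E, n), e.symm⟩

theorem an_La [CharZero F] {n : X} (hn : n ∈ Subgroup.normalizer (D : Set X)) :
    an F U n ∈ La O U D :=
  subset_span ⟨⊥, bot_le, n, hn, by rw [av_bot, one_mul]⟩

theorem av_La [CharZero F] (h : Pg p c U D) {E : Subgroup X} (hE : E ≤ D)
    {y : MonoidAlgebra F X} (hy : y ∈ La O U D) : av F E * y ∈ La O U D := by
  change y ∈ span O (LaS F U D) at hy
  change _ ∈ span O (LaS F U D)
  induction hy using span_induction with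
  | mem x hx =>
    obtain ⟨E', hE', n, hn, rfl⟩ := hx
    rw [← mul_assoc, av_sup fun x hx y hy => h.ab x (hE hx) y (hE' hy)]
    exact subset_span ⟨_, sup_le hE hE', n, hn, rfl⟩
  | zero => rw [mul_zero]; exact zero_mem _
  | add x y _ _ h1 h2 => rw [mul_add]; exact add_mem h1 h2
  | smul a x _ h1 => rw [mul_smul_comm]; exact smul_mem _ a h1

omit [Finite X] in
theorem zHk_conj {g d : X} (hg : g ∈ Subgroup.normalizer (D : Set X)) (hd : d ∈ D) :
    g * d * g⁻¹ ∈ D := (Subgroup.mem_normalizer_iff.1 hg d).1 hd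

/-- the orbit sum. Hint: `n u n' = u1 m u2`; `an (n (d u d⁻¹) n') = gu (φ d) * an m` with the
homomorphism `φ d = (n d n⁻¹) (m n'⁻¹ d⁻¹ n' m⁻¹)` from the abelian group `D` to `D`; `av_hom`. -/
theorem hk_orb [CharZero F] (h : Pg p c U D) {n n' u : X}
    (hn : n ∈ Subgroup.normalizer (D : Set X)) (hn' : n' ∈ Subgroup.normalizer (D : Set X))
    (hu : u ∈ U) : ∃ y ∈ LaS F U D,
      ∑ᶠ d : D, an F U (n * (d * u * (d : X)⁻¹) * n') = (Nat.card D : F) • y := by
  obtain ⟨u1, h1, m, hm, u2, h2, e⟩ := h.bru (n * u * n')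
  have hg : m * n'⁻¹ ∈ Subgroup.normalizer (D : Set X) := mul_mem hm (inv_mem hn')
  have hA : ∀ d : D, n * d * n⁻¹ ∈ D := fun d => zHk_conj hn d.2
  have hB : ∀ d : D, m * n'⁻¹ * (d : X)⁻¹ * (m * n'⁻¹)⁻¹ ∈ D := fun d => zHk_conj hg (inv_mem d.2)
  let φ : D →* X := MonoidHom.mk'
    (fun d => n * d * n⁻¹ * (m * n'⁻¹ * (d : X)⁻¹ * (m * n'⁻¹)⁻¹)) fun a b => by
      rw [mul_assoc (n * a * n⁻¹) _ (_ * _), h.ab _ (hB a) _ (mul_mem (hA b) (hB b)),
        Subgroup.coe_mul]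
      group
  refine ⟨av F φ.range * an F U m, ⟨_, ?_, m, hm, rfl⟩, ?_⟩
  · rintro _ ⟨d, rfl⟩
    exact mul_mem (hA d) (hB d)
  have := Fintype.ofFinite D
  rw [← smul_mul_assoc, ← av_hom, finsum_eq_sum_of_fintype, finsum_eq_sum_of_fintype,
    Finset.sum_mul]
  refine Finset.sum_congr rfl fun d _ => ?_
  have hC : n'⁻¹ * (d : X)⁻¹ * n'⁻¹⁻¹ ∈ D := zHk_conj (inv_mem hn') (inv_mem d.2)
  have e1 : n * (d * u * (d : X)⁻¹) * n' =
      n * d * n⁻¹ * (n * u * n' * (n'⁻¹ * (d : X)⁻¹ * n'⁻¹⁻¹)) := by group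
  have e2 : φ d * m = n * d * n⁻¹ * (m * (n'⁻¹ * (d : X)⁻¹ * n'⁻¹⁻¹)) := by
    change n * d * n⁻¹ * (m * n'⁻¹ * (d : X)⁻¹ * (m * n'⁻¹)⁻¹) * m = _
    group
  rw [← an_left (t := φ d) (h.nrm (mul_mem (hA d) (hB d))), e1, e2, an_left (h.nrm (hA d)),
    an_left (h.nrm (hA d)), an_right (h.nrm hC), an_right (h.nrm hC), e, an_dc h1 h2]

/-- hint: `an_mul`, then `ob_sum` for `f u = an (n u n') - an (n n')` (the term `u = 1`
vanishes), `nat_Lk`, and `PM.inv` for the order of `U`. -/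
theorem hk_df (hP : PM p O R r GG) (h : Pg p c U D) {n n' : X}
    (hn : n ∈ Subgroup.normalizer (D : Set X)) (hn' : n' ∈ Subgroup.normalizer (D : Set X)) :
    an F U n * an F U n' - an F U (n * n') ∈ Lk F p c (La O U D) := by
  have := hP.charF
  have := Fintype.ofFinite U
  have c0 : (Nat.card U : F) ≠ 0 := Nat.cast_ne_zero.2 Nat.card_pos.ne'
  obtain ⟨y, hy, e⟩ := ob_sum (F := F) h.nrm (Lk F p c (La O U D))
    (fun u => an F U (n * u * n') - an F U (n * n')) fun u hu => by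
      rcases eq_or_ne u 1 with rfl | h1
      · exact ⟨0, by simp, by rw [smul_zero]; exact zero_mem _⟩
      obtain ⟨y, hy, e⟩ := hk_orb (F := F) h hn hn' hu
      have := Fintype.ofFinite D
      refine ⟨y - an F U (n * n'), ?_, nat_Lk (h.orb u hu h1)
        (sub_mem (subset_span hy) (an_La (mul_mem hn hn')))⟩
      rw [smul_sub, ← e, finsum_eq_sum_of_fintype, finsum_eq_sum_of_fintype,
        Finset.sum_sub_distrib, Finset.sum_const, Finset.card_univ, Nat.card_eq_fintype_card,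
        Nat.cast_smul_eq_nsmul]
  refine ⟨(Nat.card U : F)⁻¹ • y, smul_mem (span O (LaS F U D)) (⟨_, hP.inv _ h.pU⟩ : O) hy, ?_⟩
  rw [smul_comm, ← e, an_mul, finsum_eq_sum_of_fintype, finsum_eq_sum_of_fintype,
    Finset.sum_sub_distrib, Finset.sum_const, Finset.card_univ, ← Nat.card_eq_fintype_card,
    ← Nat.cast_smul_eq_nsmul F, smul_sub, inv_smul_smul₀ c0]

theorem zHk_comm [CharZero F] {E : Subgroup X} (hE : E ≤ Subgroup.normalizer (U : Set X)) :
    av F E * av F U = av F U * av F E := by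
  have h := av_mem (F := F) (E := E)
  generalize av F E = y at h
  induction h using span_induction with
  | mem x hx =>
    obtain ⟨a, -, x, hx, rfl⟩ := hx
    rw [smul_mul_assoc, mul_smul_comm, av_comm.2 (hE hx)]
  | zero => rw [zero_mul, mul_zero]
  | add x y _ _ h1 h2 => rw [add_mul, mul_add, h1, h2]
  | smul a x _ h1 => rw [smul_mul_assoc, mul_smul_comm, h1]

/-- hint: `an n * av E = av (n E n⁻¹) * an n`. -/
theorem hk_lat (hP : PM p O R r GG) (h : Pg p c U D) : Ltt F p (La O U D) := by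
  have := hP.charF
  refine lat_span hP LaS_fin ?_
  rintro _ ⟨E, hE, n, hn, rfl⟩ _ ⟨E', hE', n', hn', rfl⟩
  have h1 : E'.map (MulAut.conj n).toMonoidHom ≤ D := by
    rintro _ ⟨x, hx, rfl⟩
    exact zHk_conj hn (hE' hx)
  have e : an F U n * av F E' = av F (E'.map (MulAut.conj n).toMonoidHom) * an F U n := by
    rw [an, mul_assoc, ← zHk_comm (hE'.trans h.nrm), mul_assoc, ← mul_assoc (gu F X n), av_conj,
      ← mul_assoc, ← mul_assoc, ← zHk_comm (h1.trans h.nrm)]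
    simp only [mul_assoc]
  rw [mul_assoc, ← mul_assoc (an F U n), e, mul_assoc]
  refine av_La h hE (av_La h h1 ?_)
  rw [← sub_add_cancel (an F U n * an F U n') (an F U (n * n'))]
  exact add_mem (Lk_le (hk_df hP h hn hn')) (an_La (mul_mem hn hn'))

theorem zHk_exa [CharZero F] {N : Subgroup X} (t : N)
    (ht : (t : X) ∈ Subgroup.normalizer (U : Set X)) : Exa (fun n : N => an F U n) t := fun x => by
  simp only [Subgroup.coe_mul]
  rw [an_left ht, an_right ht, an_nrm ht, mul_assoc, (av_an _).1, av_comm.2 ht, ← mul_assoc,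
    (av_an _).2]
  exact ⟨rfl, rfl⟩

theorem hk_ap (hP : PM p O R r GG) (h : Pg p c U D) :
    Ap F p c (La O U D) (D.subgroupOf (Subgroup.normalizer (D : Set X)))
      fun n : Subgroup.normalizer (D : Set X) => an F U n :=
  have := hP.charF
  ⟨fun x => an_La x.2, fun x y => hk_df hP h x.2 y.2, fun d hd => zHk_exa d (h.nrm hd)⟩

theorem hk_exa [CharZero F] {N : Subgroup X} (t : N)
    (ht : (t : X) ∈ Subgroup.normalizer (U : Set X)) : Exa (fun n : N => an F U n) t :=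
  zHk_exa t ht

theorem hk_map (hP : PM p O R r GG) {σ : RingAut F} (hσ : σ ∈ GG)
    {γ : RingAut (MonoidAlgebra F X)} (hγ : SL F σ γ) {δ : MulAut X}
    (h : ∀ x, γ (gu F X x) = gu F X (δ x)) (hD : ∀ x, δ x ∈ D ↔ x ∈ D)
    (hU : ∀ x, δ x ∈ U ↔ x ∈ U) :
    γ (av F U) = av F U ∧ (∀ x, γ (an F U x) = an F U (δ x)) ∧
      ∀ y ∈ La O U D, γ y ∈ La O U D := by
  have := hP.charF
  have e : U.map δ.toMonoidHom = U := by
    ext x
    refine ⟨?_, fun hx => ⟨δ.symm x, (hU _).1 ?_, δ.apply_symm_apply x⟩⟩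
    · rintro ⟨y, hy, rfl⟩
      exact (hU y).2 hy
    · rwa [δ.apply_symm_apply]
  have h1 : γ (av F U) = av F U := by rw [av_map hγ h, e]
  have h2 : ∀ x, γ (an F U x) = an F U (δ x) := fun x => by
    rw [an, an, map_mul, map_mul, h1, h]
  refine ⟨h1, h2, lat_map hP hσ hγ ?_⟩
  rintro _ ⟨E, hE, n, hn, rfl⟩
  refine ⟨E.map δ.toMonoidHom, ?_, δ n, ?_, by rw [map_mul, av_map hγ h, h2]⟩
  · rintro _ ⟨y, hy, rfl⟩
    exact (hD y).2 (hE hy)
  · refine Subgroup.mem_normalizer_iff.2 fun x => ?_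
    obtain ⟨y, rfl⟩ := δ.surjective x
    rw [← map_inv, ← map_mul, ← map_mul, hD, hD]
    exact Subgroup.mem_normalizer_iff.1 hn y

end Pool.Agent.Lib.MP_1ae3da_al.CT.Z
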