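import Pool.Agent.Lib.MP_1ae3da_al.Z.Xl
import Pool.Agent.Lib.MP_1ae3da_al.Z.Hk
import Pool.Agent.Lib.MP_1ae3da_al.C.AFin
import Pool.Agent.Lib.MP_1ae3da_al.C.THm

/-! The canonical homomorphism into the corner under the weaker bound. -/

namespace Pool.Agent.Lib.MP_1ae3da_al.CT.Z

open Submodule

variable {F k X : Type} [Field F] [Field k] [Group X] [Finite X] {U D : Subgroup X}
  {p c w m : ℕ} {O R : Subring F} {r : F → k} {GG : Subgroup (RingAut F)}

theorem zXh_lk {A B : Type} [Ring A] [Ring B] [Algebra F A] [Algebra F B] [CharZero F]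
    (hp : p ≠ 0) (l : B →ₗ[F] A) (Λ : AddSubgroup A) (n : ℕ) (x : B) :
    x ∈ Lk F p n (Λ.comap l.toAddMonoidHom) ↔ l x ∈ Lk F p n Λ := by
  have h0 : (p : F) ^ n ≠ 0 := pow_ne_zero _ (Nat.cast_ne_zero.2 hp)
  constructor
  · rintro ⟨y, hy, rfl⟩
    exact ⟨l y, hy, map_smul _ _ _⟩
  · rintro ⟨y, hy, e⟩
    refine ⟨((p : F) ^ n)⁻¹ • x, ?_, (smul_inv_smul₀ h0 _).symm⟩
    change l _ ∈ Λ
    rwa [map_smul, e, inv_smul_smul₀ h0]

omit [Finite X] in
theorem zXh_exa {N : Subgroup X} {l : MonoidAlgebra F N →ₗ[F] MonoidAlgebra F X}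
    (hl : ∀ n : N, l (gu F N n) = an F U n) {t : N} (ht : Exa (fun n : N => an F U n) t)
    (x : MonoidAlgebra F N) :
    l (gu F N t * x) = l (gu F N t) * l x ∧ l (x * gu F N t) = l x * l (gu F N t) := by
  have hx : x ∈ span F (Set.range (gu F N)) := by rw [← span_Hm_top, gu_span]; trivial
  induction hx using span_induction with
  | mem y hy =>
    obtain ⟨n, rfl⟩ := hy
    rw [gu_mul, gu_mul, hl, hl, hl, hl]
    exact ht n
  | zero => simp
  | add a b _ _ h1 h2 => simp only [mul_add, add_mul, map_add, h1.1, h1.2, h2.1, h2.2, and_self]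
  | smul a b _ h1 =>
    simp only [mul_smul_comm, smul_mul_assoc, map_smul, h1.1, h1.2, and_self]

theorem zXh_av [CharZero F] {N : Subgroup X} {l : MonoidAlgebra F N →ₗ[F] MonoidAlgebra F X}
    (hl : ∀ n : N, l (gu F N n) = an F U n) {G : Subgroup N}
    (hG : ∀ g ∈ G, (g : X) ∈ Subgroup.normalizer (U : Set X)) :
    l (av F G) = av F (G.map N.subtype) * av F U ∧ ∀ x,
      l (av F G * x) = l (av F G) * l x ∧ l (x * av F G) = l x * l (av F G) := by
  have := Fintype.ofFinite G
  refine ⟨?_, fun x => ?_⟩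
  · have e := av_hom (F := F) (N.subtype.comp G.subtype)
    rw [MonoidHom.range_comp, Subgroup.range_subtype, finsum_eq_sum_of_fintype] at e
    rw [zAv_def (E := G), map_smul, map_sum, inv_smul_eq_iff₀ zAv_card, ← smul_mul_assoc, ← e,
      Finset.sum_mul]
    exact Finset.sum_congr rfl fun g _ => (hl _).trans (an_nrm (hG _ g.2))
  · simp only [zAv_def (E := G), smul_mul_assoc, mul_smul_comm, map_smul, Finset.sum_mul,
      Finset.mul_sum, map_sum]
    exact ⟨congrArg _ (Finset.sum_congr rfl fun g _ => (zXh_exa hl (hk_exa _ (hG _ g.2)) x).1),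
      congrArg _ (Finset.sum_congr rfl fun g _ => (zXh_exa hl (hk_exa _ (hG _ g.2)) x).2)⟩

theorem zXh_gen [CharZero F] (h : Pg p c U D)
    {l : MonoidAlgebra F (Subgroup.normalizer (D : Set X)) →ₗ[F] MonoidAlgebra F X}
    (hl : ∀ n, l (gu F _ n) = an F U n) {a : MonoidAlgebra F X} (ha : a ∈ LaS F U D) :
    ∃ G ≤ D.subgroupOf (Subgroup.normalizer (D : Set X)), ∃ n, a = l (av F G * gu F _ n) := by
  obtain ⟨E, hE, n, hn, rfl⟩ := ha
  refine ⟨E.subgroupOf _, fun _ hx => hE hx, ⟨n, hn⟩, ?_⟩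
  obtain ⟨k1, k2⟩ := zXh_av hl (G := E.subgroupOf _) fun g hg => h.nrm (hE hg)
  rw [(k2 _).1, k1, hl, Subgroup.map_subgroupOf_eq_of_le (hE.trans Subgroup.le_normalizer),
    mul_assoc, (av_an _).1]

theorem zXh_df (hP : PM p O R r GG) (h : Pg p c U D)
    {l : MonoidAlgebra F (Subgroup.normalizer (D : Set X)) →ₗ[F] MonoidAlgebra F X}
    (hl : ∀ n, l (gu F _ n) = an F U n)
    {g : MonoidAlgebra F X →ₗ[F] MonoidAlgebra F (Subgroup.normalizer (D : Set X))}
    (hg : ∀ x, g (l x) = x) {a b : MonoidAlgebra F X} (ha : a ∈ La O U D) (hb : b ∈ La O U D) :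
    a * b - l (g a * g b) ∈ Lk F p c (La O U D) := by
  have := hP.charF
  have sm : ∀ (o : O) z, z ∈ Lk F p c (La O U D) → (o : F) • z ∈ Lk F p c (La O U D) := by
    rintro o _ ⟨y, hy, rfl⟩
    exact ⟨_, smul_mem (span O (LaS F U D)) o hy, smul_comm _ _ _⟩
  have k1 : ∀ G ≤ D.subgroupOf (Subgroup.normalizer (D : Set X)), ∀ x y,
      l x * l y - l (x * y) ∈ Lk F p c (La O U D) →
      l (av F G * x) * l y - l (av F G * x * y) ∈ Lk F p c (La O U D) := by
    intro G hG x y k
    obtain ⟨e1, e2⟩ := zXh_av hl (G := G) fun g hg => h.nrm (hG hg)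
    rw [mul_assoc (av F G), (e2 _).1, (e2 _).1, mul_assoc, ← mul_sub]
    refine (hk_lat hP h).mul_left ?_ k
    rw [e1, ← one_mul (av F U), ← gu_one, ← an_nrm (one_mem _)]
    refine av_La h ?_ (an_La (one_mem _))
    rintro _ ⟨x, hx, rfl⟩
    exact hG hx
  change a ∈ span O (LaS F U D) at ha
  change b ∈ span O (LaS F U D) at hb
  induction ha using span_induction with
  | zero => simp
  | add x y _ _ h1 h2 =>
    have := add_mem h1 h2
    simp only [map_add, add_mul]
    convert this using 1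
    abel
  | smul o x _ h1 =>
    have := sm o _ h1
    change ((o : F) • x) * b - l (g ((o : F) • x) * g b) ∈ _
    simpa only [map_smul, smul_mul_assoc, smul_sub] using this
  | mem a ha =>
    induction hb using span_induction with
    | zero => simp
    | add x y _ _ h1 h2 =>
      have := add_mem h1 h2
      simp only [map_add, mul_add]
      convert this using 1
      abel
    | smul o x _ h1 =>
      have := sm o _ h1
      change a * ((o : F) • x) - l (g a * g ((o : F) • x)) ∈ _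
      simpa only [map_smul, mul_smul_comm, smul_sub] using this
    | mem b hb =>
      obtain ⟨G, hG, n, rfl⟩ := zXh_gen h hl ha
      obtain ⟨G', hG', n', rfl⟩ := zXh_gen h hl hb
      rw [hg, hg]
      refine k1 G hG _ _ ?_
      obtain ⟨-, e2⟩ := zXh_av hl (G := G') fun g hg => h.nrm (hG' hg)
      rw [(e2 _).1, ← mul_assoc, ← (e2 _).2, ← mul_assoc, av_conj]
      refine k1 _ ?_ _ _ ?_
      · rintro _ ⟨x, hx, rfl⟩
        exact zHk_conj (D := D) n.2 (hG' hx)
      · rw [gu_mul, hl, hl, hl]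
        exact hk_df hP h n.2 n'.2

theorem xh_kz (hP : PM p O R r GG) (h2 : p ≠ 2) (h : Pg p c U D) (hm : ¬ p ∣ m)
    (hi : D.relIndex (Subgroup.normalizer (D : Set X)) = p ^ w * m) (hc : w < c) :
    ∃ Θ : Subgroup.normalizer (D : Set X) → MonoidAlgebra F X,
      (∀ x y, Θ (x * y) = Θ x * Θ y) ∧ (∀ x, Θ x - an F U x ∈ Lk F p 1 (La O U D)) ∧
      (∀ t, Exa (fun n : Subgroup.normalizer (D : Set X) => an F U n) t → Θ t = an F U t) ∧
      ∀ (σ : RingAut F) (γ : RingAut (MonoidAlgebra F X))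
        (δ : Subgroup.normalizer (D : Set X) ≃* Subgroup.normalizer (D : Set X)), SL F σ γ →
        (∀ y ∈ La O U D, γ y ∈ La O U D) →
        (∀ x : Subgroup.normalizer (D : Set X), γ (an F U x) = an F U (δ x)) →
          ∀ x, γ (Θ x) = Θ (δ x) := by
  classical
  have := hP.charF
  have hp := hP.prime.ne_zero
  obtain ⟨l, hl⟩ := am_lin (gu_tg (F := F) (X := Subgroup.normalizer (D : Set X))).ind
    fun n : Subgroup.normalizer (D : Set X) => an F U n
  have top : span F (Set.range (gu F (Subgroup.normalizer (D : Set X)))) = ⊤ := by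
    rw [← span_Hm_top, gu_span]
  have inj : Function.Injective l := LinearMap.injective_of_linearIndependent top (by
    rw [show l ∘ gu F _ = _ from funext hl]
    exact an_ind h)
  obtain ⟨g, hg⟩ := l.exists_leftInverse_of_injective (LinearMap.ker_eq_bot.2 inj)
  replace hg : ∀ x, g (l x) = x := fun x => LinearMap.congr_fun hg x
  have rg : ∀ z, z ∈ LinearMap.range l ↔ av F U * z * av F U = z := fun z => by
    constructor
    · rintro ⟨x, rfl⟩
      exact LinearMap.eqOn_span' (f := LinearMap.mulRight F (av F U) ∘ₗ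
        LinearMap.mulLeft F (av F U) ∘ₗ l) (g := l) (by
          rintro _ ⟨n, rfl⟩
          change av F U * l _ * av F U = _
          rw [hl, (av_an _).1, (av_an _).2]) (top.ge trivial)
    · intro e
      rw [← e]
      refine span_le.2 ?_ (an_span h z)
      rintro _ ⟨n, rfl⟩
      exact ⟨_, hl n⟩
  have lg : ∀ z ∈ LinearMap.range l, l (g z) = z := by
    rintro _ ⟨x, rfl⟩
    rw [hg]
  have lr : ∀ z ∈ La O U D, z ∈ LinearMap.range l := by
    intro z hz
    change z ∈ span O (LaS F U D) at hz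
    induction hz using span_induction with
    | mem a ha =>
      obtain ⟨G, -, n, rfl⟩ := zXh_gen h hl ha
      exact ⟨_, rfl⟩
    | zero => exact zero_mem _
    | add x y _ _ h1 h2 => exact add_mem h1 h2
    | smul o x _ h1 => exact smul_mem _ (o : F) h1
  let μ := ((LinearMap.mul F (MonoidAlgebra F X)).compl₁₂ l l).compr₂ g
  have hμ : ∀ x y, l (μ x y) = l x * l y := fun x y => by
    refine lg _ ((rg _).2 ?_)
    have e1 := (rg _).1 ⟨x, rfl⟩
    have e2 := (rg _).1 ⟨y, rfl⟩
    change av F U * (l x * l y) * av F U = l x * l y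
    rw [← e1, ← e2]
    simp only [mul_assoc, av_idem]
    rw [← mul_assoc (av F U) (av F U), av_idem]
  have hL := hk_lat hP h
  have lk := zXh_lk hp l (La O U D)
  have df : ∀ x y, l x ∈ La O U D → l y ∈ La O U D →
      l x * l y - l (x * y) ∈ Lk F p c (La O U D) := fun x y hx hy => by
    have := zXh_df hP h hl hg hx hy
    rwa [hg, hg] at this
  have hG : Gb F p ((La O U D).comap l.toAddMonoidHom) (gu F _) := by
    refine ⟨⟨fun x hx y hy => ?_, fun n hn x hx => ?_, fun x hx => ?_, fun x hx => ?_⟩,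
      inferInstance, gu_mul, gu_one, top, fun x => ?_⟩
    · change l (x * y) ∈ La O U D
      simpa using sub_mem (hL.mul _ hx _ hy) (Lk_le (df x y hx hy))
    · change l _ ∈ La O U D
      rw [map_smul]
      exact hL.inv n hn _ hx
    · obtain ⟨y, hy⟩ := hL.cpl (fun k => l (x k)) fun k => by
        rw [← map_sub]
        exact (lk _ _).1 (hx k)
      obtain ⟨z, hz⟩ : y ∈ LinearMap.range l := by
        simpa using add_mem (lr _ (Lk_le (hy 0))) (LinearMap.mem_range_self l (x 0))
      exact ⟨z, fun k => (lk _ _).2 (by rw [map_sub, hz]; exact hy k)⟩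
    · exact inj ((hL.sep _ fun k => (lk _ _).1 (hx k)).trans (map_zero l).symm)
    · change l _ ∈ La O U D
      rw [hl]
      exact an_La x.2
  have ex : ∀ t, Exa (fun n : Subgroup.normalizer (D : Set X) => an F U n) t →
      Exb (gu F _) μ t := fun t ht x =>
    ⟨inj ((hμ _ _).trans (zXh_exa hl ht x).1.symm), inj ((hμ _ _).trans (zXh_exa hl ht x).2.symm)⟩
  have hA : Aq p c ((La O U D).comap l.toAddMonoidHom)
      (D.subgroupOf (Subgroup.normalizer (D : Set X))) (gu F _) μ :=
    ⟨fun x y z => inj (by simp only [hμ, mul_assoc]),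
      fun x hx y hy => (lk _ _).2 (by rw [map_sub, hμ]; exact df x y hx hy),
      fun d hd => ex d (hk_exa d (h.nrm hd))⟩
  obtain ⟨Θ, h1, h3, h4, h5⟩ := xl_lim hP.prime h2 hG hi hm hc hA
  refine ⟨fun x => l (Θ x), fun x y => (congrArg l (h1 x y)).trans (hμ _ _), fun x => ?_,
    fun t ht => (congrArg l (h4 t (ex t ht))).trans (hl t), fun σ γ δ s1 s2 s3 x => ?_⟩
  · rw [← hl, ← map_sub]
    exact (lk _ _).1 (h3 x)
  obtain ⟨γ', t1, t2⟩ := ga_aut (F := F) σ δ
  have e : ∀ a, l (γ' a) = γ (l a) := fun a =>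
    gu_ext σ ⊤ (l.toAddMonoidHom.comp γ'.toAddMonoidHom) (γ.toAddMonoidHom.comp l.toAddMonoidHom)
      (fun c a => by
        change l (γ' (c • a)) = σ c • l (γ' a)
        rw [t1, map_smul])
      (fun c a => by
        change γ (l (c • a)) = σ c • γ (l a)
        rw [map_smul, s1])
      (fun x _ => by
        change l (γ' (gu F _ x)) = γ (l (gu F _ x))
        rw [t2, hl, hl, s3]) a (gu_span.ge trivial)
  rw [← e, h5 σ γ' δ ⟨t1, t2, fun x y => inj (by simp only [e, hμ, map_mul])⟩ fun y hy => ?_]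
  change l (γ' y) ∈ La O U D
  rw [e]
  exact s2 _ hy

end Pool.Agent.Lib.MP_1ae3da_al.CT.Z
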