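import Pool.Agent.Lib.MP_1ae3da_al.Z.Xt
import Pool.Agent.Lib.MP_1ae3da_al.Z.BW

/-! The inductive condition for split `BN`-pairs, odd `p`. -/

namespace Pool.Agent.Lib.MP_1ae3da_al.SLI

theorem thm_bw (p r : ℕ) (hp : p.Prime) (h2 : p ≠ 2) (hr : r.Prime) (hpr : p ≠ r) (X : Type)
    [Group X] [Finite X] (U : Sylow r X) (hU : (U : Subgroup X) ≠ ⊥) (N T : Subgroup X)
    (hT : T = N ⊓ Subgroup.normalizer (U : Set X)) (hab : ∀ x ∈ T, ∀ y ∈ T, x * y = y * x)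
    (hn : N ≤ Subgroup.normalizer (T : Set X))
    (hB : ∀ x, ∃ u ∈ U, ∃ n ∈ N, ∃ v ∈ U, x = u * n * v)
    (hv : ∀ u ∈ U, u ≠ 1 → padicValNat p (T.relIndex N) <
      padicValNat p ((Subgroup.centralizer {u}).relIndex T)) :
    (∃ R : Sylow p X, (R : Subgroup X) ≤ N) ∧
      ∀ R : Sylow p X, (R : Subgroup X) ≤ N → NSV.IndN p X R N := by
  subst hT
  have : Fact p.Prime := ⟨hp⟩
  have : Fact r.Prime := ⟨hr⟩
  have h : BW p U N := ⟨hpr, hab, hn, hB, hv⟩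
  refine ⟨h.ex_syl, fun R hR => ?_⟩
  have := CT.Z.thm2 p r hp h2 hr hpr X R U h.D (h.le_syl hR)
    (fun x hx y hy => hab x (h.D_le hx) y (h.D_le hy))
    (h.stab R.isPGroup' (h.le_syl hR) hR) (h.D_le.trans inf_le_right)
    (by rw [h.norm_eq]; exact hB) (fun u hu => h.idx_lt R.isPGroup' (h.le_syl hR) hR hu)
    (by rw [h.norm_eq]; exact h.ne_top hU)
  rwa [h.norm_eq] at this

end Pool.Agent.Lib.MP_1ae3da_al.SLI
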