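import Pool.Agent.Lib.MP_1ae3da_al.Z.Mx
import Pool.Agent.Lib.MP_1ae3da_al.Z.Av
import Pool.Agent.Lib.MP_1ae3da_al.Z.Ob
import Pool.Agent.Lib.MP_1ae3da_al.C.TE

/-! The blocks of the corner and their degrees. -/

namespace Pool.Agent.Lib.MP_1ae3da_al.CT.Z

open Submodule

variable {F X : Type} [Field F] [IsAlgClosed F] [CharZero F] [Group X] [Finite X]
  {N U D : Subgroup X} {Γ : Subgroup (RingAut (MonoidAlgebra F X))} {e f f' : MonoidAlgebra F X}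
  {Θ : MonoidAlgebra F X →ₗ[F] MonoidAlgebra F X} {n p c : ℕ}
  {ρ : MonoidAlgebra F X →ₗ[F] Matrix (Fin n) (Fin n) F}

omit [IsAlgClosed F] [CharZero F] [Finite X] in
theorem zIr_top (a : MonoidAlgebra F X) : a ∈ span F (Hm F (gu F X) ⊤) := by
  rw [gu_span]
  exact mem_top

omit [IsAlgClosed F] [CharZero F] [Finite X] in
theorem zIr_cen (hf : f ∈ Irr F (Hm F (gu F X) ⊤)) (a : MonoidAlgebra F X) : f * a = a * f :=
  Cen_comm hf.1 (zIr_top a)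

omit [IsAlgClosed F] [CharZero F] [Finite X] in
theorem zIr_mul (hρ : MM F (Hm F (gu F X) ⊤) f ρ) (a b : MonoidAlgebra F X) :
    ρ (a * b) = ρ a * ρ b := hρ.mul a (zIr_top a) b (zIr_top b)

omit [IsAlgClosed F] [CharZero F] [Finite X] in
theorem zIr_e (h : Cor Γ N e Θ) {a : MonoidAlgebra F X} (ha : a ∈ span F (Hm F (gu F X) N)) :
    e * Θ a = Θ a ∧ Θ a * e = Θ a := by
  have o : (1 : MonoidAlgebra F X) ∈ span F (Hm F (gu F X) N) :=
    subset_span (gu_one (F := F) (X := X) ▸ aga_mem.2 (one_mem N))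
  rw [← h.one, ← h.mul _ o _ ha, ← h.mul _ ha _ o, one_mul, mul_one]
  exact ⟨rfl, rfl⟩

omit [IsAlgClosed F] [CharZero F] [Finite X] in
theorem zIr_ext (h : Cor Γ N e Θ) {a b : MonoidAlgebra F X} (ha : a ∈ span F (Hm F (gu F X) N))
    (hb : b ∈ span F (Hm F (gu F X) N)) (k : Θ a = Θ b) : a = b :=
  sub_eq_zero.1 (h.inj _ (sub_mem ha hb) (by rw [map_sub, k, sub_self]))

omit [IsAlgClosed F] [CharZero F] [Finite X] in
theorem zIr_cut (h : Cor Γ N e Θ) (hf : f ∈ Irr F (Hm F (gu F X) ⊤)) {a y : MonoidAlgebra F X}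
    (ha : a ∈ span F (Hm F (gu F X) N)) (hy : y ∈ span F (Hm F (gu F X) N)) (k : Θ y = f * e) :
    Θ (a * y) = Θ a * f ∧ Θ (y * a) = Θ a * f := by
  rw [h.mul _ ha _ hy, h.mul _ hy _ ha, k, mul_assoc, (zIr_e h ha).1, zIr_cen hf e, ← mul_assoc,
    (zIr_e h ha).2]
  exact ⟨rfl, zIr_cen hf _⟩

theorem Cor.ir_a (h : Cor Γ N e Θ) (hf : f ∈ Irr F (Hm F (gu F X) ⊤)) (h0 : f * e ≠ 0) :
    ∃ f' ∈ Irr F (Hm F (gu F X) N), Θ f' = f * e := by
  obtain ⟨y, hy, k⟩ := h.surj f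
  rw [← zIr_cen hf e, mul_assoc, h.idem] at k
  have mu := gu_span_mul (F := F) N
  refine ⟨y, ⟨⟨hy, fun s hs => ?_⟩, ?_, fun y0 => h0 (by rw [← k, y0, map_zero]), fun z hz => ?_⟩, k⟩
  · have hs' := subset_span (R := F) hs
    exact zIr_ext h (mu _ hy _ hs') (mu _ hs' _ hy)
      ((zIr_cut h hf hs' hy k).2.trans (zIr_cut h hf hs' hy k).1.symm)
  · refine zIr_ext h (mu _ hy _ hy) hy ?_
    rw [(zIr_cut h hf hy hy k).1, k, ← zIr_cen hf, ← mul_assoc, hf.2.1]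
  obtain ⟨n, ρ, hρ⟩ := exists_MM (nice_Hm0 gu_tg ⊤) hf
  obtain ⟨c, hc⟩ := mx_cen (q := ρ e) (z := ρ (Θ z)) (by rw [← zIr_mul hρ, h.idem])
    (by rw [← zIr_mul hρ, ← zIr_mul hρ, (zIr_e h hz.1).1, (zIr_e h hz.1).2]) fun m => by
      obtain ⟨a, -, rfl⟩ := hρ.surj m
      obtain ⟨b, hb, kb⟩ := h.surj a
      simp only [← zIr_mul hρ]
      rw [← kb, ← h.mul _ hz.1 _ hb, ← h.mul _ hb _ hz.1, Cen_comm hz hb]
  refine ⟨c, zIr_ext h (mu _ hz.1 _ hy) (smul_mem _ _ hy) ?_⟩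
  have := hρ.inj (Θ z - c • e) (zIr_top _) (by rw [map_sub, map_smul, hc, sub_self])
  rw [sub_mul, sub_eq_zero] at this
  rw [(zIr_cut h hf hz.1 hy k).1, this, map_smul, k, zIr_cen hf e, smul_mul_assoc]

theorem Cor.ir_b (h : Cor Γ N e Θ) (hf : f' ∈ Irr F (Hm F (gu F X) N)) :
    ∃ f ∈ Irr F (Hm F (gu F X) ⊤), f * e ≠ 0 ∧ Θ f' = f * e := by
  obtain ⟨s, s1, s2⟩ := (nice_Hm0 (gu_tg (F := F) (X := X)) ⊤).irr_sum
  have : ∑ g ∈ s, Θ f' * g ≠ 0 := by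
    rw [s2 _ (zIr_top _)]
    exact fun k => hf.2.2.1 (h.inj _ hf.1.1 k)
  obtain ⟨g, g1, g2⟩ := Finset.exists_ne_zero_of_sum_ne_zero this
  have hg : g ∈ Irr F (Hm F (gu F X) ⊤) := s1 ▸ g1
  have h0 : g * e ≠ 0 := fun k => g2 (by
    rw [← (zIr_e h hf.1.1).2, mul_assoc, ← zIr_cen hg e, k, mul_zero])
  obtain ⟨y, hy, k⟩ := h.ir_a hg h0
  refine ⟨g, hg, h0, ?_⟩
  by_contra hn
  have := Irr_orth hf hy fun k2 => hn (k2 ▸ k)
  exact g2 (by rw [← (zIr_cut h hg hf.1.1 hy.1.1 k).1, this, map_zero])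

theorem Cor.ir_c (h : Cor Γ N e Θ) (hf : f ∈ Irr F (Hm F (gu F X) ⊤))
    (hf' : f' ∈ Irr F (Hm F (gu F X) N)) (h1 : Θ f' = f * e) (hρ : MM F (Hm F (gu F X) ⊤) f ρ) :
    Dg F (Hm F (gu F X) N) f' = (ρ e).rank ^ 2 := by
  have mu := gu_span_mul (F := F) N
  have cut : ∀ a ∈ span F (Hm F (gu F X) N), ρ (Θ (a * f')) = ρ (Θ a) := fun a ha => by
    rw [(zIr_cut h hf ha hf'.1.1 h1).1, zIr_mul hρ, hρ.one, mul_one]
  rw [← mx_dim (q := ρ e) (by rw [← zIr_mul hρ, h.idem]), Dg, ← LinearMap.finrank_range_of_inj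
    (f := (ρ.comp Θ).domRestrict ((span F (Hm F (gu F X) N)).map (LinearMap.mulRight F f')))
    ((injective_iff_map_eq_zero _).2 ?_), LinearMap.range_domRestrict]
  · refine congrArg (fun V : Submodule F (Matrix (Fin n) (Fin n) F) => Module.finrank F V) ?_
    ext m
    constructor
    · rintro ⟨_, ⟨a, ha, rfl⟩, rfl⟩
      refine ⟨ρ (Θ a), Eq.trans ?_ (cut a ha).symm⟩
      change ρ e * (ρ (Θ a) * ρ e) = _
      rw [← zIr_mul hρ, ← zIr_mul hρ, (zIr_e h ha).2, (zIr_e h ha).1]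
    · rintro ⟨m, rfl⟩
      obtain ⟨a, -, rfl⟩ := hρ.surj m
      obtain ⟨b, hb, kb⟩ := h.surj a
      refine ⟨_, ⟨b, hb, rfl⟩, (cut b hb).trans ?_⟩
      change _ = ρ e * (ρ a * ρ e)
      rw [kb, zIr_mul hρ, zIr_mul hρ, mul_assoc]
  · rintro ⟨_, a, ha, rfl⟩ k
    refine Subtype.ext (h.inj (a * f') (mu _ ha _ hf'.1.1) ?_)
    rw [(zIr_cut h hf ha hf'.1.1 h1).1]
    exact hρ.inj _ (zIr_top _) ((cut a ha).symm.trans k)

theorem ir_dg (h : Pg p c U D) (hf : f ∈ Irr F (Hm F (gu F X) ⊤))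
    (hρ : MM F (Hm F (gu F X) ⊤) f ρ) : p ∣ n ↔ p ∣ (ρ (av F U)).rank := by
  classical
  have : Fintype X := Fintype.ofFinite X
  have o : ρ 1 = 1 := by rw [← hρ.one, ← one_mul f, zIr_mul hρ, hρ.one, mul_one]
  let φ : X →* Matrix (Fin n) (Fin n) F :=
    { toFun := fun x => ρ (gu F X x)
      map_one' := by rw [gu_one, o]
      map_mul' := fun x y => by rw [← gu_mul, zIr_mul hρ] }
  let M : AddSubgroup F := (integralClosure ℤ F).toSubring.toAddSubgroup.map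
    (AddMonoidHom.mulLeft (p : F))
  obtain ⟨y, hy, e⟩ := ob_sum (F := F) h.nrm M (fun x => if x = 1 then 0 else (φ x).trace)
    fun u hu => ⟨if u = 1 then 0 else (φ u).trace, by
      have : ∀ d : D, (if (d * u * (d : X)⁻¹ : X) = 1 then 0 else (φ (d * u * (d : X)⁻¹)).trace) =
          if u = 1 then 0 else (φ u).trace := fun d => by
        rw [map_mul, Matrix.trace_mul_comm, ← map_mul, inv_mul_cancel_left]
        simp only [conj_eq_one_iff]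
      simp only [this]
      rw [finsum_eq_sum_of_fintype, Finset.sum_const, Finset.card_univ, Nat.card_eq_fintype_card,
        Nat.cast_smul_eq_nsmul], by
      split_ifs with u1
      · rw [smul_zero]
        exact zero_mem _
      obtain ⟨k, hk⟩ := (dvd_pow_self p h.pos.ne').trans (h.orb u hu u1)
      refine ⟨k * (φ u).trace, (isIntegral_natCast k).mul
        (mx_int (orderOf_pos u) (by rw [← map_pow, pow_orderOf_eq_one, map_one])), ?_⟩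
      rw [hk]
      simp [mul_assoc]⟩
  have cU : (Nat.card U : F) ≠ 0 := Nat.cast_ne_zero.2 Nat.card_pos.ne'
  have e1 : ((Nat.card U * (ρ (av F U)).rank : ℕ) : F) - n = p * y := by
    rw [Nat.cast_mul, ← tpa_trace (by rw [← zIr_mul hρ, av_idem]), av, map_smul, Matrix.trace_smul,
      smul_eq_mul, mul_inv_cancel_left₀ cU, finsum_eq_sum_of_fintype, map_sum, Matrix.trace_sum,
      show (p : F) * y = _ from e, finsum_eq_sum_of_fintype, sub_eq_iff_eq_add,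
      show (n : F) = ∑ u : U, if u = 1 then (φ u).trace else 0 by simp, ← Finset.sum_add_distrib]
    refine Finset.sum_congr rfl fun u _ => ?_
    by_cases u1 : u = 1 <;> simp [u1, φ]
  rw [← (mx_dvd h.prime.ne_zero hy e1).dvd_iff dvd_rfl, h.prime.dvd_mul, or_iff_right h.pU]

theorem ir_p (h : Pg p c U D) (hC : Cor Γ N (av F U) Θ) :
    (∀ f ∈ IrrP F p (Hm F (gu F X) ⊤), ∃ f' ∈ IrrP F p (Hm F (gu F X) N),
      f * av F U ≠ 0 ∧ Θ f' = f * av F U) ∧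
    ∀ f' ∈ IrrP F p (Hm F (gu F X) N), ∃ f ∈ IrrP F p (Hm F (gu F X) ⊤),
      Θ f' = f * av F U := by
  have key : ∀ f ∈ Irr F (Hm F (gu F X) ⊤), ∀ f' ∈ Irr F (Hm F (gu F X) N),
      Θ f' = f * av F U → (p ∣ Dg F (Hm F (gu F X) ⊤) f ↔ p ∣ Dg F (Hm F (gu F X) N) f') :=
    fun f hf f' hf' k => by
      obtain ⟨n, ρ, hρ⟩ := exists_MM (nice_Hm0 gu_tg ⊤) hf
      rw [hC.ir_c hf hf' k hρ, hρ.dimsq (nice_Hm0 gu_tg ⊤) hf, h.prime.prime.dvd_pow_iff_dvd two_ne_zero,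
        h.prime.prime.dvd_pow_iff_dvd two_ne_zero, ir_dg h hf hρ]
  refine ⟨fun f hf => ?_, fun f' hf' => ?_⟩
  · have h0 : f * av F U ≠ 0 := fun k => by
      obtain ⟨n, ρ, hρ⟩ := exists_MM (nice_Hm0 gu_tg ⊤) hf.1
      refine hf.2 ?_
      have := congrArg ρ k
      rw [zIr_mul hρ, hρ.one, one_mul, map_zero] at this
      rw [hρ.dimsq (nice_Hm0 gu_tg ⊤) hf.1, h.prime.prime.dvd_pow_iff_dvd two_ne_zero,
        ir_dg h hf.1 hρ, this, Matrix.rank_zero]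
      exact dvd_zero p
    obtain ⟨f', hf', k⟩ := hC.ir_a hf.1 h0
    exact ⟨f', ⟨hf', fun d => hf.2 ((key f hf.1 f' hf' k).2 d)⟩, h0, k⟩
  · obtain ⟨f, hf, -, k⟩ := hC.ir_b hf'.1
    exact ⟨f, ⟨hf, fun d => hf'.2 ((key f hf f' hf'.1 k).1 d)⟩, k⟩

end Pool.Agent.Lib.MP_1ae3da_al.CT.Z
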