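import Pool.Agent.Lib.MP_1ae3da_al.Z.Ln
import Pool.Agent.Lib.MP_1ae3da_al.Z.Ir
import Pool.Agent.Lib.MP_1ae3da_al.Z.Th

/-! The linked bijection. -/

namespace Pool.Agent.Lib.MP_1ae3da_al.CT.Z

open Submodule

variable {F X : Type} [Field F] [Group X] [Finite X]
  {U D : Subgroup X} {GG : Subgroup (RingAut F)} {e f f' : MonoidAlgebra F X}
  {Θ : MonoidAlgebra F X →ₗ[F] MonoidAlgebra F X} {p c w m : ℕ}

omit [Finite X] in
theorem zLq_aut {a : RingAut (MonoidAlgebra F X)} (ha : a ∈ Ga GG D) : ∃ δ : MulAut X,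
    (∀ x, a (gu F X x) = gu F X (δ x)) ∧
      ∀ x ∈ Subgroup.normalizer (D : Set X), δ x ∈ Subgroup.normalizer (D : Set X) := by
  obtain ⟨-, δ, h1, h2⟩ := ha
  refine ⟨δ, h1, fun x hx y => ?_⟩
  obtain ⟨y, rfl⟩ := δ.surjective y
  rw [← map_inv, ← map_mul, ← map_mul]
  exact (h2 y).trans ((hx y).trans (h2 _).symm)

omit [Finite X] in
theorem zLq_can (x : X) {a b : MonoidAlgebra F X} (k : gu F X x * a = gu F X x * b) : a = b := by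
  have := congrArg (gu F X x⁻¹ * ·) k
  simpa only [← mul_assoc, gu_mul, inv_mul_cancel, gu_one, one_mul] using this

theorem Cor.link [IsAlgClosed F] [CharZero F]
    (h : Cor (Ga GG D) (Subgroup.normalizer (D : Set X)) e Θ)
    (hf : f ∈ Irr F (Hm F (gu F X) ⊤))
    (hf' : f' ∈ Irr F (Hm F (gu F X) (Subgroup.normalizer (D : Set X)))) (h1 : Θ f' = f * e) :
    Link F (Ga GG D ⊓ Fx f) (Hm F (gu F X) ⊤) (Hm F (gu F X) (Subgroup.normalizer (D : Set X)))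
      f f' (Rl (Ga GG D ⊓ Fx f) (Subgroup.normalizer (D : Set X)) e f f' Θ) := by
  have nT := nice_Hm0 (gu_tg (F := F) (X := X)) ⊤
  have nN := nice_Hm0 (gu_tg (F := F) (X := X)) (Subgroup.normalizer (D : Set X))
  have mu := gu_span_mul (F := F) (Subgroup.normalizer (D : Set X))
  have gN : ∀ {x}, x ∈ Subgroup.normalizer (D : Set X) →
      gu F X x ∈ span F (Hm F (gu F X) (Subgroup.normalizer (D : Set X))) := fun hx =>
    subset_span (aga_mem.2 hx)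
  have gT : ∀ x, gu F X x ∈ Hm F (gu F X) ⊤ := fun x => aga_mem.2 trivial
  refine ⟨fun a w w' k => ⟨k.1, k.2.1, k.2.2.1, k.2.2.2.1⟩, fun a ha hl => h.tot hf hf' h1 ha hl,
    ?_, ?_, ?_, ?_, ?_⟩
  · rintro a w w' b v v' ⟨a1, a2, a3, a4, n, hn, a5, a6⟩ ⟨b1, b2, b3, b4, m, hm, b5, b6⟩
    obtain ⟨δ, d1, d2⟩ := zLq_aut a1.1
    refine ⟨mul_mem a1 b1, a2.mul b2, Ln_mul nT hf a2 (Ga_le a1.1).1.2 (Ga_le b1.1).1.2 a3 b3,
      Ln_mul nN hf' a2 (Ga_le a1.1).2 (Ga_le b1.1).2 a4 b4, δ m * n, mul_mem (d2 m hm) hn, ?_, ?_⟩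
    · change a (b e) * _ = _
      rw [← gu_mul, ← mul_assoc, ← d1, ← map_mul, b5, map_mul, mul_assoc, a5, mul_assoc]
    have e1 := a3.2.2.2 _ (gT m⁻¹)
    have e2 := a4.2.2.2 _ (aga_mem.2 (inv_mem hm))
    have m1 := mu _ (gN (inv_mem hn)) _ a4.1
    have m2 := mu _ (gN (inv_mem hm)) _ b4.1
    rw [mul_inv_rev, ← map_inv, ← gu_mul, ← d1, mul_assoc (gu F X n⁻¹) _ (w' * v'),
      ← mul_assoc _ w', ← e2, mul_assoc w', ← mul_assoc _ w', h.mul _ m1 _ m2, ← a6, mul_assoc _ e,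
      (zIr_e h m2).1, ← b6, mul_assoc (gu F X n⁻¹) _ (w * v), ← mul_assoc _ w v, ← e1]
    simp only [mul_assoc]
  · rintro a w w' c hc ⟨a1, a2, a3, a4, n, hn, a5, a6⟩
    refine ⟨a1, a2, Ln_smul a3 hc, Ln_smul a4 hc, n, hn, a5, ?_⟩
    rw [mul_smul_comm, mul_smul_comm, smul_mul_assoc, map_smul, a6]
  · rintro a w w₁ w₂ ⟨-, -, -, a4, n, hn, a5, a6⟩ ⟨-, -, -, b4, m, hm, b5, b6⟩
    refine zLq_can n⁻¹ (zIr_ext h (mu _ (gN (inv_mem hn)) _ a4.1) (mu _ (gN (inv_mem hn)) _ b4.1)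
      (zLq_can n ?_))
    rw [h.indep hn hm a5 b5 b4.1, ← a6, ← b6]
    simp only [← mul_assoc, gu_mul, mul_inv_cancel]
  · rintro a a1 a2 _ ⟨c, hc, x, hx, rfl⟩ k
    have hm : c • gu F X x ∈ Hm F (gu F X) (Subgroup.normalizer (D : Set X)) := (gu_mem hc).2 hx
    refine ⟨a1, a2, Ln_hm nT hf ((gu_mem hc).2 trivial) k, Ln_hm nN hf' hm ?_, x, hx, ?_, ?_⟩
    · rintro _ ⟨d, hd, y, -, rfl⟩
      exact k _ ((gu_mem hd).2 trivial)
    · have := tl_span a2 k (zIr_top e)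
      rw [smul_mul_assoc, mul_smul_comm] at this
      exact (smul_right_injective _ hc this).symm
    · simp only [smul_mul_assoc, mul_smul_comm, map_smul, ← mul_assoc, gu_mul, inv_mul_cancel,
        gu_one, one_mul, h1]
  rintro γ g1 a w w' ⟨a1, a2, a3, a4, n, hn, a5, a6⟩
  obtain ⟨⟨s1, s2⟩, s3⟩ := Ga_le g1.1
  have b1 := mul_mem (mul_mem g1 a1) (inv_mem g1)
  have gf : γ f = f := g1.2
  have gf' : γ f' = f' := zIr_ext h ((span_stb s1 s3).2 hf'.1.1) hf'.1.1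
    (by rw [h.eqv hf.1 hf'.1 h1 g1.1, gf, h1])
  have b3 := ln_stb s1 s2 a3
  have b4 := ln_stb s1 s3 a4
  rw [gf] at b3
  rw [gf'] at b4
  obtain ⟨σ, -, hσ⟩ := s1
  obtain ⟨δ, d1, d2⟩ := zLq_aut g1.1
  obtain ⟨ε, c1, c2⟩ := zLq_aut b1.1
  obtain ⟨k, hk, k1, k2⟩ := h.nat γ g1.1
  refine ⟨b1, hσ.lin a2, b3, b4, (ε k)⁻¹ * δ n * k,
    mul_mem (mul_mem (inv_mem (c2 k hk)) (d2 n hn)) hk, zLq_can (ε k) ?_, zLq_can k ?_⟩
  · have e1 := congrArg (γ * a * γ⁻¹ :) k1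
    have e2 := congrArg γ a5
    rw [map_mul, map_mul, tc_conj, c1] at e1
    rw [map_mul, map_mul, d1] at e2
    rw [← mul_assoc, ← e1, mul_assoc, ← mul_assoc (gu F X (ε k)), gu_mul, mul_assoc (ε k)⁻¹,
      mul_inv_cancel_left, ← gu_mul, ← mul_assoc, e2, mul_assoc, k1, ← mul_assoc]
  have e1 := b3.2.2.2 _ (gT k)
  have e2 := b4.2.2.2 _ (aga_mem.2 hk)
  have e3 := k2 _ (mu _ (gN (inv_mem hn)) _ a4.1)
  rw [c1] at e1 e2
  rw [← a6, map_mul γ, map_mul γ, map_mul γ, d1, mul_assoc _ (γ e), k1] at e3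
  rw [show ((ε k)⁻¹ * δ n * k)⁻¹ = k⁻¹ * δ n⁻¹ * ε k by rw [map_inv]; group, ← gu_mul, ← gu_mul,
    mul_assoc _ _ (γ w'), ← e2, mul_assoc _ _ (γ w), ← e1]
  simp only [← mul_assoc, gu_mul, mul_inv_cancel, one_mul] at e3 ⊢
  exact e3

theorem lq_lk {k : Type} [Field k] {O R : Subring F} {r : F → k} (hP : PM p O R r GG)
    (h : Pg p c U D) (hm : ¬ p ∣ m)
    (hi : D.relIndex (Subgroup.normalizer (D : Set X)) = p ^ w * m) (hc : 2 * w < c) :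
    LK F (Ga GG D) (Hm F (gu F X) ⊤) (Hm F (gu F X) (Subgroup.normalizer (D : Set X)))
      (IrrP F p (Hm F (gu F X) ⊤))
      (IrrP F p (Hm F (gu F X) (Subgroup.normalizer (D : Set X)))) := by
  have := hP.charF
  have := hP.algF
  obtain ⟨Θ, hC⟩ := th_cor hP h hm hi hc
  obtain ⟨i1, i2⟩ := ir_p h hC
  choose! Ω o1 o2 o3 using i1
  refine ⟨Ω, ⟨⟨o1, fun a ha b hb k => by_contra fun hn => o2 a ha ?_, fun f' hf' => ?_⟩,
    fun γ hγ x hx => ?_⟩, fun f hf => ⟨_, hC.link hf.1 (o1 f hf).1 (o3 f hf)⟩⟩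
  · rw [← ha.1.2.1, mul_assoc, ← o3 a ha, k, o3 b hb, ← mul_assoc, Irr_orth ha.1 hb.1 hn, zero_mul]
  · obtain ⟨f, hf, k⟩ := i2 f' hf'
    exact ⟨f, hf, zIr_ext hC (o1 f hf).1.1.1 hf'.1.1.1 ((o3 f hf).trans k.symm)⟩
  obtain ⟨⟨s1, s2⟩, s3⟩ := Ga_le hγ
  have hx' := (irrP_stb s1 s2).2 hx
  refine ⟨hx', zIr_ext hC (o1 _ hx').1.1.1 ((span_stb s1 s3).2 (o1 x hx).1.1.1) ?_⟩
  rw [o3 _ hx', hC.eqv hx.1.1 (o1 x hx).1.1 (o3 x hx) hγ]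

end Pool.Agent.Lib.MP_1ae3da_al.CT.Z
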