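import Pool.Agent.Lib.MP_1ae3da_al.C.ALf2
import Pool.Agent.Lib.MP_1ae3da_al.C.Sys
import Pool.Agent.Lib.MP_1ae3da_al.Z.Lq

/-! The linked bijection for an embedded group algebra. -/

namespace Pool.Agent.Lib.MP_1ae3da_al.CT.Z

open Submodule

variable {F A X S : Type} [Field F] [Ring A] [Algebra F A] [Group X] [Group S] {π : X →* S}
  {u : S → A}

theorem ml_lift {p : ℕ} [CharZero F] [Finite X] {GG : Subgroup (RingAut F)}
    (hX : commutator X = ⊤) (hs0 : Function.Surjective π) (hc0 : π.ker ≤ Subgroup.center X)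
    (hu : TG F u) (N : Subgroup S) {φ : X → A} (h1 : ∀ x y, φ (x * y) = φ x * φ y)
    (h3 : ∀ x, ∃ c : F, c ≠ 0 ∧ φ x = c • u (π x))
    (h4 : ∀ (σ : RingAut F) (γ : RingAut A), SL F σ γ → γ ∈ Stb (Hm F u ⊤) →
      ∃ a : MulAut X, ∀ x, φ (a x) = γ (φ x))
    (hl : ML F p GG (Hm F (gu F X) ⊤) (Hm F (gu F X) (N.comap π))) :
    ML F p GG (Hm F u ⊤) (Hm F u N) := by
  obtain ⟨Φ, ε, hT, hΦ, hε⟩ := lf_data hs0 hc0 hu h1 h3
  have him : ∀ K : Subgroup S, Φ '' Hm F (gu F X) (K.comap π) = Hm F u K := fun K => by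
    ext a
    constructor
    · rintro ⟨_, ⟨c, hc, x, hx, rfl⟩, rfl⟩
      obtain ⟨d, hd, e⟩ := h3 x
      rw [map_smul, hΦ, e]
      exact Hm_smul hc (Hm_smul hd (mem_Hm hx))
    · rintro ⟨c, hc, t, ht, rfl⟩
      obtain ⟨x, rfl⟩ := hs0 t
      obtain ⟨d, hd, e⟩ := h3 x
      refine ⟨(c * d⁻¹) • gu F X x, 
        Hm_smul (mul_ne_zero hc (inv_ne_zero hd)) (mem_Hm ht), ?_⟩
      rw [map_smul, hΦ, e, smul_smul, inv_mul_cancel_right₀ hd]
  have hπ : ∀ x y, φ x = φ y → π x = π y := fun x y e => by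
    obtain ⟨c, hc, e1⟩ := h3 x
    obtain ⟨d, -, e2⟩ := h3 y
    exact (hu.eq_of hc (e1.symm.trans (e.trans e2))).1
  have hN : ∀ x, φ x ∈ Hm F u N ↔ x ∈ N.comap π := fun x => by
    obtain ⟨c, hc, e⟩ := h3 x
    rw [e, hu.smul_mem_Hm hc]; rfl
  have hker : π.ker ≤ N.comap π := fun z hz => by
    rw [Subgroup.mem_comap, MonoidHom.mem_ker.mp hz]; exact one_mem _
  have hH : Ht Φ (SG GG A ⊓ Stb (Hm F u ⊤) ⊓ Stb (Hm F u N))
      (SG GG _ ⊓ Stb (Hm F (gu F X) ⊤) ⊓ Stb (Hm F (gu F X) (N.comap π))) (Hm F (gu F X) ⊤)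
      (Hm F (gu F X) (N.comap π)) fun γ δ => ∃ σ ∈ GG, SL F σ γ ∧ SL F σ δ ∧ ∃ a : MulAut X,
        (∀ x, δ (gu F X x) = gu F X (a x)) ∧ ∀ x, φ (a x) = γ (φ x) := by
    refine ⟨?_, ?_, ?_, ?_, ?_, ?_, ?_, ?_⟩
    · rintro γ ⟨⟨⟨σ, hσ, hs⟩, hγ⟩, -⟩
      obtain ⟨a, ha⟩ := h4 σ γ hs hγ
      obtain ⟨δ, hδ, hδ'⟩ := lf_aut σ a
      exact ⟨δ, σ, hσ, hs, hδ, a, hδ', ha⟩
    · rintro γ ⟨-, hγ⟩ δ ⟨σ, hσ, -, hδ, a, hδ', ha⟩
      have k : ∀ x, ∃ c : F, c ≠ 0 ∧ δ (gu F X x) = c • gu F X (a x) := fun x =>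
        ⟨1, one_ne_zero, by rw [hδ', one_smul]⟩
      refine ⟨⟨⟨σ, hσ, hδ⟩, (lf_tg.stb_iff hδ k _).mpr ?_⟩, (lf_tg.stb_iff hδ k _).mpr ?_⟩
      · exact Subgroup.map_top_of_surjective _ a.surjective
      · have k2 : ∀ x, a x ∈ N.comap π ↔ x ∈ N.comap π := fun x => by
          rw [← hN, ← hN, ha]; exact hγ _
        ext x
        exact ⟨fun ⟨y, hy, e⟩ => e ▸ (k2 y).mpr hy,
          fun hx => ⟨a.symm x, (k2 _).mp (by simpa using hx), by simp⟩⟩
    · rintro γ δ ⟨σ, -, hs, hδ, a, hδ', ha⟩ b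
      induction b using lf_ind with
      | h0 => simp
      | ha b b' k k' => simp only [map_add, k, k']
      | hs d y => rw [hδ, map_smul, map_smul, hs, hδ', hΦ, hΦ, ha]
    · rintro γ δ δ' ⟨σ, -, hs, hδ, a, k1, k2⟩ ⟨σ', -, hs', hδ', a', k3, k4⟩
      obtain rfl := lf_sl_eq hs hs' (hu.ne 1)
      obtain rfl : a = a' := uce_aut_ext hX hc0 fun x => hπ _ _ (by rw [k2, k4])
      refine RingEquiv.ext fun b => ?_
      induction b using lf_ind with
      | h0 => simp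
      | ha b b' k k' => simp only [map_add, k, k']
      | hs d y => rw [hδ, hδ', k1, k3]
    · rintro γ δ γ' δ' ⟨σ, hσ, hs, hδ, a, k1, k2⟩ ⟨σ', hσ', hs', hδ', a', k3, k4⟩
      refine ⟨σ * σ', mul_mem hσ hσ', fun c x => ?_, fun c x => ?_, a * a', fun x => ?_,
        fun x => ?_⟩
      · change γ (γ' (c • x)) = σ (σ' c) • γ (γ' x)
        rw [hs', hs]
      · change δ (δ' (c • x)) = σ (σ' c) • δ (δ' x)
        rw [hδ', hδ]
      · change δ (δ' _) = gu F X (a (a' x))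
        rw [k3, k1]
      · change φ (a (a' x)) = γ (γ' _)
        rw [k2, k4]
    · rintro γ δ ⟨σ, hσ, hs, hδ, a, k1, k2⟩
      refine ⟨σ⁻¹, inv_mem hσ, lf_sl_inv hs, lf_sl_inv hδ, a⁻¹, fun x => ?_, fun x => ?_⟩
      · change δ.symm _ = _
        rw [RingEquiv.symm_apply_eq, k1, MulAut.apply_inv_self]
      · change _ = γ.symm _
        rw [RingEquiv.eq_symm_apply, ← k2, MulAut.apply_inv_self]
    · rintro γ δ ⟨σ, -, hs, hδ, -⟩ hl'
      obtain rfl : σ = 1 := lf_sl_eq hs hl' (hu.ne 1)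
      exact hδ
    · rintro γ δ ⟨σ, -, hs, hδ, a, k1, k2⟩ _ ⟨c, hc, y, -, rfl⟩ hm _ ⟨d, hd, x, -, rfl⟩
      have hne : ∀ x, φ x ≠ 0 := fun x => by
        obtain ⟨c, hc, e⟩ := h3 x
        rw [e]; exact smul_ne_zero hc (hu.ne _)
      have k3 : ∀ (d : F), d ≠ 0 → ∀ x, d • φ (y * x) = σ d • φ (a x * y) := fun d hd x => by
        have e := hm _ (Hm_smul hd (mem_Hm (Subgroup.mem_top x)))
        rw [map_smul, map_smul, hΦ, hΦ, hs, ← k2, smul_mul_smul_comm, smul_mul_smul_comm,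
          ← h1, ← h1, mul_comm (σ d), mul_smul, mul_smul] at e
        exact smul_right_injective A hc e
      have k4 : ∀ x, φ (y * x) = φ (a x * y) := fun x => by
        simpa using k3 1 one_ne_zero x
      have k5 : a = MulAut.conj y := uce_aut_ext hX hc0 fun x => by
        have e := hπ _ _ (k4 x)
        rw [map_mul, map_mul] at e
        simp [e]
      have k6 : σ d = d := by
        have e := k3 d hd x
        rw [k4] at e
        exact (smul_left_injective F (hne _) e).symm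
      rw [hδ, k1, k6, smul_mul_smul_comm, smul_mul_smul_comm, lf_mul, lf_mul, k5, mul_comm c]
      simp
  have key := lk_transport (p := p) (GG := GG) hT hH (inf_le_left.trans inf_le_left)
    (fun b _ => lf_span _) (fun b hb => lf_tg.span_mul hb (span_Hm_mono hker hε))
    (mem_Hm (u := gu F X) (one_mem _)) (span_mono ?_ hε) hl
  · rw [him N, ← Subgroup.comap_top π, him ⊤] at key
    exact key
  · rintro _ ⟨c, hc, z, hz, rfl⟩
    refine ⟨Hm_smul hc (mem_Hm (hker hz)), lf_span _, ?_⟩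
    rintro _ ⟨d, -, x, -, rfl⟩
    rw [smul_mul_smul_comm, smul_mul_smul_comm, lf_mul, lf_mul, mul_comm c,
      Subgroup.mem_center_iff.mp (hc0 hz) x]

theorem ml_emb {p : ℕ} [CharZero F] [Finite X] {GG : Subgroup (RingAut F)}
    (hX : commutator X = ⊤) {u : X → A} (hu : TG F u) (hm : ∀ x y, u x * u y = u (x * y))
    (N : Subgroup X) (hl : ML F p GG (Hm F (gu F X) ⊤) (Hm F (gu F X) N)) :
    ML F p GG (Hm F u ⊤) (Hm F u N) := by
  refine ml_lift (π := MonoidHom.id X) hX Function.surjective_id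
    (fun z hz => by rw [show z = 1 from hz]; exact one_mem _) hu N (fun x y => (hm x y).symm)
    (fun x => ⟨1, one_ne_zero, (one_smul _ _).symm⟩) (fun σ γ hs hγ => ?_)
    (by rwa [Subgroup.comap_id])
  obtain ⟨a, ha⟩ := hu.aut hs hγ
  choose c hc e using ha
  have m (x y) : c (x * y) = c x * c y := (hu.eq_of (y := a x * a y) (hc _) (by
    rw [← e, ← hm x y, map_mul, e, e, smul_mul_smul_comm, hm])).2
  let χ : X →* Fˣ := MonoidHom.mk' (fun x => Units.mk0 (c x) (hc x)) fun x y => Units.ext (m x y)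
  refine ⟨a, fun x => ?_⟩
  have : χ x = 1 := Abelianization.commutator_subset_ker χ (hX.ge trivial)
  rw [e, show c x = 1 from congrArg Units.val this, one_smul]

/-- an automorphism that stabilises the normaliser of `D` stabilises `D`. -/
theorem ml_stab {p : ℕ} [Fact p.Prime] [Finite X] (R : Sylow p X) {D : Subgroup X}
    (hst : ∀ γ : MulAut X, (∀ x, γ x ∈ R ↔ x ∈ R) → ∀ x, γ x ∈ D ↔ x ∈ D) (δ : MulAut X)
    (h : ∀ x, δ x ∈ Subgroup.normalizer (D : Set X) ↔ x ∈ Subgroup.normalizer (D : Set X)) (x : X) :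
    δ x ∈ D ↔ x ∈ D := by
  have hR : (R : Subgroup X) ≤ Subgroup.normalizer (D : Set X) := fun g hg =>
    Subgroup.mem_normalizer_iff.2 fun y => (hst (MulAut.conj g) (fun z =>
      (Subgroup.mem_normalizer_iff.1 (Subgroup.le_normalizer hg) z).symm) y).symm
  have hR' : ((δ • R : Sylow p X) : Subgroup X) ≤ Subgroup.normalizer (D : Set X) := by
    rintro _ ⟨y, hy, rfl⟩
    exact (h y).2 (hR hy)
  obtain ⟨n, hn⟩ := MulAction.exists_smul_eq (Subgroup.normalizer (D : Set X))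
    ((δ • R).subtype hR') (R.subtype hR)
  have k : ∀ z, (MulAut.conj (n : X) * δ) z ∈ R ↔ z ∈ R := by
    have e : (R : Subgroup X).map (MulAut.conj (n : X) * δ).toMonoidHom ≤ R := by
      rintro _ ⟨y, hy, rfl⟩
      have h1 : (⟨δ y, (h y).2 (hR hy)⟩ : Subgroup.normalizer (D : Set X)) ∈
          (δ • R).subtype hR' := ⟨y, hy, rfl⟩
      have h2 : n * ⟨δ y, (h y).2 (hR hy)⟩ * n⁻¹ ∈ R.subtype hR := by
        rw [← hn]; exact ⟨_, h1, rfl⟩
      exact h2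
    have e2 := Subgroup.eq_of_le_of_card_ge e (Nat.card_congr (Subgroup.equivMapOfInjective _ _
      (MulAut.conj (n : X) * δ).injective).toEquiv).le
    intro z
    refine ⟨fun hz => ?_, fun hz => e ⟨z, hz, rfl⟩⟩
    obtain ⟨y, hy, e3⟩ := e2.ge hz
    exact (MulAut.conj (n : X) * δ).injective e3 ▸ hy
  exact (Subgroup.mem_normalizer_iff.1 n.2 (δ x)).trans (hst _ k x)

/-- the core for an embedded perfect group. -/
theorem ml_core {p r : ℕ} {k : Type} [Field k] {O R' : Subring F} {r' : F → k}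
    {GG : Subgroup (RingAut F)} (hP : PM p O R' r' GG) (hr : r.Prime) (hpr : p ≠ r) [Finite X]
    (hX : commutator X = ⊤) {u : X → A} (hu : TG F u) (hm : ∀ x y, u x * u y = u (x * y))
    (R : Sylow p X) (U : Sylow r X) (D : Subgroup X) (hDR : D ≤ R)
    (hab : ∀ x ∈ D, ∀ y ∈ D, x * y = y * x)
    (hst : ∀ γ : MulAut X, (∀ x, γ x ∈ R ↔ x ∈ R) → ∀ x, γ x ∈ D ↔ x ∈ D)
    (hDU : D ≤ Subgroup.normalizer (U : Set X))
    (hB : ∀ x, ∃ u ∈ U, ∃ n ∈ Subgroup.normalizer (D : Set X), ∃ v ∈ U, x = u * n * v)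
    (hc : ∀ u ∈ U, u ≠ 1 → D.relIndex R ^ 2 < (Subgroup.centralizer {u}).relIndex D) :
    ML F p GG (Hm F u ⊤) (Hm F u (Subgroup.normalizer (D : Set X))) := by
  have := hP.charF
  have : Fact p.Prime := ⟨hP.prime⟩
  obtain ⟨w, m, hm', hi, hg⟩ := ob_pg hP.prime hr hpr R U hDR hab hst hDU hB hc
  refine ml_emb hX hu hm _ ((lq_lk hP hg hm' hi (Nat.lt_succ_self _)).mono ?_)
  rintro γ ⟨⟨⟨σ, hσ, h1⟩, h2⟩, h3⟩
  obtain ⟨δ, hδ⟩ := ga_perf hX h1 h2
  exact ⟨⟨σ, hσ, h1⟩, δ, hδ, ml_stab R hst δ ((ga_stb h1 hδ _).1 h3)⟩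

end Pool.Agent.Lib.MP_1ae3da_al.CT.Z
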