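import Pool.Agent.Lib.MP_1ae3da_al.Z.Cl9

/-! `Sp_2k(q)` and `SU_m(q)` are perfect when an odd prime divides `q - 1`. -/

namespace Pool.Agent.Lib.MP_1ae3da_al.SLI

open Matrix

variable {F : Type} [Field F] {m : ℕ}

theorem Frm.perf [Finite F] {φ : F →+* F} {η d : F} (h : Frm φ η d) (hm : 2 ≤ m) {p r c : ℕ}
    [hp : Fact p.Prime] [Fact r.Prime] [CharP F r] (h2 : p ≠ 2) (hpr : p ≠ r) {z : Fˣ}
    (hz : φ z = z) (hk : ∀ s, z ^ (2 * s) = 1 → p ^ c ∣ s)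
    (hv : padicValNat p (m / 2).factorial < c)
    (hN : Even m ∨ η = 1 ∧ ∀ s, φ s = s → ∃ c, c * φ c = s) {A : Type} [Group A]
    (e : h.G m ≃* A) : commutator A = ⊤ := by
  have hC := h.clo (m := m) h2 hz hk hv
  obtain ⟨U, hU'⟩ := hC.syl (r := r)
  have hz2 : z ^ 2 ≠ 1 := fun e => by
    have := hk 1 (by rwa [mul_one])
    rw [Nat.dvd_one, pow_eq_one_iff] at this
    exact this.elim hp.out.ne_one (by omega)
  have hU : ∀ u ∈ US m F, u ∈ h.G m → u ∈ ⁅h.G m, h.G m⁆ := fun u hu hG => by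
    rw [← Subgroup.map_subtype_commutator]
    exact ⟨⟨u, hG⟩, (hC.bw hpr hU').U_comm (hU'.ge hu), rfl⟩
  let a : Fin m := ⟨0, by omega⟩
  have ha : a ≠ a.rev := fun e => by
    have := congrArg Fin.val e
    rw [Fin.val_rev] at this
    simp only [a] at this
    omega
  have hM : ∀ n ∈ h.G m, ∀ σ, IsMon n.1 σ → n ∈ ⁅h.G m, h.G m⁆ := fun n hn σ hσ => by
    by_cases c1 : ∃ k : Fin m, k = k.rev
    swap
    · exact h.mon_C hz hz2 ha _ n hn σ hσ (fun k hk => absurd ⟨k, hk⟩ c1) le_rfl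
    obtain ⟨k, hk'⟩ := c1
    have hv' := congrArg Fin.val hk'
    rw [Fin.val_rev] at hv'
    obtain ⟨rfl, hN'⟩ := hN.resolve_left (by rintro ⟨t, ht⟩; omega)
    have hmid : ∀ {y : SLm m F}, y ∈ h.G m → ∀ {s}, IsMon y.1 s → s k = k := fun hy s hs =>
      mid_eq (by rw [← iso_rev φ h.ep_ne hy hs, ← hk']) hk'
    have hν := th_dg φ h.ep_ne hσ (a := k) (hk' ▸ hmid hn hσ)
    rw [(th_fix φ h.ep_ne).mpr hn, ← hk'] at hν
    obtain ⟨y, hy, s, hs, e⟩ := h.ex_mid hz hz2 hN' hU (a := a) (k := k)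
      (by rw [Fin.lt_def]; simp only [a]; omega) hk' (ν := φ (n.1 k k))
      (by rw [h.inv, mul_comm, hν])
    refine (Subgroup.mul_mem_cancel_right _ hy).mp (h.mon_C hz hz2 ha _ _
      (mul_mem hn (comm_le _ hy)) _ (mon_mul hσ hs) (fun l hl => ?_) le_rfl)
    rw [mid_eq hl hk', vmul, mon_dg hσ _ (hmid hn hσ), e, hν]
  have h1 : commutator (h.G m) = ⊤ := eq_top_iff.mpr fun x _ => by
    obtain ⟨u, hu, n, ⟨σ, hσ⟩, v, hv, g1, g2, g3, e⟩ := hC.cl x.1 x.2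
    have := mul_mem (mul_mem (hU u hu g1) (hM n g2 σ hσ)) (hU v hv g3)
    rw [← e, ← Subgroup.map_subtype_commutator] at this
    obtain ⟨y, hy, e'⟩ := this
    exact Subtype.ext e' ▸ hy
  have := congrArg (Subgroup.map e.toMonoidHom) h1
  rwa [commutator_def, Subgroup.map_commutator, Subgroup.map_top_of_surjective _ e.surjective]
    at this

theorem sp_perf (F : Type) [Field F] [Fintype F] {k : ℕ} (hk : 1 ≤ k) (p : ℕ) [hp : Fact p.Prime]
    (h2 : p ≠ 2) (hv : padicValNat p k.factorial < padicValNat p (Fintype.card F - 1)) :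
    commutator (symplecticGroup (Fin k) F) = ⊤ := by
  obtain ⟨r, hr⟩ := CharP.exists F
  have : Fact r.Prime := ⟨CharP.char_is_prime F r⟩
  have hq : p ∣ Fintype.card F - 1 := dvd_of_one_le_padicValNat (by omega)
  obtain ⟨z, -, hz⟩ := ex_root (F := F) h2 dvd_rfl
  exact frm_sp.perf (r := r) (by omega) h2 (ne_char hp.out hq) rfl hz
    (by rwa [show (k + k) / 2 = k by omega]) (.inl ⟨k, rfl⟩) (spIso k F)

theorem su_perf (F : Type) [Field F] [Fintype F] [StarRing F] {q : ℕ}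
    (hq : Fintype.card F = q ^ 2) (hs : ∀ x : F, star x = x ^ q) {m : ℕ} (hm : 2 ≤ m) (p : ℕ)
    [hp : Fact p.Prime] (h2 : p ≠ 2)
    (hv : padicValNat p (m / 2).factorial < padicValNat p (q - 1)) :
    commutator (specialUnitaryGroup (Fin m) F) = ⊤ := by
  obtain ⟨r, hr⟩ := CharP.exists F
  have : Fact r.Prime := ⟨CharP.char_is_prime F r⟩
  have h1 : p ∣ q - 1 := dvd_of_one_le_padicValNat (by omega)
  obtain ⟨d, h, hx, hN⟩ := su_data hq hs
  obtain ⟨z, hz, hz'⟩ := su_root hq hs h2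
  obtain ⟨e⟩ := su_iso h hx hN m
  exact h.perf (r := r) hm h2 (ne_char hp.out (card_sub hq ▸ h1.mul_left _)) hz hz' hv
    (.inr ⟨rfl, hN⟩) e

end Pool.Agent.Lib.MP_1ae3da_al.SLI
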