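import Pool.Agent.Lib.MP_1ae3da_al.Z.All
import Pool.Agent.Lib.MP_1ae3da_al.Z.Xh

/-! The inductive condition from a Bruhat decomposition, weaker bound for odd `p`. -/

namespace Pool.Agent.Lib.MP_1ae3da_al.CT.Z

open Submodule

section
variable {F k X : Type} [Field F] [Field k] [Group X] [Finite X] {U D : Subgroup X}
  {p c w m : ℕ} {O R : Subring F} {r : F → k} {GG : Subgroup (RingAut F)}

theorem th_cor2 (hP : PM p O R r GG) (hp2 : p ≠ 2) (h : Pg p c U D) (hm : ¬ p ∣ m)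
    (hi : D.relIndex (Subgroup.normalizer (D : Set X)) = p ^ w * m) (hc : w < c) :
    ∃ Θ, Cor (Ga GG D) (Subgroup.normalizer (D : Set X)) (av F U) Θ := by
  classical
  have := hP.charF
  have := Fintype.ofFinite (Subgroup.normalizer (D : Set X))
  obtain ⟨Θ, h1, h2, h3, h4⟩ := xh_kz hP hp2 h hm hi hc
  have h3' : ∀ t : Subgroup.normalizer (D : Set X), (t : X) ∈ Subgroup.normalizer (U : Set X) →
      Θ t = gu F X t * av F U := fun t ht => (h3 t (hk_exa t ht)).trans (an_nrm ht)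
  obtain ⟨hI, hS⟩ := th_bas hP h h1 h2 h3'
  obtain ⟨T, hT⟩ := am_lin (gs_ind (F := F) (Subgroup.normalizer (D : Set X))) Θ
  have hT' : ∀ x (hx : x ∈ Subgroup.normalizer (D : Set X)), T (gu F X x) = Θ ⟨x, hx⟩ :=
    fun x hx => hT ⟨x, hx⟩
  have hsp : span F (Hm F (gu F X) (Subgroup.normalizer (D : Set X))) =
      span F (Set.range (gs F (Subgroup.normalizer (D : Set X)))) := by
    rw [gs_hm, span_Hm_top]
  refine ⟨T, av_idem, ?_, ?_, ?_, ?_, ?_, ?_⟩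
  · rw [← gu_one, hT' 1 (one_mem _), h3' _ (one_mem _)]
    exact (congrArg (· * av F U) gu_one).trans (one_mul _)
  · intro a ha b hb
    rw [hsp] at ha hb
    have k : ∀ x, T (gs F (Subgroup.normalizer (D : Set X)) x * b) = Θ x * T b := fun x =>
      LinearMap.eqOn_span' (f := T ∘ₗ LinearMap.mulLeft F (gs F _ x))
        (g := LinearMap.mulLeft F (Θ x) ∘ₗ T) (by
          rintro _ ⟨y, rfl⟩
          change T (gs F _ x * gs F _ y) = Θ x * T (gs F _ y)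
          rw [gs_mul, hT, hT, h1]) hb
    exact LinearMap.eqOn_span' (f := T ∘ₗ LinearMap.mulRight F b)
      (g := LinearMap.mulRight F (T b) ∘ₗ T) (by
        rintro _ ⟨x, rfl⟩
        change T (gs F _ x * b) = T (gs F _ x) * T b
        rw [k, hT]) ha
  · intro a ha h0
    rw [hsp, mem_span_range_iff_exists_fun] at ha
    obtain ⟨f, rfl⟩ := ha
    simp only [map_sum, map_smul, hT] at h0
    exact Finset.sum_eq_zero fun i _ => by
      rw [Fintype.linearIndependent_iff.1 hI f h0 i, zero_smul]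
  · intro z
    obtain ⟨f, hf⟩ := (mem_span_range_iff_exists_fun F).1 (hS z)
    refine ⟨∑ i, f i • gs F _ i, ?_, ?_⟩
    · rw [hsp]
      exact sum_mem fun i _ => smul_mem _ _ (subset_span ⟨i, rfl⟩)
    · simp only [map_sum, map_smul, hT, hf]
  · intro t ht e
    rw [hT' t ht]
    exact h3' _ (av_comm.1 e)
  · rintro γ ⟨⟨σ, hσ, hγ⟩, δ, hδ, hD⟩
    obtain ⟨n, hn, hU⟩ := h.cnj δ hD
    have ed : ∀ x, (MulAut.conj n⁻¹ * δ) x = n⁻¹ * δ x * n := fun x => by simp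
    obtain ⟨γ', hγ', hδ'⟩ := ga_aut (F := F) σ (MulAut.conj n⁻¹ * δ)
    have hD' : ∀ x, (MulAut.conj n⁻¹ * δ) x ∈ D ↔ x ∈ D := fun x => by
      rw [← hD x]
      exact ((Subgroup.mem_normalizer_iff.1 (inv_mem hn)) (δ x)).symm
    have hU' : ∀ x, (MulAut.conj n⁻¹ * δ) x ∈ U ↔ x ∈ U := fun x => by rw [ed, hU]
    obtain ⟨k1, k2, k3⟩ := hk_map hP hσ hγ' hδ' hD' hU'
    have k4 : ∀ a, γ a * gu F X n = gu F X n * γ' a := fun a =>
      gu_ext σ ⊤ ((AddMonoidHom.mulRight (gu F X n)).comp γ.toAddMonoidHom)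
        ((AddMonoidHom.mulLeft (gu F X n)).comp γ'.toAddMonoidHom)
        (fun c a => by
          change γ (c • a) * _ = σ c • (γ a * _)
          rw [hγ, smul_mul_assoc])
        (fun c a => by
          change _ * γ' (c • a) = σ c • (_ * γ' a)
          rw [hγ', mul_smul_comm])
        (fun x _ => by
          change γ (gu F X x) * _ = _ * γ' (gu F X x)
          rw [hδ, hδ', gu_mul, gu_mul, ed]
          congr 1
          group) a (by rw [gu_span]; trivial)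
    have k5 := h4 σ γ' (resA _ _ (zTh_nrm hD')) hγ' k3 fun x => k2 x
    refine ⟨n, hn, by rw [k4, k1], fun a ha => ?_⟩
    rw [k4, mul_assoc, k4, ← mul_assoc, gu_mul, inv_mul_cancel, gu_one, one_mul]
    congr 1
    exact gu_ext σ _ (γ'.toAddMonoidHom.comp T.toAddMonoidHom)
      (T.toAddMonoidHom.comp γ'.toAddMonoidHom)
      (fun c a => by
        change γ' (T (c • a)) = σ c • γ' (T a)
        rw [map_smul, hγ'])
      (fun c a => by
        change T (γ' (c • a)) = σ c • T (γ' a)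
        rw [hγ', map_smul])
      (fun x hx => by
        change γ' (T (gu F X x)) = T (γ' (gu F X x))
        rw [hT' x hx, k5, hδ', hT' _ ((zTh_nrm hD' x).2 hx)]
        rfl) a ha

theorem lq_lk2 (hP : PM p O R r GG) (hp2 : p ≠ 2)
    (h : Pg p c U D) (hm : ¬ p ∣ m)
    (hi : D.relIndex (Subgroup.normalizer (D : Set X)) = p ^ w * m) (hc : w < c) :
    LK F (Ga GG D) (Hm F (gu F X) ⊤) (Hm F (gu F X) (Subgroup.normalizer (D : Set X)))
      (IrrP F p (Hm F (gu F X) ⊤))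
      (IrrP F p (Hm F (gu F X) (Subgroup.normalizer (D : Set X)))) := by
  have := hP.charF
  have := hP.algF
  obtain ⟨Θ, hC⟩ := th_cor2 hP hp2 h hm hi hc
  obtain ⟨i1, i2⟩ := ir_p h hC
  choose! Ω o1 o2 o3 using i1
  refine ⟨Ω, ⟨⟨o1, fun a ha b hb k => by_contra fun hn => o2 a ha ?_, fun f' hf' => ?_⟩,
    fun γ hγ x hx => ?_⟩, fun f hf => ⟨_, hC.link hf.1 (o1 f hf).1 (o3 f hf)⟩⟩
  · rw [← ha.1.2.1, mul_assoc, ← o3 a ha, k, o3 b hb, ← mul_assoc, Irr_orth ha.1 hb.1 hn, zero_mul]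
  · obtain ⟨f, hf, k⟩ := i2 f' hf'
    exact ⟨f, hf, zIr_ext hC (o1 f hf).1.1.1 hf'.1.1.1 ((o3 f hf).trans k.symm)⟩
  obtain ⟨⟨s1, s2⟩, s3⟩ := Ga_le hγ
  have hx' := (irrP_stb s1 s2).2 hx
  refine ⟨hx', zIr_ext hC (o1 _ hx').1.1.1 ((span_stb s1 s3).2 (o1 x hx).1.1.1) ?_⟩
  rw [o3 _ hx', hC.eqv hx.1.1 (o1 x hx).1.1 (o3 x hx) hγ]

end

section
variable {X : Type} [Group X] [Finite X] {D : Subgroup X}

theorem ob_pg2 {p r : ℕ} (hp : p.Prime) (hr : r.Prime) (hpr : p ≠ r) (R : Sylow p X) (U : Sylow r X)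
    (hDR : D ≤ R) (hab : ∀ x ∈ D, ∀ y ∈ D, x * y = y * x)
    (hst : ∀ γ : MulAut X, (∀ x, γ x ∈ R ↔ x ∈ R) → ∀ x, γ x ∈ D ↔ x ∈ D)
    (hDU : D ≤ Subgroup.normalizer (U : Set X))
    (hB : ∀ x, ∃ u ∈ U, ∃ n ∈ Subgroup.normalizer (D : Set X), ∃ v ∈ U, x = u * n * v)
    (hc : ∀ u ∈ U, u ≠ 1 → D.relIndex R < (Subgroup.centralizer {u}).relIndex D) :
    ∃ w m : ℕ, ¬ p ∣ m ∧ D.relIndex (Subgroup.normalizer (D : Set X)) = p ^ w * m ∧
      Pg p (w + 1) U D := by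
  have : Fact p.Prime := ⟨hp⟩
  have : Fact r.Prime := ⟨hr⟩
  have hRN : (R : Subgroup X) ≤ Subgroup.normalizer (D : Set X) := fun g hg =>
    Subgroup.mem_normalizer_iff.2 fun x => (hst (MulAut.conj g) (fun y =>
      (Subgroup.mem_normalizer_iff.1 (Subgroup.le_normalizer hg) y).symm) x).symm
  have hD : IsPGroup p D := R.isPGroup'.to_le hDR
  obtain ⟨w, hw⟩ := R.isPGroup'.index (D.subgroupOf R)
  refine ⟨w, (R : Subgroup X).relIndex (Subgroup.normalizer (D : Set X)),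
    fun h => R.not_dvd_index (h.trans (Subgroup.relIndex_dvd_index_of_le hRN)), ?_,
    hp, Nat.succ_pos _, fun h => ?_, hD, hab, hDU, hB, fun u hu h1 => ?_, fun δ _ => ?_⟩
  · rw [← hw]
    exact (Subgroup.relIndex_mul_relIndex _ _ _ hDR hRN).symm
  · obtain ⟨j, hj⟩ := U.isPGroup'.exists_card_eq
    rw [hj] at h
    exact hpr ((Nat.prime_dvd_prime_iff_eq hp hr).1 (hp.dvd_of_dvd_pow h))
  · obtain ⟨j, hj⟩ := hD.index ((Subgroup.centralizer {u}).subgroupOf D)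
    have h2 := hc u hu h1
    rw [Subgroup.relIndex, Subgroup.relIndex, hw, hj] at h2
    rw [Subgroup.relIndex, hj]
    have := (Nat.pow_lt_pow_iff_right hp.one_lt).1 h2
    exact pow_dvd_pow _ (by omega)
  · obtain ⟨g, hg⟩ := MulAction.exists_smul_eq X U
      (U.mapSurjective (f := δ.toMonoidHom) δ.surjective)
    have e : (U : Subgroup X).map (MulAut.conj g).toMonoidHom = (U : Subgroup X).map δ.toMonoidHom :=
      congrArg Sylow.toSubgroup hg
    refine ⟨g, fun x => ⟨fun h => ?_, fun h => ?_⟩⟩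
    · obtain ⟨y, hy, e1⟩ := e.le ⟨_, h, rfl⟩
      have e2 : δ y = g * (g⁻¹ * δ x * g) * g⁻¹ := e1
      rwa [← δ.injective (e2.trans (by group) : δ y = δ x)]
    · obtain ⟨y, hy, e1⟩ := e.ge ⟨_, h, rfl⟩
      have e2 : g * y * g⁻¹ = δ x := e1
      rwa [← e2, show g⁻¹ * (g * y * g⁻¹) * g = y by group]

end

theorem thm2 (p r : ℕ) (hp : p.Prime) (hp2 : p ≠ 2) (hr : r.Prime) (hpr : p ≠ r) (X : Type)
    [Group X] [Finite X] (R : Sylow p X) (U : Sylow r X) (D : Subgroup X) (hDR : D ≤ R)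
    (hab : ∀ x ∈ D, ∀ y ∈ D, x * y = y * x)
    (hst : ∀ γ : MulAut X, (∀ x, γ x ∈ R ↔ x ∈ R) → ∀ x, γ x ∈ D ↔ x ∈ D)
    (hDU : D ≤ Subgroup.normalizer (U : Set X))
    (hB : ∀ x, ∃ u ∈ U, ∃ n ∈ Subgroup.normalizer (D : Set X), ∃ v ∈ U, x = u * n * v)
    (hc : ∀ u ∈ U, u ≠ 1 → D.relIndex R < (Subgroup.centralizer {u}).relIndex D)
    (hne : Subgroup.normalizer (D : Set X) ≠ ⊤) :
    NSV.IndN p X R (Subgroup.normalizer (D : Set X)) := by
  obtain ⟨F, k, _, _, O, R', r', GG, j, h, h1, h2⟩ := exists_sys' p hp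
  obtain ⟨w, m, hm, hi, hg⟩ := ob_pg2 hp hr hpr R U hDR hab hst hDU hB hc
  have := h.charF
  have := h.algF
  exact ind_of_lk hp j h1 h2 hDR hst hne (lq_lk2 h hp2 hg hm hi (Nat.lt_succ_self _))

end Pool.Agent.Lib.MP_1ae3da_al.CT.Z
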