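import Pool.Agent.Lib.MP_1ae3da_al.Z.Ml
import Pool.Agent.Lib.MP_1ae3da_al.Z.Xt

/-! The leaf of the reduction under the weaker bound for odd `p`. -/

namespace Pool.Agent.Lib.MP_1ae3da_al.CT.Z

open Submodule

variable {F A X : Type} [Field F] [Ring A] [Algebra F A] [Group X]

theorem ml_core2 {p r : ℕ} {k : Type} [Field k] {O R' : Subring F} {r' : F → k}
    {GG : Subgroup (RingAut F)} (hP : PM p O R' r' GG) (hp2 : p ≠ 2)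
    (hr : r.Prime) (hpr : p ≠ r) [Finite X]
    (hX : commutator X = ⊤) {u : X → A} (hu : TG F u) (hm : ∀ x y, u x * u y = u (x * y))
    (R : Sylow p X) (U : Sylow r X) (D : Subgroup X) (hDR : D ≤ R)
    (hab : ∀ x ∈ D, ∀ y ∈ D, x * y = y * x)
    (hst : ∀ γ : MulAut X, (∀ x, γ x ∈ R ↔ x ∈ R) → ∀ x, γ x ∈ D ↔ x ∈ D)
    (hDU : D ≤ Subgroup.normalizer (U : Set X))
    (hB : ∀ x, ∃ u ∈ U, ∃ n ∈ Subgroup.normalizer (D : Set X), ∃ v ∈ U, x = u * n * v)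
    (hc : ∀ u ∈ U, u ≠ 1 → D.relIndex R < (Subgroup.centralizer {u}).relIndex D) :
    ML F p GG (Hm F u ⊤) (Hm F u (Subgroup.normalizer (D : Set X))) := by
  have := hP.charF
  have : Fact p.Prime := ⟨hP.prime⟩
  obtain ⟨w, m, hm', hi, hg⟩ := ob_pg2 hP.prime hr hpr R U hDR hab hst hDU hB hc
  refine ml_emb hX hu hm _ ((lq_lk2 hP hp2 hg hm' hi (Nat.lt_succ_self _)).mono ?_)
  rintro γ ⟨⟨⟨σ, hσ, h1⟩, h2⟩, h3⟩
  obtain ⟨δ, hδ⟩ := ga_perf hX h1 h2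
  exact ⟨⟨σ, hσ, h1⟩, δ, hδ, ml_stab R hst δ ((ga_stb h1 hδ _).1 h3)⟩

end Pool.Agent.Lib.MP_1ae3da_al.CT.Z
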