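import Pool.Agent.Lib.MP_1ae3da_al.Z.Cl2

/-! The hypotheses of the main theorem for central quotients of closed subgroups. -/

namespace Pool.Agent.Lib.MP_1ae3da_al.SLI

open Matrix

/-- the hypotheses of the main theorem, under the weaker bound. -/
def Pack (p r : ℕ) {Y : Type} [Group Y] (R : Sylow p Y) (U : Sylow r Y) (D : Subgroup Y) : Prop :=
  p ≠ r ∧ D ≤ R ∧ (∀ x ∈ D, ∀ y ∈ D, x * y = y * x) ∧
    (∀ γ : MulAut Y, (∀ x, γ x ∈ R ↔ x ∈ R) → ∀ x, γ x ∈ D ↔ x ∈ D) ∧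
    D ≤ Subgroup.normalizer (U : Set Y) ∧
    (∀ x, ∃ u ∈ U, ∃ n ∈ Subgroup.normalizer (D : Set Y), ∃ v ∈ U, x = u * n * v) ∧
    (∀ u ∈ U, u ≠ 1 → D.relIndex R < (Subgroup.centralizer {u}).relIndex D) ∧
    Subgroup.normalizer (D : Set Y) ≠ ⊤

lemma BW.pack {p r : ℕ} {X : Type} [Group X] [Finite X] [Fact p.Prime] [Fact r.Prime]
    {U : Sylow r X} {N : Subgroup X} (h : BW p U N) (hU : (U : Subgroup X) ≠ ⊥) {R : Sylow p X}
    (hR : (R : Subgroup X) ≤ N) : Pack p r R U h.D :=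
  ⟨h.ne, h.le_syl hR, fun x hx y hy => h.ab x (h.D_le hx) y (h.D_le hy),
    h.stab R.isPGroup' (h.le_syl hR) hR, h.D_le.trans inf_le_right,
    by rw [h.norm_eq]; exact h.bru, fun u hu => h.idx_lt R.isPGroup' (h.le_syl hR) hR hu,
    by rw [h.norm_eq]; exact h.ne_top hU⟩

lemma BW.pack_quot {p r : ℕ} {X Y S : Type} [Group X] [Group Y] [Group S] [Finite X]
    [Fact p.Prime] [Fact r.Prime] {U : Sylow r X} {N : Subgroup X} (h : BW p U N)
    (hU : (U : Subgroup X) ≠ ⊥) (w : N →* S) (hw : (Tor U N).subgroupOf N = w.ker) {π : X →* Y}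
    (hπ : Function.Surjective π) (hk : π.ker ≤ Subgroup.center X) (R : Sylow p Y) :
    ∃ (U' : Sylow r Y) (D : Subgroup Y), Pack p r R U' D ∧
      ∃ f : Subgroup.normalizer (D : Set Y) →* S, f.range = w.range ∧
        ∀ a ∈ f.ker, ∀ b ∈ f.ker, a * b = b * a := by
  have : Finite Y := Finite.of_surjective π hπ
  obtain ⟨U', ρ, hρ, hkρ, hU', h', hR⟩ := h.all hπ hk hU R
  refine ⟨U', h'.D, h'.pack hU' hR, ?_⟩
  rw [h'.norm_eq]
  have hs := ρ.subgroupMap_surjective N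
  have hle : (ρ.subgroupMap N).ker ≤ w.ker := fun x hx => by
    rw [← hw]
    exact h.cen_le (hk (hkρ ▸ (congrArg Subtype.val hx : ρ x = 1)))
  let f := (ρ.subgroupMap N).liftOfSurjective hs ⟨w, hle⟩
  have hf : ∀ x, f (ρ.subgroupMap N x) = w x := fun x =>
    MonoidHom.liftOfRightInverse_comp_apply _ _ _ _ x
  refine ⟨f, le_antisymm ?_ ?_, fun a ha b hb => ?_⟩
  · rintro _ ⟨y, rfl⟩
    obtain ⟨x, rfl⟩ := hs y
    exact ⟨x, (hf x).symm⟩
  · rintro _ ⟨x, rfl⟩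
    exact ⟨_, hf x⟩
  · obtain ⟨x, rfl⟩ := hs a
    obtain ⟨y, rfl⟩ := hs b
    rw [MonoidHom.mem_ker, hf, ← MonoidHom.mem_ker, ← hw] at ha hb
    rw [← map_mul, ← map_mul, show x * y = y * x from Subtype.ext (h.ab _ ha _ hb)]

variable {F : Type} [Field F] {m : ℕ}

lemma Clo.pack {p c r : ℕ} {H : Subgroup (SLm m F)} {W : Subgroup (Equiv.Perm (Fin m))}
    (h : Clo p c H W) [Finite F] [Fact p.Prime] [Fact r.Prime] [CharP F r] (hpr : p ≠ r)
    (hU : ∃ u ∈ US m F, u ∈ H ∧ u ≠ 1) {Y : Type} [Group Y] {π : H →* Y}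
    (hπ : Function.Surjective π) (hk : π.ker ≤ Subgroup.center H) (R : Sylow p Y) :
    ∃ (U' : Sylow r Y) (D : Subgroup Y), Pack p r R U' D ∧
      ∃ f : Subgroup.normalizer (D : Set Y) →* Equiv.Perm (Fin m), f.range = (weyH H).range ∧
        ∀ a ∈ f.ker, ∀ b ∈ f.ker, a * b = b * a := by
  obtain ⟨U, hU'⟩ := h.syl (r := r)
  refine (h.bw hpr hU').pack_quot (fun e => ?_) (weyH H) (h.tor_ker hU') hπ hk R
  obtain ⟨u, h1, h2, h3⟩ := hU
  have : (⟨u, h2⟩ : H) ∈ (U : Subgroup H) := hU' ▸ h1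
  rw [e, Subgroup.mem_bot] at this
  exact h3 (congrArg Subtype.val this)

lemma tv_val {a b : Fin m} (h : a ≠ b) (c : F) : (SpecialLinearGroup.transvection h c).1 a b = c := by
  show (1 + single a b c : Matrix _ _ F) a b = c
  rw [Matrix.add_apply, one_apply_ne h, single_apply_same, zero_add]

lemma tv_ne {a b : Fin m} (h : a ≠ b) {c : F} (hc : c ≠ 0) :
    SpecialLinearGroup.transvection h c ≠ 1 := fun e => hc (by
  rw [← tv_val h c, e]
  exact one_apply_ne h)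

lemma lt_of_conj {n u : SLm m F} {σ : Equiv.Perm (Fin m)} (h : IsMon n.1 σ)
    (hu : n⁻¹ * u * n ∈ US m F) {a b : Fin m} (hab : a ≠ b) (h0 : u.1 a b ≠ 0) : σ a < σ b :=
  lt_of_le_of_ne (not_lt.mp fun e => h0 ((conj_zero h).mp ((mem_US'.mp hu).1 _ _ e)))
    (σ.injective.ne hab)

lemma ex_root [Fintype F] {p q : ℕ} [hp : Fact p.Prime] (h2 : p ≠ 2) (hq : q ∣ Fintype.card F - 1) :
    ∃ z : Fˣ, z ^ q = 1 ∧ ∀ s, z ^ (2 * s) = 1 → p ^ padicValNat p q ∣ s := by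
  classical
  obtain ⟨g, hg⟩ := IsCyclic.exists_ofOrder_eq_natCard (α := Fˣ)
  rw [Nat.card_units, Nat.card_eq_fintype_card] at hg
  have h1 : 1 < Fintype.card F := Fintype.one_lt_card
  have ho := orderOf_pow_orderOf_div (x := g) (by omega) (hg ▸ hq)
  refine ⟨g ^ (orderOf g / q), orderOf_dvd_iff_pow_eq_one.mp ho.dvd, fun s hs => ?_⟩
  have := (pow_padicValNat_dvd (p := p)).trans (ho ▸ orderOf_dvd_of_pow_eq_one hs : q ∣ 2 * s)
  exact (Nat.Coprime.pow_left _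
    ((Nat.coprime_primes hp.out Nat.prime_two).mpr h2)).dvd_of_dvd_mul_left this

lemma clo_top [Fintype F] {p : ℕ} [hp : Fact p.Prime] (h2 : p ≠ 2)
    (hv : padicValNat p m.factorial < padicValNat p (Fintype.card F - 1)) :
    Clo p (padicValNat p (Fintype.card F - 1)) (⊤ : Subgroup (SLm m F)) ⊤ := by
  obtain ⟨z, -, hz⟩ := ex_root (F := F) h2 dvd_rfl
  refine ⟨fun x _ => ?_, fun n _ σ hσ h => ?_, fun i j hij => ⟨el hij z, trivial,
    fun a b hab => ?_, fun s e => hz s ?_⟩, fun _ _ _ _ => trivial, ?_⟩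
  · obtain ⟨u, hu, n, hn, v, hv, e⟩ := bruhat x
    exact ⟨u, hu, n, hn, v, hv, trivial, trivial, trivial, e⟩
  · have hm : StrictMono σ := fun a b hab => lt_of_conj hσ (h _ (tv_US hab 1) trivial) hab.ne
      (by rw [tv_val]; exact one_ne_zero)
    ext1 i
    exact le_antisymm hm.apply_le hm.le_apply
  · rw [el_val]
    exact diagonal_apply_ne _ (Ne.symm hab)
  · rw [el_val, diagonal_apply_eq, diagonal_apply_eq, if_pos rfl, if_neg hij.symm, if_pos rfl,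
      ← Units.val_pow_eq_pow_val, ← Units.val_pow_eq_pow_val, Units.val_inj] at e
    rw [two_mul, pow_add]
    nth_rewrite 1 [e]
    rw [inv_pow, inv_mul_cancel]
  · rwa [Subgroup.card_top, Nat.card_perm, Nat.card_eq_fintype_card, Fintype.card_fin]

lemma ne_char [Fintype F] {p r : ℕ} (hp : p.Prime) [Fact r.Prime] [CharP F r]
    (hq : p ∣ Fintype.card F - 1) : p ≠ r := by
  rintro rfl
  obtain ⟨f, -, hf⟩ := FiniteField.card F p
  have h : p ∣ Fintype.card F := by rw [hf]; exact dvd_pow_self p f.ne_zero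
  exact hp.one_lt.ne' (Nat.dvd_one.mp ((Nat.dvd_sub_iff_right Fintype.one_lt_card.le h).mp hq))

/-- every central quotient of `SL_m(q)`, `p` odd, `v_p(q - 1) > v_p(m!)`, every Sylow `R`. -/
theorem sl_quot2 (F : Type) [Field F] [Fintype F] {m : ℕ} (hm : 2 ≤ m) (r p : ℕ) [Fact r.Prime]
    [CharP F r] [hp : Fact p.Prime] (h2 : p ≠ 2)
    (hv : padicValNat p m.factorial < padicValNat p (Fintype.card F - 1))
    (X : Type) [Group X] (π : SLm m F →* X) (hπ : Function.Surjective π)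
    (hk : π.ker ≤ Subgroup.center _) (R : Sylow p X) :
    ∃ (U : Sylow r X) (D : Subgroup X), Pack p r R U D ∧
      ∃ f : Subgroup.normalizer (D : Set X) →* Equiv.Perm (Fin m),
        Function.Surjective f ∧ ∀ a ∈ f.ker, ∀ b ∈ f.ker, a * b = b * a := by
  have h01 : (⟨0, by omega⟩ : Fin m) < ⟨1, by omega⟩ := by simp
  have hq : p ∣ Fintype.card F - 1 := dvd_of_one_le_padicValNat (by omega)
  obtain ⟨U, D, h, f, hf, h'⟩ := (clo_top h2 hv).pack (r := r) (ne_char hp.out hq)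
    ⟨_, tv_US h01 1, trivial, tv_ne _ one_ne_zero⟩ (π := π.comp (Subgroup.subtype ⊤))
    (fun y => by
      obtain ⟨x, rfl⟩ := hπ y
      exact ⟨⟨x, trivial⟩, rfl⟩)
    (fun x hx => Subgroup.mem_center_iff.mpr fun g =>
      Subtype.ext (Subgroup.mem_center_iff.mp (hk hx) g.1)) R
  refine ⟨U, D, h, f, MonoidHom.range_eq_top.mp ?_, h'⟩
  rw [hf, MonoidHom.range_eq_top]
  intro σ
  obtain ⟨n, hn⟩ := ex_mon (F := F) (by omega : 0 < m) σ⁻¹
  exact ⟨⟨⟨n, trivial⟩, _, hn⟩, by rw [weyH_eq hn, inv_inv]⟩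

end Pool.Agent.Lib.MP_1ae3da_al.SLI
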