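import Pool.Agent.Lib.MP_1ae3da_al.Z.Cl6
import Pool.Agent.Lib.MP_1ae3da_al.Z.Xt

/-! The inductive condition for the central quotients of `SL_n(q)`, `Sp_2n(q)`, `SU_n(q)`. -/

namespace Pool.Agent.Lib.MP_1ae3da_al.SLI

open Matrix

lemma Pack.ind {p r : ℕ} (hp : p.Prime) (h2 : p ≠ 2) (hr : r.Prime) {X : Type} [Group X] [Finite X]
    {R : Sylow p X} {U : Sylow r X} {D : Subgroup X} (h : Pack p r R U D) :
    NSV.IndN p X R (Subgroup.normalizer (D : Set X)) := by
  obtain ⟨h1, h3, h4, h5, h6, h7, h8, h9⟩ := h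
  exact CT.Z.thm2 p r hp h2 hr h1 X R U D h3 h4 h5 h6 h7 h8 h9

theorem sl_ind2 (p : ℕ) (hp : p.Prime) (h2 : p ≠ 2) (K : Type) [Field K] [Finite K] (n : ℕ)
    (hn : 2 ≤ n) (hv : padicValNat p n.factorial < padicValNat p (Nat.card K - 1))
    (X : Type) [Group X] (π : SpecialLinearGroup (Fin n) K →* X)
    (hπ : Function.Surjective π) (hk : π.ker ≤ Subgroup.center _) (R : Sylow p X) :
    ∃ N : Subgroup X, NSV.IndN p X R N := by
  have := Fintype.ofFinite K
  have : Fact p.Prime := ⟨hp⟩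
  obtain ⟨r, hr⟩ := CharP.exists K
  have hr' : r.Prime := CharP.char_is_prime K r
  have : Fact r.Prime := ⟨hr'⟩
  have : Finite X := Finite.of_surjective π hπ
  rw [Nat.card_eq_fintype_card] at hv
  obtain ⟨U, D, h, -⟩ := sl_quot2 K hn r p h2 hv X π hπ hk R
  exact ⟨_, h.ind hp h2 hr'⟩

theorem sp_ind (p : ℕ) (hp : p.Prime) (h2 : p ≠ 2) (K : Type) [Field K] [Finite K] (n : ℕ)
    (hn : 1 ≤ n) (hv : padicValNat p n.factorial < padicValNat p (Nat.card K - 1))
    (X : Type) [Group X] (π : symplecticGroup (Fin n) K →* X)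
    (hπ : Function.Surjective π) (hk : π.ker ≤ Subgroup.center _) (R : Sylow p X) :
    ∃ N : Subgroup X, NSV.IndN p X R N := by
  have := Fintype.ofFinite K
  have : Fact p.Prime := ⟨hp⟩
  obtain ⟨r, hr⟩ := CharP.exists K
  have hr' : r.Prime := CharP.char_is_prime K r
  have : Fact r.Prime := ⟨hr'⟩
  have : Finite X := Finite.of_surjective π hπ
  rw [Nat.card_eq_fintype_card] at hv
  obtain ⟨U, D, h, -⟩ := sp_quot K hn r p h2 hv X π hπ hk R
  exact ⟨_, h.ind hp h2 hr'⟩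

theorem su_ind (p : ℕ) (hp : p.Prime) (h2 : p ≠ 2) (K : Type) [Field K] [Finite K] [StarRing K]
    (q : ℕ) (hq : Nat.card K = q ^ 2) (hs : ∀ x : K, star x = x ^ q) (n : ℕ) (hn : 2 ≤ n)
    (hv : padicValNat p (n / 2).factorial < padicValNat p (q - 1))
    (X : Type) [Group X] (π : specialUnitaryGroup (Fin n) K →* X)
    (hπ : Function.Surjective π) (hk : π.ker ≤ Subgroup.center _) (R : Sylow p X) :
    ∃ N : Subgroup X, NSV.IndN p X R N := by
  have := Fintype.ofFinite K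
  have : Fact p.Prime := ⟨hp⟩
  obtain ⟨r, hr⟩ := CharP.exists K
  have hr' : r.Prime := CharP.char_is_prime K r
  have : Fact r.Prime := ⟨hr'⟩
  have : Finite X := Finite.of_surjective π hπ
  rw [Nat.card_eq_fintype_card] at hq
  obtain ⟨U, D, h, -⟩ := su_quot K hq hs hn r p h2 hv X π hπ hk R
  exact ⟨_, h.ind hp h2 hr'⟩

end Pool.Agent.Lib.MP_1ae3da_al.SLI
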