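import Pool.Agent.Lib.MP_1ae3da_al.Tri

/-! `SL_m(F)`: the unitriangular group, the orders, the Bruhat decomposition. -/

namespace Pool.Agent.Lib.MP_1ae3da_al.SLI

open Matrix

variable {F : Type} [Field F] {m : ℕ}

/-- the special linear group. -/
abbrev SLm (m : ℕ) (F : Type) [Field F] := Matrix.SpecialLinearGroup (Fin m) F

/-- upper unitriangular matrices inside `SL_m(F)`. -/
def US (m : ℕ) (F : Type) [Field F] : Subgroup (SLm m F) :=
  (Uni m F).comap Matrix.SpecialLinearGroup.toGL

lemma mem_US {g : SLm m F} : g ∈ US m F ↔ Lev 1 (g.1 - 1) := Iff.rfl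

lemma mem_US' {g : SLm m F} :
    g ∈ US m F ↔ (∀ i j : Fin m, j < i → g.1 i j = 0) ∧ ∀ i, g.1 i i = 1 := by
  rw [mem_US]
  constructor
  · intro h
    refine ⟨fun i j hij => ?_, fun i => ?_⟩
    · have := h i j (by have : (j : ℕ) < i := hij; omega)
      rwa [Matrix.sub_apply, Matrix.one_apply_ne hij.ne', sub_zero] at this
    · have := h i i (by omega)
      rwa [Matrix.sub_apply, Matrix.one_apply_eq, sub_eq_zero] at this
  · rintro ⟨h1, h2⟩ i j hij
    rcases eq_or_ne i j with rfl | hne
    · rw [Matrix.sub_apply, Matrix.one_apply_eq, h2, sub_self]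
    · have : j < i := by
        have h3 : (i : ℕ) ≠ j := fun e => hne (Fin.ext e)
        show (j : ℕ) < i
        omega
      rw [Matrix.sub_apply, Matrix.one_apply_ne hne, h1 i j this, sub_zero]

lemma card_US [Finite F] : Nat.card (US m F) = Nat.card F ^ (∑ i : Fin m, (i : ℕ)) := by
  rw [← card_Nil]
  refine Nat.card_congr
    { toFun := fun g => ⟨g.1.1 - 1, g.2⟩
      invFun := fun n => ⟨⟨1 + n.1, Lev.det_one_add n.2⟩, by
        have h : Lev 1 n.1 := n.2
        rw [mem_US]; simpa using h⟩
      left_inv := fun g => by ext; simp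
      right_inv := fun n => by ext; simp }

lemma card_SL_mul [Fintype F] (hm : 0 < m) :
    Nat.card (SLm m F) * (Fintype.card F - 1) = Nat.card (GL (Fin m) F) := by
  have : Nonempty (Fin m) := ⟨⟨0, hm⟩⟩
  have h1 := (Matrix.GeneralLinearGroup.det (n := Fin m) (R := F)).ker.card_mul_index
  rw [Subgroup.index_ker, MonoidHom.range_eq_top.mpr Matrix.GeneralLinearGroup.det_surjective,
    Subgroup.card_top, Nat.card_units, Nat.card_eq_fintype_card (α := F)] at h1
  rw [← h1]
  congr 1
  refine Nat.card_congr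
    { toFun := fun g => ⟨Matrix.SpecialLinearGroup.toGL g, by
        rw [MonoidHom.mem_ker]; ext; simp⟩
      invFun := fun g => ⟨g.1.1, by
        have := g.2
        rw [MonoidHom.mem_ker] at this
        simpa using congrArg Units.val this⟩
      left_inv := fun g => rfl
      right_inv := fun g => by ext; rfl }

lemma card_SL [Fintype F] (hm : 0 < m) :
    Nat.card (SLm m F) * (Fintype.card F - 1) = Fintype.card F ^ (∑ i : Fin m, (i : ℕ)) *
      ∏ i : Fin m, (Fintype.card F ^ (m - i) - 1) := by
  rw [card_SL_mul hm, Matrix.card_GL_field, ← Finset.prod_pow_eq_pow_sum, ← Finset.prod_mul_distrib]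
  refine Finset.prod_congr rfl fun i _ => ?_
  rw [Nat.mul_sub, mul_one, ← pow_add]
  congr 2
  have := i.2
  omega

lemma index_US [Fintype F] (hm : 0 < m) (r : ℕ) [Fact r.Prime] [CharP F r] :
    ¬ r ∣ (US m F).index := by
  have hr : r.Prime := Fact.out
  obtain ⟨f, -, hf⟩ := FiniteField.card F r
  have hq : r ∣ Fintype.card F := by rw [hf]; exact dvd_pow_self r f.ne_zero
  have h0 : 0 < Fintype.card F := Fintype.card_pos
  have h1 := card_SL (F := F) hm
  rw [← (US m F).card_mul_index, card_US, Nat.card_eq_fintype_card, mul_assoc] at h1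
  have h2 := Nat.eq_of_mul_eq_mul_left (pow_pos h0 _) h1
  intro hd
  have h3 : r ∣ ∏ i : Fin m, (Fintype.card F ^ (m - i) - 1) := h2 ▸ hd.mul_right _
  rw [hr.prime.dvd_finsetProd_iff] at h3
  obtain ⟨i, -, hi⟩ := h3
  have h4 : r ∣ Fintype.card F ^ (m - i) := hq.trans (dvd_pow_self _ (by have := i.2; omega))
  have h5 : 1 ≤ Fintype.card F ^ (m - i) := Nat.one_le_pow _ _ h0
  exact hr.one_lt.ne' (Nat.dvd_one.mp ((Nat.dvd_sub_iff_right h5 h4).mp hi))

/-- the unitriangular group as a Sylow subgroup for the characteristic. -/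
noncomputable def uSyl (F : Type) [Field F] [Fintype F] {m : ℕ} (hm : 0 < m) (r : ℕ) [Fact r.Prime]
    [CharP F r] : Sylow r (SLm m F) :=
  (show IsPGroup r (US m F) from by
    obtain ⟨f, -, hf⟩ := FiniteField.card F r
    refine IsPGroup.of_card (n := f * ∑ i : Fin m, (i : ℕ)) ?_
    rw [card_US, Nat.card_eq_fintype_card, hf, pow_mul]).toSylow (index_US hm r)

lemma coe_uSyl [Fintype F] (hm : 0 < m) (r : ℕ) [Fact r.Prime] [CharP F r] :
    (uSyl F hm r : Subgroup (SLm m F)) = US m F := rfl

/-- `g` is monomial with permutation `σ`. -/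
def IsMon (g : Matrix (Fin m) (Fin m) F) (σ : Equiv.Perm (Fin m)) : Prop :=
  ∀ i j, j ≠ σ i → g i j = 0

lemma row_ex (g : SLm m F) (i : Fin m) : ∃ j, g.1 i j ≠ 0 := by
  by_contra h
  push Not at h
  exact g.row_ne_zero i (funext h)

open Classical in
/-- the first column where row `i` does not vanish. -/
noncomputable def lead (g : SLm m F) (i : Fin m) : Fin m :=
  (Finset.univ.filter fun j => g.1 i j ≠ 0).min' (by
    obtain ⟨j, hj⟩ := row_ex g i
    exact ⟨j, by simpa using hj⟩)

lemma lead_ne (g : SLm m F) (i : Fin m) : g.1 i (lead g i) ≠ 0 := by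
  classical
  have := Finset.min'_mem (Finset.univ.filter fun j => g.1 i j ≠ 0) (by
    obtain ⟨j, hj⟩ := row_ex g i
    exact ⟨j, by simpa using hj⟩)
  exact (Finset.mem_filter.mp this).2

lemma lead_le (g : SLm m F) {i j : Fin m} (h : g.1 i j ≠ 0) : lead g i ≤ j := by
  classical
  exact Finset.min'_le _ _ (by simpa using h)

lemma lt_lead (g : SLm m F) {i j : Fin m} (h : j < lead g i) : g.1 i j = 0 := by
  by_contra h0
  exact absurd (lead_le g h0) (not_le.mpr h)

lemma lead_congr {g g' : SLm m F} {i : Fin m} (h : ∀ j, g.1 i j = g'.1 i j) :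
    lead g i = lead g' i :=
  le_antisymm (lead_le g (by rw [h]; exact lead_ne g' i))
    (lead_le g' (by rw [← h]; exact lead_ne g i))

lemma lead_step (g : SLm m F) {i k : Fin m} (hik : i < k) (h : lead g i = lead g k) :
    ∃ t ∈ US m F, ∑ a, (lead g a : ℕ) < ∑ a, (lead (t * g) a : ℕ) := by
  let c : F := -(g.1 i (lead g i) / g.1 k (lead g k))
  let t : SLm m F := Matrix.SpecialLinearGroup.transvection hik.ne c
  have ht : (t * g).1 = Matrix.transvection i k c * g.1 := rfl
  refine ⟨t, ?_, ?_⟩
  · rw [mem_US]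
    have : t.1 - 1 = Matrix.single i k c := by
      show Matrix.transvection i k c - 1 = _
      simp [Matrix.transvection]
    rw [this]
    exact Lev.single (by have : (i : ℕ) < k := hik; omega) c
  · have h1 : ∀ a, a ≠ i → lead (t * g) a = lead g a := fun a ha =>
      lead_congr fun j => by rw [ht, Matrix.transvection_mul_apply_of_ne _ _ _ _ ha]
    have h2 : lead g i < lead (t * g) i := by
      by_contra hn
      have hn' := not_lt.mp hn
      apply lead_ne (t * g) i
      rw [ht, Matrix.transvection_mul_apply_same]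
      rcases hn'.lt_or_eq with hl | he
      · rw [lt_lead g hl, lt_lead g (h ▸ hl), mul_zero, add_zero]
      · rw [he]
        have := lead_ne g k
        conv_lhs => rw [add_comm]; enter [1, 2]; rw [h]
        simp only [c]
        field_simp
        ring
    refine Finset.sum_lt_sum (fun a _ => ?_) ⟨i, Finset.mem_univ _, h2⟩
    by_cases ha : a = i
    · subst ha; exact le_of_lt h2
    · rw [h1 a ha]

lemma ex_inj (x : SLm m F) : ∃ u ∈ US m F, Function.Injective (lead (u * x)) := by
  classical
  have hb : ∀ g : SLm m F, ∑ a, (lead g a : ℕ) ≤ m * m := fun g => by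
    calc ∑ a, (lead g a : ℕ) ≤ ∑ _a : Fin m, m :=
          Finset.sum_le_sum fun a _ => (lead g a).2.le
      _ = m * m := by simp
  have key : ∀ n : ℕ, ∀ g : SLm m F, m * m - ∑ a, (lead g a : ℕ) ≤ n →
      ∃ u ∈ US m F, Function.Injective (lead (u * g)) := by
    intro n
    induction n with
    | zero =>
      intro g hg
      refine ⟨1, one_mem _, fun i k hik => ?_⟩
      rw [one_mul] at hik
      by_contra hne
      rcases lt_or_gt_of_ne hne with hl | hl
      · obtain ⟨t, -, h⟩ := lead_step g hl hik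
        have := hb (t * g); omega
      · obtain ⟨t, -, h⟩ := lead_step g hl hik.symm
        have := hb (t * g); omega
    | succ n ih =>
      intro g hg
      by_cases hi : Function.Injective (lead g)
      · exact ⟨1, one_mem _, by rwa [one_mul]⟩
      · have : ∃ t ∈ US m F, ∑ a, (lead g a : ℕ) < ∑ a, (lead (t * g) a : ℕ) := by
          by_contra hn
          refine hi fun i k hik => ?_
          by_contra hne
          rcases lt_or_gt_of_ne hne with hl | hl
          · exact hn (lead_step g hl hik)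
          · exact hn (lead_step g hl hik.symm)
        obtain ⟨t, ht, h⟩ := this
        obtain ⟨u, hu, h'⟩ := ih (t * g) (by omega)
        exact ⟨u * t, mul_mem hu ht, by rwa [mul_assoc]⟩
  exact key _ x le_rfl

/-- Bruhat decomposition. -/
theorem bruhat (x : SLm m F) :
    ∃ u ∈ US m F, ∃ n : SLm m F, (∃ σ, IsMon n.1 σ) ∧ ∃ v ∈ US m F, x = u * n * v := by
  classical
  obtain ⟨u, hu, hi⟩ := ex_inj x
  set g := u * x with hg
  let σ : Equiv.Perm (Fin m) := Equiv.ofBijective (lead g) (Finite.injective_iff_bijective.mp hi)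
  have hσ : ∀ i, σ i = lead g i := fun _ => rfl
  let V : Matrix (Fin m) (Fin m) F := fun k j => g.1 (σ.symm k) j / g.1 (σ.symm k) k
  have hk : ∀ k, lead g (σ.symm k) = k := fun k => by rw [← hσ, Equiv.apply_symm_apply]
  have hne : ∀ k, g.1 (σ.symm k) k ≠ 0 := fun k => by
    have := lead_ne g (σ.symm k)
    rwa [hk] at this
  have hV0 : ∀ i j : Fin m, j < i → V i j = 0 := fun i j hij => by
    simp only [V]
    rw [lt_lead g (by rwa [hk]), zero_div]
  have hV1 : ∀ i, V i i = 1 := fun i => div_self (hne i)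
  have hdet : V.det = 1 := by
    rw [Matrix.det_of_upperTriangular (fun i j hij => hV0 i j hij)]
    exact Finset.prod_eq_one fun i _ => hV1 i
  let v : SLm m F := ⟨V, hdet⟩
  let M : Matrix (Fin m) (Fin m) F := fun i j => if j = σ i then g.1 i j else 0
  have hMV : M * V = g.1 := by
    ext i j
    rw [Matrix.mul_apply, Finset.sum_eq_single (σ i)]
    · have := hne (σ i)
      simp only [M, V, if_true, Equiv.symm_apply_apply] at this ⊢
      field_simp
    · intro b _ hb
      simp [M, hb]
    · simp
  have hM : M.det = 1 := by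
    have := congrArg Matrix.det hMV
    rwa [Matrix.det_mul, hdet, mul_one, g.2] at this
  let n : SLm m F := ⟨M, hM⟩
  refine ⟨u⁻¹, inv_mem hu, n, ⟨σ, fun i j hij => if_neg hij⟩, v, mem_US'.mpr ⟨hV0, hV1⟩, ?_⟩
  have : n * v = g := Subtype.ext hMV
  rw [mul_assoc, this, hg, inv_mul_cancel_left]

end Pool.Agent.Lib.MP_1ae3da_al.SLI
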