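import Pool.Agent.Lib.MP_1ae3da_al.Z.Fin
import Pool.Agent.Lib.MP_1ae3da_al.Z.Lq
import Pool.Agent.Lib.MP_1ae3da_al.C.Sys

/-! The inductive Galois-McKay condition from a Bruhat decomposition. -/

namespace Pool.Agent.Lib.MP_1ae3da_al.CT.Z

open Submodule

theorem thm (p r : ℕ) (hp : p.Prime) (hr : r.Prime) (hpr : p ≠ r) (X : Type) [Group X] [Finite X]
    (R : Sylow p X) (U : Sylow r X) (D : Subgroup X) (hDR : D ≤ R)
    (hab : ∀ x ∈ D, ∀ y ∈ D, x * y = y * x)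
    (hst : ∀ γ : MulAut X, (∀ x, γ x ∈ R ↔ x ∈ R) → ∀ x, γ x ∈ D ↔ x ∈ D)
    (hDU : D ≤ Subgroup.normalizer (U : Set X))
    (hB : ∀ x, ∃ u ∈ U, ∃ n ∈ Subgroup.normalizer (D : Set X), ∃ v ∈ U, x = u * n * v)
    (hc : ∀ u ∈ U, u ≠ 1 → D.relIndex R ^ 2 < (Subgroup.centralizer {u}).relIndex D)
    (hne : Subgroup.normalizer (D : Set X) ≠ ⊤) :
    NSV.IndN p X R (Subgroup.normalizer (D : Set X)) := by
  obtain ⟨F, k, _, _, O, R', r', GG, j, h, h1, h2⟩ := exists_sys' p hp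
  obtain ⟨w, m, hm, hi, hg⟩ := ob_pg hp hr hpr R U hDR hab hst hDU hB hc
  have := h.charF
  have := h.algF
  exact ind_of_lk hp j h1 h2 hDR hst hne (lq_lk h hg hm hi (Nat.lt_succ_self _))

end Pool.Agent.Lib.MP_1ae3da_al.CT.Z
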