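import Pool.Agent.Lib.MP_1ae3da_al.Z.BN

/-! Split `BN`-pairs: central quotients, conjugates, and a criterion for Sylow subgroups. -/

namespace Pool.Agent.Lib.MP_1ae3da_al.SLI

open scoped Pointwise

variable {p r : ℕ} {X Y : Type} [Group X] [Group Y] [Finite X]

lemma syl_of [hr : Fact r.Prime] {V N : Subgroup X} (hV : IsPGroup r V)
    (hB : ∀ x, ∃ u ∈ V, ∃ n ∈ N, ∃ v ∈ V, x = u * n * v)
    (h : ∀ n ∈ N, n ∈ Subgroup.normalizer (V : Set X) → (∃ k, n ^ r ^ k = 1) → n ∈ V) :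
    ∃ U : Sylow r X, (U : Subgroup X) = V := by
  obtain ⟨Q, hQ⟩ := hV.exists_le_sylow
  refine ⟨Q, le_antisymm ?_ hQ⟩
  have hn := Q.isPGroup'.isNilpotent
  have h1 := normalizerCondition_iff_only_full_group_self_normalizing.mp
    (Group.normalizerCondition_of_isNilpotent (G := (Q : Subgroup X))) (V.subgroupOf Q) (by
      refine le_antisymm (fun x hx => ?_) Subgroup.le_normalizer
      have hx' : x.1 ∈ Subgroup.normalizer (V : Set X) :=
        Subgroup.mem_normalizer_fintype fun y hy =>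
          (Subgroup.mem_normalizer_iff.mp hx ⟨y, hQ hy⟩).mp hy
      obtain ⟨u, hu, n, hn, v, hv, e⟩ := hB x.1
      have e' : n = u⁻¹ * x.1 * v⁻¹ := by rw [e]; group
      have h2 : n ∈ (Q : Subgroup X) :=
        e' ▸ mul_mem (mul_mem (inv_mem (hQ hu)) x.2) (inv_mem (hQ hv))
      obtain ⟨k, hk⟩ := Q.isPGroup' ⟨n, h2⟩
      have h3 := h n hn (e' ▸ mul_mem (mul_mem (inv_mem (Subgroup.le_normalizer hu)) hx')
        (inv_mem (Subgroup.le_normalizer hv))) ⟨k, congrArg Subtype.val hk⟩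
      show x.1 ∈ V
      rw [e]
      exact mul_mem (mul_mem hu h3) hv)
  exact Subgroup.subgroupOf_eq_top.mp h1

namespace BN
variable {U : Sylow r X} {N : Subgroup X} (h : BN p U N) [hp : Fact p.Prime] [hr : Fact r.Prime]
  {π : X →* Y} (hπ : Function.Surjective π) (hk : π.ker ≤ Subgroup.center X)

include h in
omit hr in
lemma cen_one {u : X} (hu : u ∈ U) (hz : u ∈ Subgroup.center X) : u = 1 :=
  h.fixD hu fun e _ => Subgroup.mem_center_iff.mp hz e

include h in
lemma cen_le : Subgroup.center X ≤ Tor U N := fun _ hz =>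
  Subgroup.mem_inf.mpr ⟨h.norm_eq ▸ Subgroup.center_le_normalizer _ hz,
    Subgroup.center_le_normalizer _ hz⟩

include hk in
omit hp in
lemma tor_map : Tor (U.mapSurjective hπ) (N.map π) = (Tor U N).map π := by
  apply le_antisymm
  · rintro _ ⟨⟨n, hn, rfl⟩, h1⟩
    refine ⟨n, Subgroup.mem_inf.mpr ⟨hn, Subgroup.mem_normalizer_fintype fun u hu => ?_⟩, rfl⟩
    obtain ⟨v, hv, e⟩ := (Subgroup.mem_normalizer_iff.mp h1 (π u)).mp ⟨u, hu, rfl⟩
    have hz : n * u * n⁻¹ * v⁻¹ ∈ Subgroup.center X := hk (by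
      rw [MonoidHom.mem_ker, map_mul, map_mul, map_mul, map_inv, map_inv, e, mul_inv_cancel])
    have h2 : n * u * n⁻¹ ∈ Subgroup.normalizer (U : Set X) := by
      rw [← inv_mul_cancel_right (n * u * n⁻¹) v]
      exact mul_mem (Subgroup.center_le_normalizer _ hz) (Subgroup.le_normalizer hv)
    have h3 : n * u * n⁻¹ ∈ ((n • U : Sylow r X) : Subgroup X) :=
      Subgroup.smul_mem_pointwise_smul u (MulAut.conj n) _ hu
    have h4 := (n • U : Sylow r X).isPGroup'.inf_normalizer_sylow U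
    exact (h4.le (Subgroup.mem_inf.mpr ⟨h3, h2⟩)).2
  · rintro _ ⟨t, ht, rfl⟩
    exact Subgroup.mem_inf.mpr ⟨⟨t, ht.1, rfl⟩, Subgroup.le_normalizer_map π ⟨t, ht.2, rfl⟩⟩

include h hk in
/-- a split `BN`-pair passes to central quotients. -/
theorem map : BN p (U.mapSurjective hπ) (N.map π) := by
  have hT := tor_map (U := U) (N := N) hπ hk
  have hkT : π.ker ≤ Tor U N := hk.trans h.cen_le
  refine ⟨h.ne, ?_, ?_, fun y => ?_, ?_⟩
  · rw [hT]
    rintro _ ⟨x, hx, rfl⟩ _ ⟨y, hy, rfl⟩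
    rw [← map_mul, ← map_mul, h.ab x hx y hy]
  · rw [hT]
    exact (Subgroup.map_mono h.nrm).trans (Subgroup.le_normalizer_map π)
  · obtain ⟨x, rfl⟩ := hπ y
    obtain ⟨u, hu, n, hn, v, hv, e⟩ := h.bru x
    exact ⟨π u, ⟨u, hu, rfl⟩, π n, ⟨n, hn, rfl⟩, π v, ⟨v, hv, rfl⟩, by rw [e, map_mul, map_mul]⟩
  · rintro _ ⟨u, hu, rfl⟩ h1
    have h2 := h.val u hu fun e => h1 (e ▸ map_one π)
    have h3 : (Subgroup.centralizer {π u}).comap π ⊓ Tor U N =
        Subgroup.centralizer {u} ⊓ Tor U N := by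
      ext t
      refine and_congr_left fun ht => ?_
      change π t ∈ Subgroup.centralizer {π u} ↔ t ∈ Subgroup.centralizer {u}
      rw [Subgroup.mem_centralizer_singleton_iff, Subgroup.mem_centralizer_singleton_iff]
      refine ⟨fun e => ?_, fun e => by rw [← map_mul, e, map_mul]⟩
      have h4 : t * u * t⁻¹ * u⁻¹ = 1 := h.cen_one
        (mul_mem ((Subgroup.mem_normalizer_iff.mp ht.2 u).mp hu) (inv_mem hu)) (hk (by
          rw [MonoidHom.mem_ker, map_mul, map_mul, map_mul, map_inv, map_inv, e]; group))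
      rwa [mul_inv_eq_one, mul_inv_eq_iff_eq_mul] at h4
    rw [hT, Subgroup.relIndex_map_map, sup_of_le_left hkT, sup_of_le_left (hkT.trans inf_le_left),
      ← Subgroup.relIndex_comap, ← Subgroup.inf_relIndex_right (Subgroup.comap _ _), h3, Subgroup.inf_relIndex_right]
    exact h2

include h hπ hk in
/-- every Sylow `p`-subgroup of a central quotient lies in the `N` of such a pair. -/
theorem all (hU : (U : Subgroup X) ≠ ⊥) (R : Sylow p Y) : ∃ (U' : Sylow r Y) (ρ : X →* Y),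
    Function.Surjective ρ ∧ ρ.ker = π.ker ∧ (U' : Subgroup Y) ≠ ⊥ ∧ BN p U' (N.map ρ) ∧
      (R : Subgroup Y) ≤ N.map ρ := by
  have : Finite Y := Finite.of_surjective π hπ
  obtain ⟨R₀, hR⟩ := h.ex_syl
  obtain ⟨g, hg⟩ := MulAction.exists_smul_eq Y (R₀.mapSurjective hπ) R
  let ρ : X →* Y := (MulAut.conj g).toMonoidHom.comp π
  have hρ : Function.Surjective ρ := (MulAut.conj g).surjective.comp hπ
  have hkρ : ρ.ker = π.ker := by
    ext x
    exact map_eq_one_iff (MulAut.conj g) (MulAut.conj g).injective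
  refine ⟨U.mapSurjective hρ, ρ, hρ, hkρ, fun e => hU ?_, h.map hρ (hkρ ▸ hk), ?_⟩
  · rw [Sylow.coe_mapSurjective, Subgroup.map_eq_bot_iff, hkρ] at e
    exact eq_bot_iff.mpr fun u hu => h.cen_one hu (hk (e hu))
  · have : (R : Subgroup Y) = (R₀ : Subgroup X).map ρ := by
      rw [← hg, ← Subgroup.map_map]
      rfl
    exact this ▸ Subgroup.map_mono hR

end BN

end Pool.Agent.Lib.MP_1ae3da_al.SLI
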