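import Pool.Agent.Lib.MP_1ae3da_al.Z.Mu
import Pool.Agent.Lib.MP_1ae3da_al.C.AFin
import Pool.Agent.Lib.MP_1ae3da_al.C.TL

/-! From a link to the relation between character triples. -/

namespace Pool.Agent.Lib.MP_1ae3da_al.CT.Z

open Submodule NSV

theorem zbr_scal {F : Type} [Field F] (j : Qbar →+* F) {d : ℕ} (hd : 0 < d)
    {m : Matrix (Fin d) (Fin d) Qbar} {c : F} (h : m.map j = c • 1) :
    ∃ ζ : Qbar, j ζ = c ∧ m = ζ • 1 := by
  have k : ∀ a b, j (m a b) = c * (1 : Matrix (Fin d) (Fin d) F) a b := fun a b =>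
    congrFun (congrFun h a) b
  have k0 : j (m ⟨0, hd⟩ ⟨0, hd⟩) = c := by simpa using k ⟨0, hd⟩ ⟨0, hd⟩
  refine ⟨_, k0, ?_⟩
  ext a b
  apply j.injective
  rw [k, Matrix.smul_apply, smul_eq_mul, map_mul, k0]
  by_cases e : a = b <;> simp [Matrix.one_apply, e]

variable {p : ℕ} {F X G : Type} [Field F] [IsAlgClosed F] [CharZero F] [Group X] [Fintype X]
  [Group G] [Finite G] {GG : Subgroup (RingAut F)} {N : Subgroup X} [Fintype N]

/-- hint. For `y ∈ T` let `a y` be the linear automorphism from `act y 1`. If `y` fixes `ψ` then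
`a y` fixes the block (`chi_map`), `Ey P y ∈ Ln` (`Side.ln`), and `Link.tot'`, `Ln_unique` give
`c y` with `U (a y) (Ey P y) (c y • Ey P0 y)`. `mul`, `smul`, `fn` give
`c x * c y * j (α0 x y) = j (α x y) * c (x * y)`; `loc` gives `c (κ n) = 1`; `root_desc`, `resc`
give `P'`. Scalars: `schur`, and `Link.triv` for the automorphism of a centralising element.
The functions: `ex_mu` for `s'` with `σ ∘ j = j ∘ s'`, `Side.nat` with `act h⁻¹ σ`, `Link.nat`,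
then `mu_congr`. Compare `alt_link` in C/Alt, which is the converse. -/
theorem br_core (j : Qbar →+* F) (hj : ∀ σ ∈ GG, ∃ s ∈ NSV.H p, ∀ x, σ (j x) = j (s x))
    (hj' : ∀ s ∈ NSV.H p, ∃ σ ∈ GG, ∀ x ∈ Qab, σ (j x) = j (s x))
    (κ : X →* G) (hκ : Function.Injective κ) [κ.range.Normal] {T : Subgroup G}
    (hcT : Subgroup.centralizer (κ.range : Set G) ≤ T)
    {Γ : Subgroup (RingAut (MonoidAlgebra F X))}
    (hΓ : Γ ≤ Stb (Hm F (gu F X) ⊤) ⊓ Stb (Hm F (gu F X) N))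
    (act : ∀ y ∈ T, ∀ σ ∈ GG, ∃ γ ∈ Γ, SL F σ γ ∧ ∃ δ : MulAut X,
      (∀ x, γ (gu F X x) = gu F X (δ x)) ∧ (∀ x, y * κ x = κ (δ x) * y) ∧ ∀ x, δ x ∈ N ↔ x ∈ N)
    {ψ ψ' : G → Qbar} {θ : X → Qbar} {φ : N → Qbar} {d d' : ℕ}
    {P : G → Matrix (Fin d) (Fin d) Qbar} {P0 : G → Matrix (Fin d') (Fin d') Qbar}
    {α α0 : G → G → Qbar} (S1 : Side F (gu F X) κ κ.range ⊤ ψ θ P α)
    (S2 : Side F (gs F N) (κ.comp N.subtype) (κ.range ⊓ T) T ψ' φ P0 α0)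
    (hfx : ∀ h ∈ T, ∀ s ∈ NSV.H p, Fix κ.range ψ h s ↔ Fix (κ.range ⊓ T) ψ' h s)
    {U : RingAut (MonoidAlgebra F X) → MonoidAlgebra F X → MonoidAlgebra F X → Prop}
    (hU : Link F (Γ ⊓ Fx (chi j (gu F X) θ)) (Hm F (gu F X) ⊤) (Hm F (gu F X) N)
      (chi j (gu F X) θ) (chi j (gs F N) φ) U) :
    ∃ P' : G → Matrix (Fin d') (Fin d') Qbar, Assoc (κ.range ⊓ T) T ψ' P' α ∧
      (∀ c ∈ Subgroup.centralizer (κ.range : Set G), ∃ ζ : Qbar, P c = ζ • 1 ∧ P' c = ζ • 1) ∧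
      ∀ h ∈ T, ∀ s ∈ NSV.H p, Fix κ.range ψ h s → ∃ μ μ' : G → Qbar,
        Mu κ.range ⊤ ψ P h s μ ∧ Mu (κ.range ⊓ T) T ψ' P' h s μ' ∧
          ∀ y ∈ T, Fix κ.range ψ y 1 → μ y = μ' y := by
  classical
  have nN : ∀ t ∈ (⊤ : Subgroup G), ∀ g ∈ κ.range, t * g * t⁻¹ ∈ κ.range :=
    fun t _ g hg => Subgroup.Normal.conj_mem ‹_› g hg t
  have nT : ∀ t ∈ T, ∀ g ∈ κ.range ⊓ T, t * g * t⁻¹ ∈ κ.range ⊓ T :=
    fun t ht g hg => ⟨nN t trivial g hg.1, T.mul_mem (T.mul_mem ht hg.2) (T.inv_mem ht)⟩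
  choose! a ha1 ha2 δ hδ1 hδ2 hδ3 using fun y hy => act y hy 1 (one_mem _)
  have hL : Nice F (Hm F (gu F X) ⊤) := nice_Hm0 gu_tg ⊤
  have hM : Nice F (Hm F (gu F X) N) := nice_Hm0 gu_tg N
  obtain ⟨n, hn⟩ := S1.irr
  obtain ⟨n', hn'⟩ := S2.irr
  have hf : chi j (gu F X) θ ∈ Irr F (Hm F (gu F X) ⊤) := (chi_irr j gu_mul gu_tg.ind hn).1
  have hf' : chi j (gs F N) φ ∈ Irr F (Hm F (gu F X) N) := by
    rw [gs_hm]; exact (chi_irr j (gs_mul N) (gs_ind N) hn').1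
  have fixf : ∀ (σ : RingAut F) (s : Qbar ≃ₐ[ℚ] Qbar) (γ : RingAut (MonoidAlgebra F X))
      (ε : MulAut X) (g : G), SL F σ γ → (∀ x, σ (j x) = j (s x)) →
      (∀ x, γ (gu F X x) = gu F X (ε x)) → (∀ x, g * κ (ε x) * g⁻¹ = κ x) →
      Fix κ.range ψ g s → γ (chi j (gu F X) θ) = chi j (gu F X) θ := by
    intro σ s γ ε g h1 h2 h3 h4 h5
    refine chi_map j (s := s) h1 ε h3 (fun x => h2 _) fun x => ?_
    have := h5 (κ (ε x)) ⟨_, rfl⟩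
    rw [h4, S1.val, S1.val] at this
    exact this.symm
  have kδ : ∀ y ∈ T, ∀ x, κ (δ y x) = y * κ x * y⁻¹ := fun y hy x => by
    rw [hδ2 y hy, mul_inv_cancel_right]
  let S : Subgroup G :=
    { carrier := {y | y ∈ T ∧ Fix κ.range ψ y 1}
      one_mem' := ⟨one_mem _, fix_one _ _⟩
      mul_mem' := fun hx hy => ⟨T.mul_mem hx.1 hy.1, fix_mul nN trivial hx.2 hy.2⟩
      inv_mem' := fun hx => ⟨T.inv_mem hx.1, fix_inv nN trivial hx.2⟩ }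
  have f2 : ∀ y ∈ S, Fix (κ.range ⊓ T) ψ' y 1 := fun y hy => (hfx y hy.1 1 (one_mem _)).1 hy.2
  have f1 : ∀ y ∈ T, Fix (κ.range ⊓ T) ψ' y 1 → y ∈ S := fun y hy h =>
    ⟨hy, (hfx y hy 1 (one_mem _)).2 h⟩
  have lin : ∀ y ∈ T, Lin F (a y) := fun y hy => lin_iff.2 (ha2 y hy)
  have mem : ∀ y ∈ S, a y ∈ Γ ⊓ Fx (chi j (gu F X) θ) := fun y hy =>
    ⟨ha1 y hy.1, fixf 1 1 _ (δ y) y⁻¹ (ha2 y hy.1) (fun _ => rfl) (hδ1 y hy.1)
      (fun x => by rw [kδ y hy.1]; group) (inv_mem hy : y⁻¹ ∈ S).2⟩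
  have l1 : ∀ y ∈ S, Ey j (gu F X) κ P y ∈ Ln F (Hm F (gu F X) ⊤) (chi j (gu F X) θ) (a y) :=
    fun y hy => by
      have := S1.ln j trivial hy.2 (lin y hy.1) (hδ1 y hy.1) (hδ2 y hy.1) one_ne_zero
      rwa [one_smul] at this
  have l2 : ∀ y ∈ S, Ey j (gs F N) (κ.comp N.subtype) P0 y ∈
      Ln F (Hm F (gu F X) N) (chi j (gs F N) φ) (a y) := fun y hy => by
    have := S2.ln j hy.1 (f2 y hy) (lin y hy.1) (δ := resA N (δ y) (hδ3 y hy.1))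
      (fun x => hδ1 y hy.1 x) (fun x => hδ2 y hy.1 x) one_ne_zero
    rwa [one_smul, ← gs_hm] at this
  have ex : ∀ y ∈ S, ∃ c : F, c ≠ 0 ∧
      U (a y) (Ey j (gu F X) κ P y) (c • Ey j (gs F N) (κ.comp N.subtype) P0 y) := fun y hy => by
    obtain ⟨w', hw⟩ := hU.tot' hL hf (inf_le_left.trans (hΓ.trans inf_le_left)) (mem y hy)
      (lin y hy.1) (l1 y hy)
    obtain ⟨c, c0, rfl⟩ := Ln_unique hM hf' (lin y hy.1) (hΓ (ha1 y hy.1)).2 (l2 y hy)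
      (hU.int _ _ _ hw).2.2.2
    exact ⟨c, c0, hw⟩
  choose! c c0 hc using ex
  have am : ∀ x ∈ T, ∀ y ∈ T, a x * a y = a (x * y) := fun x hx y hy =>
    ga_ext (lin_iff.1 ((lin x hx).mul (lin y hy))) (ha2 _ (mul_mem hx hy)) fun z => by
      change a x (a y _) = _
      rw [hδ1 y hy, hδ1 x hx, hδ1 _ (mul_mem hx hy)]
      congr 1
      apply hκ
      rw [kδ x hx, kδ y hy, kδ _ (mul_mem hx hy)]
      group
  have rel : ∀ x ∈ S, ∀ y ∈ S, c x * c y * j (α0 x y) = j (α x y) * c (x * y) := by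
    intro x hx y hy
    obtain ⟨m0, m1⟩ := S1.mul j trivial hx.2 trivial hy.2
    obtain ⟨-, m2⟩ := S2.mul j hx.1 (f2 x hx) hy.1 (f2 y hy)
    have u1 := hU.mul _ _ _ _ _ _ (hc x hx) (hc y hy)
    rw [am x hx.1 y hy.1, m1, smul_mul_smul_comm, m2, smul_smul] at u1
    have u2 := hU.smul _ _ _ _ m0 (hc _ (mul_mem hx hy))
    rw [smul_smul] at u2
    exact smul_left_injective F (S2.ne j (mul_mem hx.1 hy.1) (f2 _ (mul_mem hx hy)))
      (hU.fn _ _ _ _ u1 u2)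
  have mS : ∀ g ∈ κ.range ⊓ T, g ∈ S := fun g hg => by
    obtain ⟨⟨x, rfl⟩, h⟩ := hg
    exact ⟨h, S1.fix x⟩
  have cone : ∀ g ∈ κ.range ⊓ T, c g = 1 := fun g hg => by
    obtain ⟨m, rfl⟩ := (S2.rng g).1 hg
    have hs := mS _ hg
    have e1 := (S1.loc j (m : X) trivial (fix_one _ _) (ζ := 1) (by rw [S1.P_one, one_smul])).2
    have e2 := (S2.loc j m (one_mem _) (fix_one _ _) (ζ := 1) (by rw [S2.P_one, one_smul])).2
    rw [mul_one, map_one, one_smul] at e1 e2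
    have u1 := hU.loc _ (mem _ hs) (lin _ hs.1) (gu F X m) (mem_Hm m.2) (by
      rintro _ ⟨b, -, z, -, rfl⟩
      rw [lin _ hs.1, hδ1 _ hs.1, mul_smul_comm, smul_mul_assoc, gu_mul, gu_mul]
      congr 2
      apply hκ
      rw [map_mul, map_mul]
      exact hδ2 _ hs.1 z)
    have u2 := hc _ hs
    rw [e2] at u2
    rw [← e1] at u1
    have u3 := hU.fn _ _ _ _ u2 u1
    have ne := S2.ne j hs.1 (f2 _ hs)
    rw [e2] at ne
    exact smul_left_injective F ne (u3.trans (one_smul _ _).symm)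
  obtain ⟨c', hc'⟩ := root_desc j S c α0 α c0
    (fun x hx y hy => ((S2.ass.2 x hx.1 (f2 x hx)).2.2.2 y hy.1 (f2 y hy)).2)
    (fun x hx y hy => ((S1.ass.2 x trivial hx.2).2.2.2 y trivial hy.2).2) rel
  have c1 : ∀ g ∈ κ.range ⊓ T, c' g = 1 := fun g hg =>
    j.injective (by rw [(hc' g (mS g hg)).1, cone g hg, map_one])
  have A2 : Assoc (κ.range ⊓ T) T ψ' (fun x => c' x • P0 x) α :=
    resc S2 nT c' α c1 (fun x hx h => (hc' x (f1 x hx h)).2)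
      (fun x hx h y hy h' => j.injective (by
        have hx' := f1 x hx h
        have hy' := f1 y hy h'
        rw [map_mul, map_mul, map_mul, (hc' x hx').1, (hc' y hy').1, (hc' _ (mul_mem hx' hy')).1]
        exact rel x hx' y hy'))
      fun g hg y hy h => al_one S1 hg.1 trivial (f1 y hy h).2
  have S3 : Side F (gs F N) (κ.comp N.subtype) (κ.range ⊓ T) T ψ' φ (fun x => c' x • P0 x) α :=
    ⟨S2.vm, S2.ind, S2.rng, S2.le, S2.val, S2.irr, A2⟩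
  have key : ∀ y ∈ S, U (a y) (Ey j (gu F X) κ P y)
      (Ey j (gs F N) (κ.comp N.subtype) (fun x => c' x • P0 x) y) := fun y hy => by
    have e : Ey j (gs F N) (κ.comp N.subtype) (fun x => c' x • P0 x) y =
        c y • Ey j (gs F N) (κ.comp N.subtype) P0 y := by
      rw [Ey, Ey, ← map_smul, ← (hc' y hy).1]
      congr 1
      · congr 1
        funext x
        rw [c1 _ (S2.mem x), one_smul]
      · ext s t
        simp
    rw [e]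
    exact hc y hy
  refine ⟨_, A2, fun z hz => ?_, fun h hh s hs hF => ?_⟩
  · have hs : z ∈ S := ⟨hcT hz, fix_cen ψ hz⟩
    have id1 : ∀ x ∈ Hm F (gu F X) ⊤, a z x = x := by
      rintro _ ⟨b, -, x, -, rfl⟩
      rw [lin _ hs.1, hδ1 _ hs.1]
      congr 2
      apply hκ
      rw [kδ _ hs.1, ← hz _ ⟨x, rfl⟩, mul_inv_cancel_right]
    have u0 := hU.triv hL hM (Hm_mono le_top) hf hf' (mem z hs) (lin _ hs.1) id1
    obtain ⟨b, b0, hb⟩ := Ln_unique hL hf (lin _ hs.1) (hΓ (ha1 _ hs.1)).1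
      (hU.int _ _ _ u0).2.2.1 (l1 z hs)
    have u1 := hU.smul _ _ _ _ b0 u0
    rw [← hb] at u1
    have u2 := hU.fn _ _ _ _ (key z hs) u1
    rw [← S1.one_eq j, Ey, ← map_smul] at hb
    rw [← S3.one_eq j, Ey, ← map_smul] at u2
    obtain ⟨ζ, z1, z2⟩ := zbr_scal j (S1.ar j).pos ((S1.ar j).Em_inj hb)
    obtain ⟨ζ', z3, z4⟩ := zbr_scal j (S3.ar j).pos ((S3.ar j).Em_inj u2)
    obtain rfl : ζ = ζ' := j.injective (z1.trans z3.symm)
    exact ⟨ζ, z2, z4⟩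
  obtain ⟨σ, hσ, e1⟩ := hj' s hs
  obtain ⟨s', hs', e2⟩ := hj σ hσ
  have e3 : ∀ x ∈ Qab, s x = s' x := fun x hx => j.injective ((e1 x hx).symm.trans (e2 x))
  have F1 : Fix κ.range ψ h s' := fix_congr S1.ass le_top
    (by rintro _ ⟨x, rfl⟩; exact S1.fix x) nN trivial e3 hF
  have F2 := (hfx h hh s' hs').1 F1
  obtain ⟨μ, hμ⟩ := ex_mu S1 nN trivial F1
  obtain ⟨μ', hμ'⟩ := ex_mu S3 nT hh F2
  refine ⟨μ, μ', mu_congr S1.ass nN trivial (fun x hx => (e3 x hx).symm) F1 hμ,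
    mu_congr A2 nT hh (fun x hx => (e3 x hx).symm) F2 hμ', fun y hy fy => ?_⟩
  obtain ⟨γ, g1, g2, ε, g3, g4, g5⟩ := act h⁻¹ (inv_mem hh) σ hσ
  have g6 : ∀ x, h * κ (ε x) * h⁻¹ = κ x := fun x => by
    rw [mul_assoc, ← g4, mul_inv_cancel_left]
  have hy1 : y ∈ S := ⟨hy, fy⟩
  have hy2 : h * y * h⁻¹ ∈ S :=
    ⟨mul_mem (mul_mem hh hy) (inv_mem hh), fix_conj nN trivial trivial F1 fy⟩
  have u1 := hU.nat γ ⟨g1, fixf σ s' γ ε h g2 e2 g3 g6 F1⟩ _ _ _ (key _ hy2)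
  have n1 := S1.nat j e2 g2 ε g3 g6 hμ trivial fy
  have n2 := S3.nat j e2 g2 (resA N ε g5) (fun x => g3 x) (fun x => g6 x) hμ' hy (f2 y hy1)
  have e4 : γ * a (h * y * h⁻¹) * γ⁻¹ = a y :=
    ga_ext (lin_iff.1 (lin_conj g2 (lin _ hy2.1))) (ha2 y hy) fun x => by
      obtain ⟨x, rfl⟩ := ε.surjective x
      rw [← g3]
      change γ (a _ (γ.symm (γ _))) = _
      rw [γ.symm_apply_apply, hδ1 _ hy2.1, g3, g3, hδ1 y hy]
      congr 1
      apply hκ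
      apply (MulAut.conj h).injective
      rw [MulAut.conj_apply, MulAut.conj_apply, g6, kδ _ hy2.1, kδ y hy, ← g6 x]
      group
  have n0 : j (μ y) ≠ 0 := fun e => by
    rw [e, zero_smul, map_eq_zero_iff γ γ.injective] at n1
    exact S1.ne j trivial hy2.2 n1
  rw [e4, n1, n2] at u1
  exact j.injective (smul_left_injective F (S3.ne j hy (f2 y hy1))
    (hU.fn _ _ _ _ (hU.smul _ _ _ _ n0 (key y hy1)) u1))

end Pool.Agent.Lib.MP_1ae3da_al.CT.Z
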