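import Pool.Agent.Lib.MP_1ae3da_al.Z.SL3
import Pool.Agent.Lib.MP_1ae3da_al.Z.BN2

/-! The sharp Bruhat decomposition, and its descent to fixed point subgroups. -/

namespace Pool.Agent.Lib.MP_1ae3da_al.SLI

open Matrix

variable {F : Type} [Field F] {m : ℕ}

lemma mon_l {n : Matrix (Fin m) (Fin m) F} {σ : Equiv.Perm (Fin m)} (h : IsMon n σ)
    (w : Matrix (Fin m) (Fin m) F) (i y : Fin m) : (n * w) i y = n i (σ i) * w (σ i) y := by
  rw [Matrix.mul_apply, Finset.sum_eq_single (σ i)]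
  · intro b _ hb
    rw [h i b hb, zero_mul]
  · simp

lemma mon_r {n : Matrix (Fin m) (Fin m) F} {σ : Equiv.Perm (Fin m)} (h : IsMon n σ)
    (w : Matrix (Fin m) (Fin m) F) (x j : Fin m) : (w * n) x (σ j) = w x j * n j (σ j) := by
  rw [Matrix.mul_apply, Finset.sum_eq_single j]
  · intro b _ hb
    rw [h b _ (fun e => hb (σ.injective e).symm), mul_zero]
  · simp

lemma mon_conj {n : SLm m F} {σ : Equiv.Perm (Fin m)} (h : IsMon n.1 σ) (u : SLm m F)
    (i j : Fin m) : n.1 i (σ i) * (n⁻¹ * u * n).1 (σ i) (σ j) = u.1 i j * n.1 j (σ j) := by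
  rw [← mon_l h, ← mon_r h]
  have : n.1 * (n⁻¹ * u * n).1 = u.1 * n.1 :=
    congrArg Subtype.val (show n * (n⁻¹ * u * n) = u * n by group)
  rw [this]

lemma mon_inv {n : SLm m F} {σ : Equiv.Perm (Fin m)} (h : IsMon n.1 σ) : IsMon (n⁻¹).1 σ⁻¹ := by
  intro a y hy
  obtain ⟨i, rfl⟩ := σ.surjective a
  have h1 := mon_l h (n⁻¹).1 i y
  have h2 : n.1 * (n⁻¹).1 = 1 := congrArg Subtype.val (mul_inv_cancel n)
  rw [h2, one_apply_ne (fun e => hy (by rw [← e]; simp))] at h1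
  exact (mul_eq_zero.mp h1.symm).resolve_left (mon_ne h i)

lemma mon_one : IsMon (1 : Matrix (Fin m) (Fin m) F) 1 := fun _ _ h => one_apply_ne (Ne.symm h)

/-- monomial matrices of determinant one. -/
def MonS (m : ℕ) (F : Type) [Field F] : Subgroup (SLm m F) where
  carrier := {g | ∃ σ, IsMon g.1 σ}
  one_mem' := ⟨1, mon_one⟩
  mul_mem' := fun ⟨_, h⟩ ⟨_, h'⟩ => ⟨_, mon_mul h h'⟩
  inv_mem' := fun ⟨_, h⟩ => ⟨_, mon_inv h⟩

lemma tr_mul (a b : SLm m F) : (a * b).transpose = b.transpose * a.transpose :=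
  Subtype.ext (Matrix.transpose_mul a.1 b.1)

lemma tr_one : (1 : SLm m F).transpose = 1 := Subtype.ext Matrix.transpose_one

lemma tr_inv (a : SLm m F) : a⁻¹.transpose = a.transpose⁻¹ :=
  eq_inv_of_mul_eq_one_left (by rw [← tr_mul, mul_inv_cancel, tr_one])

/-- lower unitriangular matrices. -/
def LS (m : ℕ) (F : Type) [Field F] : Subgroup (SLm m F) where
  carrier := {g | g.transpose ∈ US m F}
  one_mem' := by show _ ∈ US m F; rw [tr_one]; exact one_mem _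
  mul_mem' := fun {a b} ha hb => by show _ ∈ US m F; rw [tr_mul]; exact mul_mem hb ha
  inv_mem' := fun {a} ha => by show _ ∈ US m F; rw [tr_inv]; exact inv_mem ha

lemma mem_LS {g : SLm m F} :
    g ∈ LS m F ↔ (∀ i j : Fin m, i < j → g.1 i j = 0) ∧ ∀ i, g.1 i i = 1 := by
  show g.transpose ∈ US m F ↔ _
  rw [mem_US']
  exact and_congr ⟨fun h i j hij => h j i hij, fun h i j hij => h j i hij⟩ Iff.rfl

lemma US_LS {g : SLm m F} (h : g ∈ US m F) (h' : g ∈ LS m F) : g = 1 := by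
  apply Subtype.ext
  ext i j
  show g.1 i j = (1 : Matrix (Fin m) (Fin m) F) i j
  rcases lt_trichotomy i j with e | rfl | e
  · rw [(mem_LS.mp h').1 i j e, one_apply_ne e.ne]
  · rw [(mem_LS.mp h').2, one_apply_eq]
  · rw [(mem_US'.mp h).1 i j e, one_apply_ne e.ne']

/-- cut the entries of a unitriangular matrix off the diagonal. -/
def cut (P : Fin m → Fin m → Prop) [∀ i j, Decidable (P i j)] (hP : ∀ i, ¬ P i i) (u : US m F) :
    US m F :=
  ⟨⟨Matrix.of fun i j => if P i j then 0 else u.1.1 i j, by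
    rw [Matrix.det_of_isUpperTriangular (fun i j hij => by
      simp [(mem_US'.mp u.2).1 i j hij])]
    exact Finset.prod_eq_one fun i _ => by simp [hP i, (mem_US'.mp u.2).2 i]⟩,
   mem_US'.mpr ⟨fun i j hij => by simp [(mem_US'.mp u.2).1 i j hij],
    fun i => by simp [hP i, (mem_US'.mp u.2).2 i]⟩⟩

lemma cut_val (P : Fin m → Fin m → Prop) [∀ i j, Decidable (P i j)] (hP : ∀ i, ¬ P i i)
    (u : US m F) (i j : Fin m) : (cut P hP u).1.1 i j = if P i j then 0 else u.1.1 i j := rfl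

lemma conj_zero {n : SLm m F} {σ : Equiv.Perm (Fin m)} (h : IsMon n.1 σ) {u : SLm m F}
    {i j : Fin m} : (n⁻¹ * u * n).1 (σ i) (σ j) = 0 ↔ u.1 i j = 0 := by
  have h1 := mon_conj h u i j
  constructor
  · intro e
    rw [e, mul_zero] at h1
    exact (mul_eq_zero.mp h1.symm).resolve_right (mon_ne h j)
  · intro e
    rw [e, zero_mul] at h1
    exact (mul_eq_zero.mp h1).resolve_left (mon_ne h i)

lemma conj_dg {n : SLm m F} {σ : Equiv.Perm (Fin m)} (h : IsMon n.1 σ) (u : SLm m F)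
    (i : Fin m) : (n⁻¹ * u * n).1 (σ i) (σ i) = u.1 i i := by
  have h1 := mon_conj h u i i
  rw [mul_comm (u.1 i i)] at h1
  exact mul_left_cancel₀ (mon_ne h i) h1

lemma split_U [Finite F] {n : SLm m F} {σ : Equiv.Perm (Fin m)} (h : IsMon n.1 σ) {u : SLm m F}
    (hu : u ∈ US m F) : ∃ a ∈ US m F, n⁻¹ * a * n ∈ LS m F ∧ ∃ b ∈ US m F,
      n⁻¹ * b * n ∈ US m F ∧ u = a * b := by
  let A := {a : US m F // n⁻¹ * a.1 * n ∈ LS m F}
  let B := {b : US m F // n⁻¹ * b.1 * n ∈ US m F}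
  let f : A × B → US m F := fun x => x.1.1 * x.2.1
  have hf : Function.Injective f := by
    rintro ⟨a, b⟩ ⟨a', b'⟩ e
    have e1 : a.1.1 * b.1.1 = a'.1.1 * b'.1.1 := congrArg Subtype.val e
    have e2 : (n⁻¹ * a'.1.1 * n)⁻¹ * (n⁻¹ * a.1.1 * n) =
        (n⁻¹ * b'.1.1 * n) * (n⁻¹ * b.1.1 * n)⁻¹ := by
      rw [eq_mul_inv_of_mul_eq e1]; group
    have e3 := US_LS (e2 ▸ mul_mem b'.2 (inv_mem b.2)) (mul_mem (inv_mem a'.2) a.2)
    have e4 : a.1.1 = a'.1.1 := by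
      rw [inv_mul_eq_one] at e3
      exact (mul_left_cancel (mul_right_cancel e3)).symm
    rw [e4] at e1
    exact Prod.ext (Subtype.ext (Subtype.ext e4)) (Subtype.ext (Subtype.ext (mul_left_cancel e1)))
  let g : US m F → A × B := fun w =>
    (⟨cut (fun i j => σ i < σ j) (fun _ => lt_irrefl _) w, mem_LS.mpr ⟨fun x y hxy => by
        obtain ⟨i, rfl⟩ := σ.surjective x
        obtain ⟨j, rfl⟩ := σ.surjective y
        rw [conj_zero h, cut_val, if_pos hxy], fun x => by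
        obtain ⟨i, rfl⟩ := σ.surjective x
        rw [conj_dg h]
        exact (mem_US'.mp (Subtype.property _)).2 i⟩⟩,
     ⟨cut (fun i j => σ j < σ i) (fun _ => lt_irrefl _) w, mem_US'.mpr ⟨fun x y hxy => by
        obtain ⟨i, rfl⟩ := σ.surjective x
        obtain ⟨j, rfl⟩ := σ.surjective y
        rw [conj_zero h, cut_val, if_pos hxy], fun x => by
        obtain ⟨i, rfl⟩ := σ.surjective x
        rw [conj_dg h]
        exact (mem_US'.mp (Subtype.property _)).2 i⟩⟩)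
  have hg : Function.Injective g := by
    intro w w' e
    apply Subtype.ext
    apply Subtype.ext
    ext i j
    have e1 := congrArg (fun x : A × B => x.1.1.1.1 i j) e
    have e2 := congrArg (fun x : A × B => x.2.1.1.1 i j) e
    simp only [g, cut_val] at e1 e2
    by_cases c : σ i < σ j
    · rwa [if_neg (lt_asymm c), if_neg (lt_asymm c)] at e2
    · rwa [if_neg c, if_neg c] at e1
  obtain ⟨⟨a, b⟩, e⟩ := (hf.bijective_of_nat_card_le (Nat.card_le_card_of_injective g hg)).2 ⟨u, hu⟩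
  exact ⟨a.1, a.1.2, a.2, b.1, b.1.2, b.2, (congrArg Subtype.val e).symm⟩

lemma bruhat' [Finite F] (x : SLm m F) : ∃ u ∈ US m F, ∃ n ∈ MonS m F, n⁻¹ * u * n ∈ LS m F ∧
    ∃ v ∈ US m F, x = u * n * v := by
  obtain ⟨u, hu, n, ⟨σ, hσ⟩, v, hv, e⟩ := bruhat x
  obtain ⟨a, ha, ha', b, -, hb', rfl⟩ := split_U hσ hu
  exact ⟨a, ha, n, ⟨σ, hσ⟩, ha', _, mul_mem hb' hv, by rw [e]; group⟩

lemma mon_cell {n n' a b : SLm m F} (hn : n ∈ MonS m F) (hn' : n' ∈ MonS m F) (ha : a ∈ US m F)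
    (hb : b ∈ US m F) (e : a * n' = n * b) : n' = n := by
  obtain ⟨σ, h⟩ := hn
  obtain ⟨σ', h'⟩ := hn'
  have e1 : a.1 * n'.1 = n.1 * b.1 := congrArg Subtype.val e
  have h1 : ∀ i, n'.1 i (σ' i) = n.1 i (σ i) * b.1 (σ i) (σ' i) := fun i => by
    rw [← mon_l h, ← e1, mon_r h', (mem_US'.mp ha).2, one_mul]
  have h2 : ∀ i, σ i ≤ σ' i := fun i => by
    by_contra c
    exact mon_ne h' i (by rw [h1, (mem_US'.mp hb).1 _ _ (not_le.mp c), mul_zero])
  have h3 : ∀ i, σ i = σ' i := by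
    have hs : ∑ i, (σ i : ℕ) = ∑ i, (σ' i : ℕ) :=
      (Equiv.sum_comp σ fun i : Fin m => (i : ℕ)).trans
        (Equiv.sum_comp σ' fun i : Fin m => (i : ℕ)).symm
    exact fun i => Fin.ext ((Finset.sum_eq_sum_iff_of_le (f := fun i => (σ i : ℕ))
      (g := fun i => (σ' i : ℕ)) fun i _ => h2 i).mp hs i (Finset.mem_univ i))
  apply Subtype.ext
  ext i j
  by_cases c : j = σ i
  · have := h1 i
    rw [← h3, (mem_US'.mp hb).2, mul_one] at this
    rw [c]
    exact this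
  · rw [h i j c, h' i j (h3 i ▸ c)]

/-- the Bruhat decomposition of a fixed point consists of fixed points. -/
lemma bruhat_fix [Finite F] (θ : SLm m F →* SLm m F) (hU : ∀ u ∈ US m F, θ u ∈ US m F)
    (hL : ∀ u ∈ LS m F, θ u ∈ LS m F) (hM : ∀ u ∈ MonS m F, θ u ∈ MonS m F) {x : SLm m F}
    (hx : θ x = x) : ∃ u ∈ US m F, ∃ n ∈ MonS m F, ∃ v ∈ US m F,
      θ u = u ∧ θ n = n ∧ θ v = v ∧ x = u * n * v := by
  obtain ⟨u, hu, n, hn, hl, v, hv, e⟩ := bruhat' x
  have e1 : θ u * θ n * θ v = u * n * v := by rw [← map_mul, ← map_mul, ← e, hx]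
  have e2 : θ n = n := mon_cell hn (hM n hn) (mul_mem (inv_mem hu) (hU u hu))
    (mul_mem hv (inv_mem (hU v hv))) (by
      rw [mul_assoc, eq_mul_inv_of_mul_eq e1]; group)
  have hl' := hL _ hl
  rw [map_mul, map_mul, map_inv, e2] at hl'
  rw [e2] at e1
  have e3 : (n⁻¹ * u * n)⁻¹ * (n⁻¹ * θ u * n) = v * (θ v)⁻¹ := by
    rw [eq_mul_inv_of_mul_eq (eq_mul_inv_of_mul_eq e1)]; group
  have e4 := US_LS (e3 ▸ mul_mem hv (inv_mem (hU v hv))) (mul_mem (inv_mem hl) hl')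
  have e5 : θ u = u := by
    rw [inv_mul_eq_one] at e4
    exact (mul_left_cancel (mul_right_cancel e4)).symm
  rw [e5] at e1
  exact ⟨u, hu, n, hn, v, hv, e5, e2, mul_left_cancel e1, e⟩

end Pool.Agent.Lib.MP_1ae3da_al.SLI
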