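import Pool.Agent.Lib.MP_1ae3da_al.Z.Cl0
import Pool.Agent.Lib.MP_1ae3da_al.Z.BW

/-! Subgroups of `SL_m(F)` that are closed under the Bruhat decomposition. -/

namespace Pool.Agent.Lib.MP_1ae3da_al.SLI

open Matrix

variable {F : Type} [Field F] {m : ℕ}

lemma mon_uniq' {g : SLm m F} {σ σ' : Equiv.Perm (Fin m)} (h : IsMon g.1 σ) (h' : IsMon g.1 σ') :
    σ = σ' := by
  ext1 i
  by_contra hne
  exact mon_ne h i (h' i _ hne)

lemma dg_pow {t : SLm m F} (h : IsMon t.1 1) (s : ℕ) :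
    IsMon (t ^ s).1 1 ∧ ∀ i, (t ^ s).1 i i = t.1 i i ^ s := by
  induction s with
  | zero => exact ⟨mon_one, fun i => by simp⟩
  | succ s ih =>
    rw [pow_succ']
    refine ⟨mon_mul h ih.1, fun i => ?_⟩
    have : (t * t ^ s).1 i i = t.1 i i * (t ^ s).1 i i := mon_l h _ i i
    rw [this, ih.2, pow_succ']

lemma dg_norm {t u : SLm m F} (h : IsMon t.1 1) (hu : u ∈ US m F) : t⁻¹ * u * t ∈ US m F :=
  mem_US'.mpr ⟨fun i j hij => (conj_zero h).mpr ((mem_US'.mp hu).1 i j hij),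
    fun i => (conj_dg h u i).trans ((mem_US'.mp hu).2 i)⟩

lemma ex_off {u : SLm m F} (hu : u ∈ US m F) (h1 : u ≠ 1) : ∃ i j, i ≠ j ∧ u.1 i j ≠ 0 := by
  by_contra hn
  push Not at hn
  exact h1 (US_LS hu (mem_LS.mpr ⟨fun i j hij => hn i j hij.ne, (mem_US'.mp hu).2⟩))

/-- the permutation of a monomial matrix. -/
noncomputable def wey (m : ℕ) (F : Type) [Field F] : MonS m F →* Equiv.Perm (Fin m) :=
  MonoidHom.mk' (fun n => (Classical.choose n.2)⁻¹) fun a b => by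
    rw [← _root_.mul_inv_rev, mon_uniq' (Classical.choose_spec (a * b).2)
      (mon_mul (Classical.choose_spec a.2) (Classical.choose_spec b.2))]

lemma wey_eq {n : MonS m F} {σ : Equiv.Perm (Fin m)} (h : IsMon n.1.1 σ) : wey m F n = σ⁻¹ :=
  congrArg (·⁻¹) (mon_uniq' (Classical.choose_spec n.2) h)

/-- the permutation of a monomial element of `H`. -/
noncomputable def weyH (H : Subgroup (SLm m F)) :
    (MonS m F).subgroupOf H →* Equiv.Perm (Fin m) :=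
  (wey m F).comp ((H.subtype.comp ((MonS m F).subgroupOf H).subtype).codRestrict _ fun x => x.2)

lemma weyH_eq {H : Subgroup (SLm m F)} {n : (MonS m F).subgroupOf H} {σ : Equiv.Perm (Fin m)}
    (h : IsMon n.1.1.1 σ) : weyH H n = σ⁻¹ := wey_eq h

lemma weyH_ker {H : Subgroup (SLm m F)} {n : (MonS m F).subgroupOf H} :
    weyH H n = 1 ↔ IsMon n.1.1.1 1 := by
  obtain ⟨σ, h⟩ := n.2
  rw [weyH_eq h, inv_eq_one]
  exact ⟨fun e => e ▸ h, mon_uniq' h⟩

/-- the data on `H` that give a split `BN`-pair. -/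
structure Clo (p c : ℕ) (H : Subgroup (SLm m F)) (W : Subgroup (Equiv.Perm (Fin m))) : Prop where
  cl : ∀ x ∈ H, ∃ u ∈ US m F, ∃ n ∈ MonS m F, ∃ v ∈ US m F, u ∈ H ∧ n ∈ H ∧ v ∈ H ∧ x = u * n * v
  reg : ∀ n ∈ H, ∀ σ, IsMon n.1 σ → (∀ u ∈ US m F, u ∈ H → n⁻¹ * u * n ∈ US m F) → σ = 1
  tor : ∀ i j, i ≠ j → ∃ t ∈ H, IsMon t.1 1 ∧ ∀ s : ℕ, t.1 i i ^ s = t.1 j j ^ s → p ^ c ∣ s
  wey : ∀ n ∈ H, ∀ σ, IsMon n.1 σ → σ ∈ W
  val : padicValNat p (Nat.card W) < c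

namespace Clo
variable {p c r : ℕ} {H : Subgroup (SLm m F)} {W : Subgroup (Equiv.Perm (Fin m))}
  (h : Clo p c H W)
include h

lemma bru (x : H) : ∃ u ∈ (US m F).subgroupOf H, ∃ n ∈ (MonS m F).subgroupOf H,
    ∃ v ∈ (US m F).subgroupOf H, x = u * n * v := by
  obtain ⟨u, hu, n, hn, v, hv, h1, h2, h3, e⟩ := h.cl x.1 x.2
  exact ⟨⟨u, h1⟩, hu, ⟨n, h2⟩, hn, ⟨v, h3⟩, hv, Subtype.ext e⟩

lemma mem_tor [Finite F] {t : H} : t ∈ (MonS m F).subgroupOf H ⊓
    Subgroup.normalizer (((US m F).subgroupOf H : Subgroup H) : Set H) ↔ IsMon t.1.1 1 := by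
  constructor
  · rintro ⟨⟨σ, h1⟩, h2⟩
    have := h.reg t.1 t.2 σ h1 fun u hu hH =>
      (Subgroup.mem_normalizer_iff''.mp h2 ⟨u, hH⟩).mp hu
    exact this ▸ h1
  · intro ht
    refine Subgroup.mem_inf.mpr ⟨⟨1, ht⟩, Subgroup.mem_normalizer_fintype fun u hu => ?_⟩
    have := dg_norm (mon_inv ht) hu
    rwa [inv_inv] at this

variable [Finite F] [hr : Fact r.Prime] [CharP F r]

lemma syl : ∃ U : Sylow r H, (U : Subgroup H) = (US m F).subgroupOf H := by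
  have := Fintype.ofFinite F
  refine syl_of (N := (MonS m F).subgroupOf H) (IsPGroup.comap_subtype ?_) h.bru ?_
  · obtain ⟨f, -, hf⟩ := FiniteField.card F r
    refine IsPGroup.of_card (n := f * ∑ i : Fin m, (i : ℕ)) ?_
    rw [card_US, Nat.card_eq_fintype_card, hf, pow_mul]
  · rintro n hn h1 ⟨k, hk⟩
    have h2 := h.mem_tor.mp (Subgroup.mem_inf.mpr ⟨hn, h1⟩)
    refine mem_US'.mpr ⟨fun i j hij => h2 i j hij.ne, fun i => ?_⟩
    have h3 := (dg_pow h2 (r ^ k)).2 i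
    have h4 : n.1 ^ r ^ k = 1 := congrArg Subtype.val hk
    rw [h4] at h3
    have h5 : (n.1.1 i i - 1) ^ r ^ k = 0 := by
      rw [sub_pow_char_pow, ← h3, one_pow]
      simp
    exact sub_eq_zero.mp (pow_eq_zero_iff (pow_pos hr.out.pos k).ne' |>.mp h5)

omit hr [CharP F r] in
lemma tor_iff {U : Sylow r H} (hU : (U : Subgroup H) = (US m F).subgroupOf H) {t : H} :
    t ∈ Tor U ((MonS m F).subgroupOf H) ↔ IsMon t.1.1 1 := by
  rw [← h.mem_tor, ← hU]
  rfl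

omit hr [CharP F r] in
lemma tor_ker {U : Sylow r H} (hU : (U : Subgroup H) = (US m F).subgroupOf H) :
    (Tor U ((MonS m F).subgroupOf H)).subgroupOf ((MonS m F).subgroupOf H) = (weyH H).ker := by
  ext n
  rw [MonoidHom.mem_ker, weyH_ker, Subgroup.mem_subgroupOf, h.tor_iff hU]

omit hr [CharP F r] [Finite F] in
lemma range_le : (weyH H).range ≤ W := by
  rintro _ ⟨n, rfl⟩
  obtain ⟨σ, hσ⟩ := n.2
  rw [weyH_eq hσ]
  exact inv_mem (h.wey n.1.1 n.1.2 σ hσ)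

omit hr [CharP F r] in
lemma idx_le [hp : Fact p.Prime] {U : Sylow r H} (hU : (U : Subgroup H) = (US m F).subgroupOf H) :
    padicValNat p ((Tor U ((MonS m F).subgroupOf H)).relIndex ((MonS m F).subgroupOf H)) ≤
      padicValNat p (Nat.card W) := by
  refine (padicValNat_dvd_iff_le (p := p) Nat.card_pos.ne').mp (pow_padicValNat_dvd.trans ?_)
  rw [Subgroup.relIndex, h.tor_ker hU, Subgroup.index_ker]
  exact Subgroup.card_dvd_of_le h.range_le

omit hr [CharP F r] in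
lemma le_idx [hp : Fact p.Prime] {U : Sylow r H} (hU : (U : Subgroup H) = (US m F).subgroupOf H)
    {u : H} (hu : u ∈ U) (h1 : u ≠ 1) :
    c ≤ padicValNat p ((Subgroup.centralizer {u}).relIndex (Tor U ((MonS m F).subgroupOf H))) := by
  have hT := @tor_iff _ _ _ _ _ _ _ _ h _ U hU
  have hu' : u ∈ (US m F).subgroupOf H := hU ▸ hu
  obtain ⟨i, j, hij, h0⟩ := ex_off hu' fun e => h1 (Subtype.ext e)
  obtain ⟨t, ht, ht1, ht2⟩ := h.tor i j hij
  have : ((Subgroup.centralizer {u}).subgroupOf (Tor U ((MonS m F).subgroupOf H))).Normal :=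
    ⟨fun a ha g => by
      have : g * a * g⁻¹ = a := by
        rw [mul_inv_eq_iff_eq_mul]
        exact Subtype.ext (Subtype.ext (mon_one_comm (hT.mp g.2) (hT.mp a.2)))
      rwa [this]⟩
  have h2 := Subgroup.pow_index_mem
    ((Subgroup.centralizer {u}).subgroupOf (Tor U ((MonS m F).subgroupOf H)))
    ⟨⟨t, ht⟩, hT.mpr ht1⟩
  set s := (Subgroup.centralizer {u}).relIndex (Tor U ((MonS m F).subgroupOf H)) with hs
  have h3 : (⟨t, ht⟩ : H) ^ s * u = u * ⟨t, ht⟩ ^ s :=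
    Subgroup.mem_centralizer_singleton_iff.mp h2
  have h4 : (t ^ s).1 * u.1.1 = u.1.1 * (t ^ s).1 := congrArg (fun x : H => x.1.1) h3
  have h5 : (t ^ s).1 i i * u.1.1 i j = u.1.1 i j * (t ^ s).1 j j :=
    (mon_l (dg_pow ht1 s).1 _ i j).symm.trans
      ((congrFun (congrFun h4 i) j).trans (mon_r (dg_pow ht1 s).1 _ i j))
  rw [(dg_pow ht1 s).2, (dg_pow ht1 s).2, mul_comm] at h5
  exact (padicValNat_dvd_iff_le (p := p) (a := s) Subgroup.index_ne_zero_of_finite).mp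
    (ht2 s (mul_left_cancel₀ h0 h5))

omit hr [CharP F r] in
lemma bw [hp : Fact p.Prime] (hpr : p ≠ r) {U : Sylow r H}
    (hU : (U : Subgroup H) = (US m F).subgroupOf H) : BW p U ((MonS m F).subgroupOf H) := by
  have hT := @tor_iff _ _ _ _ _ _ _ _ h _ U hU
  have hU' : ∀ {u : H}, u ∈ U ↔ u ∈ (US m F).subgroupOf H := fun {u} => hU ▸ Iff.rfl
  refine ⟨hpr, fun x hx y hy => Subtype.ext (mon_one_comm (hT.mp hx) (hT.mp hy)), ?_,
    fun x => ?_, fun u hu h1 => ((h.idx_le hU).trans_lt h.val).trans_le (h.le_idx hU hu h1)⟩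
  · rintro n ⟨σ, hn⟩
    refine Subgroup.mem_normalizer_fintype fun t ht => hT.mpr ?_
    have := mon_mul (mon_mul hn (hT.mp ht)) (mon_inv hn)
    rwa [one_mul, inv_mul_cancel] at this
  · simp only [hU']
    exact h.bru x

omit hr [CharP F r] in
lemma bn [hp : Fact p.Prime] (hpr : p ≠ r) {U : Sylow r H}
    (hU : (U : Subgroup H) = (US m F).subgroupOf H) (h2 : 2 * padicValNat p (Nat.card W) < c) :
    BN p U ((MonS m F).subgroupOf H) :=
  ⟨hpr, (h.bw hpr hU).ab, (h.bw hpr hU).nrm, (h.bw hpr hU).bru, fun u hu h1 => by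
    have := h.idx_le hU
    have := h.le_idx hU hu h1
    omega⟩

end Clo

end Pool.Agent.Lib.MP_1ae3da_al.SLI
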