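import Pool.Agent.Lib.MP_1ae3da_al.Z.Cl1

/-! Isometry groups of antidiagonal sesquilinear forms. -/

namespace Pool.Agent.Lib.MP_1ae3da_al.SLI

open Matrix

variable {F : Type} [Field F] {m : ℕ}

/-- the antidiagonal matrix with entries `ε`. -/
def JJ (ε : Fin m → F) : Matrix (Fin m) (Fin m) F :=
  Matrix.of fun i j => if j = i.rev then ε i else 0

lemma JJ_mon (ε : Fin m → F) : IsMon (JJ ε) Fin.revPerm := fun _ _ h => if_neg h

lemma JJ_rev (ε : Fin m → F) (i : Fin m) : JJ ε i i.rev = ε i := if_pos rfl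

lemma JJ_l (ε : Fin m → F) (w : Matrix (Fin m) (Fin m) F) (i y : Fin m) :
    (JJ ε * w) i y = ε i * w i.rev y := by
  rw [mon_l (JJ_mon ε), Fin.revPerm_apply, JJ_rev]

lemma JJ_r (ε : Fin m → F) (w : Matrix (Fin m) (Fin m) F) (x j : Fin m) :
    (w * JJ ε) x j = w x j.rev * ε j.rev := by
  have := mon_r (JJ_mon ε) w x j.rev
  rwa [Fin.revPerm_apply, JJ_rev, Fin.rev_rev] at this

lemma JJ_inv {ε : Fin m → F} (hε : ∀ i, ε i ≠ 0) : JJ ε * JJ (fun i => (ε i.rev)⁻¹) = 1 := by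
  ext i y
  rw [JJ_l]
  by_cases e : i = y
  · subst e
    simp [JJ, hε i]
  · simp [JJ, one_apply_ne e, Ne.symm e]

/-- conjugate transpose. -/
def st (φ : F →+* F) (g : Matrix (Fin m) (Fin m) F) : Matrix (Fin m) (Fin m) F := (g.map φ)ᵀ

lemma st_mul (φ : F →+* F) (g h : Matrix (Fin m) (Fin m) F) : st φ (g * h) = st φ h * st φ g := by
  rw [st, Matrix.map_mul, transpose_mul]; rfl

lemma st_one (φ : F →+* F) : st φ (1 : Matrix (Fin m) (Fin m) F) = 1 := by
  rw [st, Matrix.map_one _ φ.map_zero φ.map_one, transpose_one]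

lemma st_inv (φ : F →+* F) (g : SLm m F) : st φ g.1 * st φ (g⁻¹).1 = 1 := by
  have : (g⁻¹).1 * g.1 = 1 := congrArg Subtype.val (inv_mul_cancel g)
  rw [← st_mul, this, st_one]

/-- the isometries of determinant one. -/
def Iso (φ : F →+* F) (J : Matrix (Fin m) (Fin m) F) : Subgroup (SLm m F) where
  carrier := {g | g.1 * J * (g.1.map φ)ᵀ = J}
  one_mem' := by
    show (1 : Matrix (Fin m) (Fin m) F) * J * st φ 1 = J
    rw [st_one, one_mul, mul_one]
  mul_mem' := fun {a b} ha hb => by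
    have ha' : a.1 * J * st φ a.1 = J := ha
    have hb' : b.1 * J * st φ b.1 = J := hb
    show a.1 * b.1 * J * st φ (a.1 * b.1) = J
    rw [st_mul, mul_assoc a.1, mul_assoc a.1, ← mul_assoc (b.1 * J), hb', ← mul_assoc, ha']
  inv_mem' := fun {a} ha => by
    have ha' : a.1 * J * st φ a.1 = J := ha
    have h : (a⁻¹).1 * a.1 = 1 := congrArg Subtype.val (inv_mul_cancel a)
    show (a⁻¹).1 * J * st φ (a⁻¹).1 = J
    conv_lhs => rw [← ha']
    rw [← mul_assoc, ← mul_assoc, h, one_mul, mul_assoc, st_inv, mul_one]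

lemma mem_Iso {φ : F →+* F} {J : Matrix (Fin m) (Fin m) F} {g : SLm m F} :
    g ∈ Iso φ J ↔ g.1 * J * st φ g.1 = J := Iff.rfl

variable (φ : F →+* F) {ε : Fin m → F} (hε : ∀ i, ε i ≠ 0)

/-- the endomorphism whose fixed points are the isometries. -/
def th : SLm m F →* SLm m F :=
  MonoidHom.mk' (fun g => ⟨JJ ε * st φ (g⁻¹).1 * JJ fun i => (ε i.rev)⁻¹, by
    rw [det_mul_comm, ← mul_assoc, mul_eq_one_comm.mp (JJ_inv hε), one_mul, st, det_transpose]
    have := φ.map_det (g⁻¹).1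
    rw [(g⁻¹).2, map_one] at this
    exact this.symm⟩) fun a b => Subtype.ext (by
      have h : ((a * b)⁻¹).1 = (b⁻¹).1 * (a⁻¹).1 := congrArg Subtype.val (_root_.mul_inv_rev a b)
      show JJ ε * st φ ((a * b)⁻¹).1 * _ =
        (JJ ε * st φ (a⁻¹).1 * _) * (JJ ε * st φ (b⁻¹).1 * _)
      rw [h, st_mul]
      simp only [mul_assoc]
      rw [← mul_assoc (JJ fun i => (ε i.rev)⁻¹), mul_eq_one_comm.mp (JJ_inv hε), one_mul])

lemma th_val (g : SLm m F) (a b : Fin m) :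
    (th φ hε g).1 a b = ε a * φ ((g⁻¹).1 b.rev a.rev) * (ε b)⁻¹ := by
  show (JJ ε * st φ (g⁻¹).1 * JJ fun i => (ε i.rev)⁻¹) a b = _
  rw [JJ_r, JJ_l, Fin.rev_rev]
  rfl

lemma th_fix {g : SLm m F} : th φ hε g = g ↔ g ∈ Iso φ (JJ ε) := by
  have h : (th φ hε g).1 * JJ ε * st φ g.1 = JJ ε := by
    show JJ ε * st φ (g⁻¹).1 * (JJ fun i => (ε i.rev)⁻¹) * JJ ε * st φ g.1 = _
    rw [mul_assoc _ _ (JJ ε), mul_eq_one_comm.mp (JJ_inv hε), mul_one, mul_assoc,
      mul_eq_one_comm.mp (st_inv φ g), mul_one]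
  rw [mem_Iso]
  refine ⟨fun e => by rwa [e] at h, fun e => Subtype.ext ?_⟩
  show JJ ε * st φ (g⁻¹).1 * _ = _
  conv_lhs => enter [1, 1]; rw [← e]
  rw [mul_assoc _ (st φ g.1), st_inv, mul_one, mul_assoc, JJ_inv hε, mul_one]

lemma th_U (u : SLm m F) (hu : u ∈ US m F) : th φ hε u ∈ US m F := by
  obtain ⟨h1, h2⟩ := mem_US'.mp (inv_mem hu)
  refine mem_US'.mpr ⟨fun i j hij => ?_, fun i => ?_⟩
  · rw [th_val, h1 _ _ (Fin.rev_lt_rev.mpr hij), map_zero, mul_zero, zero_mul]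
  · rw [th_val, h2, map_one, mul_one, mul_inv_cancel₀ (hε i)]

lemma th_L (u : SLm m F) (hu : u ∈ LS m F) : th φ hε u ∈ LS m F := by
  obtain ⟨h1, h2⟩ := mem_LS.mp (inv_mem hu)
  refine mem_LS.mpr ⟨fun i j hij => ?_, fun i => ?_⟩
  · rw [th_val, h1 _ _ (Fin.rev_lt_rev.mpr hij), map_zero, mul_zero, zero_mul]
  · rw [th_val, h2, map_one, mul_one, mul_inv_cancel₀ (hε i)]

lemma th_mon {n : SLm m F} {σ : Equiv.Perm (Fin m)} (h : IsMon n.1 σ) :
    IsMon (th φ hε n).1 (Fin.revPerm * σ * Fin.revPerm) := by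
  intro a b hb
  rw [th_val, mon_inv h b.rev a.rev fun e => hb (by simp [e]), map_zero, mul_zero, zero_mul]

include hε in
lemma iso_cl [Finite F] (x : SLm m F) (hx : x ∈ Iso φ (JJ ε)) :
    ∃ u ∈ US m F, ∃ n ∈ MonS m F, ∃ v ∈ US m F, u ∈ Iso φ (JJ ε) ∧ n ∈ Iso φ (JJ ε) ∧
      v ∈ Iso φ (JJ ε) ∧ x = u * n * v := by
  obtain ⟨u, hu, n, hn, v, hv, h1, h2, h3, e⟩ := bruhat_fix (th φ hε) (th_U φ hε) (th_L φ hε)
    (fun _ ⟨_, h⟩ => ⟨_, th_mon φ hε h⟩) ((th_fix φ hε).mpr hx)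
  exact ⟨u, hu, n, hn, v, hv, (th_fix φ hε).mp h1, (th_fix φ hε).mp h2, (th_fix φ hε).mp h3, e⟩

include hε in
lemma iso_rev {n : SLm m F} (hn : n ∈ Iso φ (JJ ε)) {σ : Equiv.Perm (Fin m)} (h : IsMon n.1 σ)
    (i : Fin m) : σ i.rev = (σ i).rev := by
  have h1 := th_mon φ hε h
  rw [(th_fix φ hε).mpr hn] at h1
  have := Equiv.congr_fun (mon_uniq' h h1) i.rev
  simpa using this

include hε in
lemma iso_wey {n : SLm m F} (hn : n ∈ Iso φ (JJ ε)) {σ : Equiv.Perm (Fin m)} (h : IsMon n.1 σ) :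
    σ ∈ Subgroup.centralizer {(Fin.revPerm : Equiv.Perm (Fin m))} := by
  rw [Subgroup.mem_centralizer_singleton_iff]
  ext1 i
  exact iso_rev φ hε hn h i

lemma dg_iso {g : SLm m F} {d : Fin m → F} (hg : g.1 = diagonal d)
    (hd : ∀ a, d a * φ (d a.rev) = 1) : g ∈ Iso φ (JJ ε) := by
  rw [mem_Iso, hg, st, diagonal_map φ.map_zero, diagonal_transpose]
  ext a b
  rw [mul_diagonal, diagonal_mul]
  by_cases e : b = a.rev
  · rw [e, mul_right_comm, hd, one_mul]
  · rw [JJ_mon ε a b e, mul_zero, zero_mul]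

lemma iso_tor {z : Fˣ} (hz : φ z = z) {k : ℕ} (hk : ∀ s, z ^ (2 * s) = 1 → k ∣ s) (i j : Fin m)
    (hij : i ≠ j) : ∃ t ∈ Iso φ (JJ ε), IsMon t.1 1 ∧ ∀ s : ℕ, t.1 i i ^ s = t.1 j j ^ s → k ∣ s := by
  wlog hi : i ≠ i.rev generalizing i j
  · have hj : j ≠ j.rev := fun e => hij (Fin.ext (by
      have h1 := congrArg Fin.val (not_not.mp hi)
      have h2 := congrArg Fin.val e
      rw [Fin.val_rev] at h1 h2
      omega))
    obtain ⟨t, h1, h2, h3⟩ := this j i hij.symm hj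
    exact ⟨t, h1, h2, fun s e => h3 s e.symm⟩
  refine ⟨el hi z, dg_iso φ (el_val hi z) fun a => ?_, fun a b hab => ?_, fun s e => hk s ?_⟩
  · by_cases h1 : a = i
    · subst h1
      simp [hi.symm, hz]
    · by_cases h2 : a = i.rev
      · subst h2
        simp [hi.symm, hz]
      · have h3 : a.rev ≠ i := fun e => h2 (by rw [← e, Fin.rev_rev])
        simp [h1, h2, h3]
  · rw [el_val]
    exact diagonal_apply_ne _ (Ne.symm hab)
  · rw [el_val, diagonal_apply_eq, diagonal_apply_eq, if_pos rfl, if_neg hij.symm,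
      ← Units.val_pow_eq_pow_val, ← Units.val_pow_eq_pow_val, Units.val_inj] at e
    rw [two_mul, pow_add]
    split_ifs at e
    · nth_rewrite 1 [e]
      rw [inv_pow, inv_mul_cancel]
    · rw [e, one_pow, one_mul]

lemma th_tv {a b a' b' : Fin m} (h : a ≠ b) (h' : a' ≠ b') (ha : a' = b.rev) (hb : b' = a.rev)
    (c : F) : th φ hε (SpecialLinearGroup.transvection h c) =
      SpecialLinearGroup.transvection h' (-(ε a' * φ c * (ε b')⁻¹)) := by
  apply Subtype.ext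
  ext s t
  rw [th_val, SpecialLinearGroup.transvection_inv]
  show ε s * φ ((1 + single a b (-c) : Matrix _ _ F) t.rev s.rev) * (ε t)⁻¹ =
    (1 + single a' b' (-(ε a' * φ c * (ε b')⁻¹)) : Matrix _ _ F) s t
  by_cases e : a' = s ∧ b' = t
  · obtain ⟨rfl, rfl⟩ := e
    rw [ha, hb, Fin.rev_rev, Fin.rev_rev, Matrix.add_apply, Matrix.add_apply, one_apply_ne h,
      one_apply_ne (ha ▸ hb ▸ h'), single_apply_same, single_apply_same]
    simp
  · have e' : ¬ (a = t.rev ∧ b = s.rev) := fun h => e ⟨by rw [ha, h.2, Fin.rev_rev],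
      by rw [hb, h.1, Fin.rev_rev]⟩
    rw [Matrix.add_apply, Matrix.add_apply, single_apply_of_ne _ _ _ _ _ e,
      single_apply_of_ne _ _ _ _ _ e', add_zero, add_zero]
    by_cases e2 : s = t
    · rw [e2, one_apply_eq, one_apply_eq, map_one, mul_one, mul_inv_cancel₀ (hε t)]
    · rw [one_apply_ne e2, one_apply_ne fun h => e2 (Fin.rev_injective h).symm, map_zero,
        mul_zero, zero_mul]

lemma tv_US {a b : Fin m} (h : a < b) (c : F) :
    SpecialLinearGroup.transvection h.ne c ∈ US m F := by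
  rw [mem_US]
  have : (SpecialLinearGroup.transvection h.ne c).1 - 1 = Matrix.single a b c := by
    show Matrix.transvection a b c - 1 = _
    simp [Matrix.transvection]
  rw [this]
  exact Lev.single (by have : (a : ℕ) < b := h; omega) c

lemma card_cen (m : ℕ) : Nat.card (Subgroup.centralizer {(Fin.revPerm : Equiv.Perm (Fin m))}) =
    2 ^ (m / 2) * (m / 2).factorial := by
  have h1 := Equiv.Perm.cycleType_of_pow_prime_eq_one (σ := (Fin.revPerm : Equiv.Perm (Fin m)))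
    (p := 2) (by ext; simp [pow_two])
  set k := (Fin.revPerm : Equiv.Perm (Fin m)).cycleType.card with hk
  have h2 := Equiv.Perm.sum_cycleType (Fin.revPerm : Equiv.Perm (Fin m))
  have h3 : (Fin.revPerm : Equiv.Perm (Fin m)).supportᶜ.card ≤ 1 := by
    refine Finset.card_le_one.mpr fun i hi j hj => Fin.ext ?_
    simp only [Finset.mem_compl, Equiv.Perm.mem_support, Fin.revPerm_apply, not_not] at hi hj
    have h1 := congrArg Fin.val hi
    have h2 := congrArg Fin.val hj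
    rw [Fin.val_rev] at h1 h2
    omega
  have h4 := Finset.card_le_univ (Fin.revPerm : Equiv.Perm (Fin m)).support
  rw [Finset.card_compl, ← h2, h1, Multiset.sum_replicate, smul_eq_mul, Fintype.card_fin] at h3
  rw [← h2, h1, Multiset.sum_replicate, smul_eq_mul, Fintype.card_fin] at h4
  have h5 : m / 2 = k := by omega
  have h6 : (m - k * 2).factorial = 1 := Nat.factorial_eq_one.mpr h3
  rw [Equiv.Perm.nat_card_centralizer, h1, Multiset.sum_replicate, smul_eq_mul, Fintype.card_fin,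
    h6, Multiset.prod_replicate, one_mul, h5, Multiset.toFinset_replicate]
  split_ifs with h0
  · simp [h0]
  · simp

end Pool.Agent.Lib.MP_1ae3da_al.SLI
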