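import Pool.Agent.Lib.MP_1ae3da_al.Z.Cl3

/-! Symplectic and unitary groups: root elements, the closed subgroup data, the Weyl group. -/

namespace Pool.Agent.Lib.MP_1ae3da_al.SLI

open Matrix SpecialLinearGroup

variable {F : Type} [Field F] {m : ℕ}

/-- the entries of the Gram matrix. -/
def ep (m : ℕ) (η : F) (i : Fin m) : F := if i ≤ i.rev then 1 else η

/-- the data of the form. -/
structure Frm (φ : F →+* F) (η d : F) : Prop where
  inv : ∀ x, φ (φ x) = x
  sq : η * η = 1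
  ne : d ≠ 0
  tr : η * d + φ d = 0

lemma tv_mul {a b a' b' : Fin m} (h : a ≠ b) (h' : a' ≠ b') (h1 : b ≠ a') (c c' : F) :
    (transvection h c * transvection h' c').1 = 1 + single a b c + single a' b' c' := by
  show (1 + single a b c) * (1 + single a' b' c') = _
  rw [mul_add, mul_one, add_mul, one_mul, single_mul_single_of_ne _ _ _ _ h1, add_zero]

lemma tv_comm {a b a' b' : Fin m} (h : a ≠ b) (h' : a' ≠ b') (h1 : b ≠ a') (h2 : b' ≠ a)
    (c c' : F) : transvection h c * transvection h' c' = transvection h' c' * transvection h c :=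
  Subtype.ext (by rw [tv_mul h h' h1, tv_mul h' h h2, add_right_comm])

lemma mid_eq {i j : Fin m} (hi : i = i.rev) (hj : j = j.rev) : i = j := Fin.ext (by
  have h1 := congrArg Fin.val hi
  have h2 := congrArg Fin.val hj
  rw [Fin.val_rev] at h1 h2
  omega)

namespace Frm
variable {φ : F →+* F} {η d : F} (h : Frm φ η d)
include h

lemma fix : φ η = η := by
  rcases mul_self_eq_one_iff.mp h.sq with e | e <;> simp [e]

lemma ep_sq (i : Fin m) : ep m η i * ep m η i = 1 := by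
  unfold ep
  split_ifs
  exacts [one_mul _, h.sq]

lemma ep_ne (i : Fin m) : ep m η i ≠ 0 := left_ne_zero_of_mul_eq_one (h.ep_sq i)

lemma ep_inv (i : Fin m) : (ep m η i)⁻¹ = ep m η i := inv_eq_of_mul_eq_one_left (h.ep_sq i)

lemma ep_fix (i : Fin m) : φ (ep m η i) = ep m η i := by
  unfold ep
  split_ifs
  exacts [map_one _, h.fix]

lemma ep_rev {i : Fin m} (hi : i ≠ i.rev) : ep m η i.rev = η * ep m η i := by
  unfold ep
  rw [Fin.rev_rev]
  rcases lt_or_gt_of_ne hi with e | e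
  · rw [if_neg (not_le.mpr e), if_pos e.le, mul_one]
  · rw [if_pos e.le, if_neg (not_le.mpr e), h.sq]

/-- the isometry group. -/
abbrev G (_ : Frm φ η d) (m : ℕ) : Subgroup (SLm m F) := Iso φ (JJ (ep m η))

/-- the involution. -/
abbrev θ (m : ℕ) : SLm m F →* SLm m F := th φ (h.ep_ne (m := m))

lemma θ_tv {a b : Fin m} (hab : a ≠ b) (c : F) : h.θ m (transvection hab c) =
    transvection (Fin.rev_injective.ne hab.symm) (-(ep m η b.rev * φ c * ep m η a.rev)) := by
  rw [th_tv φ h.ep_ne hab (Fin.rev_injective.ne hab.symm) rfl rfl, h.ep_inv]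

lemma θθ_tv {a b : Fin m} (hab : a ≠ b) (ha : a ≠ a.rev) (hb : b ≠ b.rev) (c : F) :
    h.θ m (h.θ m (transvection hab c)) = transvection hab c := by
  rw [h.θ_tv, th_tv φ h.ep_ne _ hab (Fin.rev_rev a).symm (Fin.rev_rev b).symm, h.ep_inv]
  congr 1
  simp only [map_neg, map_mul, h.ep_fix, h.inv, h.ep_rev ha, h.ep_rev hb, h.fix]
  linear_combination (c * ep m η a * ep m η a * ep m η b * ep m η b) * h.sq +
    (c * ep m η b * ep m η b) * h.ep_sq a + c * h.ep_sq b

lemma xx_mem {a b : Fin m} (hab : a ≠ b) (ha : a ≠ a.rev) (hb : b ≠ b.rev) (c : F) :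
    transvection hab c * h.θ m (transvection hab c) ∈ h.G m := by
  rw [← th_fix φ h.ep_ne, map_mul, h.θθ_tv hab ha hb, h.θ_tv]
  exact tv_comm _ _ ha.symm hb _ _

lemma lg_mem {a : Fin m} (ha : a ≠ a.rev) {c : F} (hc : η * c + φ c = 0) :
    transvection ha c ∈ h.G m := by
  rw [← th_fix φ h.ep_ne, th_tv φ h.ep_ne ha ha (Fin.rev_rev a).symm rfl, h.ep_inv, h.ep_rev ha]
  congr 1
  linear_combination (-η) * hc + c * h.sq - (η * φ c) * h.ep_sq a

lemma ex_u {a b : Fin m} (hab : a < b) (ha : a ≠ a.rev) (hb : b ≠ b.rev) :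
    ∃ u ∈ US m F, u ∈ h.G m ∧ u.1 a b ≠ 0 := by
  by_cases e : b = a.rev
  · subst e
    exact ⟨_, tv_US hab d, h.lg_mem ha h.tr, by rw [tv_val]; exact h.ne⟩
  · refine ⟨_, mul_mem (tv_US hab 1) (th_U φ h.ep_ne _ (tv_US hab 1)), h.xx_mem hab.ne ha hb 1, ?_⟩
    rw [h.θ_tv, tv_mul _ _ hb, Matrix.add_apply, Matrix.add_apply, one_apply_ne hab.ne,
      single_apply_same, single_apply_of_ne _ _ _ _ _ fun c => e c.2.symm]
    simp

lemma reg {n : SLm m F} (hn : n ∈ h.G m) {σ : Equiv.Perm (Fin m)} (hσ : IsMon n.1 σ)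
    (hu : ∀ u ∈ US m F, u ∈ h.G m → n⁻¹ * u * n ∈ US m F) : σ = 1 := by
  have hr := iso_rev φ h.ep_ne hn hσ
  let f : {i : Fin m // i ≠ i.rev} → {i : Fin m // i ≠ i.rev} := fun i =>
    ⟨σ i.1, fun e => i.2 (σ.injective (e.trans (hr _).symm))⟩
  have hm : StrictMono f := fun a b hab => by
    obtain ⟨u, h1, h2, h3⟩ := h.ex_u (show a.1 < b.1 from hab) a.2 b.2
    exact lt_of_conj hσ (hu u h1 h2) (ne_of_lt hab) h3
  ext1 i
  by_cases e : i = i.rev
  · exact mid_eq (by rw [← hr, ← e]) e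
  · exact congrArg Subtype.val (le_antisymm hm.apply_le hm.le_apply : f ⟨i, e⟩ = ⟨i, e⟩)

lemma clo [Finite F] {p c : ℕ} [hp : Fact p.Prime] (h2 : p ≠ 2) {z : Fˣ} (hz : φ z = z)
    (hk : ∀ s, z ^ (2 * s) = 1 → p ^ c ∣ s) (hv : padicValNat p (m / 2).factorial < c) :
    Clo p c (h.G m) (Subgroup.centralizer {Fin.revPerm}) := by
  refine ⟨iso_cl φ h.ep_ne, fun n hn σ hσ => h.reg hn hσ, iso_tor φ hz hk,
    fun n hn σ hσ => iso_wey φ h.ep_ne hn hσ, ?_⟩
  rwa [card_cen, padicValNat.mul (pow_pos two_pos _).ne' (Nat.factorial_ne_zero _),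
    padicValNat.eq_zero_of_not_dvd fun e => h2 ((Nat.prime_dvd_prime_iff_eq hp.out
      Nat.prime_two).mp (hp.out.dvd_of_dvd_pow e)), zero_add]

lemma ex_ne (hm : 2 ≤ m) : ∃ u ∈ US m F, u ∈ h.G m ∧ u ≠ 1 := by
  have h1 : (⟨0, by omega⟩ : Fin m) < (⟨0, by omega⟩ : Fin m).rev := by
    rw [Fin.lt_def, Fin.val_rev]
    simp only
    omega
  exact ⟨_, tv_US h1 d, h.lg_mem h1.ne h.tr, tv_ne _ h.ne⟩

omit h in
lemma perm_mem {σ : Equiv.Perm (Fin m)} (hs : Equiv.Perm.sign σ = 1)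
    (hr : ∀ i, σ i.rev = (σ i).rev) (he : ∀ i, σ i ≤ (σ i).rev ↔ i ≤ i.rev) :
    ∃ n ∈ Iso φ (JJ (ep m η)), IsMon n.1 σ := by
  let n : SLm m F := ⟨σ.permMatrix F, by simp [hs]⟩
  have hv : ∀ i j, n.1 i j = if σ i = j then 1 else 0 := fun i j => by
    simp [n, PEquiv.toMatrix_apply, Equiv.toPEquiv_apply, eq_comm]
  have hm : IsMon n.1 σ := fun i j hj => by rw [hv, if_neg (Ne.symm hj)]
  refine ⟨n, mem_Iso.mpr ?_, hm⟩
  ext i j
  rw [mul_assoc, mon_l hm, JJ_l, hv, if_pos rfl, one_mul]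
  show ep m η (σ i) * φ (n.1 j (σ i).rev) = _
  rw [hv, ← hr]
  by_cases e : j = i.rev
  · rw [e, if_pos rfl, map_one, mul_one, JJ_rev]
    simp only [ep, he]
  · rw [if_neg (σ.injective.ne e), map_zero, mul_zero, JJ_mon _ i j e]

end Frm

/-- the first half of the indices. -/
abbrev Hf (m : ℕ) := {i : Fin m // i < i.rev}

lemma fold_rev (x : Fin m) : min x.rev x.rev.rev = min x x.rev := by rw [Fin.rev_rev, min_comm]

lemma fold_lt {x : Fin m} (hx : x ≠ x.rev) : min x x.rev < (min x x.rev).rev := by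
  rcases lt_or_gt_of_ne hx with e | e
  · rwa [min_eq_left e.le]
  · rwa [min_eq_right e.le, Fin.rev_rev]

lemma cen_rev (σ : Subgroup.centralizer {(Fin.revPerm : Equiv.Perm (Fin m))}) (i : Fin m) :
    σ.1 i.rev = (σ.1 i).rev :=
  Equiv.congr_fun (Subgroup.mem_centralizer_singleton_iff.mp σ.2) i

/-- the action on the pairs of opposite indices. -/
def foldHom (m : ℕ) :
    Subgroup.centralizer {(Fin.revPerm : Equiv.Perm (Fin m))} →* Equiv.Perm (Hf m) :=
  MonoidHom.toHomPerm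
    { toFun := fun σ i => ⟨min (σ.1 i.1) (σ.1 i.1).rev, fold_lt fun e =>
        i.2.ne (σ.1.injective (e.trans (cen_rev σ _).symm))⟩
      map_one' := funext fun i => Subtype.ext (min_eq_left i.2.le)
      map_mul' := fun σ τ => funext fun i => Subtype.ext (by
        show min (σ.1 (τ.1 i.1)) (σ.1 (τ.1 i.1)).rev =
          min (σ.1 (min (τ.1 i.1) (τ.1 i.1).rev)) (σ.1 (min (τ.1 i.1) (τ.1 i.1).rev)).rev
        rcases min_choice (τ.1 i.1) (τ.1 i.1).rev with e | e
        · rw [e]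
        · rw [e, cen_rev, fold_rev]) }

lemma foldHom_val (σ : Subgroup.centralizer {(Fin.revPerm : Equiv.Perm (Fin m))}) (i : Hf m) :
    (foldHom m σ i).1 = min (σ.1 i.1) (σ.1 i.1).rev := rfl

lemma fold_ker {σ : Subgroup.centralizer {(Fin.revPerm : Equiv.Perm (Fin m))}}
    (h : foldHom m σ = 1) (j : Fin m) : σ.1 j = j ∨ σ.1 j = j.rev := by
  have key : ∀ i : Fin m, i < i.rev → σ.1 i = i ∨ σ.1 i = i.rev := fun i hi => by
    have := foldHom_val σ ⟨i, hi⟩
    rw [h] at this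
    rcases min_choice (σ.1 i) (σ.1 i).rev with e | e
    · exact .inl (e.symm.trans this.symm)
    · exact .inr (Fin.rev_eq_iff.mp (e.symm.trans this.symm))
  rcases lt_trichotomy j j.rev with e | e | e
  · exact key j e
  · exact .inl (mid_eq (by rw [← cen_rev, ← e]) e)
  · have := key j.rev (by rwa [Fin.rev_rev])
    rw [cen_rev, Fin.rev_rev, Fin.rev_inj, Fin.rev_eq_iff] at this
    exact this

lemma ex_mirror (τ : Equiv.Perm (Hf m)) : ∃ σ : Equiv.Perm (Fin m), Equiv.Perm.sign σ = 1 ∧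
    (∀ i, σ i.rev = (σ i).rev) ∧ (∀ i, σ i ≤ (σ i).rev ↔ i ≤ i.rev) ∧ ∀ i : Hf m, σ i.1 = τ i := by
  let a : Equiv.Perm (Fin m) := Equiv.Perm.ofSubtype τ
  have h1 : ∀ i (hi : i < i.rev), a i = τ ⟨i, hi⟩ := fun i hi =>
    Equiv.Perm.ofSubtype_apply_of_mem τ hi
  have h2 : ∀ i, ¬ i < i.rev → a i = i := fun i hi => Equiv.Perm.ofSubtype_apply_of_not_mem τ hi
  have h3 : ∀ i : Fin m, i < i.rev → a (a i.rev).rev = a i := fun i hi => by
    rw [h2 i.rev (by rw [Fin.rev_rev]; exact lt_asymm hi), Fin.rev_rev]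
  have h4 : ∀ i : Fin m, i < i.rev → a (a i.rev.rev).rev = (a i).rev := fun i hi => by
    rw [Fin.rev_rev, h2]
    rw [Fin.rev_rev, h1 i hi]
    exact lt_asymm (τ _).2
  have h5 : ∀ i : Fin m, i = i.rev → a (a i.rev).rev = i := fun i hi => by
    have := h2 i (by rw [← hi]; exact lt_irrefl _)
    rw [← hi, this, ← hi, this]
  refine ⟨a * (Fin.revPerm * a * Fin.revPerm), ?_, fun i => ?_, fun i => ?_, fun i => ?_⟩
  · rw [map_mul, map_mul, map_mul, mul_right_comm (Equiv.Perm.sign _), Int.units_mul_self, one_mul,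
      Int.units_mul_self]
  · show a (a i.rev.rev).rev = (a (a i.rev).rev).rev
    rcases lt_trichotomy i i.rev with e | e | e
    · rw [h3 i e, h4 i e]
    · rw [h5 i e, Fin.rev_rev]
      have := h5 i e
      rw [← e] at this
      exact this.trans e
    · have e' : i.rev < i.rev.rev := by rwa [Fin.rev_rev]
      have := h4 i.rev e'
      rw [Fin.rev_rev] at this
      rw [h3 i.rev e', this, Fin.rev_rev]
  · show a (a i.rev).rev ≤ (a (a i.rev).rev).rev ↔ _
    rcases lt_trichotomy i i.rev with e | e | e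
    · rw [h3 i e, h1 i e]
      exact iff_of_true (τ _).2.le e.le
    · rw [h5 i e]
    · have e' : i.rev < i.rev.rev := by rwa [Fin.rev_rev]
      have := h4 i.rev e'
      rw [Fin.rev_rev] at this
      rw [this, Fin.rev_rev, h1 _ e']
      exact iff_of_false (not_le.mpr (τ _).2) (not_le.mpr e)
  · exact (h3 i.1 i.2).trans (h1 i.1 i.2)

/-- a group that is abelian by a large subgroup of the hyperoctahedral group. -/
lemma fold_surj {N : Type} [Group N] (f : N →* Equiv.Perm (Fin m))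
    (hk : ∀ a ∈ f.ker, ∀ b ∈ f.ker, a * b = b * a)
    (h1 : f.range ≤ Subgroup.centralizer {Fin.revPerm})
    (h2 : ∀ σ : Equiv.Perm (Fin m), Equiv.Perm.sign σ = 1 → (∀ i, σ i.rev = (σ i).rev) →
      (∀ i, σ i ≤ (σ i).rev ↔ i ≤ i.rev) → σ ∈ f.range) :
    ∃ (k : ℕ) (g : N →* Equiv.Perm (Fin k)), Function.Surjective g ∧ Group.IsSolvable g.ker := by
  let f' := f.codRestrict _ fun x => h1 ⟨x, rfl⟩
  let e := (Fintype.equivFin (Hf m)).permCongrHom
  refine ⟨_, e.toMonoidHom.comp ((foldHom m).comp f'), e.surjective.comp fun τ => ?_, ?_⟩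
  · obtain ⟨σ, s1, s2, s3, s4⟩ := ex_mirror τ
    obtain ⟨x, hx⟩ := h2 σ s1 s2 s3
    refine ⟨x, Equiv.ext fun i => Subtype.ext ?_⟩
    show min (f x i.1) (f x i.1).rev = _
    rw [hx, s4]
    exact min_eq_left (τ i).2.le
  · set K := (e.toMonoidHom.comp ((foldHom m).comp f')).ker
    have hK : ∀ x : K, ∀ j, f x j = j ∨ f x j = j.rev := fun x =>
      fold_ker (σ := f' x) (e.injective (x.2.trans (map_one e).symm))
    have hr : ∀ x : K, ∀ j : Fin m, f x j.rev = (f x j).rev := fun x => cen_rev (f' x)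
    let w := f.comp K.subtype
    have s1 : Group.IsSolvable w.ker := Group.isSolvable_of_comm fun a b =>
      Subtype.ext (Subtype.ext (hk _ a.2 _ b.2))
    have s2 : Group.IsSolvable w.range := Group.isSolvable_of_comm (by
      rintro ⟨_, a, rfl⟩ ⟨_, b, rfl⟩
      refine Subtype.ext (Equiv.ext fun j => ?_)
      show f a (f b j) = f b (f a j)
      rcases hK a j with c | c <;> rcases hK b j with c' | c' <;> simp only [c, c', hr])
    exact Group.isSolvable_of_ker_le_range w.ker.subtype w.rangeRestrict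
      (by rw [MonoidHom.ker_rangeRestrict, Subgroup.range_subtype])

end Pool.Agent.Lib.MP_1ae3da_al.SLI
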