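import Pool.Agent.Lib.MP_1ae3da_al.Z.Cl4

/-! The symplectic and special unitary groups of Mathlib as isometry groups of antidiagonal
forms. -/

namespace Pool.Agent.Lib.MP_1ae3da_al.SLI

open Matrix

variable {F : Type} [Field F] {m : ℕ}

theorem Frm.quot [Finite F] {φ : F →+* F} {η d : F} (h : Frm φ η d) (hm : 2 ≤ m) {p r c : ℕ}
    [Fact p.Prime] [Fact r.Prime] [CharP F r] (h2 : p ≠ 2) (hpr : p ≠ r) {z : Fˣ} (hz : φ z = z)
    (hk : ∀ s, z ^ (2 * s) = 1 → p ^ c ∣ s) (hv : padicValNat p (m / 2).factorial < c)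
    {A Y : Type} [Group A] [Group Y] (e : h.G m ≃* A) {π : A →* Y} (hπ : Function.Surjective π)
    (hc : π.ker ≤ Subgroup.center A) (R : Sylow p Y) :
    ∃ (U : Sylow r Y) (D : Subgroup Y), Pack p r R U D ∧
      ∃ (k : ℕ) (g : Subgroup.normalizer (D : Set Y) →* Equiv.Perm (Fin k)),
        Function.Surjective g ∧ Group.IsSolvable g.ker := by
  have hC := h.clo (m := m) h2 hz hk hv
  obtain ⟨U, D, h1, f, hf, h3⟩ := hC.pack hpr (h.ex_ne hm) (π := π.comp e.toMonoidHom)
    (hπ.comp e.surjective) (fun x hx => Subgroup.mem_center_iff.mpr fun g => e.injective (by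
      rw [map_mul, map_mul]
      exact Subgroup.mem_center_iff.mp (hc hx) _)) R
  refine ⟨U, D, h1, fold_surj f h3 (hf ▸ hC.range_le) fun σ s1 s2 s3 => ?_⟩
  obtain ⟨n, hn, hσ⟩ := Frm.perm_mem (φ := φ) (η := η) s1 s2 s3
  rw [hf]
  exact inv_mem_iff.mp ⟨⟨⟨n, hn⟩, σ, hσ⟩, weyH_eq hσ⟩

/-- the reindexing for the symplectic group. -/
def spE (k : ℕ) : Fin k ⊕ Fin k ≃ Fin (k + k) :=
  ((Equiv.sumComm _ _).trans (Equiv.sumCongr (Equiv.refl _) Fin.revPerm)).trans finSumFinEquiv

lemma spE_inr {k : ℕ} (i : Fin k) : (spE k (.inr i) : ℕ) = i := rfl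

lemma spE_inl {k : ℕ} (i : Fin k) : (spE k (.inl i) : ℕ) = k + (k - (i + 1)) := rfl

lemma spE_J (k : ℕ) : (JJ (ep (k + k) (-1 : F))).submatrix (spE k) (spE k) = J (Fin k) F := by
  ext a b
  have ha := (spE k a).2
  rcases a with i | i <;> rcases b with j | j <;> have hi := i.2 <;> have hj := j.2 <;>
    simp only [submatrix_apply, JJ, of_apply, ep, J, fromBlocks_apply₁₁, fromBlocks_apply₁₂,
      fromBlocks_apply₂₁, fromBlocks_apply₂₂, Matrix.zero_apply, Matrix.neg_apply, one_apply,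
      Fin.ext_iff, Fin.le_def, Fin.val_rev, spE_inr, spE_inl] <;>
    split_ifs <;> first | rfl | omega | simp

lemma frm_sp : Frm (RingHom.id F) (-1) 1 := ⟨fun _ => rfl, by simp, one_ne_zero, by simp⟩

/-- the symplectic group of Mathlib. -/
noncomputable def spIso (k : ℕ) (F : Type) [Field F] :
    (frm_sp (F := F)).G (k + k) ≃* symplecticGroup (Fin k) F :=
  MulEquiv.ofBijective (MonoidHom.mk' (fun g : (frm_sp (F := F)).G (k + k) =>
    (⟨g.1.1.submatrix (spE k) (spE k), by
      have h : g.1.1 * JJ (ep (k + k) (-1 : F)) * g.1.1ᵀ = JJ (ep (k + k) (-1 : F)) := g.2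
      rw [SymplecticGroup.mem_iff, ← spE_J, transpose_submatrix, submatrix_mul_equiv,
        submatrix_mul_equiv, h]⟩ : symplecticGroup (Fin k) F))
    fun a b => Subtype.ext (submatrix_mul_equiv a.1.1 b.1.1 _ (spE k) _).symm) ⟨fun a b h => by
      have h1 : a.1.1.submatrix (spE k) (spE k) = b.1.1.submatrix (spE k) (spE k) :=
        congrArg Subtype.val h
      have h2 := congrArg (fun M => M.submatrix (spE k).symm (spE k).symm) h1
      exact Subtype.ext (Subtype.ext (by simpa using h2)), fun A => by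
      refine ⟨⟨⟨A.1.submatrix (spE k).symm (spE k).symm, by
        rw [det_submatrix_equiv_self, SymplecticGroup.det_eq_one A.2]⟩, ?_⟩,
        Subtype.ext (by simp)⟩
      have h1 : JJ (ep (k + k) (-1 : F)) = (J (Fin k) F).submatrix (spE k).symm (spE k).symm := by
        rw [← spE_J]; simp
      show A.1.submatrix _ _ * JJ (ep (k + k) (-1 : F)) * (A.1.submatrix _ _)ᵀ = _
      rw [h1, transpose_submatrix, submatrix_mul_equiv, submatrix_mul_equiv,
        SymplecticGroup.mem_iff.mp A.2]⟩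

section unitary
variable [Fintype F] {q : ℕ} (hq : Fintype.card F = q ^ 2)
include hq

lemma two_le_q : 2 ≤ q := by
  have : 1 < Fintype.card F := Fintype.one_lt_card
  by_contra h
  have : q = 0 ∨ q = 1 := by omega
  rcases this with rfl | rfl <;> omega

lemma card_sub : Fintype.card F - 1 = (q + 1) * (q - 1) := by rw [hq, ← Nat.sq_sub_sq, one_pow]

lemma ex_nfix : ∃ x : F, x ^ q ≠ x := by
  classical
  obtain ⟨g, hg⟩ := IsCyclic.exists_ofOrder_eq_natCard (α := Fˣ)
  rw [Nat.card_units, Nat.card_eq_fintype_card, card_sub hq] at hg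
  have h2 := two_le_q hq
  refine ⟨g, fun e => ?_⟩
  have h1 : g ^ (q - 1) = 1 := by
    apply mul_right_cancel (b := g)
    rw [← pow_succ, Nat.sub_add_cancel (by omega), one_mul]
    exact Units.ext (by simpa using e)
  have := Nat.le_of_dvd (by omega) (hg ▸ orderOf_dvd_of_pow_eq_one h1)
  obtain ⟨t, rfl⟩ : ∃ t, q = t + 2 := ⟨q - 2, by omega⟩
  simp only [Nat.add_succ_sub_one] at this
  nlinarith

lemma norm_surj {s : F} (hs : s ^ q = s) : ∃ c : F, c * c ^ q = s := by
  classical
  rcases eq_or_ne s 0 with rfl | h0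
  · exact ⟨0, zero_mul _⟩
  obtain ⟨g, hg⟩ := IsCyclic.exists_monoid_generator (α := Fˣ)
  have ho := orderOf_eq_card_of_forall_mem_powers hg
  rw [Nat.card_units, Nat.card_eq_fintype_card, card_sub hq] at ho
  have h2 := two_le_q hq
  obtain ⟨k, hk⟩ := hg (Units.mk0 s h0)
  have hk' : g ^ k = Units.mk0 s h0 := hk
  have h1 : g ^ (k * (q - 1)) = 1 := by
    rw [pow_mul, hk']
    apply mul_right_cancel (b := Units.mk0 s h0)
    rw [← pow_succ, Nat.sub_add_cancel (by omega), one_mul]
    exact Units.ext (by simpa using hs)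
  obtain ⟨j, rfl⟩ := Nat.dvd_of_mul_dvd_mul_right (by omega) (ho ▸ orderOf_dvd_of_pow_eq_one h1)
  refine ⟨(g ^ j : Fˣ), ?_⟩
  have := congrArg Units.val hk'
  rw [Units.val_mk0] at this
  rw [← this, ← pow_succ', ← Units.val_pow_eq_pow_val, ← pow_mul, mul_comm]

end unitary

lemma ex_P {φ : F →+* F} {d : F} (h : Frm φ 1 d) (hx : ∃ x, φ x ≠ x)
    (hN : ∀ s, φ s = s → ∃ c, c * φ c = s) (m : ℕ) :
    ∃ P : Matrix (Fin m) (Fin m) F, P * st φ P = JJ (ep m 1) := by
  obtain ⟨x, hx⟩ := hx
  obtain ⟨a, ha⟩ := hN (-1) (by simp)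
  have hx0 : x ≠ 0 := fun e => hx (by simp [e])
  have hx1 : φ x ≠ 0 := (map_ne_zero φ).mpr hx0
  have hx2 : φ x - x ≠ 0 := sub_ne_zero.mpr hx
  have hx3 : x - φ x ≠ 0 := sub_ne_zero.mpr hx.symm
  let t : F := φ x / (φ x - x)
  let b : F := a * x / φ x
  have ht : φ t = x / (x - φ x) := by simp [t, h.inv]
  have hb : φ b = φ a * φ x / x := by simp [b, h.inv]
  let α : Fin m → F := fun i => if i ≤ i.rev then 1 else t * b
  let β : Fin m → F := fun i => if i < i.rev then a else if i = i.rev then 0 else t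
  refine ⟨diagonal α + JJ β, ?_⟩
  ext i j
  rw [add_mul, Matrix.add_apply, diagonal_mul, JJ_l]
  show α i * φ (diagonal α j i + JJ β j i) + β i * φ (diagonal α j i.rev + JJ β j i.rev) = _
  have e1 : a * φ a + 1 = 0 := by rw [ha]; ring
  rcases lt_trichotomy i i.rev with e | e | e
  · have e' : ¬ i.rev ≤ i := not_le.mpr e
    by_cases c1 : j = i
    · subst c1
      simp only [α, β, JJ, of_apply, diagonal_apply, e, e.le, e.ne, e.ne', if_true, if_false]
      simp only [add_zero, zero_add, map_one]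
      linear_combination e1
    · by_cases c2 : j = i.rev
      · subst c2
        simp only [α, β, JJ, of_apply, diagonal_apply, ep, Fin.rev_rev, e, e.le, e.ne, e.ne', e',
          lt_asymm e, if_true, if_false]
        rw [zero_add, add_zero, map_mul, ht, hb]
        field_simp
        linear_combination (φ x) * e1
      · have c3 : i ≠ j.rev := fun c => c2 (by rw [c, Fin.rev_rev])
        simp [JJ, diagonal_apply, c1, c2, c3, Ne.symm c1]
  · by_cases c1 : j = i
    · subst c1
      simp only [α, β, JJ, of_apply, diagonal_apply, ep, ← e, le_refl, lt_irrefl, if_true, if_false]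
      simp
    · have c2 : j ≠ i.rev := e ▸ c1
      have c3 : i ≠ j.rev := fun c => c2 (by rw [c, Fin.rev_rev])
      simp [JJ, diagonal_apply, c1, c2, c3, Ne.symm c1]
  · have e' : ¬ i ≤ i.rev := not_le.mpr e
    by_cases c1 : j = i
    · subst c1
      simp only [α, β, JJ, of_apply, diagonal_apply, e', e.ne, e.ne', lt_asymm e, if_true, if_false]
      rw [zero_add, add_zero, map_mul, hb]
      simp only [b]
      field_simp
      linear_combination (t * φ t) * e1
    · by_cases c2 : j = i.rev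
      · subst c2
        simp only [α, β, JJ, of_apply, diagonal_apply, ep, Fin.rev_rev, e, e.le, e.ne, e.ne', e',
          lt_asymm e, if_true, if_false]
        rw [zero_add, add_zero, map_one]
        simp only [t, b]
        field_simp
        linear_combination x * e1
      · have c3 : i ≠ j.rev := fun c => c2 (by rw [c, Fin.rev_rev])
        simp [JJ, diagonal_apply, c1, c2, c3, Ne.symm c1]

/-- the special unitary group of Mathlib. -/
lemma su_iso [StarRing F] {d : F} (h : Frm (starRingEnd F) 1 d) (hx : ∃ x : F, star x ≠ x)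
    (hN : ∀ s : F, star s = s → ∃ c : F, c * star c = s) (m : ℕ) :
    Nonempty (h.G m ≃* specialUnitaryGroup (Fin m) F) := by
  obtain ⟨P, hP⟩ := ex_P h hx hN m
  have hs : ∀ M : Matrix (Fin m) (Fin m) F, st (starRingEnd F) M = star M := fun _ => rfl
  rw [hs] at hP
  obtain ⟨Q, hQ⟩ : ∃ Q, P * Q = 1 :=
    ⟨star P * JJ fun i => (ep m (1 : F) i.rev)⁻¹, by rw [← mul_assoc, hP, JJ_inv h.ep_ne]⟩
  have hQ' : Q * P = 1 := mul_eq_one_comm.mp hQ
  have h1 : star P * star Q = 1 := by rw [← star_mul, hQ', star_one]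
  have h2 : star Q * star P = 1 := mul_eq_one_comm.mp h1
  refine ⟨MulEquiv.ofBijective (MonoidHom.mk' (fun g : h.G m =>
    (⟨Q * g.1.1 * P, mem_specialUnitaryGroup_iff.mpr ⟨mem_unitaryGroup_iff.mpr ?_, ?_⟩⟩ :
      specialUnitaryGroup (Fin m) F)) fun a b => Subtype.ext ?_) ⟨fun a b e => ?_, fun A => ?_⟩⟩
  · have hg : g.1.1 * JJ (ep m 1) * star g.1.1 = JJ (ep m 1) := g.2
    rw [← hP] at hg
    calc Q * g.1.1 * P * star (Q * g.1.1 * P)
        = Q * (g.1.1 * (P * star P) * star g.1.1) * star Q := by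
          simp only [star_mul, mul_assoc]
      _ = 1 := by rw [hg, ← mul_assoc, hQ', one_mul, h1]
  · rw [det_mul_comm, ← mul_assoc, hQ, one_mul, g.1.2]
  · show Q * (a.1.1 * b.1.1) * P = Q * a.1.1 * P * (Q * b.1.1 * P)
    simp only [mul_assoc]
    rw [← mul_assoc P Q, hQ, one_mul]
  · have e1 : Q * a.1.1 * P = Q * b.1.1 * P := congrArg Subtype.val e
    have e2 := congrArg (fun M => P * M * Q) e1
    simp only [← mul_assoc, hQ, one_mul] at e2
    simp only [mul_assoc, hQ, mul_one] at e2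
    exact Subtype.ext (Subtype.ext e2)
  · obtain ⟨hA, hA'⟩ := mem_specialUnitaryGroup_iff.mp A.2
    refine ⟨⟨⟨P * A.1 * Q, by rw [det_mul_comm, ← mul_assoc, hQ', one_mul, hA']⟩, ?_⟩,
      Subtype.ext ?_⟩
    · show P * A.1 * Q * JJ (ep m 1) * star (P * A.1 * Q) = JJ (ep m 1)
      rw [← hP]
      calc P * A.1 * Q * (P * star P) * star (P * A.1 * Q)
          = P * (A.1 * ((Q * P) * (star P * star Q)) * star A.1) * star P := by
            simp only [star_mul, mul_assoc]
        _ = _ := by rw [hQ', h1, mul_one, mul_one, mem_unitaryGroup_iff.mp hA, mul_one]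
    · show Q * (P * A.1 * Q) * P = A.1
      rw [← mul_assoc, ← mul_assoc, hQ', one_mul, mul_assoc, hQ', mul_one]

end Pool.Agent.Lib.MP_1ae3da_al.SLI
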