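import Pool.Agent.Lib.MP_1ae3da_al.Z.Cl5

/-! The hypotheses of the main theorem for `Sp_2k(q)` and `SU_m(q)`. -/

namespace Pool.Agent.Lib.MP_1ae3da_al.SLI

open Matrix

theorem sp_quot (F : Type) [Field F] [Fintype F] {k : ℕ} (hk : 1 ≤ k) (r p : ℕ) [Fact r.Prime]
    [CharP F r] [hp : Fact p.Prime] (h2 : p ≠ 2)
    (hv : padicValNat p k.factorial < padicValNat p (Fintype.card F - 1))
    (X : Type) [Group X] (π : symplecticGroup (Fin k) F →* X) (hπ : Function.Surjective π)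
    (hc : π.ker ≤ Subgroup.center _) (R : Sylow p X) :
    ∃ (U : Sylow r X) (D : Subgroup X), Pack p r R U D ∧
      ∃ (l : ℕ) (g : Subgroup.normalizer (D : Set X) →* Equiv.Perm (Fin l)),
        Function.Surjective g ∧ Group.IsSolvable g.ker := by
  have hq : p ∣ Fintype.card F - 1 := dvd_of_one_le_padicValNat (by omega)
  obtain ⟨z, -, hz⟩ := ex_root (F := F) h2 dvd_rfl
  exact frm_sp.quot (by omega) h2 (ne_char hp.out hq) rfl hz
    (by rwa [show (k + k) / 2 = k by omega]) (spIso k F) hπ hc R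

lemma su_data {F : Type} [Field F] [Fintype F] [StarRing F] {q : ℕ} (hq : Fintype.card F = q ^ 2)
    (hs : ∀ x : F, star x = x ^ q) : ∃ d, Frm (starRingEnd F) 1 d ∧ (∃ x : F, star x ≠ x) ∧
      ∀ s : F, star s = s → ∃ c : F, c * star c = s := by
  obtain ⟨x, hx⟩ := ex_nfix hq
  rw [← hs] at hx
  refine ⟨x - star x, ⟨fun y => star_star y, one_mul _, sub_ne_zero.mpr hx.symm, ?_⟩, ⟨x, hx⟩,
    fun s h => ?_⟩
  · simp [starRingEnd_apply]
  · obtain ⟨c, hc⟩ := norm_surj hq (hs s ▸ h)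
    exact ⟨c, hs c ▸ hc⟩

lemma su_root {F : Type} [Field F] [Fintype F] [StarRing F] {q : ℕ} (hq : Fintype.card F = q ^ 2)
    (hs : ∀ x : F, star x = x ^ q) {p : ℕ} [Fact p.Prime] (h2 : p ≠ 2) :
    ∃ z : Fˣ, starRingEnd F z = z ∧ ∀ s, z ^ (2 * s) = 1 → p ^ padicValNat p (q - 1) ∣ s := by
  obtain ⟨z, h1, hz⟩ := ex_root (F := F) (q := q - 1) h2 (card_sub hq ▸ dvd_mul_left _ _)
  refine ⟨z, ?_, hz⟩
  have := two_le_q hq
  rw [starRingEnd_apply, hs, ← Units.val_pow_eq_pow_val, ← Nat.sub_add_cancel (by omega : 1 ≤ q),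
    pow_succ, h1, one_mul]

theorem su_quot (F : Type) [Field F] [Fintype F] [StarRing F] {q : ℕ}
    (hq : Fintype.card F = q ^ 2) (hs : ∀ x : F, star x = x ^ q) {m : ℕ} (hm : 2 ≤ m) (r p : ℕ)
    [Fact r.Prime] [CharP F r] [hp : Fact p.Prime] (h2 : p ≠ 2)
    (hv : padicValNat p (m / 2).factorial < padicValNat p (q - 1))
    (X : Type) [Group X] (π : specialUnitaryGroup (Fin m) F →* X) (hπ : Function.Surjective π)
    (hc : π.ker ≤ Subgroup.center _) (R : Sylow p X) :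
    ∃ (U : Sylow r X) (D : Subgroup X), Pack p r R U D ∧
      ∃ (l : ℕ) (g : Subgroup.normalizer (D : Set X) →* Equiv.Perm (Fin l)),
        Function.Surjective g ∧ Group.IsSolvable g.ker := by
  have h1 : p ∣ q - 1 := dvd_of_one_le_padicValNat (by omega)
  obtain ⟨d, h, hx, hN⟩ := su_data hq hs
  obtain ⟨z, hz, hz'⟩ := su_root hq hs h2
  obtain ⟨e⟩ := su_iso h hx hN m
  exact h.quot hm h2 (ne_char hp.out (card_sub hq ▸ h1.mul_left _)) hz hz' hv e hπ hc R

end Pool.Agent.Lib.MP_1ae3da_al.SLI
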