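import Pool.Agent.Lib.MP_1ae3da_al.Z.SL3

/-! `SL_m(F)` is perfect when `F` has at least four elements. -/

namespace Pool.Agent.Lib.MP_1ae3da_al.SLI

open Matrix Matrix.SpecialLinearGroup

variable {F : Type} [Field F] {m : ℕ}

lemma el_tv {i j : Fin m} (hij : i ≠ j) (z : Fˣ) (b : F) :
    el hij z * transvection hij b = transvection hij ((z : F) ^ 2 * b) * el hij z := by
  apply Subtype.ext
  show (el hij z).1 * (1 + single i j b) = (1 + single i j ((z : F) ^ 2 * b)) * (el hij z).1
  rw [el_val]
  ext k l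
  rw [diagonal_mul, mul_diagonal]
  by_cases h : i = k ∧ j = l
  · obtain ⟨rfl, rfl⟩ := h
    simp only [Matrix.add_apply, one_apply_ne hij, single_apply_same, if_true, if_neg hij.symm,
      Units.val_inv_eq_inv_val]
    field_simp
    ring
  · simp only [Matrix.add_apply, single_apply_of_ne _ _ _ _ _ h, add_zero]
    by_cases e : k = l
    · rw [e, mul_comm]
    · rw [one_apply_ne e, mul_zero, zero_mul]

lemma tv_mem {i j : Fin m} (hij : i ≠ j) {z : Fˣ} (hz : z ^ 2 ≠ 1) (c : F) :
    transvection hij c ∈ commutator (SLm m F) := by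
  have h0 : (z : F) ^ 2 - 1 ≠ 0 := fun h => hz (Units.ext (by simpa using sub_eq_zero.mp h))
  have h1 := Subgroup.commutator_mem_commutator (Subgroup.mem_top (el hij z))
    (Subgroup.mem_top (transvection hij (c / ((z : F) ^ 2 - 1))))
  rw [commutatorElement_def, el_tv, mul_inv_cancel_right, transvection_inv,
    ← transvection_add] at h1
  have : (z : F) ^ 2 * (c / ((z : F) ^ 2 - 1)) + -(c / ((z : F) ^ 2 - 1)) = c := by
    field_simp
    ring
  rwa [this] at h1

lemma tv_rel {i j : Fin m} (hij : i ≠ j) {a : F} (ha : a ≠ 0) :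
    transvection hij (a - 1) * transvection hij.symm 1 =
      transvection hij.symm a⁻¹ * diag2n hij a ha * transvection hij ((a - 1) / a) := by
  have hd : (diag2n hij a ha).1 = 1 + single i i (a - 1) + single j j (a⁻¹ - 1) := by
    rw [diag2n_coe]
    ext k l
    by_cases e : k = l
    · subst e
      simp only [diagonal_apply_eq, Matrix.add_apply, one_apply_eq, single_apply, and_self]
      by_cases h1 : k = i
      · subst h1
        simp [hij.symm]
      · by_cases h2 : k = j
        · subst h2
          simp [hij, h1]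
        · simp [h1, h2, Ne.symm h1, Ne.symm h2]
    · have h : ∀ (x : Fin m) (c : F), single x x c k l = 0 := fun x c =>
        single_apply_of_ne _ _ _ _ _ fun h => e (h.1.symm.trans h.2)
      simp [diagonal_apply_ne _ e, one_apply_ne e, h]
  have hs : ∀ (x y : Fin m) (c : F), single x y c = c • single x y (1 : F) := fun x y c => by
    rw [smul_single, smul_eq_mul, mul_one]
  apply Subtype.ext
  show (1 + single i j (a - 1)) * (1 + single j i 1) =
    (1 + single j i a⁻¹) * (diag2n hij a ha).1 * (1 + single i j ((a - 1) / a))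
  rw [hd]
  simp only [mul_add, add_mul, mul_one, one_mul, single_mul_single_same,
    single_mul_single_of_ne _ _ _ _ hij, single_mul_single_of_ne _ _ _ _ hij.symm, add_zero]
  rw [hs i j (a - 1), hs j i a⁻¹, hs i i (a - 1), hs j j (a⁻¹ - 1), hs j i (a⁻¹ * _),
    hs i j (_ / _), hs j j (a⁻¹ * (_ / _)), hs i j (_ * _), hs j j (_ * _ * _)]
  match_scalars <;> field_simp <;> ring

theorem sl_perf (F : Type) [Field F] [Fintype F] {m : ℕ} (hm : 2 ≤ m) (h4 : 4 ≤ Fintype.card F) :
    commutator (SLm m F) = ⊤ := by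
  classical
  have : Nontrivial (Fin m) := Fin.nontrivial_iff_two_le.mpr hm
  obtain ⟨z, hz⟩ := IsCyclic.exists_ofOrder_eq_natCard (α := Fˣ)
  rw [Nat.card_units, Nat.card_eq_fintype_card] at hz
  have hz2 : z ^ 2 ≠ 1 := fun h => by
    have := Nat.le_of_dvd two_pos (orderOf_dvd_of_pow_eq_one h)
    omega
  refine eq_top_iff.mpr fun x _ => diagonal_transvection_induction' (· ∈ commutator (SLm m F)) x
    (fun i j hij c hc => ?_) (fun i j hij a => tv_mem hij hz2 a) fun A B => mul_mem
  have h := mul_mem (tv_mem hij hz2 (c - 1)) (tv_mem hij.symm hz2 1)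
  rw [tv_rel hij hc] at h
  exact (Subgroup.mul_mem_cancel_left _ (tv_mem hij.symm hz2 _)).mp
    ((Subgroup.mul_mem_cancel_right _ (tv_mem hij hz2 _)).mp h)

end Pool.Agent.Lib.MP_1ae3da_al.SLI
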