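import Pool.Agent.Lib.MP_1ae3da_al.Z.Cl6
import Pool.Agent.Lib.MP_1ae3da_al.Z.SL5

/-! Root elements, reflections and tori inside the commutator subgroup. -/

namespace Pool.Agent.Lib.MP_1ae3da_al.SLI

open Matrix SpecialLinearGroup
open scoped commutatorElement

lemma BW.U_comm {p r : ℕ} {X : Type} [Group X] [Finite X] [hp : Fact p.Prime] [hr : Fact r.Prime]
    {U : Sylow r X} {N : Subgroup X} (h : BW p U N) {u : X} (hu : u ∈ U) : u ∈ commutator X := by
  let Y := {y : X // y ∈ U ∧ u⁻¹ * y ∈ commutator X}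
  let act : MulAction h.D Y :=
    { smul := fun e y => ⟨e.1 * y.1 * e.1⁻¹,
        (Subgroup.mem_normalizer_iff.mp (h.D_le e.2).2 _).mp y.2.1, by
        rw [show u⁻¹ * (e.1 * y.1 * e.1⁻¹) = u⁻¹ * y.1 * ⁅y.1⁻¹, e.1⁆ by
          rw [commutatorElement_def]; group]
        exact mul_mem y.2.2
          (Subgroup.commutator_mem_commutator (Subgroup.mem_top _) (Subgroup.mem_top _))⟩
      one_smul := fun y => Subtype.ext (by
        show (1 : X) * y.1 * 1⁻¹ = y.1
        group)
      mul_smul := fun a b y => Subtype.ext (by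
        show (a.1 * b.1) * y.1 * (a.1 * b.1)⁻¹ = a.1 * (b.1 * y.1 * b.1⁻¹) * a.1⁻¹
        group) }
  let V : Subgroup X := (U : Subgroup X) ⊓ commutator X
  have hY : Nat.card V = Nat.card Y := Nat.card_congr
    { toFun := fun v => ⟨u * v.1, mul_mem hu v.2.1, by
        rw [inv_mul_cancel_left]; exact v.2.2⟩
      invFun := fun y => ⟨u⁻¹ * y.1, Subgroup.mem_inf.mpr ⟨mul_mem (inv_mem hu) y.2.1, y.2.2⟩⟩
      left_inv := fun v => Subtype.ext (inv_mul_cancel_left _ _)
      right_inv := fun y => Subtype.ext (mul_inv_cancel_left _ _) }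
  obtain ⟨k, hk⟩ := (U.isPGroup'.to_le (inf_le_left : V ≤ U)).exists_card_eq
  have hn : ¬ p ∣ Nat.card Y := fun hd => by
    rw [← hY, hk] at hd
    exact h.ne ((Nat.prime_dvd_prime_iff_eq hp.out hr.out).mp (hp.out.dvd_of_dvd_pow hd))
  obtain ⟨y, hy⟩ := h.D_p.nonempty_fixed_point_of_prime_not_dvd_card Y hn
  have h1 : y.1 = 1 := h.fixD y.2.1 fun e he => by
    have : e * y.1 * e⁻¹ = y.1 := congrArg Subtype.val (hy ⟨e, he⟩)
    exact mul_inv_eq_iff_eq_mul.mp this
  have := y.2.2
  rwa [h1, mul_one, inv_mem_iff] at this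

variable {F : Type} [Field F] {m : ℕ}

lemma vmul (a b : SLm m F) : (a * b).1 = a.1 * b.1 := rfl

lemma tv_E {a b : Fin m} (h : a ≠ b) (c : F) :
    (transvection h c).1 = 1 + c • single a b (1 : F) := by
  rw [smul_single, smul_eq_mul, mul_one]; rfl

lemma el_E {a b : Fin m} (h : a ≠ b) (z : Fˣ) : (el h z).1 =
    1 + ((z : F) - 1) • single a a (1 : F) + ((z : F)⁻¹ - 1) • single b b (1 : F) := by
  rw [el_val]
  ext k l
  by_cases e : k = l
  · subst e
    simp only [diagonal_apply_eq, Matrix.add_apply, one_apply_eq, single_apply, and_self,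
      Matrix.smul_apply, smul_eq_mul]
    by_cases h1 : k = a
    · subst h1
      simp [h.symm]
    · by_cases h2 : k = b
      · subst h2
        simp [h, h1]
      · simp [h1, h2, Ne.symm h1, Ne.symm h2]
  · have h : ∀ (x : Fin m) (c : F), single x x c k l = 0 := fun x c =>
      single_apply_of_ne _ _ _ _ _ fun h => e (h.1.symm.trans h.2)
    simp [diagonal_apply_ne _ e, one_apply_ne e, h]

lemma tv_rel2 {a b : Fin m} (h : a ≠ b) (z : Fˣ) {x y : F} (hz : (z : F) = 1 + x * y) :
    transvection h x * transvection h.symm y =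
      transvection h.symm (y / z) * el h z * transvection h (x / z) := by
  have h0 : 1 + x * y ≠ 0 := hz ▸ z.ne_zero
  have h1 : 1 + y * x ≠ 0 := by rwa [mul_comm y]
  apply Subtype.ext
  simp only [vmul, tv_E, el_E, hz, mul_add, add_mul, mul_one, one_mul, smul_mul_assoc,
    mul_smul_comm, single_mul_single_same, single_mul_single_of_ne _ _ _ _ h,
    single_mul_single_of_ne _ _ _ _ h.symm, smul_zero, add_zero]
  match_scalars <;> field_simp <;> ring

/-- the monomial matrix of a reflection. -/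
def wm {a b : Fin m} (h : a ≠ b) (c : F) : SLm m F :=
  transvection h c * transvection h.symm (-c⁻¹) * transvection h c

lemma wm_E {a b : Fin m} (h : a ≠ b) {c : F} (hc : c ≠ 0) : (wm h c).1 =
    1 - single a a (1 : F) - single b b (1 : F) + c • single a b (1 : F) -
      c⁻¹ • single b a (1 : F) := by
  simp only [wm, vmul, tv_E, mul_add, add_mul, mul_one, one_mul, smul_mul_assoc,
    mul_smul_comm, single_mul_single_same, single_mul_single_of_ne _ _ _ _ h,
    single_mul_single_of_ne _ _ _ _ h.symm, smul_zero, add_zero]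
  match_scalars <;> field_simp <;> ring

lemma swap_mon {a b k : Fin m} (h : a ≠ b) {M : Matrix (Fin m) (Fin m) F} {t x y : F}
    (h1 : k ≠ a ∨ t = 0) (h2 : k ≠ b ∨ t = 0)
    (e : M = 1 - single a a (1 : F) - single b b (1 : F) + t • single k k (1 : F) +
      x • single a b (1 : F) + y • single b a (1 : F)) : IsMon M (Equiv.swap a b) := by
  intro i j hj
  rw [e]
  simp only [Matrix.add_apply, Matrix.sub_apply, Matrix.smul_apply, single_apply, one_apply,
    smul_eq_mul]
  by_cases c1 : i = a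
  · subst c1
    rw [Equiv.swap_apply_left] at hj
    rcases h1 with h1 | h1 <;> simp [h1, Ne.symm hj, h.symm]
  · by_cases c2 : i = b
    · subst c2
      rw [Equiv.swap_apply_right] at hj
      rcases h2 with h2 | h2 <;> simp [h2, Ne.symm hj, h]
    · rw [Equiv.swap_apply_of_ne_of_ne c1 c2] at hj
      have : ¬ (k = i ∧ k = j) := fun c => hj (c.2.symm.trans c.1)
      simp [Ne.symm hj, Ne.symm c1, Ne.symm c2, this]

lemma wm_mon {a b : Fin m} (h : a ≠ b) {c : F} (hc : c ≠ 0) : IsMon (wm h c).1 (Equiv.swap a b) := by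
  refine swap_mon (k := a) h (t := 0) (x := c) (y := -c⁻¹) (.inr rfl) (.inr rfl) ?_
  rw [wm_E h hc]
  module

lemma wm_dg {a b k : Fin m} (h : a ≠ b) {c : F} (hc : c ≠ 0) (h1 : a ≠ k) (h2 : b ≠ k) :
    (wm h c).1 k k = 1 := by
  rw [wm_E h hc]
  simp [h1, h2]

lemma el_tv1 {a a' b : Fin m} (h : a ≠ a') (hab : a ≠ b) (hb : b ≠ a') (z : Fˣ) (c : F) :
    el h z * transvection hab c = transvection hab (z * c) * el h z := by
  apply Subtype.ext
  simp only [vmul, tv_E, el_E, mul_add, add_mul, mul_one, one_mul, smul_mul_assoc,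
    mul_smul_comm, single_mul_single_same, single_mul_single_of_ne _ _ _ _ h.symm,
    single_mul_single_of_ne _ _ _ _ hab.symm, single_mul_single_of_ne _ _ _ _ hb, smul_zero,
    add_zero]
  match_scalars <;> ring

lemma el_mon {a b : Fin m} (h : a ≠ b) (z : Fˣ) : IsMon (el h z).1 1 := fun i j hj => by
  rw [el_val]
  exact diagonal_apply_ne _ (Ne.symm hj)

lemma el_iso {φ : F →+* F} {ε : Fin m → F} {i : Fin m} (hi : i ≠ i.rev) {z : Fˣ} (hz : φ z = z) :
    el hi z ∈ Iso φ (JJ ε) := by
  refine dg_iso φ (el_val hi z) fun a => ?_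
  by_cases h1 : a = i
  · subst h1
    simp [hi.symm, hz]
  · by_cases h2 : a = i.rev
    · subst h2
      simp [hi.symm, hz]
    · have h3 : a.rev ≠ i := fun e => h2 (by rw [← e, Fin.rev_rev])
      simp [h1, h2, h3]

lemma th_dg (φ : F →+* F) {ε : Fin m → F} (hε : ∀ i, ε i ≠ 0) {g : SLm m F}
    {σ : Equiv.Perm (Fin m)} (h : IsMon g.1 σ) {a : Fin m} (ha : σ a.rev = a.rev) :
    (th φ hε g).1 a a * φ (g.1 a.rev a.rev) = 1 := by
  have h1 := mon_l h (g⁻¹).1 a.rev a.rev
  have h2 : g.1 * (g⁻¹).1 = 1 := congrArg Subtype.val (mul_inv_cancel g)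
  rw [h2, one_apply_eq, ha] at h1
  rw [th_val, mul_right_comm (ε a), mul_inv_cancel₀ (hε a), one_mul, ← map_mul, mul_comm, ← h1,
    map_one]

namespace Frm
variable {φ : F →+* F} {η d : F} (h : Frm φ η d) {z : Fˣ} (hz : φ z = z) (hz2 : z ^ 2 ≠ 1)
include h hz hz2

lemma lg_C {a b : Fin m} (hab : a ≠ b) (hb : b = a.rev) {c : F} (hc : η * c + φ c = 0) :
    transvection hab c ∈ ⁅h.G m, h.G m⁆ := by
  subst hb
  have h0 : (z : F) ^ 2 - 1 ≠ 0 := fun h => hz2 (Units.ext (by simpa using sub_eq_zero.mp h))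
  have h1 := Subgroup.commutator_mem_commutator (el_iso (ε := ep m η) hab hz)
    (h.lg_mem hab (c := c / ((z : F) ^ 2 - 1)) (by
      rw [map_div₀, map_sub, map_pow, hz, map_one, ← mul_div_assoc, ← add_div, hc, zero_div]))
  rw [commutatorElement_def, el_tv, mul_inv_cancel_right, transvection_inv,
    ← transvection_add] at h1
  have : (z : F) ^ 2 * (c / ((z : F) ^ 2 - 1)) + -(c / ((z : F) ^ 2 - 1)) = c := by
    field_simp
    ring
  rwa [this] at h1

lemma xx_C {a b : Fin m} (hab : a ≠ b) (ha : a ≠ a.rev) (hb : b ≠ b.rev) (hn : b ≠ a.rev) (c : F) :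
    transvection hab c * h.θ m (transvection hab c) ∈ ⁅h.G m, h.G m⁆ := by
  have h0 : (z : F) - 1 ≠ 0 := fun e => hz2 (by
    rw [show z = 1 from Units.ext (sub_eq_zero.mp e), one_pow])
  have h1 := Subgroup.commutator_mem_commutator (el_iso (ε := ep m η) ha hz)
    (h.xx_mem hab ha hb (c / ((z : F) - 1)))
  have h2 := el_tv1 ha hab hn z (c / ((z : F) - 1))
  have h3 := congrArg (h.θ m) h2
  rw [map_mul, map_mul, (th_fix φ h.ep_ne).mpr (el_iso ha hz)] at h3
  have h4 : ∀ x y, Commute (h.θ m (transvection hab x)) (transvection hab y) := fun x y => by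
    rw [h.θ_tv]
    exact tv_comm _ _ ha.symm hb _ _
  have h5 : (z : F) * (c / ((z : F) - 1)) + -(c / ((z : F) - 1)) = c := by
    field_simp
    ring
  rw [commutatorElement_def, ← mul_assoc, h2, mul_assoc _ (el ha z), h3, ← mul_assoc,
    mul_inv_cancel_right, _root_.mul_inv_rev, ← map_inv, transvection_inv, ← mul_assoc,
    mul_assoc (SpecialLinearGroup.transvection hab _), ← map_mul, ← transvection_add, h5, mul_assoc, (h4 _ _).eq,
    ← mul_assoc, ← transvection_add, h5] at h1
  exact h1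

lemma xg_C {a b : Fin m} (hab : a ≠ b) (ha : a ≠ a.rev) (hb : b ≠ b.rev) (hn : b ≠ a.rev)
    {g : SLm m F} (hg : g ∈ Subgroup.closure
      (Set.range (transvection (F := F) hab) ∪ Set.range (transvection (F := F) hab.symm))) :
    g * h.θ m g ∈ ⁅h.G m, h.G m⁆ := by
  have hn' : a ≠ b.rev := fun e => hn (by rw [e, Fin.rev_rev])
  have c1 : ∀ x ∈ Set.range (transvection (F := F) hab) ∪ Set.range (transvection (F := F) hab.symm),
      ∀ y ∈ Set.range (transvection (F := F) hab) ∪ Set.range (transvection (F := F) hab.symm),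
      Commute (h.θ m x) y := by
    rintro _ (⟨x, rfl⟩ | ⟨x, rfl⟩) _ (⟨y, rfl⟩ | ⟨y, rfl⟩) <;> rw [h.θ_tv]
    exacts [tv_comm _ _ ha.symm hb _ _, tv_comm _ _ hn.symm hn' _ _, tv_comm _ _ hn'.symm hn _ _,
      tv_comm _ _ hb.symm ha _ _]
  have c2 : ∀ x ∈ Subgroup.closure (Set.range (transvection (F := F) hab) ∪
      Set.range (transvection (F := F) hab.symm)), ∀ y ∈ Subgroup.closure
        (Set.range (transvection (F := F) hab) ∪ Set.range (transvection (F := F) hab.symm)),
      Commute (h.θ m x) y := by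
    intro x hx y hy
    induction hx using Subgroup.closure_induction with
    | mem x hx =>
      induction hy using Subgroup.closure_induction with
      | mem y hy => exact c1 x hx y hy
      | one => exact Commute.one_right _
      | mul _ _ _ _ h1 h2 => exact h1.mul_right h2
      | inv _ _ h1 => exact h1.inv_right
    | one => rw [map_one]; exact Commute.one_left _
    | mul _ _ _ _ h1 h2 => rw [map_mul]; exact h1.mul_left h2
    | inv _ _ h1 => rw [map_inv]; exact h1.inv_left
  induction hg using Subgroup.closure_induction with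
  | mem x hx =>
    rcases hx with ⟨c, rfl⟩ | ⟨c, rfl⟩
    exacts [h.xx_C hz hz2 hab ha hb hn c, h.xx_C hz hz2 hab.symm hb ha hn' c]
  | one => rw [map_one, mul_one]; exact one_mem _
  | mul x y hx hy h1 h2 =>
    have := mul_mem h1 h2
    rwa [mul_assoc, ← mul_assoc (h.θ m x), (c2 x hx y hy).eq, mul_assoc, ← mul_assoc,
      ← map_mul] at this
  | inv x hx h1 =>
    have := inv_mem h1
    rwa [← (c2 x hx x hx).eq, _root_.mul_inv_rev, ← map_inv] at this

end Frm

end Pool.Agent.Lib.MP_1ae3da_al.SLI
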