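import Pool.Agent.Lib.MP_1ae3da_al.Z.Cl8

/-! The symplectic and special unitary groups are perfect. -/

namespace Pool.Agent.Lib.MP_1ae3da_al.SLI

open Matrix SpecialLinearGroup

variable {F : Type} [Field F] {m : ℕ}

lemma comm_le (H : Subgroup (SLm m F)) : ⁅H, H⁆ ≤ H := H.commutator_le_self

lemma el_clo {a b : Fin m} (hab : a ≠ b) (c : Fˣ) : el hab c ∈ Subgroup.closure
    (Set.range (transvection (F := F) hab) ∪ Set.range (transvection (F := F) hab.symm)) := by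
  have h := tv_rel2 hab c (x := c - 1) (y := 1) (by ring)
  rw [← mul_inv_eq_iff_eq_mul, ← inv_mul_eq_iff_eq_mul] at h
  rw [← h]
  exact mul_mem (inv_mem (Subgroup.subset_closure (.inr ⟨_, rfl⟩))) (mul_mem (mul_mem
    (Subgroup.subset_closure (.inl ⟨_, rfl⟩)) (Subgroup.subset_closure (.inr ⟨_, rfl⟩)))
    (inv_mem (Subgroup.subset_closure (.inl ⟨_, rfl⟩))))

lemma wm_clo {a b : Fin m} (hab : a ≠ b) (c : F) : wm hab c ∈ Subgroup.closure
    (Set.range (transvection (F := F) hab) ∪ Set.range (transvection (F := F) hab.symm)) :=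
  mul_mem (mul_mem (Subgroup.subset_closure (.inl ⟨_, rfl⟩))
    (Subgroup.subset_closure (.inr ⟨_, rfl⟩))) (Subgroup.subset_closure (.inl ⟨_, rfl⟩))

lemma el_dg {a b k : Fin m} (hab : a ≠ b) (c : Fˣ) (h1 : k ≠ a) (h2 : k ≠ b) :
    (el hab c).1 k k = 1 := by
  rw [el_val, diagonal_apply_eq, if_neg h1, if_neg h2, Units.val_one]

lemma mon_dg {n : Matrix (Fin m) (Fin m) F} {σ : Equiv.Perm (Fin m)} (h : IsMon n σ)
    (w : Matrix (Fin m) (Fin m) F) {k : Fin m} (hk : σ k = k) : (n * w) k k = n k k * w k k := by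
  rw [mon_l h, hk]

namespace Frm
variable {φ : F →+* F} {η d : F} (h : Frm φ η d) {z : Fˣ} (hz : φ z = z) (hz2 : z ^ 2 ≠ 1)
include h

lemma θ_one {g : SLm m F} {σ : Equiv.Perm (Fin m)} (hg : IsMon g.1 σ) {k : Fin m}
    (h1 : σ k.rev = k.rev) (h2 : g.1 k.rev k.rev = 1) : (h.θ m g).1 k k = 1 := by
  have := th_dg φ h.ep_ne hg h1
  rwa [h2, map_one, mul_one] at this

lemma tr_inv : η * d⁻¹ + φ d⁻¹ = 0 := by
  have h1 : φ d = -(η * d) := by linear_combination h.tr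
  have h2 : η ≠ 0 := left_ne_zero_of_mul_eq_one h.sq
  have h3 := h.ne
  rw [map_inv₀, h1]
  field_simp
  linear_combination h.sq

omit h in
lemma tr_mul {c u : F} (hc : η * c + φ c = 0) (hu : φ u = u) : η * (u * c) + φ (u * c) = 0 := by
  rw [map_mul, hu]
  linear_combination u * hc

include hz hz2

lemma el_C {a : Fin m} (ha : a ≠ a.rev) {u : Fˣ} (hu : φ u = u) : el ha u ∈ ⁅h.G m, h.G m⁆ := by
  have h0 := h.ne
  have e := tv_rel2 ha u (x := (u - 1) * d) (y := d⁻¹) (by field_simp; ring)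
  rw [← mul_inv_eq_iff_eq_mul, ← inv_mul_eq_iff_eq_mul] at e
  have h1 : φ ((u : F) - 1) = u - 1 := by rw [map_sub, hu, map_one]
  have h2 : φ (u : F)⁻¹ = (u : F)⁻¹ := by rw [map_inv₀, hu]
  have h3 := (Fin.rev_rev a).symm
  rw [← e, div_eq_inv_mul, div_eq_inv_mul]
  exact mul_mem (inv_mem (h.lg_C hz hz2 _ h3 (tr_mul h.tr_inv h2))) (mul_mem (mul_mem
    (h.lg_C hz hz2 _ rfl (tr_mul h.tr h1)) (h.lg_C hz hz2 _ h3 h.tr_inv))
    (inv_mem (h.lg_C hz hz2 _ rfl (tr_mul (tr_mul h.tr h1) h2))))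

lemma wm_C {a : Fin m} (ha : a ≠ a.rev) : wm ha d ∈ ⁅h.G m, h.G m⁆ := by
  have := tr_mul h.tr_inv (u := -1) (by simp)
  rw [neg_one_mul] at this
  exact mul_mem (mul_mem (h.lg_C hz hz2 _ rfl h.tr) (h.lg_C hz hz2 _ (Fin.rev_rev a).symm this))
    (h.lg_C hz hz2 _ rfl h.tr)

open Classical in
lemma dg_C {a : Fin m} (ha : a ≠ a.rev) (n : ℕ) : ∀ t ∈ h.G m, IsMon t.1 1 →
    (∀ k : Fin m, k = k.rev → t.1 k k = 1) →
    (Finset.univ.filter fun k => k ≠ a ∧ k ≠ a.rev ∧ t.1 k k ≠ 1).card ≤ n →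
    t ∈ ⁅h.G m, h.G m⁆ := by
  have key : ∀ t ∈ h.G m, IsMon t.1 1 → ∀ k, t.1 k k * φ (t.1 k.rev k.rev) = 1 := fun t ht h1 k => by
    have := th_dg φ h.ep_ne h1 (a := k) rfl
    rwa [(th_fix φ h.ep_ne).mpr ht] at this
  induction n with
  | zero =>
    intro t ht h1 _ h3
    have h4 : ∀ k, k ≠ a ∧ k ≠ a.rev → t.1 k k = 1 := fun k hk => by
      by_contra c
      have : k ∈ Finset.univ.filter fun k => k ≠ a ∧ k ≠ a.rev ∧ t.1 k k ≠ 1 := by simp [hk, c]
      rw [Finset.card_eq_zero.mp (Nat.le_zero.mp h3)] at this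
      simp at this
    have h5 : t.1 a a * t.1 a.rev a.rev = 1 := by
      have := t.2
      rw [Matrix.det_of_isUpperTriangular fun i j hij => h1 i j hij.ne] at this
      exact (Finset.prod_eq_mul_of_mem a a.rev (Finset.mem_univ _) (Finset.mem_univ _) ha
        fun k _ hk => h4 k hk).symm.trans this
    have h6 := key t ht h1 a.rev
    rw [Fin.rev_rev] at h6
    have h7 : φ (t.1 a a) = t.1 a a := mul_left_cancel₀ (right_ne_zero_of_mul_eq_one h5)
      (by rw [h6, mul_comm, h5])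
    have : t = el ha (Units.mk0 _ (left_ne_zero_of_mul_eq_one h5)) := by
      apply Subtype.ext
      ext i j
      by_cases c : j = i
      · subst c
        rw [el_val, diagonal_apply_eq]
        split_ifs with c1 c2
        · rw [c1]; rfl
        · rw [c2, Units.val_inv_eq_inv_val]
          exact eq_inv_of_mul_eq_one_right h5
        · exact h4 j ⟨c1, c2⟩
      · rw [h1 i j c, el_mon ha _ i j c]
    rw [this]
    exact h.el_C hz hz2 ha h7
  | succ n ih =>
    intro t ht h1 h2 h3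
    by_cases c : ∃ k, k ≠ a ∧ k ≠ a.rev ∧ t.1 k k ≠ 1
    swap
    · refine ih t ht h1 h2 ?_
      rw [Finset.filter_eq_empty_iff.mpr fun k _ hk => c ⟨k, hk⟩]
      simp
    obtain ⟨k, k1, k2, k3⟩ := c
    have k4 : k ≠ k.rev := fun e => k3 (h2 k e)
    let u : Fˣ := (Units.mk0 _ (mon_ne h1 k))⁻¹
    have hy := h.xg_C hz hz2 k1 k4 ha (fun e => k2 (by rw [e, Fin.rev_rev])) (el_clo k1 u)
    have hm : IsMon (h.θ m (el k1 u)).1 1 := by
      have := th_mon φ h.ep_ne (el_mon k1 u)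
      rwa [show (Fin.revPerm * 1 * Fin.revPerm : Equiv.Perm (Fin m)) = 1 by ext; simp] at this
    have hv : ∀ l, l ≠ k.rev → l ≠ a.rev → (t * (el k1 u * h.θ m (el k1 u))).1 l l =
        t.1 l l * (el k1 u).1 l l := fun l l1 l2 => by
      rw [vmul, mon_dg h1 _ rfl, vmul, mon_dg (el_mon k1 u) _ rfl, h.θ_one (el_mon k1 u) rfl
        (el_dg k1 u (fun e => l1 (by rw [← e, Fin.rev_rev])) fun e => l2 (by rw [← e, Fin.rev_rev])),
        mul_one]
    have hv1 : ∀ l, l ≠ a → l ≠ a.rev → t.1 l l = 1 →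
        (t * (el k1 u * h.θ m (el k1 u))).1 l l = 1 := fun l l1 l2 l3 => by
      rw [hv l (fun e => k3 ?_) l2, l3, el_dg k1 u (fun e => k3 (e ▸ l3)) l1, mul_one]
      have := key t ht h1 k
      rwa [← e, l3, map_one, mul_one] at this
    refine (Subgroup.mul_mem_cancel_right _ hy).mp (ih _ (mul_mem ht (comm_le _ hy))
      (mon_mul h1 (mon_mul (el_mon k1 u) hm)) (fun l hl => hv1 l (fun e => ha (e ▸ hl))
        (fun e => ha (by rw [← e, hl, e, Fin.rev_rev])) (h2 l hl)) (Nat.le_of_lt_succ ?_))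
    refine lt_of_lt_of_le (Finset.card_lt_card ⟨fun l hl => ?_, fun hs => ?_⟩) h3
    · simp only [Finset.mem_filter, Finset.mem_univ, true_and] at hl ⊢
      exact ⟨hl.1, hl.2.1, fun e => hl.2.2 (hv1 l hl.1 hl.2.1 e)⟩
    · have := hs (x := k) (by simp [k1, k2, k3])
      simp only [Finset.mem_filter, Finset.mem_univ, true_and] at this
      apply this.2.2
      rw [hv k k4 k2, el_val, diagonal_apply_eq, if_pos rfl]
      exact mul_inv_cancel₀ (mon_ne h1 k)

lemma ex_refl {i j : Fin m} (hij : i ≠ j) (hi : i ≠ i.rev) (hj : j ≠ j.rev) :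
    ∃ y ∈ ⁅h.G m, h.G m⁆, ∃ s, IsMon y.1 s ∧ s j = i ∧
      (∀ k, k ≠ i → k ≠ j → k ≠ i.rev → k ≠ j.rev → s k = k) ∧
      ∀ k : Fin m, k = k.rev → y.1 k k = 1 := by
  have hm : ∀ k : Fin m, k = k.rev → i ≠ k ∧ j ≠ k := fun k hk =>
    ⟨fun e => hi (e ▸ hk), fun e => hj (e ▸ hk)⟩
  by_cases e : j = i.rev
  · subst e
    exact ⟨_, h.wm_C hz hz2 hi, _, wm_mon hi h.ne, Equiv.swap_apply_right _ _,
      fun k k1 k2 _ _ => Equiv.swap_apply_of_ne_of_ne k1 k2,
      fun k hk => wm_dg hi h.ne (hm k hk).1 (hm k hk).2⟩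
  · have hw := wm_mon hij (one_ne_zero (α := F))
    refine ⟨_, h.xg_C hz hz2 hij hi hj e (wm_clo hij 1), _, mon_mul hw (th_mon φ h.ep_ne hw), ?_,
      fun k k1 k2 k3 k4 => ?_, fun k hk => ?_⟩
    · simp [Equiv.swap_apply_of_ne_of_ne hi.symm (Ne.symm e)]
    · have k5 : k.rev ≠ i := fun c => k3 (by rw [← c, Fin.rev_rev])
      have k6 : k.rev ≠ j := fun c => k4 (by rw [← c, Fin.rev_rev])
      simp [Equiv.swap_apply_of_ne_of_ne k1 k2, Equiv.swap_apply_of_ne_of_ne k5 k6]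
    · have k1 := Equiv.swap_apply_of_ne_of_ne (hm k hk).1.symm (hm k hk).2.symm
      have k2 := wm_dg hij (one_ne_zero (α := F)) (hm k hk).1 (hm k hk).2
      rw [vmul, mon_dg hw _ k1, k2, h.θ_one hw (hk ▸ k1) (hk ▸ k2), mul_one]

lemma mon_C {a : Fin m} (ha : a ≠ a.rev) (n : ℕ) : ∀ t ∈ h.G m, ∀ σ, IsMon t.1 σ →
    (∀ k : Fin m, k = k.rev → t.1 k k = 1) → σ.support.card ≤ n → t ∈ ⁅h.G m, h.G m⁆ := by
  induction n with
  | zero =>
    intro t ht σ h1 h2 h3
    rw [Nat.le_zero, Equiv.Perm.card_support_eq_zero] at h3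
    exact h.dg_C hz hz2 ha _ t ht (h3 ▸ h1) h2 le_rfl
  | succ n ih =>
    intro t ht σ h1 h2 h3
    by_cases c : σ = 1
    · exact ih t ht σ h1 h2 (by simp [c])
    obtain ⟨i, hi⟩ : ∃ i, σ i ≠ i := by
      by_contra hn
      push Not at hn
      exact c (Equiv.ext hn)
    have hr := iso_rev φ h.ep_ne ht h1
    have hmid : ∀ k : Fin m, k = k.rev → σ k = k := fun k hk => mid_eq (by rw [← hr, ← hk]) hk
    have i1 : i ≠ i.rev := fun e => hi (hmid i e)
    have i2 : σ i ≠ (σ i).rev := fun e => i1 (σ.injective (e.trans (hr i).symm))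
    obtain ⟨y, hy, s, s1, s2, s3, s4⟩ := h.ex_refl hz hz2 hi.symm i1 i2
    refine (Subgroup.mul_mem_cancel_right _ hy).mp (ih _ (mul_mem ht (comm_le _ hy)) _
      (mon_mul h1 s1) (fun k hk => ?_) (Nat.le_of_lt_succ ?_))
    · rw [vmul, mon_dg h1 _ (hmid k hk), h2 k hk, s4 k hk, mul_one]
    refine lt_of_lt_of_le (Finset.card_lt_card ⟨fun l hl => ?_, fun hs => ?_⟩) h3
    · rw [Equiv.Perm.mem_support] at hl ⊢
      refine fun e => hl ?_
      rw [Equiv.Perm.mul_apply, e]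
      refine s3 l (fun c => hi (c ▸ e)) (fun c => hi (σ.injective (c ▸ e))) (fun c => hi ?_)
        fun c => hi ?_
      · rw [c, hr, Fin.rev_inj] at e
        exact e
      · rw [← hr] at c
        have := σ.injective (e.trans c)
        rw [this, hr, Fin.rev_inj] at e
        exact e
    · exact Equiv.Perm.mem_support.mp (hs (Equiv.Perm.mem_support.mpr hi)) s2

end Frm

/-- a root element next to the middle index. -/
def x3 (φ : F →+* F) {a k b : Fin m} (h1 : a ≠ k) (h2 : k ≠ b) (h3 : a ≠ b) (c e : F) : SLm m F :=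
  transvection h1 c * transvection h2 (-φ c) * transvection h3 (e + c * φ c)

lemma x3_E (φ : F →+* F) {a k b : Fin m} (h1 : a ≠ k) (h2 : k ≠ b) (h3 : a ≠ b) (c e : F) :
    (x3 φ h1 h2 h3 c e).1 = 1 + c • single a k (1 : F) + (-φ c) • single k b (1 : F) +
      e • single a b (1 : F) := by
  simp only [x3, vmul, tv_E, mul_add, add_mul, mul_one, one_mul, smul_mul_assoc, mul_smul_comm,
    single_mul_single_same, single_mul_single_of_ne _ _ _ _ h1.symm,
    single_mul_single_of_ne _ _ _ _ h3.symm, smul_zero, add_zero]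
  match_scalars <;> ring

lemma x3_rel (φ : F →+* F) (hφ : ∀ x, φ (φ x) = x) {a k b : Fin m} (h1 : a ≠ k) (h2 : k ≠ b)
    (h3 : a ≠ b) {c e : F} (he : e ≠ 0) (hc : e + φ e + c * φ c = 0) :
    (x3 φ h1 h2 h3 (φ c / φ e) (φ e)⁻¹ * x3 φ h2.symm h1.symm h3.symm (-φ c) e *
      x3 φ h1 h2 h3 (φ c / e) (φ e)⁻¹).1 = 1 - single a a (1 : F) - single b b (1 : F) +
      (-(φ e / e) - 1) • single k k (1 : F) + (φ e)⁻¹ • single a b (1 : F) +
        e • single b a (1 : F) := by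
  have h4 : φ e = -e - c * φ c := by linear_combination hc
  have h5 : -e - c * φ c ≠ 0 := h4 ▸ (map_ne_zero φ).mpr he
  have h6 : -e - φ c * c ≠ 0 := by rwa [mul_comm]
  simp only [vmul, x3_E, map_div₀, map_neg, hφ]
  simp only [h4, mul_add, add_mul, mul_one, one_mul, smul_mul_assoc, mul_smul_comm,
    single_mul_single_same, single_mul_single_of_ne _ _ _ _ h1.symm,
    single_mul_single_of_ne _ _ _ _ h2.symm, single_mul_single_of_ne _ _ _ _ h3.symm,
    single_mul_single_of_ne _ _ _ _ h1, single_mul_single_of_ne _ _ _ _ h2,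
    single_mul_single_of_ne _ _ _ _ h3, smul_zero, add_zero]
  match_scalars <;> field_simp <;> ring

namespace Frm
variable {φ : F →+* F} {d : F} (h : Frm φ 1 d)
include h

lemma x3_mem {a k b : Fin m} (h1 : a ≠ k) (h2 : k ≠ b) (h3 : a ≠ b) (hk : k = k.rev)
    (hb : b = a.rev) {c e : F} (hc : e + φ e + c * φ c = 0) : x3 φ h1 h2 h3 c e ∈ h.G m := by
  have ha : a = b.rev := by rw [hb, Fin.rev_rev]
  have he : ∀ i : Fin m, ep m (1 : F) i = 1 := fun i => ite_self _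
  rw [← th_fix φ h.ep_ne]
  apply Subtype.ext
  rw [x3_E, x3, map_mul, map_mul, th_tv φ h.ep_ne h1 h2 hk hb, th_tv φ h.ep_ne h2 h1 ha hk,
    th_tv φ h.ep_ne h3 h3 ha hb]
  simp only [he, vmul, tv_E, mul_add, add_mul, mul_one, one_mul, smul_mul_assoc, mul_smul_comm,
    inv_one, map_neg, map_add, map_mul, h.inv, single_mul_single_of_ne _ _ _ _ h1.symm,
    single_mul_single_of_ne _ _ _ _ h3.symm, smul_zero, add_zero]
  match_scalars
  all_goals first | ring1 | linear_combination -hc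

lemma ex_e {ν : F} (hν : ν * φ ν = 1) : ∃ e, e ≠ 0 ∧ -(φ e / e) = ν := by
  by_cases c : ν = 1
  · have h1 : φ d = -d := by linear_combination h.tr
    exact ⟨d, h.ne, by rw [h1, neg_div, neg_neg, div_self h.ne, c]⟩
  · have h0 : 1 - φ ν ≠ 0 := fun e => c (by
      rw [← sub_eq_zero.mp e, mul_one] at hν; exact hν)
    refine ⟨1 - φ ν, h0, ?_⟩
    rw [map_sub, map_one, h.inv]
    field_simp
    linear_combination hν

lemma ex_mid {z : Fˣ} (hz : φ z = z) (hz2 : z ^ 2 ≠ 1) (hN : ∀ s, φ s = s → ∃ c, c * φ c = s)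
    (hU : ∀ u ∈ US m F, u ∈ h.G m → u ∈ ⁅h.G m, h.G m⁆) {a k : Fin m} (h1 : a < k)
    (hk : k = k.rev) {ν : F} (hν : ν * φ ν = 1) :
    ∃ y ∈ ⁅h.G m, h.G m⁆, ∃ s, IsMon y.1 s ∧ y.1 k k = ν := by
  have h2 : k < a.rev := hk ▸ Fin.rev_lt_rev.mpr h1
  have h3 := h1.trans h2
  obtain ⟨e, he, rfl⟩ := h.ex_e hν
  obtain ⟨c, hc⟩ := hN (-(e + φ e)) (by rw [map_neg, map_add, h.inv, add_comm])
  have hc' : e + φ e + c * φ c = 0 := by rw [hc, add_neg_cancel]
  have he' := (map_ne_zero φ).mpr he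
  have up : ∀ x y, y + φ y + x * φ x = 0 → x3 φ h1.ne h2.ne h3.ne x y ∈ ⁅h.G m, h.G m⁆ :=
    fun x y hxy => hU _ (mul_mem (mul_mem (tv_US h1 _) (tv_US h2 _)) (tv_US h3 _))
      (h.x3_mem _ _ _ hk rfl hxy)
  have lo : x3 φ h2.ne' h1.ne' h3.ne' (-φ c) e ∈ ⁅h.G m, h.G m⁆ := by
    have hw := wm_mon h3.ne h.ne
    have hC := h.wm_C hz hz2 h3.ne
    have hG := h.x3_mem h2.ne' h1.ne' h3.ne' hk (Fin.rev_rev a).symm (c := -φ c) (e := e)
      (by rw [map_neg, h.inv]; linear_combination hc')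
    have := hU _ (mem_US'.mpr ⟨fun i j hij => ?_, fun i => ?_⟩)
      (mul_mem (mul_mem (inv_mem (comm_le _ hC)) hG) (comm_le _ hC))
    · exact (Subgroup.mul_mem_cancel_left _ (inv_mem hC)).mp
        ((Subgroup.mul_mem_cancel_right _ hC).mp this)
    · obtain ⟨i, rfl⟩ := (Equiv.swap a a.rev).surjective i
      obtain ⟨j, rfl⟩ := (Equiv.swap a a.rev).surjective j
      have hs := Equiv.swap_apply_of_ne_of_ne h1.ne' h2.ne
      have n0 : i ≠ j := fun e => hij.ne (e ▸ rfl)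
      have n1 : ¬ (a.rev = i ∧ k = j) := by
        rintro ⟨rfl, rfl⟩
        rw [hs, Equiv.swap_apply_right] at hij
        exact lt_asymm h1 hij
      have n2 : ¬ (k = i ∧ a = j) := by
        rintro ⟨rfl, rfl⟩
        rw [hs, Equiv.swap_apply_left] at hij
        exact lt_asymm h2 hij
      have n3 : ¬ (a.rev = i ∧ a = j) := by
        rintro ⟨rfl, rfl⟩
        rw [Equiv.swap_apply_left, Equiv.swap_apply_right] at hij
        exact lt_asymm h3 hij
      rw [conj_zero hw, x3_E]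
      simp only [Matrix.add_apply, Matrix.smul_apply, single_apply, one_apply_ne n0, if_neg n1,
        if_neg n2, if_neg n3, smul_zero, add_zero]
    · obtain ⟨i, rfl⟩ := (Equiv.swap a a.rev).surjective i
      have n : ∀ x y : Fin m, x ≠ y → ¬ (x = i ∧ y = i) := fun x y hxy c =>
        hxy (c.1.trans c.2.symm)
      rw [conj_dg hw, x3_E]
      simp only [Matrix.add_apply, Matrix.smul_apply, single_apply, one_apply_eq,
        if_neg (n _ _ h2.ne'), if_neg (n _ _ h1.ne'), if_neg (n _ _ h3.ne'), smul_zero, add_zero]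
  have hr := x3_rel φ h.inv h1.ne h2.ne h3.ne he hc'
  refine ⟨_, mul_mem (mul_mem (up _ _ ?_) lo) (up _ _ ?_), _,
    swap_mon h3.ne (.inl h1.ne') (.inl h2.ne) hr, ?_⟩
  · simp only [map_inv₀, map_div₀, h.inv]
    field_simp
    linear_combination hc'
  · simp only [map_inv₀, map_div₀, h.inv]
    field_simp
    linear_combination hc'
  · rw [hr]
    simp [h1.ne, h2.ne']

end Frm

end Pool.Agent.Lib.MP_1ae3da_al.SLI
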