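import Pool.Agent.Lib.MP_1ae3da_al.C.Defs

/-! Corners cut out by a subgroup of order prime to `p`: definitions. -/

namespace Pool.Agent.Lib.MP_1ae3da_al.CT.Z

open Submodule

section lat
variable (F : Type) {A : Type} [Field F] [Ring A] [Algebra F A]

/-- `p ^ k` times the lattice. -/
def Lk (p k : ℕ) (Λ : AddSubgroup A) : AddSubgroup A where
  carrier := {x | ∃ y ∈ Λ, x = (p : F) ^ k • y}
  zero_mem' := ⟨0, zero_mem _, (smul_zero _).symm⟩
  add_mem' := by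
    rintro _ _ ⟨a, ha, rfl⟩ ⟨b, hb, rfl⟩
    exact ⟨a + b, add_mem ha hb, (smul_add _ _ _).symm⟩
  neg_mem' := by
    rintro _ ⟨a, ha, rfl⟩
    exact ⟨-a, neg_mem ha, (smul_neg _ _).symm⟩

/-- a `p`-adically complete lattice that is closed under multiplication. -/
structure Ltt (p : ℕ) (Λ : AddSubgroup A) : Prop where
  mul : ∀ x ∈ Λ, ∀ y ∈ Λ, x * y ∈ Λ
  inv : ∀ n : ℕ, ¬ p ∣ n → ∀ x ∈ Λ, (n : F)⁻¹ • x ∈ Λ
  cpl : ∀ x : ℕ → A, (∀ k, x (k + 1) - x k ∈ Lk F p k Λ) → ∃ y, ∀ k, y - x k ∈ Lk F p k Λ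
  sep : ∀ x, (∀ k, x ∈ Lk F p k Λ) → x = 0

variable {N : Type} [Group N]

/-- `θ` is exactly multiplicative against `t`. -/
def Exa (θ : N → A) (t : N) : Prop := ∀ x, θ (t * x) = θ t * θ x ∧ θ (x * t) = θ x * θ t

/-- `θ` is multiplicative modulo `p ^ c` and exact on `D`. -/
structure Ap (p c : ℕ) (Λ : AddSubgroup A) (D : Subgroup N) (θ : N → A) : Prop where
  mem : ∀ x, θ x ∈ Λ
  df : ∀ x y, θ x * θ y - θ (x * y) ∈ Lk F p c Λ
  ex : ∀ d ∈ D, Exa θ d

/-- one step of the averaging. -/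
noncomputable def stp [Fintype N] (θ : N → A) (x : N) : A :=
  θ x - (Nat.card N : F)⁻¹ • ∑ z, (θ x * θ z - θ (x * z)) * θ z⁻¹

end lat

/-- the group data. -/
structure Pg (p c : ℕ) {X : Type} [Group X] (U D : Subgroup X) : Prop where
  prime : p.Prime
  pos : 0 < c
  pU : ¬ p ∣ Nat.card U
  pD : IsPGroup p D
  ab : ∀ x ∈ D, ∀ y ∈ D, x * y = y * x
  nrm : D ≤ Subgroup.normalizer (U : Set X)
  bru : ∀ x, ∃ u ∈ U, ∃ n ∈ Subgroup.normalizer (D : Set X), ∃ v ∈ U, x = u * n * v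
  orb : ∀ u ∈ U, u ≠ 1 → p ^ c ∣ (Subgroup.centralizer {u}).relIndex D
  aut : ∀ δ : MulAut X, (∀ x, δ x ∈ D ↔ x ∈ D) → ∃ g, ∀ x, g⁻¹ * δ x * g ∈ U ↔ x ∈ U

section alg
variable (F : Type) {X : Type} [Field F] [Group X]

/-- the idempotent of the trivial character of `E`. -/
noncomputable def av (E : Subgroup X) : MonoidAlgebra F X :=
  (Nat.card E : F)⁻¹ • ∑ᶠ x : E, gu F X x

/-- the element of the corner attached to `x`. -/
noncomputable def an (U : Subgroup X) (x : X) : MonoidAlgebra F X := av F U * gu F X x * av F U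

/-- the generators of the lattice. -/
def LaS (U D : Subgroup X) : Set (MonoidAlgebra F X) :=
  {a | ∃ E ≤ D, ∃ n ∈ Subgroup.normalizer (D : Set X), a = av F E * an F U n}

variable {F} in
/-- the lattice. -/
noncomputable def La (O : Subring F) (U D : Subgroup X) : AddSubgroup (MonoidAlgebra F X) :=
  (span O (LaS F U D)).toAddSubgroup

variable {F} in
/-- the semilinear automorphisms that come from group automorphisms stabilising `D`. -/
noncomputable def Ga (GG : Subgroup (RingAut F)) (D : Subgroup X) : Subgroup (RingAut (MonoidAlgebra F X)) where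
  carrier := {γ | γ ∈ SG GG (MonoidAlgebra F X) ∧ ∃ δ : MulAut X,
    (∀ x, γ (gu F X x) = gu F X (δ x)) ∧ ∀ x, δ x ∈ D ↔ x ∈ D}
  one_mem' := ⟨one_mem _, 1, fun _ => rfl, fun _ => Iff.rfl⟩
  mul_mem' := by
    rintro a b ⟨h1, δ, h2, h3⟩ ⟨k1, ε, k2, k3⟩
    exact ⟨mul_mem h1 k1, δ * ε, fun x => (congrArg a (k2 x)).trans (h2 _),
      fun x => (h3 _).trans (k3 x)⟩
  inv_mem' := by
    rintro a ⟨h1, δ, h2, h3⟩
    refine ⟨inv_mem h1, δ⁻¹, fun x => ?_, fun x => ?_⟩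
    · change a.symm _ = _
      rw [RingEquiv.symm_apply_eq, h2, MulAut.apply_inv_self]
    · rw [← h3, MulAut.apply_inv_self]

variable {F} in
/-- `Θ` maps the group algebra of `N` isomorphically and naturally onto the corner of `e`. -/
structure Cor (Γ : Subgroup (RingAut (MonoidAlgebra F X))) (N : Subgroup X)
    (e : MonoidAlgebra F X) (Θ : MonoidAlgebra F X →ₗ[F] MonoidAlgebra F X) : Prop where
  idem : e * e = e
  one : Θ 1 = e
  mul : ∀ a ∈ span F (Hm F (gu F X) N), ∀ b ∈ span F (Hm F (gu F X) N), Θ (a * b) = Θ a * Θ b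
  inj : ∀ a ∈ span F (Hm F (gu F X) N), Θ a = 0 → a = 0
  surj : ∀ z, ∃ a ∈ span F (Hm F (gu F X) N), Θ a = e * z * e
  loc : ∀ t ∈ N, gu F X t * e = e * gu F X t → Θ (gu F X t) = gu F X t * e
  nat : ∀ γ ∈ Γ, ∃ n ∈ N, γ e * gu F X n = gu F X n * e ∧ ∀ a ∈ span F (Hm F (gu F X) N),
    γ (Θ a) * gu F X n = gu F X n * Θ (gu F X n⁻¹ * γ a * gu F X n)

end alg

end Pool.Agent.Lib.MP_1ae3da_al.CT.Z
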