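import Pool.Agent.Lib.MP_1ae3da_al.C.ASide

/-! Existence of projective representations over the maximal abelian extension. -/

namespace Pool.Agent.Lib.MP_1ae3da_al.CT.Z

open Submodule NSV

variable {H G : Type} [Group H] [Finite H] [Group G] [Finite G]

omit [Finite H] [Finite G] in
/-- a section of a homomorphism that is compatible with left translation by a subgroup. -/
lemma zex_sec {E : Type} [Group E] (π : E →* G) (ι : H →* E) (κ : H →* G)
    (hκ : Function.Injective κ) (h : ∀ x, π (ι x) = κ x) :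
    ∃ s : G → E, s 1 = 1 ∧ (∀ y ∈ π.range, π (s y) = y) ∧
      ∀ x y, s (κ x * y) = ι x * s y := by
  classical
  obtain ⟨r, hr1, hr2, hr3⟩ : ∃ r : G → G, r 1 = 1 ∧ (∀ y, y * (r y)⁻¹ ∈ κ.range) ∧
      ∀ x y, r (κ x * y) = r y := by
    refine ⟨fun y => if y ∈ κ.range then 1 else
      (Quotient.mk (QuotientGroup.rightRel κ.range) y).out, by simp, fun y => ?_, fun x y => ?_⟩
    · dsimp only
      split_ifs with hy
      · simpa using hy
      · exact QuotientGroup.rightRel_apply.1 (Quotient.mk_out (s := QuotientGroup.rightRel _) y)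
    · have h1 : κ x * y ∈ κ.range ↔ y ∈ κ.range := mul_mem_cancel_left ⟨x, rfl⟩
      have h2 : Quotient.mk (QuotientGroup.rightRel κ.range) (κ x * y) =
          Quotient.mk (QuotientGroup.rightRel κ.range) y :=
        Quotient.sound (QuotientGroup.rightRel_apply.2 ⟨x⁻¹, by simp⟩)
      simp only [h1, h2]
  obtain ⟨t, ht1, ht2⟩ : ∃ t : G → E, t 1 = 1 ∧ ∀ y ∈ π.range, π (t y) = y := by
    refine ⟨fun y => if y = 1 then 1 else Function.invFun π y, by simp, fun y hy => ?_⟩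
    dsimp only
    split_ifs with h1
    · rw [h1, map_one]
    · exact Function.invFun_eq hy
  choose u hu using hr2
  refine ⟨fun y => ι (u y) * t (r y), ?_, fun y hy => ?_, fun x y => ?_⟩
  · have : u 1 = 1 := hκ (by rw [hu, hr1]; simp)
    simp [this, hr1, ht1]
  · have h1 : r y ∈ π.range := by
      have h2 : r y = (π (ι (u y)))⁻¹ * y := by rw [h, hu]; group
      rw [h2]
      exact mul_mem (inv_mem ⟨_, rfl⟩) hy
    rw [map_mul, h, hu, ht2 _ h1]; group
  · have : u (κ x * y) = x * u y := hκ (by rw [map_mul, hu, hu, hr3]; group)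
    simp only [this, hr3, map_mul, mul_assoc]

/-- the group of pairs formed by a group element and a matrix inducing the same conjugation. -/
def zexE (κ : H →* G) (hκ : Function.Injective κ) {N T : Subgroup G}
    (rng : ∀ g, g ∈ N ↔ ∃ x, κ x = g) (nrm : ∀ t ∈ T, ∀ g ∈ N, t * g * t⁻¹ ∈ N) {n : ℕ}
    (ρ : H →* Matrix (Fin n) (Fin n) Qbar) :
    Subgroup (G × (Matrix (Fin n) (Fin n) Qbar)ˣ) where
  carrier := {e | e.1 ∈ T ∧ (∀ x x', e.1 * κ x * e.1⁻¹ = κ x' → e.2.val * ρ x = ρ x' * e.2.val) ∧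
    e.2.val.det ^ Nat.card H = 1}
  one_mem' := by
    refine ⟨one_mem _, fun x x' hx => ?_, by simp⟩
    obtain rfl : x = x' := hκ (by simpa using hx)
    simp
  mul_mem' := by
    rintro ⟨a, A⟩ ⟨b, B⟩ ⟨h1, h2, h3⟩ ⟨h4, h5, h6⟩
    refine ⟨mul_mem h1 h4, fun x x' hx => ?_, ?_⟩
    · obtain ⟨z, hz⟩ := (rng _).1 (nrm b h4 (κ x) ((rng _).2 ⟨x, rfl⟩))
      have e1 := h5 x z hz.symm
      have e2 := h2 z x' (by
        rw [hz, ← hx]
        simp only [Prod.fst_mul, mul_inv_rev, mul_assoc])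
      simp only [Prod.snd_mul, Units.val_mul] at e1 e2 ⊢
      rw [mul_assoc, e1, ← mul_assoc, e2, mul_assoc]
    · simp only [Prod.snd_mul, Units.val_mul, Matrix.det_mul, mul_pow] at h3 h6 ⊢
      rw [h3, h6, mul_one]
  inv_mem' := by
    rintro ⟨a, A⟩ ⟨h1, h2, h3⟩
    refine ⟨inv_mem h1, fun x x' hx => ?_, ?_⟩
    · have e1 := h2 x' x (by
        rw [← hx]
        simp only [Prod.fst_inv, inv_inv]
        group)
      simp only [Prod.snd_inv] at e1 ⊢
      rw [Units.inv_mul_eq_iff_eq_mul, ← mul_assoc, e1, Units.mul_inv_cancel_right]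
    · have e1 : (A⁻¹).val.det * A.val.det = 1 := by
        rw [← Matrix.det_mul, Units.inv_mul, Matrix.det_one]
      have e2 := congrArg (· ^ Nat.card H) e1
      simp only [mul_pow, one_pow] at e2 h3
      rw [h3, mul_one] at e2
      exact e2

section pairs
variable {κ : H →* G} {hκ : Function.Injective κ} {N T : Subgroup G}
  {rng : ∀ g, g ∈ N ↔ ∃ x, κ x = g} {nrm : ∀ t ∈ T, ∀ g ∈ N, t * g * t⁻¹ ∈ N} {n : ℕ}
  {ρ : H →* Matrix (Fin n) (Fin n) Qbar}

omit [Finite G] in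
lemma zex_ker (hI : (fun x => (ρ x).trace) ∈ GM.Irr H) (e : zexE κ hκ rng nrm ρ)
    (he : e.1.1 = 1) : ∃ c : Qbar, c ^ (n * Nat.card H) = 1 ∧ e.1.2.val = c • 1 := by
  have := Fintype.ofFinite H
  obtain ⟨c, hc⟩ := (GM.A_hb H).schur n ρ hI e.1.2.val fun x => e.2.2.1 x x (by simp [he])
  refine ⟨c, ?_, hc⟩
  have := e.2.2.2
  rw [hc] at this
  simpa [pow_mul] using this

lemma zex_fin (hI : (fun x => (ρ x).trace) ∈ GM.Irr H) (hn : 0 < n) :
    Finite (zexE κ hκ rng nrm ρ) := by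
  let π : zexE κ hκ rng nrm ρ →* G := (MonoidHom.fst _ _).comp (Subgroup.subtype _)
  rw [π.finite_iff_finite_ker_range]
  refine ⟨?_, inferInstance⟩
  have hm : 0 < n * Nat.card H := Nat.mul_pos hn Nat.card_pos
  choose c hc1 hc2 using fun e : π.ker => zex_ker hI e.1 e.2
  have hfin : {z : Qbar | z ^ (n * Nat.card H) = 1}.Finite := by
    refine (Polynomial.nthRoots (n * Nat.card H) (1 : Qbar)).finite_toSet.subset fun z hz => ?_
    exact (Polynomial.mem_nthRoots hm).2 hz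
  have := hfin.to_subtype
  refine Finite.of_injective (fun e : π.ker =>
    (⟨c e, hc1 e⟩ : {z : Qbar | z ^ (n * Nat.card H) = 1})) fun e e' h => ?_
  have h1 : c e = c e' := congrArg Subtype.val h
  refine Subtype.ext (Subtype.ext (Prod.ext ?_ (Units.ext ?_)))
  · exact (e.2 : e.1.1.1 = 1).trans (e'.2 : e'.1.1.1 = 1).symm
  · rw [hc2, hc2, h1]

omit [Finite G] in
lemma zex_onto (hI : (fun x => (ρ x).trace) ∈ GM.Irr H) (hn : 0 < n) {y : G} (hy : y ∈ T)
    (hf : ∀ x x', y * κ x * y⁻¹ = κ x' → (ρ x').trace = (ρ x).trace) :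
    ∃ e : zexE κ hκ rng nrm ρ, e.1.1 = y := by
  have := Fintype.ofFinite H
  choose f hf' using fun x => (rng _).1 (nrm y hy (κ x) ((rng _).2 ⟨x, rfl⟩))
  let φ : H →* H := MonoidHom.mk' f fun a b => hκ (by
    rw [map_mul, hf', hf', hf', map_mul]; group)
  obtain ⟨U, hU⟩ := (GM.A_hb H).sim n ρ (ρ.comp φ) hI fun x => hf x (f x) (hf' x).symm
  obtain ⟨d, hd⟩ := IsAlgClosed.exists_pow_nat_eq U.val.det hn
  have hU0 : U.val.det ≠ 0 := ((Matrix.isUnit_iff_isUnit_det _).1 U.isUnit).ne_zero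
  have hd0 : d ≠ 0 := by
    rintro rfl
    rw [zero_pow hn.ne'] at hd
    exact hU0 hd.symm
  have h1 : (d⁻¹ • U.val).det = 1 := by
    rw [Matrix.det_smul, Fintype.card_fin, inv_pow, hd, inv_mul_cancel₀ hU0]
  have h2 : IsUnit (d⁻¹ • U.val) := (Matrix.isUnit_iff_isUnit_det _).2 (h1 ▸ isUnit_one)
  refine ⟨⟨(y, h2.unit), hy, fun x x' hx => ?_, ?_⟩, rfl⟩
  · obtain rfl : x' = f x := hκ (by rw [hf', ← hx])
    have h3 : ρ (f x) = U.val * ρ x * U.inv := hU x
    simp only [IsUnit.unit_spec]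
    rw [h3, smul_mul_assoc, mul_smul_comm, mul_assoc (U.val * ρ x), U.inv_val, mul_one]
  · simp only [IsUnit.unit_spec]
    rw [h1, one_pow]

variable (κ hκ rng nrm ρ) in
/-- the copy of the normal subgroup in the group of pairs. -/
noncomputable def zexI (le : N ≤ T) : H →* zexE κ hκ rng nrm ρ :=
  (κ.prod ρ.toHomUnits).codRestrict _ fun x => ⟨le ((rng _).2 ⟨x, rfl⟩), fun z z' hz => by
    obtain rfl : z' = x * z * x⁻¹ := hκ (by rw [← hz]; simp)
    simp [← map_mul], by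
    change (ρ x).det ^ Nat.card H = 1
    rw [← Matrix.det_pow, ← map_pow, pow_card_eq_one', map_one, Matrix.det_one]⟩

end pairs

omit [Finite H] [Finite G] in
lemma zex_irr {n : ℕ} (τ : Representation Qbar H (Fin n → Qbar)) (hτ : τ.IsIrreducible)
    (ι : H →* G) (ρ : G →* Matrix (Fin n) (Fin n) Qbar)
    (h : ∀ x, Matrix.toLin' (ρ (ι x)) = τ x) : IsIrr n fun g => (ρ g).trace := by
  let ρ' : Representation Qbar G (Fin n → Qbar) :=
    ((Matrix.toLinAlgEquiv' : Matrix (Fin n) (Fin n) Qbar ≃ₐ[Qbar] _) : _ →* _).comp ρ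
  have hρ : ∀ g, ρ' g = Matrix.toLin' (ρ g) := fun g => rfl
  have := nontrivial_of_irr τ hτ
  refine ⟨ρ', { toNontrivial := ⟨⊥, ⊤, fun h2 => ?_⟩, eq_bot_or_eq_top := fun W => ?_ }, ?_⟩
  · have : (⊥ : Submodule Qbar (Fin n → Qbar)) = ⊤ := congrArg Subrepresentation.toSubmodule h2
    exact bot_ne_top this
  · rcases inv_eq_bot_or_top τ hτ W.toSubmodule (fun x v hv => by
      rw [← h, ← hρ]
      exact W.apply_mem_toSubmodule _ hv) with h1 | h1
    · exact Or.inl (Subrepresentation.toSubmodule_injective h1)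
    · exact Or.inr (Subrepresentation.toSubmodule_injective h1)
  · funext g
    unfold Representation.character
    rw [hρ, Matrix.trace_toLin'_eq]

/-- a projective representation over the maximal abelian extension associated with an
irreducible character exists. -/
theorem ex_assoc (κ : H →* G) (hκ : Function.Injective κ) {N T : Subgroup G}
    (rng : ∀ g, g ∈ N ↔ ∃ x, κ x = g) (le : N ≤ T) (nrm : ∀ t ∈ T, ∀ g ∈ N, t * g * t⁻¹ ∈ N)
    {ψ : G → Qbar} {θ : H → Qbar} (val : ∀ x, ψ (κ x) = θ x) {n : ℕ} (irr : IsIrr n θ) :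
    ∃ (P : G → Matrix (Fin n) (Fin n) Qbar) (α : G → G → Qbar), Assoc N T ψ P α := by
  have hn := irr.pos
  obtain ⟨τ, hτ, hθ⟩ := irr
  let ρ : H →* Matrix (Fin n) (Fin n) Qbar :=
    ((LinearMap.toMatrixAlgEquiv' : _ ≃ₐ[Qbar] Matrix (Fin n) (Fin n) Qbar) : _ →* _).comp τ
  have hρ : ∀ x, Matrix.toLin' (ρ x) = τ x := fun x => Matrix.toLin'_toMatrix' (τ x)
  have htr : ∀ x, (ρ x).trace = θ x := fun x => by
    rw [hθ, ← Matrix.trace_toLin'_eq, hρ]; rfl
  have hI : (fun x => (ρ x).trace) ∈ GM.Irr H := ⟨n, τ, hτ, (funext htr).trans hθ⟩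
  have : Finite (zexE κ hκ rng nrm ρ) := zex_fin hI hn
  have := Fintype.ofFinite (zexE κ hκ rng nrm ρ)
  let π : zexE κ hκ rng nrm ρ →* G := (MonoidHom.fst _ _).comp (Subgroup.subtype _)
  let β : zexE κ hκ rng nrm ρ →* Matrix (Fin n) (Fin n) Qbar :=
    (Units.coeHom _).comp ((MonoidHom.snd _ _).comp (Subgroup.subtype _))
  let ι := zexI κ hκ rng nrm ρ le
  have hβ : IsIrr n fun e => (β e).trace := zex_irr τ hτ ι β hρ
  obtain ⟨Q, hQ1, hQ2⟩ := GM.A_hbr _ n _ hβ
  obtain ⟨U, hU⟩ := (GM.A_hb _).sim n β Q ⟨n, hβ⟩ hQ1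
  obtain ⟨s, hs1, hs2, hs3⟩ := zex_sec π ι κ hκ fun _ => rfl
  have hs0 : ∀ x, s (κ x) = ι x := fun x => by simpa [hs1] using hs3 x 1
  have hc : ∀ e, ∃ c : Qbar, π e = 1 → c ^ (n * Nat.card H) = 1 ∧ Q e = c • 1 := fun e => by
    by_cases he : π e = 1
    · obtain ⟨c, h1, h2⟩ := zex_ker hI e he
      refine ⟨c, fun _ => ⟨h1, ?_⟩⟩
      have h3 : β e = c • 1 := h2
      rw [hU, h3, mul_smul_comm, smul_mul_assoc, mul_one, U.val_inv]
    · exact ⟨0, fun h => absurd h he⟩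
  choose c hc using hc
  have hS : ∀ y ∈ T, Fix N ψ y 1 → y ∈ π.range := fun y hy hf =>
    zex_onto hI hn hy fun x x' hx => by
      have := hf (κ x) ((rng _).2 ⟨x, rfl⟩)
      rw [hx, val, val] at this
      rw [htr, htr]
      exact this
  refine ⟨fun y => Q (s y), fun x y => c (s x * s y * (s (x * y))⁻¹), fun g hg => ?_,
    fun x hx hf => ⟨(Group.isUnit _).map Q, hQ2 _, fun g hg => ?_, fun y hy hf' => ?_⟩⟩
  · obtain ⟨x, rfl⟩ := (rng _).1 hg
    dsimp only
    rw [hs0, hQ1, val, ← htr]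
    rfl
  · obtain ⟨z, rfl⟩ := (rng _).1 hg
    refine ⟨by simp only [hs3, hs0, map_mul], ?_⟩
    obtain ⟨z', hz⟩ := (rng _).1 (nrm x hx (κ z) hg)
    have h1 : (s x).1.1 = x := hs2 x (hS x hx hf)
    have h2 : s x * ι z = ι z' * s x := by
      refine Subtype.ext (Prod.ext ?_ (Units.ext ?_))
      · change (s x).1.1 * κ z = κ z' * (s x).1.1
        rw [h1, hz]; group
      · exact (s x).2.2.1 z z' (by rw [h1, hz])
    have h3 : x * κ z = κ z' * x := by rw [hz]; group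
    simp only [h3, hs3, hs0, ← map_mul, h2]
  · have h1 := hS x hx hf
    have h2 := hS y hy hf'
    obtain ⟨h3, h4⟩ := hc (s x * s y * (s (x * y))⁻¹) (by
      rw [map_mul, map_mul, map_inv, hs2 _ h1, hs2 _ h2, hs2 _ (mul_mem h1 h2), mul_inv_cancel])
    refine ⟨?_, _, Nat.mul_pos hn Nat.card_pos, h3⟩
    dsimp only
    rw [← map_mul, ← one_mul (Q (s (x * y))), ← smul_mul_assoc, ← h4, ← map_mul,
      inv_mul_cancel_right]

end Pool.Agent.Lib.MP_1ae3da_al.CT.Z
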