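import Pool.Agent.Lib.MP_1ae3da_al.Z.Ln
import Pool.Agent.Lib.MP_1ae3da_al.C.AFin

/-! The bijection of characters. -/

namespace Pool.Agent.Lib.MP_1ae3da_al.CT.Z

open Submodule NSV

theorem zOm_nrm {X : Type} [Group X] (D : Subgroup X) (δ : MulAut X)
    (h : ∀ x, δ x ∈ D ↔ x ∈ D) (x : X) :
    δ x ∈ Subgroup.normalizer (D : Set X) ↔ x ∈ Subgroup.normalizer (D : Set X) := by
  simp only [Subgroup.mem_normalizer_iff]
  rw [δ.surjective.forall]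
  refine forall_congr' fun y => ?_
  rw [← map_inv, ← map_mul, ← map_mul, h, h]

variable {p : ℕ} {F X : Type} [Field F] [IsAlgClosed F] [CharZero F] [Group X] [Fintype X]
  {GG : Subgroup (RingAut F)} {D : Subgroup X} [Fintype (Subgroup.normalizer (D : Set X))]

/-- an equivariant bijection of blocks gives an equivariant bijection of characters. -/
theorem om_of (hp : p.Prime) (j : Qbar →+* F)
    (hj : ∀ σ ∈ GG, ∃ s ∈ NSV.H p, ∀ x, σ (j x) = j (s x))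
    (hj' : ∀ s ∈ NSV.H p, ∃ σ ∈ GG, ∀ x ∈ Qab, σ (j x) = j (s x))
    {W : MonoidAlgebra F X → MonoidAlgebra F X}
    (hW : EqB (Ga GG D) (IrrP F p (Hm F (gu F X) ⊤))
      (IrrP F p (Hm F (gu F X) (Subgroup.normalizer (D : Set X)))) W) :
    ∃ Ω : NSV.IrrP p X ≃ NSV.IrrP p (Subgroup.normalizer (D : Set X)),
      (∀ θ : NSV.IrrP p X, chi j (gs F _) (Ω θ).1 = W (chi j (gu F X) θ.1)) ∧
      ∀ γ : MulAut X, (∀ x, γ x ∈ D ↔ x ∈ D) → ∀ σ ∈ NSV.H p, ∀ θ θ' : NSV.IrrP p X,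
        (∀ x, θ'.1 x = σ (θ.1 (γ x))) → ∀ m m' : Subgroup.normalizer (D : Set X),
          (m' : X) = γ m → (Ω θ').1 m = σ ((Ω θ).1 m') := by
  obtain ⟨hb, he⟩ := hW
  have b1 := chi_bij j (gu_mul (F := F) (X := X)) gu_tg.ind hp
  have b2 := chi_bij j (gs_mul (F := F) (Subgroup.normalizer (D : Set X))) (gs_ind _) hp
  rw [← gs_hm] at b2
  let f : NSV.IrrP p X ≃ NSV.IrrP p (Subgroup.normalizer (D : Set X)) :=
    (b1.equiv _).trans ((hb.equiv _).trans (b2.equiv _).symm)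
  have hf : ∀ θ : NSV.IrrP p X, chi j (gs F _) (f θ).1 = W (chi j (gu F X) θ.1) := fun θ =>
    congrArg Subtype.val ((b2.equiv _).apply_symm_apply _)
  refine ⟨f, hf, fun γ hγ s hs θ θ' hθ m m' hm => ?_⟩
  obtain ⟨σ, hσ, e1⟩ := hj' s hs
  obtain ⟨s', -, e2⟩ := hj σ hσ
  have e3 : ∀ ξ : Qbar, ξ ^ Nat.card X = 1 → s' ξ = s ξ := fun ξ hξ =>
    j.injective ((e2 ξ).symm.trans (e1 ξ (Subfield.subset_closure ⟨_, Nat.card_pos, hξ⟩)))
  obtain ⟨g, hg, hgu⟩ := ga_aut (F := F) σ γ⁻¹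
  have hP : ∀ x, γ⁻¹ x ∈ D ↔ x ∈ D := fun x => by
    have := hγ (γ⁻¹ x)
    rw [MulAut.apply_inv_self] at this
    exact this.symm
  have hNN := zOm_nrm D γ⁻¹ hP
  have hgm : g ∈ Ga GG D := ⟨⟨σ, hσ, hg⟩, γ⁻¹, hgu, hP⟩
  obtain ⟨n, hn, -⟩ := ch_iff.1 θ.2
  obtain ⟨n', hn', -⟩ := ch_iff.1 (f θ).2
  obtain ⟨n'', hn'', -⟩ := ch_iff.1 (f θ').2
  have e4 : g (chi j (gu F X) θ.1) = chi j (gu F X) θ'.1 :=
    chi_map j (s := s) hg γ⁻¹ hgu (fun x => by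
      rw [e2, ch_gal hn s' s Nat.card_pos (fun _ => pow_card_eq_one') e3]) fun x => by
      rw [hθ, MulAut.apply_inv_self]
  let β := resA _ γ⁻¹ hNN
  have hψ := ch_tw (f θ).2 s β.symm
  obtain ⟨n3, hn3, -⟩ := ch_iff.1 hψ
  have e5 : g (chi j (gs F (Subgroup.normalizer (D : Set X))) (f θ).1) =
      chi j (gs F (Subgroup.normalizer (D : Set X))) fun x => s ((f θ).1 (β.symm x)) :=
    chi_map j (s := s) hg β (fun x => hgu x) (fun x => by
      rw [e2, ch_gal hn' s' s Nat.card_pos (fun x => Subtype.ext pow_card_eq_one') e3]) fun x => by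
      rw [β.symm_apply_apply]
  have e6 : (f θ').1 = fun x => s ((f θ).1 (β.symm x)) := by
    refine chi_inj j (gs_ind (F := F) (Subgroup.normalizer (D : Set X))) hn'' hn3 ?_
    refine (hf θ').trans (Eq.trans ?_ e5)
    refine (congrArg W e4.symm).trans ((he g hgm _ (b1.mapsTo θ.2)).2.trans ?_)
    exact congrArg g (hf θ).symm
  have e7 : β.symm m = m' := Subtype.ext hm.symm
  rw [e6, ← e7]

end Pool.Agent.Lib.MP_1ae3da_al.CT.Z
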