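import Pool.Agent.Lib.MP_1ae3da_al.Z.St
import Pool.Agent.Lib.MP_1ae3da_al.Z.Br
import Pool.Agent.Lib.MP_1ae3da_al.Z.Ex
import Pool.Agent.Lib.MP_1ae3da_al.Z.Om

/-! From the linked bijection to the inductive condition. -/

namespace Pool.Agent.Lib.MP_1ae3da_al.CT.Z

open Submodule NSV

variable {p : ℕ} {F X : Type} [Field F] [IsAlgClosed F] [CharZero F] [Group X] [Finite X]
  {GG : Subgroup (RingAut F)} {R D : Subgroup X}

/-- an automorphism that stabilises `D` stabilises its normaliser. -/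
theorem zFin_nrm {Y : Type} [Group Y] (E : Subgroup Y) (δ : MulAut Y)
    (h : ∀ x, δ x ∈ E ↔ x ∈ E) (x : Y) :
    δ x ∈ Subgroup.normalizer (E : Set Y) ↔ x ∈ Subgroup.normalizer (E : Set Y) := by
  simp only [Subgroup.mem_normalizer_iff]
  constructor
  · intro k y
    rw [← h y, k (δ y), ← map_inv, ← map_mul, ← map_mul, h]
  · intro k y
    obtain ⟨y, rfl⟩ := δ.surjective y
    rw [← map_inv, ← map_mul, ← map_mul, h, h]
    exact k y

/-- the automorphism induced by an element of the semidirect product. -/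
theorem zFin_cj {Y : Type} [Group Y] {Λ : Subgroup (MulAut Y)} (g : Y ⋊[Λ.subtype] Λ) (x : Y) :
    g * SemidirectProduct.inl x =
      SemidirectProduct.inl ((MulAut.conj g.left * (g.right : MulAut Y)) x) * g := by
  ext
  · simp
  · simp

theorem ind_of_lk (hp : p.Prime) (j : Qbar →+* F)
    (hj : ∀ σ ∈ GG, ∃ s ∈ NSV.H p, ∀ x, σ (j x) = j (s x))
    (hj' : ∀ s ∈ NSV.H p, ∃ σ ∈ GG, ∀ x ∈ Qab, σ (j x) = j (s x)) (hDR : D ≤ R)
    (hst : ∀ γ : MulAut X, (∀ x, γ x ∈ R ↔ x ∈ R) → ∀ x, γ x ∈ D ↔ x ∈ D)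
    (hne : Subgroup.normalizer (D : Set X) ≠ ⊤)
    (h : LK F (Ga GG D) (Hm F (gu F X) ⊤) (Hm F (gu F X) (Subgroup.normalizer (D : Set X)))
      (IrrP F p (Hm F (gu F X) ⊤))
      (IrrP F p (Hm F (gu F X) (Subgroup.normalizer (D : Set X))))) :
    IndN p X R (Subgroup.normalizer (D : Set X)) := by
  classical
  have _ := Fintype.ofFinite X
  set N : Subgroup X := Subgroup.normalizer (D : Set X) with hN
  have _ := Fintype.ofFinite N
  obtain ⟨W, hW, hL⟩ := h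
  obtain ⟨Ω, hΩ, hE⟩ := om_of hp j hj hj' hW
  have b1 := chi_bij j (gu_mul (F := F) (X := X)) gu_tg.ind hp
  refine ⟨hne, fun x hx => ?_, fun γ hγ => zFin_nrm D γ (hst γ hγ), Ω,
    fun γ hγ => hE γ (hst γ hγ), fun θ => ?_⟩
  · have := hst (MulAut.conj x) fun y => (Subgroup.mem_normalizer_iff.1 hx y).symm
    exact Subgroup.mem_normalizer_iff.2 fun y => (this y).symm
  have hD : ∀ β : Gam p R θ.1, ∀ x, (β : MulAut X) x ∈ D ↔ x ∈ D := fun β => hst β β.2.1
  have hT : ∀ g : X ⋊[(Gam p R θ.1).subtype] Gam p R θ.1,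
      g ∈ Subgroup.closure {g : X ⋊[(Gam p R θ.1).subtype] Gam p R θ.1 | g.left ∈ N} ↔
        g.left ∈ N := by
    intro g
    refine ⟨fun k => ?_, fun k => Subgroup.subset_closure k⟩
    induction k using Subgroup.closure_induction with
    | mem x hx => exact hx
    | one => exact one_mem _
    | mul x y _ _ hx hy => exact mul_mem hx ((zFin_nrm D _ (hD x.right) _).2 hy)
    | inv x _ hx => exact (zFin_nrm D _ (hD x.right⁻¹) _).2 (inv_mem hx)
  generalize Subgroup.closure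
    {g : X ⋊[(Gam p R θ.1).subtype] Gam p R θ.1 | g.left ∈ N} = T at hT ⊢
  have fG : Finite (X ⋊[(Gam p R θ.1).subtype] Gam p R θ.1) :=
    Finite.of_equiv _ SemidirectProduct.equivProd.symm
  have nG : (SemidirectProduct.inl : X →* X ⋊[(Gam p R θ.1).subtype] Gam p R θ.1).range.Normal := by
    rw [SemidirectProduct.range_inl_eq_ker_rightHom]
    infer_instance
  let δ : X ⋊[(Gam p R θ.1).subtype] Gam p R θ.1 → MulAut X :=
    fun g => MulAut.conj g.left * (g.right : MulAut X)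
  have cj : ∀ g x, g * SemidirectProduct.inl x * g⁻¹ = SemidirectProduct.inl (δ g x) :=
    fun g x => by rw [zFin_cj, mul_inv_cancel_right]
  have δD : ∀ g ∈ T, ∀ x, δ g x ∈ D ↔ x ∈ D := fun g hg x =>
    (Subgroup.mem_normalizer_iff.1 ((hT g).1 hg) _).symm.trans (hD g.right x)
  have δN : ∀ g ∈ T, ∀ x, δ g x ∈ N ↔ x ∈ N := fun g hg => zFin_nrm D _ (δD g hg)
  have rng : ∀ g, g ∈ SemidirectProduct.inl.range ⊓ T ↔
      ∃ x : N, (SemidirectProduct.inl.comp N.subtype) x = g := fun g =>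
    ⟨fun ⟨⟨x, e⟩, k⟩ => ⟨⟨x, by subst e; exact (hT _).1 k⟩, e⟩,
      fun ⟨x, e⟩ => ⟨⟨x, e⟩, by subst e; exact (hT _).2 x.2⟩⟩
  have val : ∀ x : N, Function.extend Subtype.val (Ω θ).1 0 (x : X) = (Ω θ).1 x :=
    fun x => Subtype.val_injective.extend_apply _ _ x
  have f1 : ∀ g s, Fix SemidirectProduct.inl.range
      (fun g : X ⋊[(Gam p R θ.1).subtype] Gam p R θ.1 => θ.1 g.left) g s ↔
      ∀ x, s (θ.1 (δ g x)) = θ.1 x := fun g s =>
    ⟨fun k x => by
      have := k _ ⟨x, rfl⟩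
      rw [cj] at this
      exact this, fun k => by
      rintro _ ⟨x, rfl⟩
      rw [cj]
      exact k x⟩
  have f2 : ∀ g (hg : g ∈ T) s, Fix (SemidirectProduct.inl.range ⊓ T)
      (fun g : X ⋊[(Gam p R θ.1).subtype] Gam p R θ.1 =>
        Function.extend Subtype.val (Ω θ).1 0 g.left) g s ↔
      ∀ m : N, s ((Ω θ).1 (resA N (δ g) (δN g hg) m)) = (Ω θ).1 m := fun g hg s =>
    ⟨fun k m => by
      have := k _ ((rng _).2 ⟨m, rfl⟩)
      rw [MonoidHom.comp_apply, cj] at this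
      rw [← val, ← val]
      exact this, fun k n hn => by
      obtain ⟨m, rfl⟩ := (rng n).1 hn
      have := k m
      rw [← val, ← val] at this
      rw [MonoidHom.comp_apply, cj]
      exact this⟩
  have hfx : ∀ g ∈ T, ∀ s ∈ NSV.H p, Fix SemidirectProduct.inl.range
      (fun g : X ⋊[(Gam p R θ.1).subtype] Gam p R θ.1 => θ.1 g.left) g s ↔
      Fix (SemidirectProduct.inl.range ⊓ T)
        (fun g : X ⋊[(Gam p R θ.1).subtype] Gam p R θ.1 =>
          Function.extend Subtype.val (Ω θ).1 0 g.left) g s := by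
    intro g hg s hs
    rw [f1, f2 g hg]
    let θ' : NSV.IrrP p X := ⟨_, ch_tw θ.2 s (δ g)⟩
    have e : ∀ m : N, (Ω θ').1 m = s ((Ω θ).1 (resA N (δ g) (δN g hg) m)) := fun m =>
      hE (δ g) (δD g hg) s hs θ θ' (fun _ => rfl) m _ rfl
    constructor
    · intro k m
      have e2 : θ' = θ := Subtype.ext (funext k)
      rw [← e, e2]
    · intro k x
      have e2 : θ' = θ := Ω.injective (Subtype.ext (funext fun m => (e m).trans (k m)))
      exact congrFun (congrArg Subtype.val e2) x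
  obtain ⟨n, hn, -⟩ := ch_iff.1 θ.2
  obtain ⟨n', hn', -⟩ := ch_iff.1 (Ω θ).2
  have hf1 : ∀ g, ∃ s ∈ NSV.H p, Fix SemidirectProduct.inl.range
      (fun g : X ⋊[(Gam p R θ.1).subtype] Gam p R θ.1 => θ.1 g.left) g s := by
    intro g
    obtain ⟨-, s, hs, k⟩ := g.right.2
    refine ⟨s⁻¹, inv_mem hs, (f1 g _).2 fun x => ?_⟩
    have e : θ.1 (δ g x) = s (θ.1 x) := (ch_cl hn _ g.left).trans (k x)
    rw [e]
    exact s.symm_apply_apply _
  have hcT : Subgroup.centralizer ((SemidirectProduct.inl.range :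
      Subgroup (X ⋊[(Gam p R θ.1).subtype] Gam p R θ.1)) : Set _) ≤ T := by
    intro c hc
    rw [hT]
    have e : ∀ x, δ c x = x := fun x => SemidirectProduct.inl_injective (by
      rw [← cj, ← Subgroup.mem_centralizer_iff.1 hc _ ⟨x, rfl⟩, mul_inv_cancel_right])
    refine Subgroup.mem_normalizer_iff.2 fun y => ?_
    obtain ⟨y, rfl⟩ := (c.right : MulAut X).surjective y
    refine (hD c.right y).trans ?_
    exact iff_of_eq (congrArg (· ∈ D) (e y).symm)
  obtain ⟨P, α, hA⟩ := ex_assoc (N := SemidirectProduct.inl.range) (T := ⊤)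
    (SemidirectProduct.inl : X →* X ⋊[(Gam p R θ.1).subtype] Gam p R θ.1)
    SemidirectProduct.inl_injective (fun _ => Iff.rfl) le_top
    (fun t _ g hg => nG.conj_mem g hg t) (ψ := fun g => θ.1 g.left) (fun _ => rfl) hn
  obtain ⟨P0, α0, hA0⟩ := ex_assoc (N := SemidirectProduct.inl.range ⊓ T) (T := T)
    ((SemidirectProduct.inl : X →* X ⋊[(Gam p R θ.1).subtype] Gam p R θ.1).comp N.subtype)
    (SemidirectProduct.inl_injective.comp Subtype.val_injective) rng inf_le_right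
    (fun t ht g hg => ⟨nG.conj_mem g hg.1 t, T.mul_mem (T.mul_mem ht hg.2) (T.inv_mem ht)⟩)
    (ψ := fun g => Function.extend Subtype.val (Ω θ).1 0 g.left) val hn'
  obtain ⟨U, hU⟩ := hL _ (b1.mapsTo θ.2)
  rw [← hΩ] at hU
  obtain ⟨P', k1, k2, k3⟩ := br_core j hj hj' SemidirectProduct.inl
    SemidirectProduct.inl_injective hcT (Γ := Ga GG D) (N := N)
    (fun γ ⟨⟨σ, _, a1⟩, β, a2, a3⟩ => ⟨(ga_stb a1 a2 ⊤).2 fun _ => Iff.rfl,
      (ga_stb a1 a2 N).2 (zFin_nrm D β a3)⟩)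
    (fun y hy σ hσ => by
      obtain ⟨γ, a1, a2⟩ := ga_aut (F := F) σ (δ y)
      exact ⟨γ, ⟨⟨σ, hσ, a1⟩, δ y, a2, δD y hy⟩, a1, δ y, a2, zFin_cj y, δN y hy⟩)
    ⟨gu_mul, gu_tg.ind, fun _ => Iff.rfl, le_top, fun _ => rfl, ⟨n, hn⟩, hA⟩
    ⟨gs_mul N, gs_ind N, rng, inf_le_right, val, ⟨n', hn'⟩, hA0⟩ hfx hU
  refine ⟨hf1, fun g hg => ?_, ?_, hcT, hfx, n, n', P, P', α, α, hA, k1,
    fun _ _ _ _ _ _ => rfl, k2, k3⟩
  · obtain ⟨s, hs, k⟩ := hf1 g
    exact ⟨s, hs, (hfx g hg s hs).1 k⟩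
  · rw [eq_top_iff]
    intro g _
    rw [← SemidirectProduct.inl_left_mul_inr_right g]
    exact Subgroup.mul_mem_sup ⟨_, rfl⟩ ((hT _).2 (one_mem _))

end Pool.Agent.Lib.MP_1ae3da_al.CT.Z
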