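import Pool.Agent.Lib.MP_1ae3da_al.Z.Df

/-! Coprime action: fixed points, double cosets, orbit sums. -/

namespace Pool.Agent.Lib.MP_1ae3da_al.CT.Z

open Submodule

variable {p c : ℕ} {X : Type} [Group X] [Finite X] {U D : Subgroup X}

theorem Pg.fix (h : Pg p c U D) {u : X} (hu : u ∈ U) (hc : ∀ d ∈ D, d * u = u * d) : u = 1 := by
  by_contra hne
  have h1 := h.orb u hu hne
  rw [Subgroup.relIndex_eq_one.2 fun d hd => Subgroup.mem_centralizer_singleton_iff.2 (hc d hd),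
    Nat.dvd_one] at h1
  exact (Nat.one_lt_pow h.pos.ne' h.prime.one_lt).ne' h1

/-- hint: `D` acts by conjugation on the coset `u V`, whose size is prime to `p`
(`IsPGroup.nonempty_fixed_point_of_prime_not_dvd_card`); a fixed point is `1` by `Pg.fix`. -/
theorem Pg.cos (h : Pg p c U D) {V : Subgroup X} (hV : V ≤ U)
    (hn : D ≤ Subgroup.normalizer (V : Set X)) {u : X} (hu : u ∈ U)
    (hs : ∀ d ∈ D, u⁻¹ * (d * u * d⁻¹) ∈ V) : u ∈ V := by
  have := Fact.mk h.prime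
  let _ : MulAction D {x : X // u⁻¹ * x ∈ V} :=
    { smul := fun d x => ⟨d * x * (d : X)⁻¹, by
        have := mul_mem (hs d d.2) ((Subgroup.mem_normalizer_iff.1 (hn d.2) _).1 x.2)
        rwa [show u⁻¹ * (d * u * (d : X)⁻¹) * (d * (u⁻¹ * x) * (d : X)⁻¹) =
          u⁻¹ * (d * x * (d : X)⁻¹) by group] at this⟩
      one_smul := fun x => Subtype.ext (show ((1 : D) : X) * x * ((1 : D) : X)⁻¹ = x by simp)
      mul_smul := fun a b x => Subtype.ext (show ((a * b : D) : X) * x * ((a * b : D) : X)⁻¹ =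
        a * (b * x * (b : X)⁻¹) * (a : X)⁻¹ by push_cast; group) }
  have e : {x : X // u⁻¹ * x ∈ V} ≃ V :=
    ⟨fun x => ⟨u⁻¹ * x, x.2⟩, fun v => ⟨u * v, by simp⟩, fun x => by simp, fun v => by simp⟩
  obtain ⟨x, hx⟩ := h.pD.nonempty_fixed_point_of_prime_not_dvd_card {x : X // u⁻¹ * x ∈ V} (by
    rw [Nat.card_congr e]
    exact fun k => h.pU (k.trans (Subgroup.card_dvd_of_le hV)))
  have x1 : (x : X) = 1 := h.fix (by simpa using mul_mem hu (hV x.2)) fun d hd => by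
    have : d * x * d⁻¹ = x := congrArg Subtype.val (hx ⟨d, hd⟩)
    rwa [mul_inv_eq_iff_eq_mul] at this
  have := x.2
  rwa [x1, mul_one, inv_mem_iff] at this

omit [Finite X] in
theorem zGp_one (h : Pg p c U D) {e : X} (he : e ∈ D) {k : ℕ} (hk : ¬ p ∣ k) (h1 : e ^ k = 1) :
    e = 1 := by
  obtain ⟨j, hj⟩ := h.pD ⟨e, he⟩
  have h2 : e ^ p ^ j = 1 := congrArg Subtype.val hj
  have h3 := Nat.dvd_gcd (orderOf_dvd_of_pow_eq_one h2) (orderOf_dvd_of_pow_eq_one h1)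
  rwa [(((Nat.Prime.coprime_iff_not_dvd h.prime).2 hk).pow_left j).gcd_eq_one, Nat.dvd_one,
    orderOf_eq_one_iff] at h3

omit [Finite X] in
theorem zGp_cop (h : Pg p c U D) {W : Subgroup X} (hW : D ≤ Subgroup.normalizer (W : Set X))
    {k : ℕ} (hk : ¬ p ∣ k) (hp : ∀ w ∈ W, w ^ k = 1) {e w : X} (he : e ∈ D) (hw : w ∈ W)
    (h1 : (e * w) ^ k = 1) : e = 1 := by
  have key : ∀ j : ℕ, (e ^ j)⁻¹ * (e * w) ^ j ∈ W := fun j => by
    induction j with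
    | zero => simp
    | succ j ih =>
      have := mul_mem ((Subgroup.mem_normalizer_iff''.1 (hW he) _).1 ih) hw
      rwa [show e⁻¹ * ((e ^ j)⁻¹ * (e * w) ^ j) * e * w = (e ^ j * e)⁻¹ * ((e * w) ^ j * (e * w)) by
        simp only [mul_inv_rev, mul_assoc], ← pow_succ, ← pow_succ] at this
  have h2 := key k
  rw [h1, mul_one, inv_mem_iff] at h2
  refine zGp_one h he (k := k * k) (fun hd => ?_) (by rw [pow_mul, hp _ h2])
  exact hk ((h.prime.dvd_mul.1 hd).elim id id)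

omit [Finite X] in
theorem zGp_conj (U : Subgroup X) (n : X) : ∃ W : Subgroup X, ∀ x, x ∈ W ↔ n⁻¹ * x * n ∈ U :=
  ⟨U.comap (MulAut.conj n⁻¹).toMonoidHom, fun x => by simp⟩

omit [Finite X] in
theorem zGp_nrm (h : Pg p c U D) {n : X} (hn : n ∈ Subgroup.normalizer (D : Set X))
    {W : Subgroup X} (hW : ∀ x, x ∈ W ↔ n⁻¹ * x * n ∈ U) :
    D ≤ Subgroup.normalizer (W : Set X) := fun d hd =>
  Subgroup.mem_normalizer_iff.2 fun x => by
    have := Subgroup.mem_normalizer_iff.1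
      (h.nrm ((Subgroup.mem_normalizer_iff''.1 hn d).1 hd)) (n⁻¹ * x * n)
    rw [hW, hW, this]
    exact iff_of_eq (congrArg (· ∈ U) (by group))

omit [Finite X] in
theorem zGp_inf {A B : Subgroup X} (hA : D ≤ Subgroup.normalizer (A : Set X))
    (hB : D ≤ Subgroup.normalizer (B : Set X)) :
    D ≤ Subgroup.normalizer ((A ⊓ B : Subgroup X) : Set X) := fun d hd =>
  Subgroup.mem_normalizer_iff.2 fun x => by
    rw [Subgroup.mem_inf, Subgroup.mem_inf, ← Subgroup.mem_normalizer_iff.1 (hA hd),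
      ← Subgroup.mem_normalizer_iff.1 (hB hd)]

/-- double cosets. Hint: for `d ∈ D` put `d1 = n⁻¹ d n`, `d2 = n'⁻¹ d n'`. The element
`n⁻¹ u⁻¹ d u n = v d2 v⁻¹` lies in `d1 (n⁻¹ U n)` and in `d2 U`; an element of `D (n⁻¹ U n)`
of order prime to `p` lies in `n⁻¹ U n`, so `d1 = d2`. Then `Pg.cos` with
`V = U ⊓ n U n⁻¹` gives `u ∈ V`, so `n⁻¹ n' ∈ U` centralises `D`. -/
theorem Pg.dc (h : Pg p c U D) {n n' u v : X} (hn : n ∈ Subgroup.normalizer (D : Set X))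
    (hn' : n' ∈ Subgroup.normalizer (D : Set X)) (hu : u ∈ U) (hv : v ∈ U)
    (e : u * n * v = n') : n = n' := by
  obtain ⟨W, hW⟩ := zGp_conj U n
  obtain ⟨W', hW'⟩ := zGp_conj U n⁻¹
  have pw : ∀ x ∈ U, x ^ Nat.card U = 1 := fun x hx =>
    congrArg Subtype.val (pow_card_eq_one' (x := (⟨x, hx⟩ : U)))
  have pw' : ∀ x ∈ W', x ^ Nat.card U = 1 := fun x hx => by
    have := pw _ ((hW' x).1 hx)
    rwa [inv_inv, conj_pow, conj_eq_one_iff] at this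
  have cm : ∀ d ∈ D, ∀ x ∈ U, d⁻¹ * x * d ∈ U := fun d hd x hx =>
    (Subgroup.mem_normalizer_iff''.1 (h.nrm hd) x).1 hx
  have key : ∀ d ∈ D, n⁻¹ * d * n = n'⁻¹ * d * n' ∧ n⁻¹ * (d⁻¹ * u⁻¹ * d * u) * n ∈ U := by
    intro d hd
    have d1 := (Subgroup.mem_normalizer_iff''.1 hn d).1 hd
    have d2 := (Subgroup.mem_normalizer_iff''.1 hn' d).1 hd
    have w2 := mul_mem (cm _ d2 v hv) (inv_mem hv)
    have w1 : n⁻¹ * (d⁻¹ * u⁻¹ * d * u) * n ∈ W' := by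
      rw [hW', show n⁻¹⁻¹ * (n⁻¹ * (d⁻¹ * u⁻¹ * d * u) * n) * n⁻¹ = d⁻¹ * u⁻¹ * d * u by group]
      exact mul_mem (cm d hd _ (inv_mem hu)) hu
    have eq : (n'⁻¹ * d * n')⁻¹ * v * (n'⁻¹ * d * n') * v⁻¹ =
        (n'⁻¹ * d * n')⁻¹ * (n⁻¹ * d * n) * (n⁻¹ * (d⁻¹ * u⁻¹ * d * u) * n) := by
      rw [← e]; group
    have e1 := zGp_cop h (zGp_nrm h (inv_mem hn) hW') h.pU pw' (mul_mem (inv_mem d2) d1) w1
      (eq ▸ pw _ w2)
    rw [eq, e1, one_mul] at w2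
    exact ⟨(inv_mul_eq_one.1 e1).symm, w2⟩
  have uW := h.cos (V := U ⊓ W) inf_le_left (zGp_inf h.nrm (zGp_nrm h hn hW)) hu fun d hd => by
    refine Subgroup.mem_inf.2
      ⟨mul_mem (inv_mem hu) ((Subgroup.mem_normalizer_iff.1 (h.nrm hd) u).1 hu), ?_⟩
    have := inv_mem ((hW _).2 (key d⁻¹ (inv_mem hd)).2)
    rwa [show (d⁻¹⁻¹ * u⁻¹ * d⁻¹ * u)⁻¹ = u⁻¹ * (d * u * d⁻¹) by group] at this
  have m : n⁻¹ * n' ∈ U := by
    have := mul_mem ((hW u).1 uW.2) hv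
    rwa [show n⁻¹ * u * n * v = n⁻¹ * (u * n * v) by group, e] at this
  refine inv_mul_eq_one.1 (h.fix m fun d hd => ?_)
  have := (key _ ((Subgroup.mem_normalizer_iff.1 hn d).1 hd)).1
  calc d * (n⁻¹ * n') = n⁻¹ * n' * (n'⁻¹ * (n * d * n⁻¹) * n') := by group
    _ = n⁻¹ * n' * d := by rw [← this]; group

/-- hint: `g = u n v` from `aut` and `bru`; `D` normalises `δ U = u n U n⁻¹ u⁻¹`; `Pg.cos` with
`V = U ⊓ normalizer (n U n⁻¹)`. -/
theorem Pg.cnj (h : Pg p c U D) (δ : MulAut X) (hδ : ∀ x, δ x ∈ D ↔ x ∈ D) :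
    ∃ n ∈ Subgroup.normalizer (D : Set X), ∀ x, n⁻¹ * δ x * n ∈ U ↔ x ∈ U := by
  obtain ⟨g, hg⟩ := h.aut δ hδ
  obtain ⟨u, hu, n, hn, v, hv, rfl⟩ := h.bru g
  obtain ⟨W, hW⟩ := zGp_conj U n
  have nW := zGp_nrm h hn hW
  have k1 : ∀ x, u⁻¹ * δ x * u ∈ W ↔ x ∈ U := fun x => by
    rw [hW, ← hg x, Subgroup.mem_normalizer_iff''.1 (Subgroup.le_normalizer hv)]
    exact iff_of_eq (congrArg (· ∈ U) (by group))
  have k2 : ∀ d ∈ D, u⁻¹ * d * u ∈ Subgroup.normalizer (W : Set X) := fun d hd =>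
    Subgroup.mem_normalizer_iff.2 fun x => by
      obtain ⟨d, rfl⟩ := δ.surjective d
      obtain ⟨y, hy⟩ := δ.surjective (u * x * u⁻¹)
      have e : x = u⁻¹ * δ y * u := by rw [hy]; group
      rw [e, k1, Subgroup.mem_normalizer_iff.1 (h.nrm ((hδ d).1 hd)), ← k1]
      refine iff_of_eq (congrArg (· ∈ W) ?_)
      rw [map_mul, map_mul, map_inv]
      group
  have uW := h.cos (V := U ⊓ Subgroup.normalizer (W : Set X)) inf_le_left
    (zGp_inf h.nrm (nW.trans Subgroup.le_normalizer)) hu fun d hd => by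
      refine Subgroup.mem_inf.2
        ⟨mul_mem (inv_mem hu) ((Subgroup.mem_normalizer_iff.1 (h.nrm hd) u).1 hu), ?_⟩
      have := mul_mem (k2 d hd) (inv_mem (nW hd))
      rwa [show u⁻¹ * d * u * d⁻¹ = u⁻¹ * (d * u * d⁻¹) by group] at this
  exact ⟨n, hn, fun x => by rw [← hW, ← k1, ← Subgroup.mem_normalizer_iff''.1 uW.2]⟩

end Pool.Agent.Lib.MP_1ae3da_al.CT.Z
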