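import Pool.Agent.Lib.MP_1ae3da_al.Z.Lat

/-! One step of the averaging: an approximate homomorphism is improved. -/

namespace Pool.Agent.Lib.MP_1ae3da_al.CT.Z

open Submodule

variable {F A N : Type} [Field F] [Ring A] [Algebra F A] [Group N] [Fintype N] {p c w m : ℕ}
  {Λ : AddSubgroup A} {D : Subgroup N} {θ : N → A}

/-- the average of a function that is invariant under `D` loses only the `p`-part of the index. -/
theorem kz_avg [CharZero F] (hp : p ≠ 0) (h : Ltt F p Λ) (hi : D.index = p ^ w * m) (hm : ¬ p ∣ m)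
    {f : N → A} (hf : ∀ z, f z ∈ Lk F p (c + w) Λ) (hD : ∀ z, ∀ d ∈ D, f (z * d) = f z) :
    (Nat.card N : F)⁻¹ • ∑ z, f z ∈ Lk F p c Λ := by
  classical
  have := Fintype.ofFinite (N ⧸ D)
  have hb : Function.Bijective fun x : (N ⧸ D) × D => x.1.out * x.2 := by
    constructor
    · rintro ⟨a, d⟩ ⟨b, e⟩ hab
      have h1 := congrArg (QuotientGroup.mk (s := D)) hab
      simp only [QuotientGroup.mk_mul_of_mem _ (Subtype.prop _), QuotientGroup.out_eq'] at h1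
      subst h1
      exact Prod.ext rfl (Subtype.ext (mul_left_cancel hab))
    · intro z
      obtain ⟨d, hd⟩ := QuotientGroup.mk_out_eq_mul D z
      exact ⟨(QuotientGroup.mk z, d⁻¹), by simp [hd]⟩
  have hs : ∑ z, f z = (Nat.card D : F) • ∑ q : N ⧸ D, f q.out := by
    rw [← hb.sum_comp f, Fintype.sum_prod_type, Finset.smul_sum]
    refine Finset.sum_congr rfl fun q _ => ?_
    rw [Finset.sum_congr rfl fun (d : D) _ => hD q.out d d.2, Finset.sum_const, Finset.card_univ,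
      Nat.cast_smul_eq_nsmul, Nat.card_eq_fintype_card]
  obtain ⟨y, hy, he⟩ : ∑ q : N ⧸ D, f q.out ∈ Lk F p (c + w) Λ := sum_mem fun q _ => hf _
  refine ⟨_, h.inv m hm y hy, ?_⟩
  have h1 : (Nat.card D : F) ≠ 0 := Nat.cast_ne_zero.2 Nat.card_pos.ne'
  have h2 : (p : F) ≠ 0 := Nat.cast_ne_zero.2 hp
  have h3 : (m : F) ≠ 0 := Nat.cast_ne_zero.2 fun h0 => hm (h0 ▸ dvd_zero p)
  rw [hs, he, smul_smul, smul_smul, smul_smul, ← D.card_mul_index, hi]
  congr 1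
  push_cast
  field_simp
  ring

theorem kz_exa {t : N} (ht : Exa θ t) : Exa (stp F θ) t ∧ stp F θ t = θ t := by
  have h0 : stp F θ t = θ t := by simp [stp, (ht _).1]
  refine ⟨fun x => ⟨?_, ?_⟩, h0⟩
  · rw [h0]
    simp only [stp, mul_assoc t, (ht _).1, mul_sub, mul_smul_comm, Finset.mul_sum, sub_mul,
      mul_assoc]
  · rw [h0]
    simp only [stp]
    rw [sub_mul, smul_mul_assoc, Finset.sum_mul, (ht x).2,
      ← Equiv.sum_comp (Equiv.mulLeft t) fun z => (θ x * θ z - θ (x * z)) * θ z⁻¹ * θ t]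
    congr 2
    refine Finset.sum_congr rfl fun z _ => ?_
    change _ = (θ x * θ (t * z) - θ (x * (t * z))) * θ (t * z)⁻¹ * θ t
    rw [mul_assoc _ _ (θ t), ← (ht (t * z)⁻¹).2, mul_inv_rev, inv_mul_cancel_right,
      mul_assoc (θ x), ← (ht z).1, mul_assoc x]

theorem kz_nat {σ : RingAut F} {γ : RingAut A} (hγ : SL F σ γ) (δ : N ≃* N)
    (h : ∀ x, γ (θ x) = θ (δ x)) (x : N) : γ (stp F θ x) = stp F θ (δ x) := by
  simp only [stp]
  rw [map_sub, hγ, map_sum, map_inv₀, map_natCast, h,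
    ← δ.toEquiv.sum_comp fun z => (θ (δ x) * θ z - θ (δ x * z)) * θ z⁻¹]
  simp only [map_mul, map_sub, h, map_inv, MulEquiv.toEquiv_eq_coe, EquivLike.coe_coe]

/-- the defect of the improved map. -/
theorem kz_id [CharZero F] (h1 : Exa θ 1) (x y : N) :
    stp F θ x * stp F θ y - stp F θ (x * y) =
      (θ x - stp F θ x) * (θ y - stp F θ y) - (Nat.card N : F)⁻¹ • ∑ z,
        ((θ x * θ y - θ (x * y)) * (θ z * θ z⁻¹ - θ (z * z⁻¹)) +
          (θ x * θ z - θ (x * z)) * (θ z⁻¹ * θ y - θ (z⁻¹ * y))) := by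
  have hn : (Nat.card N : F) ≠ 0 := Nat.cast_ne_zero.2 Nat.card_pos.ne'
  have e1 : ∀ a, θ a * θ 1 = θ a := fun a => by rw [← (h1 a).2, mul_one]
  have e2 : ∑ z, (θ x * θ (y * z) - θ (x * y * z)) * θ z⁻¹ =
      ∑ z, (θ x * θ z - θ (x * z)) * θ (z⁻¹ * y) := by
    rw [← Equiv.sum_comp (Equiv.mulLeft y) fun z => (θ x * θ z - θ (x * z)) * θ (z⁻¹ * y)]
    refine Finset.sum_congr rfl fun z _ => ?_
    rw [Equiv.coe_mulLeft, mul_inv_rev, inv_mul_cancel_right, mul_assoc x]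
  have e3 : ∑ z, ((θ x * θ y - θ (x * y)) * (θ z * θ z⁻¹ - θ (z * z⁻¹)) +
      (θ x * θ z - θ (x * z)) * (θ z⁻¹ * θ y - θ (z⁻¹ * y))) =
      θ x * ∑ z, (θ y * θ z - θ (y * z)) * θ z⁻¹ +
      (∑ z, (θ x * θ z - θ (x * z)) * θ z⁻¹) * θ y -
      ∑ z, (θ (x * y) * θ z - θ (x * y * z)) * θ z⁻¹ - ∑ _z : N, (θ x * θ y - θ (x * y)) := by
    rw [← sub_eq_zero, ← sub_eq_zero.2 e2, Finset.mul_sum, Finset.sum_mul]
    simp only [← Finset.sum_add_distrib, ← Finset.sum_sub_distrib]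
    refine Finset.sum_congr rfl fun z _ => ?_
    have e4 : (θ x * θ y - θ (x * y)) * θ 1 = θ x * θ y - θ (x * y) := by
      rw [sub_mul, mul_assoc, e1, e1]
    rw [mul_inv_cancel, mul_sub (θ x * θ y - θ (x * y)), e4]
    noncomm_ring
  have e5 : (Nat.card N : F)⁻¹ • ∑ _z : N, (θ x * θ y - θ (x * y)) = θ x * θ y - θ (x * y) := by
    rw [Finset.sum_const, Finset.card_univ, ← Nat.cast_smul_eq_nsmul F, ← Nat.card_eq_fintype_card,
      smul_smul, inv_mul_cancel₀ hn, one_smul]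
  rw [e3, smul_sub, smul_sub, smul_add, e5, ← mul_smul_comm, ← smul_mul_assoc]
  simp only [stp]
  generalize (Nat.card N : F)⁻¹ • ∑ z, (θ x * θ z - θ (x * z)) * θ z⁻¹ = a
  generalize (Nat.card N : F)⁻¹ • ∑ z, (θ y * θ z - θ (y * z)) * θ z⁻¹ = b
  generalize (Nat.card N : F)⁻¹ • ∑ z, (θ (x * y) * θ z - θ (x * y * z)) * θ z⁻¹ = e
  noncomm_ring

theorem kz_step [CharZero F] (hp : p ≠ 0) (h : Ltt F p Λ) (hi : D.index = p ^ w * m)
    (hm : ¬ p ∣ m) (hc : 2 * w < c) (ha : Ap F p c Λ D θ) :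
    Ap F p (c + 1) Λ D (stp F θ) ∧ ∀ x, stp F θ x - θ x ∈ Lk F p (c - w) Λ := by
  have e1 : ∀ d ∈ D, ∀ x z, θ x * θ (z * d) - θ (x * (z * d)) = (θ x * θ z - θ (x * z)) * θ d :=
    fun d hd x z => by rw [← mul_assoc x, (ha.ex d hd _).2, (ha.ex d hd _).2, sub_mul, mul_assoc]
  have e2 : ∀ d ∈ D, ∀ z, θ d * θ (z * d)⁻¹ = θ z⁻¹ := fun d hd z => by
    rw [← (ha.ex d hd _).1, mul_inv_rev, mul_inv_cancel_left]
  have e3 : ∀ d ∈ D, ∀ z y, θ d * θ ((z * d)⁻¹ * y) = θ (z⁻¹ * y) := fun d hd z y => by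
    rw [← (ha.ex d hd _).1, mul_inv_rev, mul_assoc, mul_inv_cancel_left]
  have h1 : ∀ x, θ x - stp F θ x ∈ Lk F p (c - w) Λ := fun x => by
    simp only [stp, sub_sub_cancel]
    refine kz_avg hp h hi hm (fun z => ?_) fun z d hd => ?_
    · exact Lk_anti (by omega) (h.mul_right (ha.df x z) (ha.mem _))
    · rw [e1 d hd, mul_assoc, e2 d hd]
  refine ⟨⟨fun x => ?_, fun x y => ?_, fun d hd => (kz_exa (ha.ex d hd)).1⟩, fun x => ?_⟩
  · simpa using sub_mem (ha.mem x) (Lk_le (h1 x))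
  · rw [kz_id (ha.ex 1 (one_mem D))]
    refine sub_mem (Lk_anti (by omega) (h.mul_Lk (h1 x) (h1 y)))
      (kz_avg hp h hi hm (fun z => ?_) fun z d hd => ?_)
    · exact Lk_anti (by omega) (add_mem (h.mul_Lk (ha.df x y) (ha.df z z⁻¹))
        (h.mul_Lk (ha.df x z) (ha.df z⁻¹ y)))
    · rw [e1 d hd, mul_assoc _ (θ d), mul_sub (θ d), ← mul_assoc (θ d), e2 d hd, e3 d hd,
        mul_inv_cancel, mul_inv_cancel, (ha.ex d hd z).2, mul_assoc (θ z), e2 d hd]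
  · simpa using neg_mem (h1 x)

end Pool.Agent.Lib.MP_1ae3da_al.CT.Z
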