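import Pool.Agent.Lib.MP_1ae3da_al.Z.Df
import Pool.Agent.Lib.MP_1ae3da_al.C.AGa
import Pool.Agent.Lib.MP_1ae3da_al.C.TL

/-! The link between a block and the block of the local subgroup that matches it. -/

namespace Pool.Agent.Lib.MP_1ae3da_al.CT.Z

open Submodule

variable {F X : Type} [Field F] [IsAlgClosed F] [CharZero F] [Group X] [Finite X]
  {D : Subgroup X} {GG : Subgroup (RingAut F)} {e f f' : MonoidAlgebra F X}
  {Θ : MonoidAlgebra F X →ₗ[F] MonoidAlgebra F X}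

omit [IsAlgClosed F] [CharZero F] [Finite X] in
theorem zLn_stb {σ : RingAut F} {γ : RingAut (MonoidAlgebra F X)} (hγ : SL F σ γ) {δ : MulAut X}
    (h : ∀ x, γ (gu F X x) = gu F X (δ x)) {H : Subgroup X} (hH : ∀ x, δ x ∈ H ↔ x ∈ H) :
    γ ∈ Stb (Hm F (gu F X) H) := by
  intro a
  constructor
  · rintro ⟨c, hc, y, hy, k⟩
    refine ⟨σ.symm c, by simpa using hc, δ.symm y, (hH _).1 (by simpa using hy), γ.injective ?_⟩
    rw [k, hγ, h]
    simp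
  · rintro ⟨c, hc, y, hy, rfl⟩
    exact ⟨σ c, by simpa using hc, δ y, (hH _).2 hy, by rw [hγ, h]⟩

omit [Finite X] in
theorem zLn_nrm {δ : MulAut X} (hD : ∀ x, δ x ∈ D ↔ x ∈ D) (x : X) :
    δ x ∈ Subgroup.normalizer (D : Set X) ↔ x ∈ Subgroup.normalizer (D : Set X) := by
  simp only [Subgroup.mem_normalizer_iff]
  constructor
  · intro k y
    rw [← hD y, k, ← hD (x * y * x⁻¹), map_mul, map_mul, map_inv]
  · intro k y
    obtain ⟨y, rfl⟩ := δ.surjective y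
    rw [hD, k, ← hD (x * y * x⁻¹), map_mul, map_mul, map_inv]

omit [IsAlgClosed F] [CharZero F] [Finite X] in
theorem zLn_il (n : X) (a : MonoidAlgebra F X) : gu F X n⁻¹ * (gu F X n * a) = a := by
  rw [← mul_assoc, gu_mul, inv_mul_cancel, gu_one, one_mul]

omit [IsAlgClosed F] [CharZero F] [Finite X] in
theorem zLn_ir (n : X) (a : MonoidAlgebra F X) : gu F X n * (gu F X n⁻¹ * a) = a := by
  rw [← mul_assoc, gu_mul, mul_inv_cancel, gu_one, one_mul]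

omit [IsAlgClosed F] [CharZero F] [Finite X] in
theorem zLn_sw {z z' : MonoidAlgebra F X} {n : X} (h : z * gu F X n = gu F X n * z') :
    gu F X n⁻¹ * z = z' * gu F X n⁻¹ := by
  have k : gu F X n * gu F X n⁻¹ = 1 := by rw [gu_mul, mul_inv_cancel, gu_one]
  rw [← mul_one z, ← k, ← mul_assoc z, h, mul_assoc, zLn_il]

omit [IsAlgClosed F] [CharZero F] [Finite X] in
theorem zLn_sp {n : X} {H : Subgroup X} (hn : n ∈ H) : gu F X n ∈ span F (Hm F (gu F X) H) :=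
  subset_span (aga_mem.2 hn)

omit [IsAlgClosed F] [CharZero F] [Finite X] in
theorem zLn_el {Γ : Subgroup (RingAut (MonoidAlgebra F X))} {N : Subgroup X}
    (h : Cor Γ N e Θ) {a : MonoidAlgebra F X} (ha : a ∈ span F (Hm F (gu F X) N)) :
    e * Θ a = Θ a := by
  rw [← h.one, ← h.mul 1 (zLn_sp (one_mem N)) _ ha, one_mul]

omit [IsAlgClosed F] [CharZero F] [Finite X] in
theorem zLn_er {Γ : Subgroup (RingAut (MonoidAlgebra F X))} {N : Subgroup X}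
    (h : Cor Γ N e Θ) {a : MonoidAlgebra F X} (ha : a ∈ span F (Hm F (gu F X) N)) :
    Θ a * e = Θ a := by
  rw [← h.one, ← h.mul _ ha 1 (zLn_sp (one_mem N)), mul_one]

omit [IsAlgClosed F] [CharZero F] [Finite X] in
theorem zLn_cen {S : Set (MonoidAlgebra F X)} {γ : RingAut (MonoidAlgebra F X)} (hγ : γ ∈ Stb S)
    (hf : f ∈ Cen F S) {s : MonoidAlgebra F X} (hs : s ∈ S) : γ f * s = s * γ f := by
  have k : γ⁻¹ s ∈ S := (hγ _).1 (by rwa [tl_ai])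
  have := congrArg γ (hf.2 _ k)
  rwa [map_mul, map_mul, tl_ai] at this

theorem Ga_le : Ga GG D ≤ SG GG (MonoidAlgebra F X) ⊓ Stb (Hm F (gu F X) ⊤) ⊓
    Stb (Hm F (gu F X) (Subgroup.normalizer (D : Set X))) := by
  rintro γ ⟨⟨σ, hσ, s⟩, δ, h1, h2⟩
  exact ⟨⟨⟨σ, hσ, s⟩, zLn_stb s h1 fun _ => Iff.rfl⟩, zLn_stb s h1 (zLn_nrm h2)⟩

/-- the relation. -/
def Rl (Γ : Subgroup (RingAut (MonoidAlgebra F X))) (N : Subgroup X) (e f f' : MonoidAlgebra F X)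
    (Θ : MonoidAlgebra F X →ₗ[F] MonoidAlgebra F X) (a : RingAut (MonoidAlgebra F X))
    (w w' : MonoidAlgebra F X) : Prop :=
  a ∈ Γ ∧ Lin F a ∧ w ∈ Ln F (Hm F (gu F X) ⊤) f a ∧ w' ∈ Ln F (Hm F (gu F X) N) f' a ∧
    ∃ n ∈ N, a e * gu F X n = gu F X n * e ∧ gu F X n⁻¹ * w * e = Θ (gu F X n⁻¹ * w')

/-- the choice of `n` does not matter: `t = n⁻¹ n1` commutes with `e`, use `Cor.loc`. -/
theorem Cor.indep {Γ : Subgroup (RingAut (MonoidAlgebra F X))} {N : Subgroup X}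
    (h : Cor Γ N e Θ) {n n1 : X} (hn : n ∈ N) (hn1 : n1 ∈ N) {z : MonoidAlgebra F X}
    (h1 : z * gu F X n = gu F X n * e) (h2 : z * gu F X n1 = gu F X n1 * e)
    {a : MonoidAlgebra F X} (ha : a ∈ span F (Hm F (gu F X) N)) :
    gu F X n * Θ (gu F X n⁻¹ * a) = gu F X n1 * Θ (gu F X n1⁻¹ * a) := by
  have ht : n⁻¹ * n1 ∈ N := mul_mem (inv_mem hn) hn1
  have k : gu F X (n⁻¹ * n1) * e = e * gu F X (n⁻¹ * n1) := by
    rw [← gu_mul, mul_assoc, ← h2, ← mul_assoc, zLn_sw h1, mul_assoc]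
  have hb := gu_span_mul N _ (zLn_sp (inv_mem hn1)) _ ha
  have k2 : gu F X n⁻¹ * a = gu F X (n⁻¹ * n1) * (gu F X n1⁻¹ * a) := by
    rw [← gu_mul, mul_assoc, zLn_ir]
  rw [k2, h.mul _ (zLn_sp ht) _ hb, h.loc _ ht k, mul_assoc, zLn_el h hb, ← gu_mul, mul_assoc,
    zLn_ir]

theorem Cor.eqv (h : Cor (Ga GG D) (Subgroup.normalizer (D : Set X)) e Θ)
    (hf : f ∈ Cen F (Hm F (gu F X) ⊤))
    (hf' : f' ∈ Cen F (Hm F (gu F X) (Subgroup.normalizer (D : Set X)))) (h1 : Θ f' = f * e)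
    {γ : RingAut (MonoidAlgebra F X)} (hγ : γ ∈ Ga GG D) : Θ (γ f') = γ f * e := by
  obtain ⟨n, hn, k1, k2⟩ := h.nat γ hγ
  obtain ⟨⟨-, s1⟩, s2⟩ := Ga_le hγ
  have k := k2 f' hf'.1
  rw [h1, map_mul, mul_assoc, k1, ← mul_assoc, zLn_cen s1 hf (aga_mem.2 trivial), mul_assoc,
    mul_assoc, zLn_cen s2 hf' (aga_mem.2 hn), zLn_il] at k
  have := congrArg (gu F X n⁻¹ * ·) k
  simp only [zLn_il] at this
  exact this.symm

/-- hint: `Ln_exists`; `gu n⁻¹ * w` commutes with `e`; `Cor.surj` gives `y`, `w' = gu n * y`;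
`te_inv` for `w' ≠ 0`. -/
theorem Cor.tot (h : Cor (Ga GG D) (Subgroup.normalizer (D : Set X)) e Θ)
    (hf : f ∈ Irr F (Hm F (gu F X) ⊤))
    (hf' : f' ∈ Irr F (Hm F (gu F X) (Subgroup.normalizer (D : Set X)))) (h1 : Θ f' = f * e)
    {a : RingAut (MonoidAlgebra F X)} (ha : a ∈ Ga GG D ⊓ Fx f) (hl : Lin F a) :
    ∃ w w', Rl (Ga GG D ⊓ Fx f) (Subgroup.normalizer (D : Set X)) e f f' Θ a w w' := by
  obtain ⟨n, hn, k1, k2⟩ := h.nat a ha.1
  obtain ⟨⟨-, s1⟩, s2⟩ := Ga_le ha.1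
  have nc : Nice F (Hm F (gu F X) ⊤) := nice_Hm0 gu_tg ⊤
  obtain ⟨w, hw⟩ := Ln_exists nc hf hl s1 ha.2
  have tp (z : MonoidAlgebra F X) : z ∈ span F (Hm F (gu F X) ⊤) := by
    rw [gu_span]; trivial
  have wa (z : MonoidAlgebra F X) : w * z = a z * w := tl_span hl hw.2.2.2 (tp z)
  have ve : gu F X n⁻¹ * w * e = e * (gu F X n⁻¹ * w) := by
    rw [mul_assoc, wa, ← mul_assoc, zLn_sw k1, mul_assoc]
  obtain ⟨y, hy, k3⟩ := h.surj (gu F X n⁻¹ * w)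
  rw [← ve, mul_assoc _ e e, h.idem] at k3
  have hy' := gu_span_mul _ _ (zLn_sp hn) _ hy
  refine ⟨w, gu F X n * y, ha, hl, hw, ⟨hy', ?_, fun c => ?_, fun x hx => ?_⟩, n, hn, k1,
    by rw [zLn_il, k3]⟩
  · have : y * f' - y = 0 := h.inj _ (sub_mem (gu_span_mul _ _ hy _ hf'.1.1) hy) (by
      rw [map_sub, h.mul _ hy _ hf'.1.1, k3, h1, mul_assoc _ e, ← mul_assoc e,
        te_cen hf (tp e), mul_assoc f, h.idem, ← mul_assoc, mul_assoc _ w f, hw.2.1, sub_self])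
    rw [mul_assoc, sub_eq_zero.1 this]
  · have y0 : y = 0 := by rw [← zLn_il n y, c, mul_zero]
    have w0 : w * e = 0 := by
      rw [← zLn_ir n (w * e), ← mul_assoc _ w e, ← k3, y0, map_zero, mul_zero]
    obtain ⟨u, -, -, -, u2⟩ := te_inv nc hf hl s1 hw
    exact hf'.2.2.1 (h.inj _ hf'.1.1 (by rw [h1, ← u2, mul_assoc, w0, mul_zero]))
  · have px := subset_span (R := F) hx
    have pa := gu_span_mul _ _ (gu_span_mul _ _ (zLn_sp (inv_mem hn)) _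
      (subset_span (R := F) ((s2 x).2 hx))) _ (zLn_sp hn)
    have k4 : Θ (gu F X n⁻¹ * a x * gu F X n) = gu F X n⁻¹ * (a (Θ x) * gu F X n) := by
      rw [k2 x px, zLn_il]
    have : y * x - gu F X n⁻¹ * a x * gu F X n * y = 0 :=
      h.inj _ (sub_mem (gu_span_mul _ _ hy _ px) (gu_span_mul _ _ pa _ hy)) (by
        rw [map_sub, h.mul _ hy _ px, h.mul _ pa _ hy, k3, k4, mul_assoc _ e, zLn_el h px,
          sub_eq_zero]
        simp only [mul_assoc, zLn_ir]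
        rw [← mul_assoc (a _), ← wa, mul_assoc, zLn_er h px])
    rw [mul_assoc, sub_eq_zero.1 this]
    simp only [mul_assoc, zLn_ir]

end Pool.Agent.Lib.MP_1ae3da_al.CT.Z
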