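import Pool.Agent.Lib.MP_1ae3da_al.C.ASide

/-! The functions attached to a projective representation and a Galois automorphism. -/

namespace Pool.Agent.Lib.MP_1ae3da_al.CT.Z

open Submodule NSV

lemma zmu_div {K : Type} [CommMonoid K] {x z w : K} (hx : ∃ m : ℕ, 0 < m ∧ x ^ m = 1)
    (hw : ∃ m : ℕ, 0 < m ∧ w ^ m = 1) (h : z * x = w) : ∃ m : ℕ, 0 < m ∧ z ^ m = 1 := by
  obtain ⟨a, ha, h1⟩ := hx
  obtain ⟨b, hb, h2⟩ := hw
  refine ⟨a * b, Nat.mul_pos ha hb, ?_⟩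
  have h3 : (z * x) ^ (a * b) = 1 := by rw [h, mul_comm a b, pow_mul, h2, one_pow]
  rwa [mul_pow, pow_mul x, h1, one_pow, mul_one] at h3

lemma zmu_mul {K : Type} [CommMonoid K] {x z : K} (hx : ∃ m : ℕ, 0 < m ∧ x ^ m = 1)
    (hz : ∃ m : ℕ, 0 < m ∧ z ^ m = 1) : ∃ m : ℕ, 0 < m ∧ (x * z) ^ m = 1 := by
  obtain ⟨a, ha, h1⟩ := hx
  obtain ⟨b, hb, h2⟩ := hz
  refine ⟨a * b, Nat.mul_pos ha hb, ?_⟩
  rw [mul_pow, pow_mul x, h1, mul_comm a b, pow_mul z, h2, one_pow, one_pow, one_mul]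

lemma zmu_prod {K ι : Type} [CommMonoid K] (s : Finset ι) (f : ι → K)
    (hf : ∀ i, ∃ m : ℕ, 0 < m ∧ f i ^ m = 1) : ∃ m : ℕ, 0 < m ∧ (∏ i ∈ s, f i) ^ m = 1 :=
  Finset.prod_induction f (fun z => ∃ m : ℕ, 0 < m ∧ z ^ m = 1) (fun _ _ => zmu_mul)
    ⟨1, one_pos, one_pow _⟩ fun i _ => hf i

lemma zmu_uniq {K : Type} [Field K] {d : ℕ} (hd : 0 < d) {M : Matrix (Fin d) (Fin d) K}
    (hM : IsUnit M) {a b : K} (h : a • M = b • M) : a = b := by
  have _ : Nonempty (Fin d) := ⟨⟨0, hd⟩⟩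
  exact smul_left_injective K hM.ne_zero h

variable {F B H G : Type} [Field F] [Ring B] [Algebra F B] [Group H] [Fintype H] [Group G]
  {v : H → B} {κ : H →* G} {N T : Subgroup G} {ψ : G → Qbar} {θ : H → Qbar} {d : ℕ}
  {P : G → Matrix (Fin d) (Fin d) Qbar} {α : G → G → Qbar}

theorem fix_mul (nrm : ∀ t ∈ T, ∀ g ∈ N, t * g * t⁻¹ ∈ N) {x y : G} (hy : y ∈ T)
    (fx : Fix N ψ x 1) (fy : Fix N ψ y 1) : Fix N ψ (x * y) 1 := fun n hn => by
  have h1 := fx _ (nrm y hy n hn)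
  have h2 := fy n hn
  rw [AlgEquiv.one_apply] at h1 h2 ⊢
  rw [← h2, ← h1]
  congr 1
  group

theorem fix_inv (nrm : ∀ t ∈ T, ∀ g ∈ N, t * g * t⁻¹ ∈ N) {x : G} (hx : x ∈ T)
    (fx : Fix N ψ x 1) : Fix N ψ x⁻¹ 1 := fun n hn => by
  have h1 := fx _ (nrm x⁻¹ (inv_mem hx) n hn)
  rw [AlgEquiv.one_apply] at h1 ⊢
  rw [← h1]
  congr 1
  group

theorem fix_conj (nrm : ∀ t ∈ T, ∀ g ∈ N, t * g * t⁻¹ ∈ N) {g y : G} (hg : g ∈ T) (hy : y ∈ T)
    {s : Qbar ≃ₐ[ℚ] Qbar} (fg : Fix N ψ g s) (fy : Fix N ψ y 1) :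
    Fix N ψ (g * y * g⁻¹) 1 := fun n hn => by
  have hm := nrm g⁻¹ (inv_mem hg) n hn
  have h1 := fg _ (nrm y hy _ hm)
  have h2 := fy _ hm
  have h3 := fg _ hm
  rw [AlgEquiv.one_apply] at h2 ⊢
  apply s.injective
  have e1 : g * y * g⁻¹ * n * (g * y * g⁻¹)⁻¹ = g * (y * (g⁻¹ * n * g⁻¹⁻¹) * y⁻¹) * g⁻¹ := by
    group
  have e2 : g * (g⁻¹ * n * g⁻¹⁻¹) * g⁻¹ = n := by group
  rw [e1, h1, h2, ← h3, e2]

lemma zmu_fix (h : Side F v κ N T ψ θ P α) {n : G} (hn : n ∈ N) : Fix N ψ n 1 := by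
  obtain ⟨x, rfl⟩ := (h.rng n).1 hn
  exact h.fix x

lemma zmu_pos (h : Side F v κ N T ψ θ P α) : 0 < d := by
  obtain ⟨m, hm⟩ := h.irr
  have : d = m := ch_deg hm (ρ := fun x => P (κ x)) (by rw [map_one, h.P_one])
    fun x => by rw [h.ass.1 _ (h.mem x), h.val]
  exact this ▸ hm.pos

/-- hint: `x ↦ (P (g κ x g⁻¹)).map s` and `x ↦ P (κ x)` are representations with the same
irreducible character (`GM.A_hb`, fields `sim` and `schur`). -/
theorem ex_mu (h : Side F v κ N T ψ θ P α) (nrm : ∀ t ∈ T, ∀ g ∈ N, t * g * t⁻¹ ∈ N) {g : G}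
    (hg : g ∈ T) {s : Qbar ≃ₐ[ℚ] Qbar} (fg : Fix N ψ g s) : ∃ μ, Mu N T ψ P g s μ := by
  have hd := zmu_pos h
  have mN : ∀ a ∈ N, ∀ b ∈ N, P (a * b) = P a * P b := fun a ha b hb =>
    ((h.ass.2 b (h.le hb) (zmu_fix h hb)).2.2.1 a ha).1
  have mp : ∀ a b : Matrix (Fin d) (Fin d) Qbar, (a * b).map s = a.map s * b.map s :=
    fun a b => Matrix.map_mul (f := s.toRingEquiv)
  let ρ : H →* Matrix (Fin d) (Fin d) Qbar :=
    ⟨⟨fun x => P (κ x), by rw [map_one, h.P_one]⟩, fun x y => by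
      dsimp only
      rw [map_mul, mN _ (h.mem x) _ (h.mem y)]⟩
  let ρ' : H →* Matrix (Fin d) (Fin d) Qbar :=
    ⟨⟨fun x => (P (g * κ x * g⁻¹)).map s, by
      rw [map_one, mul_one, mul_inv_cancel, h.P_one]
      exact Matrix.map_one _ (map_zero s) (map_one s)⟩, fun x y => by
      dsimp only
      rw [← mp, ← mN _ (nrm g hg _ (h.mem x)) _ (nrm g hg _ (h.mem y)), map_mul]
      congr 2
      group⟩
  have ht : ∀ x, (ρ x).trace = θ x := fun x => by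
    change (P (κ x)).trace = _
    rw [h.ass.1 _ (h.mem x), h.val]
  have hI : (fun x => (ρ x).trace) ∈ GM.Irr H := by
    obtain ⟨m, hm⟩ := h.irr
    exact ⟨m, by rwa [funext ht]⟩
  obtain ⟨U, hU⟩ := (GM.A_hb H).sim d ρ ρ' hI fun x => by
    change ((P (g * κ x * g⁻¹)).map s).trace = (P (κ x)).trace
    rw [h.ass.1 _ (h.mem x), ← fg _ (h.mem x), ← h.ass.1 _ (nrm g hg _ (h.mem x))]
    simp [Matrix.trace]
  have hN : ∀ n ∈ N, (P (g * n * g⁻¹)).map s = U.val * P n * U.inv := fun n hn => by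
    obtain ⟨x, rfl⟩ := (h.rng n).1 hn
    exact hU x
  have i1 : ∀ a : Matrix (Fin d) (Fin d) Qbar, U.inv * (U.val * a) = a := fun a => by
    rw [← mul_assoc, U.inv_val, one_mul]
  have i2 : ∀ a : Matrix (Fin d) (Fin d) Qbar, U.val * (U.inv * a) = a := fun a => by
    rw [← mul_assoc, U.val_inv, one_mul]
  have key : ∀ y, ∃ c : Qbar, y ∈ T → Fix N ψ y 1 →
      (P (g * y * g⁻¹)).map s = c • (U.val * P y * U.inv) := by
    intro y
    by_cases hy : y ∈ T ∧ Fix N ψ y 1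
    · obtain ⟨hy, fy⟩ := hy
      obtain ⟨V, hV⟩ := h.unit hy fy
      have a1 := (h.ass.2 y hy fy).2.2.1
      have a2 := (h.ass.2 _ (mul_mem (mul_mem hg hy) (inv_mem hg)) (fix_conj nrm hg hy fg fy)).2.2.1
      obtain ⟨c, hc⟩ := (GM.A_hb H).schur d ρ hI
        (V.inv * (U.inv * ((P (g * y * g⁻¹)).map s * U.val))) fun x => by
          change _ * P (κ x) = P (κ x) * _
          have hn := h.mem x
          have hn' := nrm y hy _ hn
          have b1 : V.val * P (κ x) = P (y * κ x * y⁻¹) * V.val := by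
            rw [hV, ← (a1 _ hn).2, ← (a1 _ hn').1]
            congr 1
            group
          have b2 : (P (g * y * g⁻¹)).map s * (U.val * P (κ x) * U.inv) =
              U.val * P (y * κ x * y⁻¹) * U.inv * (P (g * y * g⁻¹)).map s := by
            rw [← hN _ hn, ← hN _ hn', ← mp, ← mp, ← (a2 _ (nrm g hg _ hn)).2,
              ← (a2 _ (nrm g hg _ hn')).1]
            congr 2
            group
          have b3 : P (κ x) * V.inv = V.inv * P (y * κ x * y⁻¹) := by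
            rw [← mul_one (V.inv * _), ← V.val_inv, ← mul_assoc, mul_assoc V.inv, ← b1,
              ← mul_assoc, V.inv_val, one_mul]
          have b4 : (P (g * y * g⁻¹)).map s * U.val * P (κ x) =
              U.val * (P (y * κ x * y⁻¹) * (U.inv * ((P (g * y * g⁻¹)).map s * U.val))) := by
            have := congrArg (· * U.val) b2
            simpa only [mul_assoc, U.inv_val, mul_one] using this
          rw [← mul_assoc (P (κ x)), b3, mul_assoc, mul_assoc, b4, i1, mul_assoc V.inv]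
      refine ⟨c, fun _ _ => ?_⟩
      have e := congrArg (fun a => U.val * (V.val * a) * U.inv) hc
      simp only [← mul_assoc V.val, V.val_inv, one_mul, i2] at e
      rw [mul_assoc, U.val_inv, mul_one] at e
      rw [e, hV]
      simp
    · exact ⟨1, fun h1 h2 => absurd ⟨h1, h2⟩ hy⟩
  choose μ hμ using key
  have un : ∀ y ∈ T, Fix N ψ y 1 → IsUnit (U.val * P y * U.inv) := fun y hy fy =>
    (U.isUnit.mul (h.unit hy fy)).mul U⁻¹.isUnit
  refine ⟨μ, ?_, U, fun y hy fy => ⟨fun n hn => ?_, hμ y hy fy⟩⟩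
  · refine zmu_uniq hd (un 1 (one_mem _) (fix_one N ψ)) ?_
    rw [← hμ 1 (one_mem _) (fix_one N ψ), one_smul, hN 1 (one_mem _)]
  · have hny := mul_mem (h.le hn) hy
    have fny := fix_mul nrm hy (zmu_fix h hn) fy
    refine zmu_uniq hd (un _ hny fny) ?_
    have a2 := (h.ass.2 _ (mul_mem (mul_mem hg hy) (inv_mem hg)) (fix_conj nrm hg hy fg fy)).2.2.1
    have e : g * (n * y) * g⁻¹ = g * n * g⁻¹ * (g * y * g⁻¹) := by group
    rw [← hμ _ hny fny, e, (a2 _ (nrm g hg _ hn)).1, mp, hN n hn, hμ y hy fy,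
      ((h.ass.2 y hy fy).2.2.1 n hn).1, Matrix.mul_smul]
    simp only [mul_assoc, i1]

theorem fix_congr (h : Assoc N T ψ P α) (le : N ≤ T) (fN : ∀ n ∈ N, Fix N ψ n 1)
    (nrm : ∀ t ∈ T, ∀ g ∈ N, t * g * t⁻¹ ∈ N) {g : G} (hg : g ∈ T)
    {s s' : Qbar ≃ₐ[ℚ] Qbar} (hs : ∀ x ∈ Qab, s x = s' x) (fg : Fix N ψ g s) :
    Fix N ψ g s' := fun n hn => by
  have hm := nrm g hg n hn
  rw [← fg n hn, hs]
  rw [← h.1 _ hm]
  exact Subfield.sum_mem _ fun i _ => (h.2 _ (le hm) (fN _ hm)).2.1 i i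

theorem mu_congr (h : Assoc N T ψ P α) (nrm : ∀ t ∈ T, ∀ g ∈ N, t * g * t⁻¹ ∈ N) {g : G}
    (hg : g ∈ T) {s s' : Qbar ≃ₐ[ℚ] Qbar} (hs : ∀ x ∈ Qab, s x = s' x) (fg : Fix N ψ g s)
    {μ : G → Qbar} (hμ : Mu N T ψ P g s μ) : Mu N T ψ P g s' μ := by
  obtain ⟨h1, U, hU⟩ := hμ
  refine ⟨h1, U, fun y hy fy => ⟨(hU y hy fy).1, ?_⟩⟩
  rw [← (hU y hy fy).2]
  ext a b
  exact (hs _ ((h.2 _ (mul_mem (mul_mem hg hy) (inv_mem hg))
    (fix_conj nrm hg hy fg fy)).2.1 a b)).symm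

theorem al_one (h : Side F v κ N T ψ θ P α) {n y : G} (hn : n ∈ N) (hy : y ∈ T)
    (fy : Fix N ψ y 1) : α n y = 1 ∧ α y n = 1 := by
  have fn := zmu_fix h hn
  have un := h.unit (h.le hn) fn
  have uy := h.unit hy fy
  have a1 := (h.ass.2 y hy fy).2.2.1 n hn
  constructor
  · refine zmu_uniq (zmu_pos h) (un.mul uy) ?_
    rw [one_smul, ← a1.1, ← ((h.ass.2 n (h.le hn) fn).2.2.2 y hy fy).1, a1.1]
  · refine zmu_uniq (zmu_pos h) (uy.mul un) ?_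
    rw [one_smul, ← a1.2, ← ((h.ass.2 y hy fy).2.2.2 n (h.le hn) fn).1, a1.2]

/-- rescaling by roots of unity. -/
theorem resc (h : Side F v κ N T ψ θ P α) (nrm : ∀ t ∈ T, ∀ g ∈ N, t * g * t⁻¹ ∈ N)
    (c : G → Qbar) (β : G → G → Qbar) (c1 : ∀ n ∈ N, c n = 1)
    (c2 : ∀ x ∈ T, Fix N ψ x 1 → ∃ m : ℕ, 0 < m ∧ c x ^ m = 1)
    (c3 : ∀ x ∈ T, Fix N ψ x 1 → ∀ y ∈ T, Fix N ψ y 1 → c x * c y * α x y = β x y * c (x * y))
    (c4 : ∀ n ∈ N, ∀ y ∈ T, Fix N ψ y 1 → β n y = 1 ∧ β y n = 1) :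
    Assoc N T ψ (fun x => c x • P x) β := by
  refine ⟨fun n hn => by simp only [c1 n hn, one_smul, h.ass.1 n hn], fun x hx fx => ?_⟩
  obtain ⟨a1, a2, a3, a4⟩ := h.ass.2 x hx fx
  refine ⟨?_, fun i k => ?_, fun n hn => ?_, fun y hy fy => ⟨?_, ?_⟩⟩
  · obtain ⟨m, hm, e⟩ := c2 x hx fx
    have : IsUnit (c x) := IsUnit.of_pow_eq_one e hm.ne'
    obtain ⟨w, hw⟩ := this
    change IsUnit (c x • P x)
    rw [← hw]
    exact a1.smul w
  · exact Subfield.mul_mem _ (Subfield.subset_closure (c2 x hx fx)) (a2 i k)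
  · have fn := zmu_fix h hn
    have e1 := c3 n (h.le hn) fn x hx fx
    have e2 := c3 x hx fx n (h.le hn) fn
    rw [c1 n hn, (al_one h hn hx fx).1, (c4 n hn x hx fx).1, one_mul, mul_one, one_mul] at e1
    rw [c1 n hn, (al_one h hn hx fx).2, (c4 n hn x hx fx).2, mul_one, mul_one, one_mul] at e2
    simp only [← e1, ← e2, c1 n hn, one_smul, (a3 n hn).1, (a3 n hn).2, Matrix.mul_smul,
      Matrix.smul_mul, and_self]
  · simp only [Matrix.mul_smul, Matrix.smul_mul, (a4 y hy fy).1, smul_smul]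
    rw [← c3 x hx fx y hy fy]
    congr 1
    ring
  · exact zmu_div (c2 _ (mul_mem hx hy) (fix_mul nrm hy fx fy))
      (zmu_mul (zmu_mul (c2 x hx fx) (c2 y hy fy)) (a4 y hy fy).2) (c3 x hx fx y hy fy).symm

/-- hint: multiply the relation over all `y`; all roots of `X ^ m - 1` lie in the image. -/
theorem root_desc [Finite G] (j : Qbar →+* F) (S : Subgroup G) (c : G → F) (a b : G → G → Qbar)
    (h0 : ∀ x ∈ S, c x ≠ 0) (ha : ∀ x ∈ S, ∀ y ∈ S, ∃ m : ℕ, 0 < m ∧ a x y ^ m = 1)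
    (hb : ∀ x ∈ S, ∀ y ∈ S, ∃ m : ℕ, 0 < m ∧ b x y ^ m = 1)
    (h : ∀ x ∈ S, ∀ y ∈ S, c x * c y * j (a x y) = j (b x y) * c (x * y)) :
    ∃ c' : G → Qbar, ∀ x ∈ S, j (c' x) = c x ∧ ∃ m : ℕ, 0 < m ∧ c' x ^ m = 1 := by
  have key : ∀ x, ∃ z : Qbar, x ∈ S → j z = c x ∧ ∃ m : ℕ, 0 < m ∧ z ^ m = 1 := by
    intro x
    by_cases hx : x ∈ S
    · have _ := Fintype.ofFinite S
      have mj : ∀ z : Qbar, (∃ m : ℕ, 0 < m ∧ z ^ m = 1) → ∃ m : ℕ, 0 < m ∧ j z ^ m = 1 :=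
        fun z ⟨m, h1, h2⟩ => ⟨m, h1, by rw [← map_pow, h2, map_one]⟩
      have e1 : ∏ y : S, (c x * c y * j (a x y)) = ∏ y : S, (j (b x y) * c (x * y)) :=
        Finset.prod_congr rfl fun y _ => h x hx y y.2
      have e2 : ∏ y : S, c (x * y) = ∏ y : S, c y :=
        Equiv.prod_comp (Equiv.mulLeft (⟨x, hx⟩ : S)) fun y : S => c y
      have e3 : ∏ y : S, c y ≠ 0 := Finset.prod_ne_zero_iff.2 fun y _ => h0 y y.2
      rw [Finset.prod_mul_distrib, Finset.prod_mul_distrib, Finset.prod_mul_distrib, e2,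
        mul_right_comm, Finset.prod_const] at e1
      obtain ⟨m, hm, e4⟩ := zmu_div (zmu_prod _ _ fun y : S => mj _ (ha x hx y y.2))
        (zmu_prod _ _ fun y : S => mj _ (hb x hx y y.2)) (mul_right_cancel₀ e3 e1)
      rw [← pow_mul] at e4
      have hM : 0 < (Finset.univ : Finset S).card * m := Nat.mul_pos Finset.univ_nonempty.card_pos hm
      generalize (Finset.univ : Finset S).card * m = M at e4 hM
      have hr : c x ∈ j.range :=
        (IsAlgClosed.splits (Polynomial.X ^ M - Polynomial.C (1 : Qbar))).mem_range_of_isRoot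
          (Polynomial.X_pow_sub_C_ne_zero hM 1) (by simp [e4])
      obtain ⟨z, hz⟩ := hr
      exact ⟨z, fun _ => ⟨hz, M, hM, j.injective (by rw [map_pow, hz, e4, map_one])⟩⟩
    · exact ⟨1, fun h1 => absurd h1 hx⟩
  choose c' hc using key
  exact ⟨c', hc⟩

end Pool.Agent.Lib.MP_1ae3da_al.CT.Z
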