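import Pool.Agent.Lib.MP_1ae3da_al.Z.Df
import Pool.Agent.Lib.MP_1ae3da_al.C.TPa
import Pool.Agent.Lib.MP_1ae3da_al.C.TDg

/-! Corners of matrix algebras; traces of matrices of finite order. -/

namespace Pool.Agent.Lib.MP_1ae3da_al.CT.Z

open Submodule

variable {F : Type} [Field F] {n : ℕ} {q z : Matrix (Fin n) (Fin n) F}

/-- `z` acts on the columns of `q` by one scalar. -/
theorem mx_cen (h : q * q = q) (hz : q * z * q = z)
    (hc : ∀ m, z * (q * m * q) = q * m * q * z) : ∃ c : F, z = c • q := by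
  by_cases h0 : q = 0
  · exact ⟨0, by rw [← hz, h0]; simp⟩
  obtain ⟨i, b, hib⟩ : ∃ i b, q i b ≠ 0 := by
    by_contra k
    push Not at k
    exact h0 (Matrix.ext k)
  have h1 : z * q = z := by rw [← hz, mul_assoc (q * z), h]
  have h2 : q * z = z := by rw [← hz, ← mul_assoc, ← mul_assoc, h]
  refine ⟨z i b / q i b, Matrix.ext fun a j => ?_⟩
  have k := hc (Matrix.single j i 1)
  rw [← mul_assoc, ← mul_assoc, h1, mul_assoc (q * _) q z, h2,
    Matrix.single_eq_single_vecMulVec_single, Matrix.mul_vecMulVec, Matrix.vecMulVec_mul,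
    Matrix.mul_vecMulVec, Matrix.vecMulVec_mul] at k
  have k2 := congrFun (congrFun k a) b
  simp only [Matrix.vecMulVec_apply, Matrix.mulVec_single_one, Matrix.single_one_vecMul,
    Matrix.col_apply, Matrix.row_apply] at k2
  rw [Matrix.smul_apply, smul_eq_mul, div_mul_eq_mul_div, eq_div_iff hib, k2, mul_comm]

theorem zmx_repr (m : Matrix (Fin n) (Fin n) F) (i j : Fin n) :
    (Matrix.stdBasis F (Fin n) (Fin n)).repr m (i, j) = m i j := by
  simp [Matrix.stdBasis]

/-- the map is idempotent with trace `q.trace ^ 2`. -/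
theorem mx_dim [CharZero F] (h : q * q = q) : Module.finrank F
    (LinearMap.range ((LinearMap.mulLeft F q).comp (LinearMap.mulRight F q))) = q.rank ^ 2 := by
  have idem : IsIdempotentElem ((LinearMap.mulLeft F q).comp (LinearMap.mulRight F q)) := by
    refine LinearMap.ext fun m => ?_
    change q * (q * (m * q) * q) = q * (m * q)
    rw [← mul_assoc, ← mul_assoc, h, mul_assoc, mul_assoc, h]
  have k := tdg_tr idem
  rw [LinearMap.trace_eq_matrix_trace F (Matrix.stdBasis F (Fin n) (Fin n))] at k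
  refine Nat.cast_injective (R := F) ?_
  rw [← k, Nat.cast_pow, ← tpa_trace h, sq, Matrix.trace, Matrix.trace, Finset.sum_mul_sum,
    Fintype.sum_prod_type]
  refine Finset.sum_congr rfl fun i _ => Finset.sum_congr rfl fun j _ => ?_
  rw [Matrix.diag_apply, LinearMap.toMatrix_apply, zmx_repr, Matrix.stdBasis_eq_single]
  change (q * (Matrix.single i j (1 : F) * q) : Matrix (Fin n) (Fin n) F) i j = _
  rw [← mul_assoc, tpa_single]
  rfl

/-- the trace is the sum of the roots of the characteristic polynomial, which are roots of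
unity. -/
theorem mx_int [IsAlgClosed F] [CharZero F] {m : ℕ} (hm : 0 < m) (h : z ^ m = 1) :
    IsIntegral ℤ z.trace := by
  rcases Nat.eq_zero_or_pos n with rfl | hn
  · simpa using isIntegral_zero
  haveI : Nonempty (Fin n) := ⟨⟨0, hn⟩⟩
  rw [Matrix.trace_eq_sum_roots_charpoly]
  refine IsIntegral.multiset_sum fun r hr => ?_
  have k : r ∈ spectrum F z :=
    Matrix.mem_spectrum_of_isRoot_charpoly (Polynomial.isRoot_of_mem_roots hr)
  have k2 := spectrum.pow_mem_pow z m k
  rw [h, spectrum.one_eq, Set.mem_singleton_iff] at k2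
  exact IsIntegral.of_pow hm (k2 ▸ isIntegral_one)

theorem mx_dvd [CharZero F] {p a b : ℕ} {y : F} (hp : p ≠ 0) (hy : IsIntegral ℤ y)
    (h : (a : F) - b = p * y) : a ≡ b [MOD p] := by
  have hp' : (p : F) ≠ 0 := Nat.cast_ne_zero.2 hp
  have e : y = algebraMap ℚ F (((a : ℚ) - b) / p) := by
    simp only [map_div₀, map_sub, map_natCast]
    rw [eq_div_iff hp', h, mul_comm]
  rw [e, isIntegral_algebraMap_iff (algebraMap ℚ F).injective] at hy
  obtain ⟨k, hk⟩ := IsIntegrallyClosed.isIntegral_iff.1 hy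
  have hp2 : (p : ℚ) ≠ 0 := Nat.cast_ne_zero.2 hp
  rw [eq_div_iff hp2, eq_intCast] at hk
  have : (a : ℤ) - b = p * k := by
    refine Int.cast_injective (α := ℚ) ?_
    push_cast
    rw [← hk, mul_comm]
  exact (Nat.modEq_iff_dvd.2 ⟨k, this⟩).symm

end Pool.Agent.Lib.MP_1ae3da_al.CT.Z
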