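import Pool.Agent.Lib.MP_1ae3da_al.Z.SL0

/-! `SL_m(F)`: diagonal subgroups, permutation matrices, the `p`-part of the order. -/

namespace Pool.Agent.Lib.MP_1ae3da_al.SLI

open Matrix

variable {F : Type} [Field F] {m : ℕ}

/-- product of the coordinates. -/
def pr (m : ℕ) (A : Subgroup Fˣ) : (Fin m → A) →* A where
  toFun d := ∏ i, d i
  map_one' := by simp
  map_mul' a b := by simp [Finset.prod_mul_distrib]

/-- the diagonal matrix of a tuple with product one. -/
def dg (m : ℕ) (A : Subgroup Fˣ) : (pr m A).ker →* SLm m F where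
  toFun d := ⟨diagonal fun i => (((d.1 i : A) : Fˣ) : F), by
    have h : ∏ i, d.1 i = 1 := d.2
    have := congrArg (fun a : A => ((a : Fˣ) : F)) h
    rw [det_diagonal]
    simpa using this⟩
  map_one' := Subtype.ext (by simp)
  map_mul' a b := Subtype.ext (by simp [diagonal_mul_diagonal])

/-- diagonal matrices of determinant one with entries in `A`. -/
def DS (m : ℕ) (A : Subgroup Fˣ) : Subgroup (SLm m F) := (dg m A).range

lemma mem_DS {A : Subgroup Fˣ} {g : SLm m F} :
    g ∈ DS m A ↔ ∃ d : Fin m → Fˣ, (∀ i, d i ∈ A) ∧ g.1 = diagonal fun i => (d i : F) := by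
  constructor
  · rintro ⟨d, rfl⟩
    exact ⟨fun i => d.1 i, fun i => (d.1 i).2, rfl⟩
  · rintro ⟨d, hd, h⟩
    have h1 := g.2
    rw [h, det_diagonal] at h1
    refine ⟨⟨fun i => ⟨d i, hd i⟩, ?_⟩, Subtype.ext h.symm⟩
    show ∏ i, (⟨d i, hd i⟩ : A) = 1
    ext
    simpa using h1

lemma dg_inj (A : Subgroup Fˣ) : Function.Injective (dg m A) := by
  intro a b h
  have h1 : (dg m A a).1 = (dg m A b).1 := congrArg Subtype.val h
  have h2 := diagonal_injective h1
  ext i
  exact congrFun h2 i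

lemma card_DS [Finite F] (hm : 0 < m) (A : Subgroup Fˣ) :
    Nat.card (DS m A) = Nat.card A ^ (m - 1) := by
  have hs : Function.Surjective (pr m A) := fun a =>
    ⟨Pi.mulSingle ⟨0, hm⟩ a, by
      show ∏ i, Pi.mulSingle (⟨0, hm⟩ : Fin m) a i = a
      simp⟩
  have h1 := (pr m A).ker.card_mul_index
  rw [Subgroup.index_ker, MonoidHom.range_eq_top.mpr hs, Subgroup.card_top, Nat.card_fun,
    Nat.card_eq_fintype_card (α := Fin m), Fintype.card_fin] at h1
  rw [DS, ← Nat.card_congr (MonoidHom.ofInjective (dg_inj A)).toEquiv]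
  obtain ⟨k, rfl⟩ : ∃ k, m = k + 1 := ⟨m - 1, by omega⟩
  rw [pow_succ] at h1
  exact Nat.eq_of_mul_eq_mul_right Nat.card_pos h1

lemma DS_comm {A : Subgroup Fˣ} {a b : SLm m F} (ha : a ∈ DS m A) (hb : b ∈ DS m A) :
    a * b = b * a := by
  obtain ⟨x, rfl⟩ := ha
  obtain ⟨y, rfl⟩ := hb
  rw [← map_mul, ← map_mul, mul_comm]

lemma mon_norm [Finite F] (A : Subgroup Fˣ) {n : SLm m F} {σ : Equiv.Perm (Fin m)}
    (h : IsMon n.1 σ) : n ∈ Subgroup.normalizer (DS m A : Set (SLm m F)) := by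
  refine Subgroup.mem_normalizer_fintype fun g hg => ?_
  obtain ⟨d, hd, hg⟩ := mem_DS.mp hg
  refine mem_DS.mpr ⟨fun i => d (σ i), fun i => hd _, ?_⟩
  have h1 : n.1 * g.1 = (diagonal fun i => (d (σ i) : F)) * n.1 := by
    rw [hg]
    ext i j
    rw [mul_diagonal, diagonal_mul]
    by_cases hj : j = σ i
    · rw [hj, mul_comm]
    · rw [h i j hj, zero_mul, mul_zero]
  have h2 : n.1 * (n⁻¹).1 = 1 := congrArg Subtype.val (mul_inv_cancel n)
  show n.1 * g.1 * (n⁻¹).1 = _
  rw [h1, mul_assoc, h2, mul_one]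

lemma DS_le_norm (A : Subgroup Fˣ) :
    DS m A ≤ Subgroup.normalizer (US m F : Set (SLm m F)) := by
  intro g hg
  obtain ⟨d, -, hg⟩ := mem_DS.mp hg
  refine Subgroup.le_normalizer_comap (H := Uni m F) Matrix.SpecialLinearGroup.toGL ?_
  rw [Subgroup.mem_comap, normalizer_Uni, mem_Bor]
  show Lev 0 g.1
  rw [hg]
  exact Lev.diagonal _

/-- the diagonal element with `z` at `i` and `z⁻¹` at `j`. -/
noncomputable def el {i j : Fin m} (hij : i ≠ j) (z : Fˣ) : SLm m F :=
  Matrix.SpecialLinearGroup.diag2n hij (z : F) z.ne_zero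

lemma el_val {i j : Fin m} (hij : i ≠ j) (z : Fˣ) :
    (el hij z).1 = diagonal fun k => ((if k = i then z else if k = j then z⁻¹ else 1 : Fˣ) : F) := by
  rw [el, Matrix.SpecialLinearGroup.diag2n_coe]
  congr 1
  funext k
  split_ifs <;> simp

lemma el_mem {A : Subgroup Fˣ} {i j : Fin m} (hij : i ≠ j) {z : Fˣ} (hz : z ∈ A) :
    el hij z ∈ DS m A :=
  mem_DS.mpr ⟨_, fun k => by
    show (if k = i then z else if k = j then z⁻¹ else 1 : Fˣ) ∈ A
    split_ifs
    exacts [hz, inv_mem hz, one_mem _], el_val hij z⟩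

lemma el_pow {i j : Fin m} (hij : i ≠ j) (z : Fˣ) (t : ℕ) : el hij z ^ t = el hij (z ^ t) := by
  apply Subtype.ext
  show ((el hij z ^ t : SLm m F) : Matrix (Fin m) (Fin m) F) = _
  rw [Matrix.SpecialLinearGroup.coe_pow, el_val, el_val, diagonal_pow]
  congr 1
  funext k
  simp only [Pi.pow_apply]
  split_ifs <;> simp

lemma el_comm {i j : Fin m} (hij : i ≠ j) (z : Fˣ) {g : SLm m F} (hg : g.1 i j ≠ 0)
    (h : g * el hij z = el hij z * g) : z ^ 2 = 1 := by
  have h1 : g.1 * (el hij z).1 = (el hij z).1 * g.1 := congrArg Subtype.val h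
  have h2 := congrFun (congrFun h1 i) j
  rw [el_val, mul_diagonal, diagonal_mul, if_neg hij.symm, if_pos rfl, if_pos rfl, mul_comm] at h2
  have h3 : z⁻¹ = z := Units.ext (mul_right_cancel₀ hg h2)
  rw [pow_two]
  nth_rewrite 1 [← h3]
  exact inv_mul_cancel z

/-- even permutations as matrices. -/
def pm (m : ℕ) (F : Type) [Field F] : alternatingGroup (Fin m) →* SLm m F where
  toFun s := ⟨Matrix.permMatrixHom s.1, by
    have h : Equiv.Perm.sign s.1 = 1 := s.2
    simp [h]⟩
  map_one' := Subtype.ext (by simp)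
  map_mul' a b := Subtype.ext (map_mul Matrix.permMatrixHom a.1 b.1)

lemma pm_val (s : alternatingGroup (Fin m)) (i j : Fin m) :
    (pm m F s).1 i j = if s.1⁻¹ i = j then 1 else 0 := by
  show (s.1⁻¹.permMatrix F) i j = _
  simp [PEquiv.toMatrix_apply, Equiv.toPEquiv_apply]

lemma pm_mon (s : alternatingGroup (Fin m)) : IsMon (pm m F s).1 s.1⁻¹ := fun i j h => by
  rw [pm_val, if_neg (Ne.symm h)]

lemma pm_diag {s : alternatingGroup (Fin m)} (h : ∀ i j, i ≠ j → (pm m F s).1 i j = 0) : s = 1 := by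
  have : s.1⁻¹ = 1 := by
    ext1 i
    by_contra hne
    have := h i (s.1⁻¹ i) (Ne.symm hne)
    rw [pm_val, if_pos rfl] at this
    exact one_ne_zero this
  exact Subtype.ext (inv_eq_one.mp this)

lemma pm_inj : Function.Injective (pm m F) := by
  rw [injective_iff_map_eq_one]
  intro s hs
  exact pm_diag (F := F) fun i j hij => by rw [hs]; exact Matrix.one_apply_ne hij

lemma DS_off {A : Subgroup Fˣ} {g : SLm m F} (hg : g ∈ DS m A) {i j : Fin m} (hij : i ≠ j) :
    g.1 i j = 0 := by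
  obtain ⟨d, -, h⟩ := mem_DS.mp hg
  rw [h, diagonal_apply_ne _ hij]

lemma disj (A : Subgroup Fˣ) (P : Subgroup (alternatingGroup (Fin m))) :
    Disjoint (DS m A) (P.map (pm m F)) := by
  rw [Subgroup.disjoint_def]
  rintro x hx ⟨s, -, rfl⟩
  rw [pm_diag (F := F) fun i j hij => DS_off hx hij, map_one]

lemma map_le_norm [Finite F] (A : Subgroup Fˣ) (P : Subgroup (alternatingGroup (Fin m))) :
    P.map (pm m F) ≤ Subgroup.normalizer (DS m A : Set (SLm m F)) := by
  rintro x ⟨s, -, rfl⟩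
  exact mon_norm A (pm_mon s)

lemma mem_sup [Finite F] {A : Subgroup Fˣ} {P : Subgroup (alternatingGroup (Fin m))} {x : SLm m F}
    (hx : x ∈ DS m A ⊔ P.map (pm m F)) : ∃ d ∈ DS m A, ∃ s ∈ P, x = d * pm m F s := by
  have h := Subgroup.coe_mul_of_right_le_normalizer_left _ _ (map_le_norm A P)
  have hx' : x ∈ ((DS m A ⊔ P.map (pm m F) : Subgroup (SLm m F)) : Set (SLm m F)) := hx
  rw [h] at hx'
  obtain ⟨d, hd, y, ⟨s, hs, rfl⟩, rfl⟩ := hx'
  exact ⟨d, hd, s, hs, rfl⟩

lemma card_sup [Finite F] (A : Subgroup Fˣ) (P : Subgroup (alternatingGroup (Fin m))) :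
    Nat.card (DS m A ⊔ P.map (pm m F) : Subgroup (SLm m F)) = Nat.card (DS m A) * Nat.card P := by
  rw [← Subgroup.card_map_of_injective (K := P) (pm_inj (F := F)), ← Nat.card_prod]
  symm
  refine Nat.card_congr (Equiv.ofBijective (fun g => ⟨g.1.1 * g.2.1,
    mul_mem (Subgroup.mem_sup_left g.1.2) (Subgroup.mem_sup_right g.2.2)⟩) ⟨?_, ?_⟩)
  · intro a b h
    exact Subgroup.mul_injective_of_disjoint (disj A P) (congrArg Subtype.val h)
  · rintro ⟨x, hx⟩
    obtain ⟨d, hd, s, hs, rfl⟩ := mem_sup hx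
    exact ⟨(⟨d, hd⟩, ⟨_, s, hs, rfl⟩), rfl⟩

lemma val_SL [Fintype F] (hm : 0 < m) {p : ℕ} [hp : Fact p.Prime] (h2 : p ≠ 2)
    (hq : p ∣ Fintype.card F - 1) :
    (Nat.card (SLm m F)).factorization p =
      padicValNat p (Fintype.card F - 1) * (m - 1) + padicValNat p m.factorial := by
  have h1 : 1 < Fintype.card F := Fintype.one_lt_card
  have hn : ¬ p ∣ Fintype.card F := fun h =>
    hp.out.one_lt.ne' (Nat.dvd_one.mp ((Nat.dvd_sub_iff_right h1.le h).mp hq))
  have hne : ∀ i : Fin m, Fintype.card F ^ (m - i) - 1 ≠ 0 := fun i =>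
    Nat.sub_ne_zero_of_lt (Nat.one_lt_pow (by have := i.2; omega) h1)
  have hne' : ∀ i : Fin m, m - i ≠ 0 := fun i => by have := i.2; omega
  have hf : m.factorial = ∏ i : Fin m, (m - i) := by
    rw [← Nat.descFactorial_self, Nat.descFactorial_eq_prod_range, Finset.prod_range]
  have h := congrArg (fun n => n.factorization p) (card_SL (F := F) hm)
  rw [Nat.factorization_mul Nat.card_pos.ne' (by omega),
    Nat.factorization_mul (pow_pos (by omega) _).ne' (Finset.prod_ne_zero_iff.mpr fun i _ => hne i),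
    Nat.factorization_prod fun i _ => hne i, Nat.factorization_pow] at h
  simp only [Finsupp.add_apply, Finsupp.smul_apply, Finsupp.finsetSum_apply,
    Nat.factorization_eq_zero_of_not_dvd hn, smul_eq_mul, mul_zero, zero_add] at h
  have h3 : ∀ i : Fin m, (Fintype.card F ^ (m - i) - 1).factorization p =
      padicValNat p (Fintype.card F - 1) + (m - i).factorization p := fun i => by
    have := padicValNat.pow_sub_pow (hp.out.odd_of_ne_two h2) h1 hq hn (hne' i)
    rw [one_pow] at this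
    rw [Nat.factorization_def _ hp.out, Nat.factorization_def _ hp.out, this]
  have h4 : padicValNat p m.factorial = ∑ i : Fin m, (m - i).factorization p := by
    rw [← Nat.factorization_def _ hp.out, hf, Nat.factorization_prod fun i _ => hne' i,
      Finsupp.finsetSum_apply]
  simp only [h3, Finset.sum_add_distrib, Finset.sum_const, Finset.card_univ, Fintype.card_fin,
    smul_eq_mul] at h
  rw [← h4, Nat.factorization_def (Fintype.card F - 1) hp.out] at h
  obtain ⟨k, rfl⟩ : ∃ k, m = k + 1 := ⟨m - 1, by omega⟩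
  rw [Nat.add_sub_cancel]
  nlinarith [h]

end Pool.Agent.Lib.MP_1ae3da_al.SLI
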