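import Pool.Agent.Lib.MP_1ae3da_al.Z.SL1

/-! `SL_m(q)` satisfies the hypotheses of the theorem for primes dividing `q - 1`. -/

namespace Pool.Agent.Lib.MP_1ae3da_al.SLI

open Matrix

variable {F : Type} [Field F] {m : ℕ}

lemma relIndex_sup [Finite F] (A : Subgroup Fˣ) (P : Subgroup (alternatingGroup (Fin m))) :
    (DS m A).relIndex (DS m A ⊔ P.map (pm m F)) = Nat.card P := by
  have h := ((DS m A).subgroupOf (DS m A ⊔ P.map (pm m F))).card_mul_index
  rw [Nat.card_congr (Subgroup.subgroupOfEquivOfLe le_sup_left).toEquiv, card_sup] at h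
  exact Nat.eq_of_mul_eq_mul_left Nat.card_pos h

lemma pow_mem_DS [Finite F] (A : Subgroup Fˣ) (P : Subgroup (alternatingGroup (Fin m)))
    {y : SLm m F} (hy : y ∈ DS m A ⊔ P.map (pm m F)) : y ^ Nat.card P ∈ DS m A := by
  have : ((DS m A).subgroupOf (DS m A ⊔ P.map (pm m F))).Normal :=
    Subgroup.normal_subgroupOf_of_le_normalizer (sup_le Subgroup.le_normalizer (map_le_norm A P))
  have h := Subgroup.pow_index_mem ((DS m A).subgroupOf (DS m A ⊔ P.map (pm m F))) ⟨y, hy⟩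
  rw [← relIndex_sup A P]
  exact h

/-- the diagonal part of `R` is the centraliser in `R` of the `|P|`-th powers. -/
lemma mem_DS_iff [Finite F] (A : Subgroup Fˣ) (P : Subgroup (alternatingGroup (Fin m)))
    {z : Fˣ} (hz : z ∈ A) (hz2 : (z ^ Nat.card P) ^ 2 ≠ 1) {x : SLm m F} :
    x ∈ DS m A ↔ x ∈ DS m A ⊔ P.map (pm m F) ∧
      ∀ y ∈ DS m A ⊔ P.map (pm m F), x * y ^ Nat.card P = y ^ Nat.card P * x := by
  constructor
  · exact fun hx => ⟨Subgroup.mem_sup_left hx, fun y hy => DS_comm hx (pow_mem_DS A P hy)⟩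
  · rintro ⟨hx, h⟩
    obtain ⟨d, hd, s, -, rfl⟩ := mem_sup hx
    have : s = 1 := by
      refine pm_diag (F := F) fun i j hij => ?_
      by_contra h0
      refine hz2 (el_comm hij _ h0 ?_)
      have h1 := h _ (Subgroup.mem_sup_left (el_mem hij hz))
      rw [el_pow, mul_assoc, ← mul_assoc _ d, ← DS_comm hd (el_mem hij (pow_mem hz _)),
        mul_assoc] at h1
      exact mul_left_cancel h1
    rwa [this, map_one, mul_one]

lemma stable [Finite F] (A : Subgroup Fˣ) (P : Subgroup (alternatingGroup (Fin m)))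
    {z : Fˣ} (hz : z ∈ A) (hz2 : (z ^ Nat.card P) ^ 2 ≠ 1) (φ : MulAut (SLm m F))
    (hφ : (DS m A ⊔ P.map (pm m F)).map φ.toMonoidHom = DS m A ⊔ P.map (pm m F)) :
    (DS m A).map φ.toMonoidHom = DS m A := by
  refine Subgroup.eq_of_le_of_card_ge ?_ (Subgroup.card_map_of_injective φ.injective).ge
  rintro _ ⟨x, hx, rfl⟩
  obtain ⟨h1, h2⟩ := (mem_DS_iff A P hz hz2).mp hx
  refine (mem_DS_iff A P hz hz2).mpr ⟨hφ ▸ Subgroup.mem_map_of_mem _ h1, fun y hy => ?_⟩
  rw [← hφ] at hy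
  obtain ⟨w, hw, rfl⟩ := hy
  rw [← map_pow, ← map_mul, ← map_mul, h2 w hw]

lemma norm_ne_top (hm : 2 ≤ m) (A : Subgroup Fˣ) {z : Fˣ} (hz : z ∈ A) (hz2 : z ^ 2 ≠ 1) :
    Subgroup.normalizer (DS m A : Set (SLm m F)) ≠ ⊤ := by
  intro h
  let i : Fin m := ⟨0, by omega⟩
  let j : Fin m := ⟨1, by omega⟩
  have hij : i ≠ j := by simp [i, j]
  let u : SLm m F := Matrix.SpecialLinearGroup.transvection hij 1
  have hu : u.1 = 1 + Matrix.single i j 1 := rfl
  have h1 : u * el hij z * u⁻¹ ∈ DS m A :=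
    (Subgroup.mem_normalizer_iff.mp (h ▸ Subgroup.mem_top u) _).mp (el_mem hij hz)
  obtain ⟨d, -, hd⟩ := mem_DS.mp h1
  have h2 : u.1 * (el hij z).1 = (u * el hij z * u⁻¹).1 * u.1 :=
    congrArg Subtype.val (show u * el hij z = u * el hij z * u⁻¹ * u by group)
  rw [hd, el_val] at h2
  have h3 := congrFun (congrFun h2 i) i
  have h4 := congrFun (congrFun h2 i) j
  have e1 : u.1 i i = 1 := by rw [hu]; simp [hij.symm]
  have e2 : u.1 i j = 1 := by rw [hu]; simp [hij]
  rw [mul_diagonal, diagonal_mul, e1, if_pos rfl, one_mul, mul_one] at h3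
  rw [mul_diagonal, diagonal_mul, e2, if_neg hij.symm, if_pos rfl, one_mul, mul_one, ← h3] at h4
  apply hz2
  rw [pow_two]
  nth_rewrite 1 [← Units.ext h4]
  exact inv_mul_cancel z

lemma orderOf_dvd_relIndex (A : Subgroup Fˣ) {z : Fˣ} (hz : z ∈ A) {u : SLm m F}
    (hu : u ∈ US m F) (h1 : u ≠ 1) :
    orderOf z ∣ 2 * (Subgroup.centralizer {u}).relIndex (DS m A) := by
  obtain ⟨i, j, hij, h0⟩ : ∃ i j, i ≠ j ∧ u.1 i j ≠ 0 := by
    by_contra hn
    push Not at hn
    apply h1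
    ext i j
    by_cases hij : i = j
    · subst hij
      have := (mem_US'.mp hu).2 i
      simpa using this
    · have := hn i j hij
      simpa [Matrix.one_apply_ne hij] using this
  have : ((Subgroup.centralizer {u}).subgroupOf (DS m A)).Normal := ⟨fun a ha g => by
    have : g * a * g⁻¹ = a := by
      rw [show g * a = a * g from Subtype.ext (DS_comm g.2 a.2), mul_inv_cancel_right]
    rwa [this]⟩
  have h := Subgroup.pow_index_mem ((Subgroup.centralizer {u}).subgroupOf (DS m A))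
    ⟨el hij z, el_mem hij hz⟩
  have h' : el hij z ^ (Subgroup.centralizer {u}).relIndex (DS m A) ∈ Subgroup.centralizer {u} := h
  rw [el_pow, Subgroup.mem_centralizer_singleton_iff] at h'
  have := el_comm hij _ h0 h'.symm
  rw [← pow_mul, mul_comm] at this
  exact orderOf_dvd_of_pow_eq_one this

/-- `SL_m(q)`, `p` odd, `v_p(q - 1) > 2 v_p(m!)`. -/
theorem sl_inst (F : Type) [Field F] [Fintype F] {m : ℕ} (hm : 2 ≤ m) (r p : ℕ) [Fact r.Prime]
    [CharP F r] [hp : Fact p.Prime] (h2 : p ≠ 2)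
    (hv : 2 * padicValNat p m.factorial < padicValNat p (Fintype.card F - 1)) :
    ∃ (U : Sylow r (SLm m F)) (R : Sylow p (SLm m F)) (D : Subgroup (SLm m F)),
      p ≠ r ∧ D ≤ R ∧ (∀ a ∈ D, ∀ b ∈ D, a * b = b * a) ∧
      (∀ φ : MulAut (SLm m F), (R : Subgroup (SLm m F)).map φ.toMonoidHom = R →
        D.map φ.toMonoidHom = D) ∧
      Subgroup.normalizer (D : Set (SLm m F)) ≠ ⊤ ∧
      D ≤ Subgroup.normalizer ((U : Subgroup (SLm m F)) : Set (SLm m F)) ∧
      (∀ x, ∃ u ∈ (U : Subgroup (SLm m F)), ∃ n ∈ Subgroup.normalizer (D : Set (SLm m F)),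
        ∃ v ∈ (U : Subgroup (SLm m F)), x = u * n * v) ∧
      ∀ u ∈ (U : Subgroup (SLm m F)), u ≠ 1 →
        D.relIndex R ^ 2 < (Subgroup.centralizer {u}).relIndex D := by
  classical
  set a := padicValNat p m.factorial with ha
  set c := padicValNat p (Fintype.card F - 1) with hc
  have hp1 := hp.out.one_lt
  have h1 : 1 < Fintype.card F := Fintype.one_lt_card
  have hq : p ∣ Fintype.card F - 1 := dvd_of_one_le_padicValNat (by omega)
  have : Nontrivial (Fin m) := Fin.nontrivial_iff_two_le.mpr hm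
  let A : Sylow p Fˣ := default
  let P : Sylow p (alternatingGroup (Fin m)) := default
  have hA : Nat.card A = p ^ c := by
    rw [A.card_eq_multiplicity, Nat.card_units, Nat.card_eq_fintype_card,
      Nat.factorization_def _ hp.out]
  have hco : Nat.Coprime p 2 := (Nat.coprime_primes hp.out Nat.prime_two).mpr h2
  have hP : Nat.card P = p ^ a := by
    have h := two_mul_nat_card_alternatingGroup (α := Fin m)
    rw [Nat.card_perm, Nat.card_eq_fintype_card (α := Fin m), Fintype.card_fin] at h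
    rw [P.card_eq_multiplicity, ha, ← h, padicValNat.mul two_ne_zero Nat.card_pos.ne',
      padicValNat.eq_zero_of_not_dvd ((Nat.Prime.coprime_iff_not_dvd hp.out).mp hco), zero_add,
      Nat.factorization_def _ hp.out]
  obtain ⟨z₀, hz₀⟩ := IsCyclic.exists_ofOrder_eq_natCard (α := (A : Subgroup Fˣ))
  have hz : orderOf (z₀ : Fˣ) = p ^ c := by rw [Subgroup.orderOf_coe, hz₀, hA]
  have hdv : ∀ t, p ^ c ∣ 2 * t → p ^ c ∣ t := fun t h =>
    (Nat.Coprime.pow_left c hco).dvd_of_dvd_mul_left h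
  have hz2 : ∀ b, b < c → ((z₀ : Fˣ) ^ p ^ b) ^ 2 ≠ 1 := fun b hb h => by
    rw [← pow_mul, mul_comm] at h
    have := hdv _ (hz ▸ orderOf_dvd_of_pow_eq_one h)
    rw [Nat.pow_dvd_pow_iff_le_right hp1] at this
    omega
  have hR : Nat.card (DS m A ⊔ (P : Subgroup _).map (pm m F) : Subgroup (SLm m F)) =
      p ^ (Nat.card (SLm m F)).factorization p := by
    rw [card_sup, card_DS (by omega), val_SL (by omega) h2 hq, hA, hP, pow_add, pow_mul]
  refine ⟨uSyl F (by omega) r, Sylow.ofCard _ hR, DS m A, ?_, le_sup_left,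
    fun a ha b hb => DS_comm ha hb, fun φ hφ => ?_, ?_, DS_le_norm _, fun x => ?_,
    fun u hu hu1 => ?_⟩
  · rintro rfl
    obtain ⟨f, -, hf⟩ := FiniteField.card F p
    have h : p ∣ Fintype.card F := by rw [hf]; exact dvd_pow_self p f.ne_zero
    exact hp1.ne' (Nat.dvd_one.mp ((Nat.dvd_sub_iff_right h1.le h).mp hq))
  · exact stable _ _ z₀.2 (by rw [hP]; exact hz2 a (by omega)) φ hφ
  · exact norm_ne_top hm _ z₀.2 (by simpa using hz2 0 (by omega))
  · obtain ⟨u, hu, n, ⟨σ, hσ⟩, v, hv', h⟩ := bruhat x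
    exact ⟨u, hu, n, mon_norm _ hσ, v, hv', h⟩
  · have h := hdv _ (hz ▸ orderOf_dvd_relIndex (m := m) _ z₀.2 hu hu1)
    have h0 : (Subgroup.centralizer {u}).relIndex (DS m A) ≠ 0 := Subgroup.index_ne_zero_of_finite
    rw [Sylow.coe_ofCard, relIndex_sup, hP, ← pow_mul]
    exact (Nat.pow_lt_pow_right hp1 (by omega)).trans_le (Nat.le_of_dvd (Nat.pos_of_ne_zero h0) h)

end Pool.Agent.Lib.MP_1ae3da_al.SLI
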