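import Pool.Agent.Lib.MP_1ae3da_al.GS

/-! The inductive Galois-McKay condition with a free choice of the local subgroup. -/

namespace Pool.Agent.Lib.MP_1ae3da_al.NSV

/-- The inductive Galois-McKay condition for `X`, `p`, the Sylow subgroup `R` and the local
subgroup `N`. -/
def IndN (p : ℕ) (X : Type) [Group X] (R N : Subgroup X) : Prop :=
  N ≠ ⊤ ∧ Subgroup.normalizer (R : Set X) ≤ N ∧
  (∀ γ : MulAut X, (∀ x, γ x ∈ R ↔ x ∈ R) → ∀ x, γ x ∈ N ↔ x ∈ N) ∧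
  ∃ Ω : IrrP p X ≃ IrrP p N,
    (∀ γ : MulAut X, (∀ x, γ x ∈ R ↔ x ∈ R) → ∀ σ ∈ H p, ∀ θ θ' : IrrP p X,
      (∀ x, θ'.1 x = σ (θ.1 (γ x))) → ∀ m m' : N,
        (m' : X) = γ m → (Ω θ').1 m = σ ((Ω θ).1 m')) ∧
    ∀ θ : IrrP p X, GeC (G := X ⋊[(Gam p R θ.1).subtype] Gam p R θ.1) p
      SemidirectProduct.inl.range (Subgroup.closure {g | g.left ∈ N})
      (fun g => θ.1 g.left) (fun g => Function.extend Subtype.val (Ω θ).1 0 g.left)

end Pool.Agent.Lib.MP_1ae3da_al.NSV
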