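import Pool.Agent.Lib.MP_1ae3da_al.Z.Kz

/-! Gauge transformations by truncated exponentials: definitions. -/

namespace Pool.Agent.Lib.MP_1ae3da_al.CT.Z

open Submodule

section
variable (F : Type) {W : Type} [Field F] [AddCommGroup W] [Module F W]

/-- `p ^ k` times the lattice, in a module. -/
def Lm (p k : ℕ) (M : AddSubgroup W) : AddSubgroup W where
  carrier := {x | ∃ y ∈ M, x = (p : F) ^ k • y}
  zero_mem' := ⟨0, zero_mem _, (smul_zero _).symm⟩
  add_mem' := by
    rintro _ _ ⟨a, ha, rfl⟩ ⟨b, hb, rfl⟩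
    exact ⟨a + b, add_mem ha hb, (smul_add _ _ _).symm⟩
  neg_mem' := by
    rintro _ ⟨a, ha, rfl⟩
    exact ⟨-a, neg_mem ha, (smul_neg _ _).symm⟩

variable {F} in
/-- the operator maps the lattice into `p ^ k` times the lattice. -/
def Sm (p k : ℕ) (M : AddSubgroup W) (T : Module.End F W) : Prop := ∀ x ∈ M, T x ∈ Lm F p k M

variable {F} in
/-- the truncated exponential. -/
noncomputable def Ex (n : ℕ) (T : Module.End F W) : Module.End F W :=
  ∑ i ∈ Finset.range n, ((i.factorial : ℕ) : F)⁻¹ • T ^ i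

end

section
variable {F B N : Type} [Field F] [Ring B] [Algebra F B] [Group N]

theorem Lm_eq (p k : ℕ) (Λ : AddSubgroup B) : Lm F p k Λ = Lk F p k Λ := rfl

/-- the second multiplication agrees with the first one against `v t`. -/
def Exb (v : N → B) (μ : B →ₗ[F] B →ₗ[F] B) (t : N) : Prop :=
  ∀ x, μ (v t) x = v t * x ∧ μ x (v t) = x * v t

/-- an associative multiplication that agrees with the given one modulo `p ^ c`. -/
structure Aq (p c : ℕ) (Λ : AddSubgroup B) (D : Subgroup N) (v : N → B)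
    (μ : B →ₗ[F] B →ₗ[F] B) : Prop where
  ass : ∀ x y z, μ (μ x y) z = μ x (μ y z)
  df : ∀ x ∈ Λ, ∀ y ∈ Λ, μ x y - x * y ∈ Lk F p c Λ
  ex : ∀ d ∈ D, Exb v μ d

variable (F) in
/-- a finite dimensional algebra spanned by a group, with a lattice. -/
structure Gb (p : ℕ) (Λ : AddSubgroup B) (v : N → B) : Prop where
  lat : Ltt F p Λ
  fin : Module.Finite F B
  mul : ∀ x y, v x * v y = v (x * y)
  one : v 1 = 1
  top : span F (Set.range v) = ⊤
  mem : ∀ x, v x ∈ Λ

/-- the averaged defect. -/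
noncomputable def Kop [Fintype N] (v : N → B) (μ : B →ₗ[F] B →ₗ[F] B) : Module.End F B :=
  (Nat.card N : F)⁻¹ • ∑ z, (LinearMap.mulRight F (v z⁻¹)).comp
    (μ.flip (v z) - LinearMap.mulRight F (v z))

/-- `γ` permutes the group and respects the second multiplication. -/
structure Cp (v : N → B) (μ : B →ₗ[F] B →ₗ[F] B) (σ : RingAut F) (γ : RingAut B) (δ : N ≃* N) :
    Prop where
  sl : SL F σ γ
  gr : ∀ x, γ (v x) = v (δ x)
  mu : ∀ x y, γ (μ x y) = μ (γ x) (γ y)

end

end Pool.Agent.Lib.MP_1ae3da_al.CT.Z
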