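import Pool.Agent.Lib.MP_1ae3da_al.Z.Xd

/-! The averaged defect. -/

namespace Pool.Agent.Lib.MP_1ae3da_al.CT.Z

open Submodule

set_option linter.unusedSectionVars false

variable {F B N : Type} [Field F] [CharZero F] [Ring B] [Algebra F B] [Group N] [Fintype N]
  {p c w m : ℕ} {Λ : AddSubgroup B} {D : Subgroup N} {v : N → B} {μ : B →ₗ[F] B →ₗ[F] B}

theorem Kop_apply (x : B) :
    Kop v μ x = (Nat.card N : F)⁻¹ • ∑ z, (μ x (v z) - x * v z) * v z⁻¹ := by
  simp [Kop, LinearMap.sum_apply]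

omit [CharZero F] [Group N] [Fintype N] in
theorem zXk_r (ha : ∀ x y z, μ (μ x y) z = μ x (μ y z)) {t : N} (ht : Exb v μ t) (x y : B) :
    μ x (y * v t) - x * (y * v t) = (μ x y - x * y) * v t := by
  rw [← (ht y).2, ← ha, (ht _).2, (ht y).2, sub_mul, mul_assoc]

omit [CharZero F] [Fintype N] in
theorem zXk_v (h : Gb F p Λ v) (d z : N) : v d * v (z * d)⁻¹ = v z⁻¹ := by
  rw [h.mul, mul_inv_rev, mul_inv_cancel_left]

theorem zXk_mul (h : Gb F p Λ v) (x y : B) :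
    (Nat.card N : F)⁻¹ • ∑ z, (μ x (y * v z) - x * (y * v z)) * v z⁻¹ = Kop v μ x * y := by
  have hy : y ∈ span F (Set.range v) := h.top ▸ mem_top
  induction hy using span_induction with
  | mem y hy =>
    obtain ⟨n, rfl⟩ := hy
    rw [Kop_apply, smul_mul_assoc, Finset.sum_mul,
      ← Equiv.sum_comp (Equiv.mulLeft n) fun z => (μ x (v z) - x * v z) * v z⁻¹ * v n]
    congr 1
    refine Finset.sum_congr rfl fun z _ => ?_
    rw [Equiv.coe_mulLeft, h.mul, mul_assoc _ _ (v n), h.mul, mul_inv_rev, inv_mul_cancel_right]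
  | zero => simp
  | add a b _ _ h1 h2 =>
    rw [mul_add, ← h1, ← h2, ← smul_add, ← Finset.sum_add_distrib]
    congr 1
    refine Finset.sum_congr rfl fun z _ => ?_
    rw [add_mul, map_add]
    noncomm_ring
  | smul a b _ h1 =>
    rw [mul_smul_comm, ← h1, smul_comm a, Finset.smul_sum (r := a)]
    congr 1
    refine Finset.sum_congr rfl fun z _ => ?_
    rw [smul_mul_assoc, map_smul, mul_smul_comm, ← smul_sub, smul_mul_assoc]

/-- hint: `kz_avg`; `μ x (v z * v d) = μ x (μ (v z) (v d)) = μ x (v z) * v d`. -/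
theorem xk_sm (hp : p ≠ 0) (h : Gb F p Λ v) (hi : D.index = p ^ w * m) (hm : ¬ p ∣ m)
    (hc : w ≤ c) (ha : Aq p c Λ D v μ) : Sm p (c - w) Λ (Kop v μ) := by
  intro x hx
  rw [Lm_eq, Kop_apply]
  refine kz_avg hp h.lat hi hm (fun z => ?_) fun z d hd => ?_
  · exact Lk_anti (by omega) (h.lat.mul_right (ha.df x hx _ (h.mem z)) (h.mem _))
  · rw [← h.mul z d, zXk_r ha.ass (ha.ex d hd), mul_assoc, zXk_v h]

omit [CharZero F] [Fintype N] in
theorem zXk_dl (ha : Aq p c Λ D v μ) {k : ℕ} {x y : B} (hx : x ∈ Lk F p k Λ) (hy : y ∈ Λ) :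
    μ x y - x * y ∈ Lk F p (k + c) Λ := by
  obtain ⟨a, h1, rfl⟩ := hx
  obtain ⟨b, h2, h3⟩ := ha.df a h1 y hy
  refine ⟨b, h2, ?_⟩
  rw [map_smul, LinearMap.smul_apply, smul_mul_assoc, ← smul_sub, h3, smul_smul, pow_add]

omit [CharZero F] [Fintype N] in
theorem zXk_dr (ha : Aq p c Λ D v μ) {k : ℕ} {x y : B} (hx : x ∈ Λ) (hy : y ∈ Lk F p k Λ) :
    μ x y - x * y ∈ Lk F p (k + c) Λ := by
  obtain ⟨a, h1, rfl⟩ := hy
  obtain ⟨b, h2, h3⟩ := ha.df x hx a h1
  refine ⟨b, h2, ?_⟩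
  rw [map_smul, mul_smul_comm, ← smul_sub, h3, smul_smul, pow_add]

/-- with `d x y = μ x y - x * y`: associativity reads
`d x y * z + d (x y) z - x * d y z - d x (y z) = d x (d y z) - d (d x y) z`; put `z = v z`,
multiply by `v z⁻¹`, average (`kz_avg`); the average of `d x (y * v z) * v z⁻¹` is `K x * y`
(for `y = v n` by reindexing, then by linearity). -/
theorem xk_df (hp : p ≠ 0) (h : Gb F p Λ v) (hi : D.index = p ^ w * m) (hm : ¬ p ∣ m)
    (hc : w ≤ c) (ha : Aq p c Λ D v μ) {x y : B} (hx : x ∈ Λ) (hy : y ∈ Λ) :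
    μ x y - x * y - (Kop v μ x * y + x * Kop v μ y - Kop v μ (x * y)) ∈
      Lk F p (c + (c - w)) Λ := by
  have hn : (Nat.card N : F) ≠ 0 := Nat.cast_ne_zero.2 Nat.card_pos.ne'
  have e1 : ∀ z, (μ x (μ y (v z) - y * v z) - x * (μ y (v z) - y * v z) -
      (μ (μ x y - x * y) (v z) - (μ x y - x * y) * v z)) * v z⁻¹ =
      (μ x y - x * y) - ((μ x (y * v z) - x * (y * v z)) * v z⁻¹ +
        x * ((μ y (v z) - y * v z) * v z⁻¹) - (μ (x * y) (v z) - x * y * v z) * v z⁻¹) := by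
    intro z
    have e2 : μ x y - x * y = (μ x y - x * y) * v z * v z⁻¹ := by
      rw [mul_assoc, h.mul, mul_inv_cancel, h.one, mul_one]
    conv_rhs => rw [e2]
    rw [map_sub, map_sub, LinearMap.sub_apply, ha.ass]
    noncomm_ring
  have e5 : (Nat.card N : F)⁻¹ • ∑ _z : N, (μ x y - x * y) = μ x y - x * y := by
    rw [Finset.sum_const, Finset.card_univ, ← Nat.cast_smul_eq_nsmul F, ← Nat.card_eq_fintype_card,
      smul_smul, inv_mul_cancel₀ hn, one_smul]
  have e3 : μ x y - x * y - (Kop v μ x * y + x * Kop v μ y - Kop v μ (x * y)) =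
      (Nat.card N : F)⁻¹ • ∑ z, (μ x (μ y (v z) - y * v z) - x * (μ y (v z) - y * v z) -
        (μ (μ x y - x * y) (v z) - (μ x y - x * y) * v z)) * v z⁻¹ := by
    rw [Finset.sum_congr rfl fun z _ => e1 z, Finset.sum_sub_distrib, smul_sub, e5,
      Finset.sum_sub_distrib, Finset.sum_add_distrib, smul_sub, smul_add, zXk_mul h,
      ← Finset.mul_sum, ← mul_smul_comm, ← Kop_apply, ← Kop_apply]
  rw [e3]
  refine kz_avg hp h.lat hi hm (fun z => ?_) fun z d hd => ?_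
  · refine Lk_anti (by omega) (h.lat.mul_right (n := c + c) (sub_mem ?_ ?_) (h.mem _))
    · exact zXk_dr ha hx (ha.df y hy _ (h.mem z))
    · exact zXk_dl ha (ha.df x hx y hy) (h.mem z)
  · rw [← h.mul z d, zXk_r ha.ass (ha.ex d hd), zXk_r ha.ass (ha.ex d hd),
      zXk_r ha.ass (ha.ex d hd), ← sub_mul, mul_assoc, zXk_v h]

theorem xk_ex (h : Gb F p Λ v) (ha : ∀ x y z, μ (μ x y) z = μ x (μ y z)) {t : N}
    (ht : Exb v μ t) : Kop v μ (v t) = 0 ∧ ∀ x, Kop v μ (v t * x) = v t * Kop v μ x ∧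
      Kop v μ (x * v t) = Kop v μ x * v t := by
  refine ⟨by simp [Kop_apply, (ht _).1], fun x => ⟨?_, ?_⟩⟩
  · rw [Kop_apply, Kop_apply, mul_smul_comm, Finset.mul_sum]
    congr 1
    refine Finset.sum_congr rfl fun z _ => ?_
    rw [← (ht x).1, ha, (ht _).1, (ht x).1]
    noncomm_ring
  · rw [← zXk_mul h, Kop_apply]
    congr 1
    refine Finset.sum_congr rfl fun z _ => ?_
    rw [mul_assoc x, ← (ht x).2, ha, (ht _).1]

theorem xk_cp {σ : RingAut F} {γ : RingAut B} {δ : N ≃* N} (h : Cp v μ σ γ δ) (x : B) :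
    γ (Kop v μ x) = Kop v μ (γ x) := by
  rw [Kop_apply, Kop_apply, h.sl, map_sum, map_inv₀, map_natCast,
    ← δ.toEquiv.sum_comp fun z => (μ (γ x) (v z) - γ x * v z) * v z⁻¹]
  simp only [map_mul, map_sub, h.gr, h.mu, map_inv, MulEquiv.toEquiv_eq_coe, EquivLike.coe_coe]

/-- hint: geometric series with `Ltt.cpl`, `Ltt.sep` gives `g Λ = Λ`; so `g` is onto, hence
bijective. -/
theorem xk_inv (h : Gb F p Λ v) {g : Module.End F B} (hg : Sm p 1 Λ (g - 1)) :
    ∃ e : B ≃ₗ[F] B, (∀ x, e x = g x) ∧ ∀ x ∈ Λ, e.symm x ∈ Λ := by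
  have := h.fin
  have h1 : ∀ k, ∀ x ∈ Lk F p k Λ, (1 - g) x ∈ Lk F p (k + 1) Λ := by
    rintro k _ ⟨a, ha, rfl⟩
    obtain ⟨b, hb, e⟩ := hg a ha
    refine ⟨-b, neg_mem hb, ?_⟩
    rw [← neg_sub, LinearMap.neg_apply, map_smul, e, smul_smul, smul_neg, pow_add]
  have h2 : ∀ x ∈ Λ, ∀ k, ((1 - g) ^ k) x ∈ Lk F p k Λ := fun x hx k => by
    induction k with
    | zero => simpa [Lk_zero] using hx
    | succ k ih =>
      rw [pow_succ', Module.End.mul_apply]
      exact h1 k _ ih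
  have h3 : ∀ x ∈ Λ, ∃ y ∈ Λ, g y = x := fun x hx => by
    obtain ⟨y, hy⟩ := h.lat.cpl (fun k => (∑ i ∈ Finset.range k, (1 - g) ^ i) x) fun k => by
      simpa [Finset.sum_range_succ] using h2 x hx k
    refine ⟨y, by simpa [Lk_zero] using hy 0, sub_eq_zero.1 (h.lat.sep _ fun k => ?_)⟩
    have e1 : g * ∑ i ∈ Finset.range k, (1 - g) ^ i = 1 - (1 - g) ^ k := by
      have := mul_neg_geom_sum (1 - g) k
      rwa [sub_sub_cancel] at this
    have e2 : g y - x = (y - (∑ i ∈ Finset.range k, (1 - g) ^ i) x) -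
        (1 - g) (y - (∑ i ∈ Finset.range k, (1 - g) ^ i) x) - ((1 - g) ^ k) x := by
      have e3 := congrArg (fun T : Module.End F B => T x) e1
      simp only [Module.End.mul_apply, LinearMap.sub_apply, Module.End.one_apply] at e3
      rw [LinearMap.sub_apply, Module.End.one_apply, map_sub g, e3]
      abel
    rw [e2]
    exact sub_mem (sub_mem (hy k) (Lk_anti (Nat.le_succ k) (h1 k _ (hy k)))) (h2 x hx k)
  have h4 : Function.Surjective g := by
    rw [← LinearMap.range_eq_top, eq_top_iff, ← h.top, span_le]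
    rintro _ ⟨n, rfl⟩
    obtain ⟨y, -, e⟩ := h3 _ (h.mem n)
    exact ⟨y, e⟩
  refine ⟨LinearEquiv.ofBijective g ⟨LinearMap.injective_iff_surjective.2 h4, h4⟩, fun _ => rfl,
    fun x hx => ?_⟩
  obtain ⟨y, hy, rfl⟩ := h3 x hx
  rwa [LinearEquiv.ofBijective_symm_apply_apply]

end Pool.Agent.Lib.MP_1ae3da_al.CT.Z
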