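import Pool.Agent.Lib.MP_1ae3da_al.Z.Xs

/-! The limit of the gauge transformations. -/

namespace Pool.Agent.Lib.MP_1ae3da_al.CT.Z

open Submodule

variable {F B N : Type} [Field F] [CharZero F] [Ring B] [Algebra F B] [Group N] [Finite N]
  {p c w m : ℕ} {Λ : AddSubgroup B} {D : Subgroup N} {v : N → B} {μ : B →ₗ[F] B →ₗ[F] B}

omit [CharZero F] in
theorem zXl_ex {Φ : Type} [FunLike Φ B B] [AddMonoidHomClass Φ B B] (φ : Φ) {T : Module.End F B}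
    (hT : ∀ x, φ (T x) = T (φ x)) (n : ℕ) (x : B) : φ (Ex n T x) = Ex n T (φ x) := by
  have h1 : ∀ i x, φ ((T ^ i) x) = (T ^ i) (φ x) := fun i => by
    induction i with
    | zero => intro x; rfl
    | succ i ih => intro x; rw [pow_succ, Module.End.mul_apply, Module.End.mul_apply, ih, hT]
  simp only [Ex, LinearMap.sum_apply, LinearMap.smul_apply, map_sum]
  exact Finset.sum_congr rfl fun i _ => by rw [map_inv_natCast_smul φ F F, h1]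

omit [CharZero F] in
theorem zXl_fix {T : Module.End F B} {x : B} (hx : T x = 0) (n : ℕ) : Ex (n + 1) T x = x := by
  simp [Ex, LinearMap.sum_apply, Finset.sum_range_succ', pow_succ, hx]

omit [CharZero F] in
theorem zXl_map {T : B →ₗ[F] B} (hT : ∀ x ∈ Λ, T x ∈ Λ) {k : ℕ} {x : B} (hx : x ∈ Lk F p k Λ) :
    T x ∈ Lk F p k Λ := by
  obtain ⟨a, ha, rfl⟩ := hx
  exact ⟨_, hT a ha, map_smul _ _ _⟩

/-- hint: `g = Ex (2 * (c + 1)) (-Kop v μ)` (`xk_inv`), `μ' x y = g⁻¹ (μ (g x) (g y))`. -/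
theorem xl_step (hp : p.Prime) (h2 : p ≠ 2) (h : Gb F p Λ v) (hi : D.index = p ^ w * m)
    (hm : ¬ p ∣ m) (hc : w < c) (ha : Aq p c Λ D v μ) :
    ∃ (g : Module.End F B) (μ' : B →ₗ[F] B →ₗ[F] B), Aq p (c + 1) Λ D v μ' ∧
      Sm p (c - w) Λ (g - 1) ∧ (∀ x y, g (μ' x y) = μ (g x) (g y)) ∧
      (∀ t, Exb v μ t → Exb v μ' t ∧ g (v t) = v t) ∧
      ∀ σ γ δ, Cp v μ σ γ δ → Cp v μ' σ γ δ ∧ ∀ x, γ (g x) = g (γ x) := by
  have := Fintype.ofFinite N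
  have hK : Sm p (c - w) Λ (-Kop v μ) := fun x hx =>
    neg_mem (xk_sm hp.ne_zero h hi hm hc.le ha x hx)
  have hg := xp_one (n := 2 * (c + 1)) hp h2 h.lat.inv (by omega) (by omega) hK
  have hd := fun x hx y hy => xs_df hp h2 h hi hm hc ha (x := x) (y := y) hx hy
  have h1 : ∀ t, Exb v μ t → Ex (2 * (c + 1)) (-Kop v μ) (v t) = v t ∧ ∀ x,
      v t * Ex (2 * (c + 1)) (-Kop v μ) x = Ex (2 * (c + 1)) (-Kop v μ) (v t * x) ∧
      Ex (2 * (c + 1)) (-Kop v μ) x * v t = Ex (2 * (c + 1)) (-Kop v μ) (x * v t) := fun t ht => by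
    obtain ⟨k0, k1⟩ := xk_ex h ha.ass ht
    exact ⟨zXl_fix (n := 2 * c + 1) (by rw [LinearMap.neg_apply, k0, neg_zero]), fun x =>
      ⟨zXl_ex (AddMonoidHom.mulLeft (v t)) (fun y => by simp [(k1 y).1]) _ x,
        zXl_ex (AddMonoidHom.mulRight (v t)) (fun y => by simp [(k1 y).2]) _ x⟩⟩
  have h3 : ∀ σ γ δ, Cp v μ σ γ δ → ∀ x, γ (Ex (2 * (c + 1)) (-Kop v μ) x) =
      Ex (2 * (c + 1)) (-Kop v μ) (γ x) := fun σ γ δ k x =>
    zXl_ex γ (fun y => by simp [xk_cp k y]) _ x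
  generalize Ex (2 * (c + 1)) (-Kop v μ) = g at hg hd h1 h3
  obtain ⟨e, he, hs⟩ := xk_inv h (g := g) fun x hx => Lm_anti (by omega) (hg x hx)
  have e1 : ∀ x, g (e.symm x) = x := fun x => by rw [← he, e.apply_symm_apply]
  have e2 : ∀ x, e.symm (g x) = x := fun x => by rw [← he, e.symm_apply_apply]
  obtain ⟨ν, hν⟩ : ∃ ν : B →ₗ[F] B →ₗ[F] B, ∀ x y, ν x y = e.symm (μ (g x) (g y)) :=
    ⟨(μ.compl₁₂ g g).compr₂ e.symm.toLinearMap, fun _ _ => rfl⟩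
  have h4 : ∀ t, Exb v μ t → Exb v ν t := fun t ht x => by
    rw [hν, hν, (h1 t ht).1, (ht _).1, (ht _).2, ((h1 t ht).2 x).1, ((h1 t ht).2 x).2, e2, e2]
    exact ⟨rfl, rfl⟩
  refine ⟨g, ν, ⟨fun x y z => ?_, fun x hx y hy => ?_, fun d hd => h4 d (ha.ex d hd)⟩, hg,
    fun x y => by rw [hν, e1], fun t ht => ⟨h4 t ht, (h1 t ht).1⟩,
    fun σ γ δ k => ⟨⟨k.sl, k.gr, fun x y => ?_⟩, h3 σ γ δ k⟩⟩
  · simp only [hν, e1, ha.ass]
  · have := zXl_map (T := e.symm.toLinearMap) hs (hd x hx y hy)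
    rwa [map_sub, LinearEquiv.coe_coe, e2, ← hν] at this
  · rw [hν, hν, ← h3 σ γ δ k, ← h3 σ γ δ k, ← k.mu, ← e2 (γ (e.symm _)), ← h3 σ γ δ k, e1]

/-- hint: iterate `xl_step` (dependent choice on the subtype of `μ` with `Aq (c + k)`), put
`G (k + 1) = G k * g k`, `Θ x = lim G k (v x)` (`Ltt.cpl`); identities by `Ltt.sep`. Compare Z/Kl. -/
theorem xl_lim (hp : p.Prime) (h2 : p ≠ 2) (h : Gb F p Λ v) (hi : D.index = p ^ w * m)
    (hm : ¬ p ∣ m) (hc : w < c) (ha : Aq p c Λ D v μ) :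
    ∃ Θ : N → B, (∀ x y, Θ (x * y) = μ (Θ x) (Θ y)) ∧ (∀ x, Θ x - v x ∈ Lk F p 1 Λ) ∧
      (∀ t, Exb v μ t → Θ t = v t) ∧
      ∀ σ γ δ, Cp v μ σ γ δ → (∀ y ∈ Λ, γ y ∈ Λ) → ∀ x, γ (Θ x) = Θ (δ x) := by
  choose g ν H using fun (k : ℕ) (a : {ν : B →ₗ[F] B →ₗ[F] B // Aq p (c + k) Λ D v ν}) =>
    xl_step hp h2 h hi hm (show w < c + k by omega) a.2
  obtain ⟨s, s0, s1⟩ : ∃ s : ∀ k, {ν : B →ₗ[F] B →ₗ[F] B // Aq p (c + k) Λ D v ν},
      (s 0).1 = μ ∧ ∀ k, (s (k + 1)).1 = ν k (s k) :=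
    ⟨fun k => Nat.rec ⟨μ, ha⟩ (fun k a => ⟨ν k a, (H k a).1⟩) k, rfl, fun _ => rfl⟩
  obtain ⟨G, G0, G1⟩ : ∃ G : ℕ → Module.End F B, (∀ x, G 0 x = x) ∧
      ∀ k x, G (k + 1) x = G k (g k (s k) x) :=
    ⟨fun k => Nat.rec 1 (fun k G => G * g k (s k)) k, fun _ => rfl, fun _ _ => rfl⟩
  have hg : ∀ k, ∀ x ∈ Λ, g k (s k) x - x ∈ Lk F p (k + 1) Λ := fun k x hx =>
    Lk_anti (by omega) ((H k (s k)).2.1 x hx)
  have h1 : ∀ k, ∀ x ∈ Λ, G k x ∈ Λ := fun k => by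
    induction k with
    | zero => intro x hx; rwa [G0]
    | succ k ih =>
      intro x hx
      rw [G1]
      exact ih _ (by simpa using add_mem (Lk_le (hg k x hx)) hx)
  have h3 : ∀ k x y, G k ((s k).1 x y) = μ (G k x) (G k y) := fun k => by
    induction k with
    | zero => intro x y; rw [G0, G0, G0, s0]
    | succ k ih => intro x y; rw [G1, G1, G1, s1, (H k (s k)).2.2.1, ih]
  have h4 : ∀ x k, G (k + 1) (v x) - G k (v x) ∈ Lk F p (k + 1) Λ := fun x k => by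
    rw [G1, ← map_sub]
    exact zXl_map (h1 k) (hg k _ (h.mem x))
  have hμ : ∀ x ∈ Λ, ∀ y ∈ Λ, μ x y ∈ Λ := fun x hx y hy => by
    simpa using add_mem (Lk_le (ha.df x hx y hy)) (h.lat.mul x hx y hy)
  choose Θ hΘ using fun x => h.lat.cpl (fun k => G k (v x))
    fun k => Lk_anti (by omega) (h4 x k)
  have h5 : ∀ x, Θ x ∈ Λ := fun x => by
    simpa using add_mem (Lk_le (hΘ x 0)) (h1 0 _ (h.mem x))
  refine ⟨Θ, fun x y => ?_, fun x => ?_, fun t ht => ?_, fun σ γ δ hγ hΛ x => ?_⟩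
  · refine sub_eq_zero.1 (h.lat.sep _ fun k => ?_)
    have e : Θ (x * y) - μ (Θ x) (Θ y) = (Θ (x * y) - G k (v (x * y))) -
        G k ((s k).1 (v x) (v y) - v x * v y) - μ.flip (Θ y) (Θ x - G k (v x)) -
        μ (G k (v x)) (Θ y - G k (v y)) := by
      simp only [map_sub, h3, h.mul, LinearMap.flip_apply]
      abel
    rw [e]
    exact sub_mem (sub_mem (sub_mem (hΘ _ k) (zXl_map (h1 k) (Lk_anti (by omega)
      ((s k).2.df _ (h.mem x) _ (h.mem y))))) (zXl_map (fun z hz => hμ z hz _ (h5 y)) (hΘ x k)))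
      (zXl_map (hμ _ (h1 k _ (h.mem x))) (hΘ y k))
  · have := add_mem (hΘ x 1) (h4 x 0)
    rwa [G0, zero_add, sub_add_sub_cancel] at this
  · have h6 : ∀ k, Exb v (s k).1 t ∧ G k (v t) = v t := fun k => by
      induction k with
      | zero => exact ⟨s0 ▸ ht, G0 _⟩
      | succ k ih =>
        have := (H k (s k)).2.2.2.1 t ih.1
        rw [s1, G1, this.2]
        exact ⟨this.1, ih.2⟩
    refine sub_eq_zero.1 (h.lat.sep _ fun k => ?_)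
    have := hΘ t k
    rwa [(h6 k).2] at this
  · have h6 : ∀ k, Cp v (s k).1 σ γ δ ∧ ∀ y, γ (G k y) = G k (γ y) := fun k => by
      induction k with
      | zero => exact ⟨s0 ▸ hγ, fun y => by rw [G0, G0]⟩
      | succ k ih =>
        have := (H k (s k)).2.2.2.2 σ γ δ ih.1
        rw [s1]
        exact ⟨this.1, fun y => by rw [G1, G1, ih.2, this.2]⟩
    refine sub_eq_zero.1 (h.lat.sep _ fun k => ?_)
    have := sub_mem (map_Lk hγ.sl hΛ (hΘ x k)) (hΘ (δ x) k)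
    rwa [map_sub, (h6 k).2, hγ.gr, sub_sub_sub_cancel_right] at this

end Pool.Agent.Lib.MP_1ae3da_al.CT.Z
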