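import Pool.Agent.Lib.MP_1ae3da_al.Z.Xd

/-! Truncated exponentials of small operators, for odd `p`. -/

namespace Pool.Agent.Lib.MP_1ae3da_al.CT.Z

open Submodule

variable {F W : Type} [Field F] [CharZero F] [AddCommGroup W] [Module F W] {p k s n : ℕ}
  {M : AddSubgroup W} {S T : Module.End F W}

theorem Lm_anti {m : ℕ} (h : m ≤ n) : Lm F p n M ≤ Lm F p m M := by
  rintro _ ⟨y, hy, rfl⟩
  refine ⟨p ^ (n - m) • y, nsmul_mem hy _, ?_⟩
  rw [← Nat.cast_smul_eq_nsmul F, smul_smul, Nat.cast_pow, ← pow_add, Nat.add_sub_cancel' h]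

theorem Sm.map (h : Sm p s M T) {x : W} (hx : x ∈ Lm F p k M) : T x ∈ Lm F p (s + k) M := by
  obtain ⟨y, hy, rfl⟩ := hx
  obtain ⟨z, hz, e⟩ := h y hy
  exact ⟨z, hz, by rw [map_smul, e, smul_smul, ← pow_add, add_comm]⟩

theorem zxp_val (hp : p.Prime) (h2 : p ≠ 2) (i : ℕ) : padicValNat p i.factorial ≤ (i - 1) / 2 := by
  have := Fact.mk hp
  rcases Nat.eq_zero_or_pos i with rfl | hi
  · simp
  have h1 := sub_one_mul_padicValNat_factorial_lt_of_ne_zero p hi.ne'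
  have h4 : 2 ≤ p - 1 := by have := hp.two_le; omega
  have := Nat.mul_le_mul_right (padicValNat p i.factorial) h4
  omega

/-- hint: `sub_one_mul_padicValNat_factorial` gives `2 * v (i !) ≤ i - 1`; write
`i ! = p ^ v * m`. -/
theorem xp_div (hp : p.Prime) (h2 : p ≠ 2)
    (hM : ∀ m : ℕ, ¬ p ∣ m → ∀ x ∈ M, (m : F)⁻¹ • x ∈ M) (i : ℕ) {x : W}
    (hx : x ∈ Lm F p (k + (i - 1) / 2) M) : ((i.factorial : ℕ) : F)⁻¹ • x ∈ Lm F p k M := by
  have := Fact.mk hp
  obtain ⟨m, hm⟩ : p ^ padicValNat p i.factorial ∣ i.factorial := pow_padicValNat_dvd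
  have h3 : ¬ p ∣ m := fun h => pow_succ_padicValNat_not_dvd (p := p) i.factorial_ne_zero (by
    rw [pow_succ]
    exact (mul_dvd_mul_left _ h).trans hm.symm.dvd)
  obtain ⟨y, hy, rfl⟩ := Lm_anti (Nat.add_le_add_left (zxp_val hp h2 i) k) hx
  refine ⟨_, hM m h3 y hy, ?_⟩
  have h4 : (p : F) ≠ 0 := Nat.cast_ne_zero.2 hp.ne_zero
  generalize padicValNat p i.factorial = v at hm
  rw [smul_smul, smul_smul, hm]
  congr 1
  push_cast
  rw [mul_inv, pow_add]
  field_simp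

theorem zxp_pow (h : Sm p s M T) (i : ℕ) {x : W} (hx : x ∈ Lm F p k M) :
    (T ^ i) x ∈ Lm F p (s * i + k) M := by
  induction i with
  | zero => simpa using hx
  | succ i ih =>
    rw [pow_succ', Module.End.mul_apply]
    exact Lm_anti (by rw [mul_add]; omega) (h.map ih)

theorem zxp_zero {x : W} (hx : x ∈ M) : x ∈ Lm F p 0 M := ⟨x, hx, by simp⟩

theorem xp_one (hp : p.Prime) (h2 : p ≠ 2)
    (hM : ∀ m : ℕ, ¬ p ∣ m → ∀ x ∈ M, (m : F)⁻¹ • x ∈ M) (hs : 0 < s) (hn : 0 < n)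
    (h : Sm p s M T) : Sm p s M (Ex n T - 1) := by
  obtain ⟨n, rfl⟩ : ∃ m, n = m + 1 := ⟨n - 1, by omega⟩
  intro x hx
  rw [Ex, Finset.sum_range_succ']
  simp only [Nat.factorial_zero, Nat.cast_one, inv_one, pow_zero, one_smul, add_sub_cancel_right,
    LinearMap.sum_apply, LinearMap.smul_apply]
  refine sum_mem fun i _ => xp_div hp h2 hM _ (Lm_anti ?_ (zxp_pow h (i + 1) (zxp_zero hx)))
  have := Nat.mul_le_mul_right i hs
  rw [mul_add]
  omega

theorem xp_two (hp : p.Prime) (h2 : p ≠ 2)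
    (hM : ∀ m : ℕ, ¬ p ∣ m → ∀ x ∈ M, (m : F)⁻¹ • x ∈ M) (hn : 2 ≤ n) (h : Sm p 1 M T)
    {x : W} (hx : T x ∈ Lm F p k M) : Ex n T x - (x + T x) ∈ Lm F p (k + 1) M := by
  obtain ⟨n, rfl⟩ : ∃ m, n = m + 1 + 1 := ⟨n - 2, by omega⟩
  rw [Ex, Finset.sum_range_succ', Finset.sum_range_succ']
  simp only [Nat.factorial_zero, Nat.cast_one, inv_one, pow_zero, one_smul, zero_add, pow_one,
    Nat.factorial_one, LinearMap.add_apply, LinearMap.sum_apply, LinearMap.smul_apply,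
    Module.End.one_apply]
  rw [add_assoc, add_comm (T x), add_sub_cancel_right]
  refine sum_mem fun i _ => xp_div hp h2 hM _ ?_
  rw [pow_succ, Module.End.mul_apply]
  exact Lm_anti (by omega) (zxp_pow h (i + 1) hx)

theorem zxp_add (hc : Commute S T) : Ex n (S + T) =
    ∑ q ∈ (Finset.range n ×ˢ Finset.range n).filter fun q => q.1 + q.2 < n,
      (((q.1.factorial : ℕ) : F)⁻¹ • S ^ q.1) * (((q.2.factorial : ℕ) : F)⁻¹ • T ^ q.2) := by
  refine Eq.trans ?_ (Finset.sum_fiberwise_of_maps_to (t := Finset.range n)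
    (g := fun q : ℕ × ℕ => q.1 + q.2) (fun q hq => Finset.mem_range.2 (Finset.mem_filter.1 hq).2) _)
  refine Finset.sum_congr rfl fun m hm => ?_
  rw [hc.add_pow', Finset.smul_sum]
  have hm' := Finset.mem_range.1 hm
  refine Finset.sum_congr ?_ fun q hq => ?_
  · ext q
    simp only [Finset.HasAntidiagonal.mem_antidiagonal, Finset.mem_filter, Finset.mem_product,
      Finset.mem_range]
    omega
  · obtain rfl : q.1 + q.2 = m := (Finset.mem_filter.1 hq).2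
    rw [smul_mul_smul_comm, ← Nat.cast_smul_eq_nsmul F, smul_smul, add_comm q.1,
      ← Nat.add_choose_mul_factorial_mul_factorial]
    have a1 : ((q.1.factorial : ℕ) : F) ≠ 0 := Nat.cast_ne_zero.2 q.1.factorial_ne_zero
    have a2 : ((q.2.factorial : ℕ) : F) ≠ 0 := Nat.cast_ne_zero.2 q.2.factorial_ne_zero
    have a3 : (((q.2 + q.1).choose q.1 : ℕ) : F) ≠ 0 :=
      Nat.cast_ne_zero.2 (Nat.choose_pos (by omega)).ne'
    congr 1
    push_cast
    field_simp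

/-- hint: `Commute.add_pow`; the difference is the sum of `(i !)⁻¹ (j !)⁻¹ S ^ i T ^ j` over
`i, j < n ≤ i + j`. -/
theorem xp_add (hp : p.Prime) (h2 : p ≠ 2)
    (hM : ∀ m : ℕ, ¬ p ∣ m → ∀ x ∈ M, (m : F)⁻¹ • x ∈ M) (hn : 2 * k ≤ n) (hS : Sm p 1 M S)
    (hT : Sm p 1 M T) (hc : Commute S T) : Sm p k M (Ex n S * Ex n T - Ex n (S + T)) := by
  intro x hx
  rw [zxp_add hc, Ex, Ex, Finset.sum_mul_sum, ← Finset.sum_product',
    ← Finset.sum_filter_add_sum_filter_not _ fun q : ℕ × ℕ => q.1 + q.2 < n, add_sub_cancel_left,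
    LinearMap.sum_apply]
  refine sum_mem fun q hq => ?_
  have h1 := (Finset.mem_filter.1 hq).2
  rw [Module.End.mul_apply, LinearMap.smul_apply, LinearMap.smul_apply]
  have h3 := xp_div (k := q.2 - (q.2 - 1) / 2) hp h2 hM q.2
    (Lm_anti (by omega) (zxp_pow hT q.2 (zxp_zero hx)))
  exact xp_div hp h2 hM _ (Lm_anti (by omega) (zxp_pow hS q.1 h3))

end Pool.Agent.Lib.MP_1ae3da_al.CT.Z
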