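import Pool.Agent.Lib.MP_1ae3da_al.Z.Xp
import Pool.Agent.Lib.MP_1ae3da_al.Z.Xk

/-! One gauge transformation. -/

namespace Pool.Agent.Lib.MP_1ae3da_al.CT.Z

open Submodule

section
variable {F B : Type} [Field F] [Ring B] [Algebra F B]

/-- the operator acts on the first argument. -/
def zxsA (T : Module.End F B) : Module.End F (B →ₗ[F] B →ₗ[F] B) where
  toFun ν := ν.comp T
  map_add' _ _ := rfl
  map_smul' _ _ := rfl

/-- the operator acts on the second argument. -/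
def zxsB (T : Module.End F B) : Module.End F (B →ₗ[F] B →ₗ[F] B) where
  toFun ν := ν.compl₂ T
  map_add' _ _ := rfl
  map_smul' _ _ := rfl

/-- the operator acts on the value. -/
def zxsC (T : Module.End F B) : Module.End F (B →ₗ[F] B →ₗ[F] B) where
  toFun ν := ν.compr₂ T
  map_add' _ _ := by ext; simp
  map_smul' _ _ := by ext; simp

variable (T : Module.End F B) (ν : B →ₗ[F] B →ₗ[F] B) (x y : B)

theorem zxsA_ap : zxsA T ν x y = ν (T x) y := rfl
theorem zxsB_ap : zxsB T ν x y = ν x (T y) := rfl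
theorem zxsC_ap : zxsC T ν x y = T (ν x y) := rfl

theorem zxsA_pow (i : ℕ) : (zxsA T ^ i) ν x y = ν ((T ^ i) x) y := by
  induction i generalizing x with
  | zero => rfl
  | succ i ih => rw [pow_succ', Module.End.mul_apply, zxsA_ap, ih, pow_succ, Module.End.mul_apply]

theorem zxsB_pow (i : ℕ) : (zxsB T ^ i) ν x y = ν x ((T ^ i) y) := by
  induction i generalizing y with
  | zero => rfl
  | succ i ih => rw [pow_succ', Module.End.mul_apply, zxsB_ap, ih, pow_succ, Module.End.mul_apply]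

theorem zxsC_pow (i : ℕ) : (zxsC T ^ i) ν x y = (T ^ i) (ν x y) := by
  induction i with
  | zero => rfl
  | succ i ih => rw [pow_succ', Module.End.mul_apply, zxsC_ap, ih, pow_succ', Module.End.mul_apply]

theorem zxsA_ex (n : ℕ) : Ex n (zxsA T) ν x y = ν (Ex n T x) y := by
  simp only [Ex, LinearMap.sum_apply, LinearMap.smul_apply, zxsA_pow, map_sum, map_smul]

theorem zxsB_ex (n : ℕ) : Ex n (zxsB T) ν x y = ν x (Ex n T y) := by
  simp only [Ex, LinearMap.sum_apply, LinearMap.smul_apply, zxsB_pow, map_sum, map_smul]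

theorem zxsC_ex (n : ℕ) : Ex n (zxsC T) ν x y = Ex n T (ν x y) := by
  simp only [Ex, LinearMap.sum_apply, LinearMap.smul_apply, zxsC_pow]

theorem zxs_AB : Commute (zxsA T) (zxsB T) := rfl
theorem zxs_CA : Commute (zxsC T) (zxsA T) := rfl
theorem zxs_CB : Commute (zxsC T) (zxsB T) := rfl

variable (F) in
/-- the lattice of the bilinear maps that preserve the lattice. -/
def zxsM (Λ : AddSubgroup B) : AddSubgroup (B →ₗ[F] B →ₗ[F] B) where
  carrier := {ν | ∀ x ∈ Λ, ∀ y ∈ Λ, ν x y ∈ Λ}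
  zero_mem' := fun _ _ _ _ => zero_mem _
  add_mem' := fun ha hb x hx y hy => add_mem (ha x hx y hy) (hb x hx y hy)
  neg_mem' := fun ha x hx y hy => neg_mem (ha x hx y hy)

variable {T ν}

theorem zxs_mem [CharZero F] {p k : ℕ} {Λ : AddSubgroup B} (hp : p ≠ 0) :
    ν ∈ Lm F p k (zxsM F Λ) ↔ ∀ x ∈ Λ, ∀ y ∈ Λ, ν x y ∈ Lk F p k Λ := by
  have q : (p : F) ^ k ≠ 0 := pow_ne_zero _ (Nat.cast_ne_zero.2 hp)
  constructor
  · rintro ⟨a, ha, rfl⟩ x hx y hy
    exact ⟨a x y, ha x hx y hy, rfl⟩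
  · refine fun h => ⟨((p : F) ^ k)⁻¹ • ν, fun x hx y hy => ?_, (smul_inv_smul₀ q ν).symm⟩
    obtain ⟨z, hz, e⟩ := h x hx y hy
    rw [LinearMap.smul_apply, LinearMap.smul_apply, e, inv_smul_smul₀ q]
    exact hz

theorem zxs_sm [CharZero F] {p : ℕ} {Λ : AddSubgroup B} (hp : p ≠ 0) (h : Sm p 1 Λ T) :
    Sm p 1 (zxsM F Λ) (zxsA T) ∧ Sm p 1 (zxsM F Λ) (zxsB T) ∧ Sm p 1 (zxsM F Λ) (zxsC T) := by
  refine ⟨fun ν hν => (zxs_mem hp).2 fun x hx y hy => ?_,
    fun ν hν => (zxs_mem hp).2 fun x hx y hy => ?_,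
    fun ν hν => (zxs_mem hp).2 fun x hx y hy => h _ (hν x hx y hy)⟩
  · obtain ⟨z, hz, e⟩ := h x hx
    exact ⟨ν z y, hν z hz y hy, by rw [zxsA_ap, e, map_smul, LinearMap.smul_apply]⟩
  · obtain ⟨z, hz, e⟩ := h y hy
    exact ⟨ν x z, hν x hx z hz, by rw [zxsB_ap, e, map_smul]⟩

end

/-- the computation in an abstract module. -/
theorem zxs_abs {F W : Type} [Field F] [CharZero F] [AddCommGroup W] [Module F W] {p c : ℕ}
    {M : AddSubgroup W} {A B C : Module.End F W} {μ ν : W} (hp : p.Prime) (h2 : p ≠ 2)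
    (hM : ∀ m : ℕ, ¬ p ∣ m → ∀ x ∈ M, (m : F)⁻¹ • x ∈ M) (sA : Sm p 1 M A) (sB : Sm p 1 M B)
    (sC : Sm p 1 M C) (ab : Commute A B) (ca : Commute C A) (cb : Commute C B) (m0 : μ ∈ M)
    (d0 : μ - ν ∈ Lm F p c M) (d1 : μ - ν + (A ν + B ν - C ν) ∈ Lm F p (c + 1) M) :
    Ex (2 * (c + 1)) A (Ex (2 * (c + 1)) B μ) - Ex (2 * (c + 1)) C ν ∈ Lm F p (c + 1) M := by
  set n := 2 * (c + 1) with hn
  set L := A + B - C with hL
  replace d1 : μ - ν + L ν ∈ Lm F p (c + 1) M := d1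
  have sL : Sm p 1 M L := fun x hx => sub_mem (add_mem (sA x hx) (sB x hx)) (sC x hx)
  have cL : Commute C L := (ca.add_right cb).sub_right (Commute.refl _)
  have d2 : μ + L μ - ν ∈ Lm F p (c + 1) M := by
    have := add_mem d1 (Lm_anti (Nat.add_comm c 1).le (sL.map d0))
    convert this using 1
    rw [map_sub]
    abel
  have d3 : L μ ∈ Lm F p c M := by
    have := sub_mem (Lm_anti (Nat.le_succ c) d2) d0
    convert this using 1
    abel
  have d4 : Ex n L μ - ν ∈ Lm F p (c + 1) M := by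
    have := add_mem (xp_two hp h2 hM (n := n) (by omega) sL d3) d2
    convert this using 1
    abel
  have d5 : Ex n C (Ex n L μ - ν) ∈ Lm F p (c + 1) M := by
    have := add_mem (Lm_anti (Nat.le_add_left (c + 1) 1)
      ((xp_one hp h2 hM (n := n) one_pos (by omega) sC).map d4)) d4
    convert this using 1
    rw [LinearMap.sub_apply, Module.End.one_apply, sub_add_cancel]
  have e1 := xp_add hp h2 hM (k := c + 1) (n := n) le_rfl sA sB ab μ m0
  have e2 := xp_add hp h2 hM (k := c + 1) (n := n) le_rfl sC sL cL μ m0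
  rw [show C + L = A + B by rw [hL]; abel] at e2
  convert add_mem (sub_mem e1 e2) d5 using 1
  simp only [LinearMap.sub_apply, Module.End.mul_apply, map_sub]
  abel

variable {F B N : Type} [Field F] [CharZero F] [Ring B] [Algebra F B] [Group N] [Fintype N]
  {p c w m : ℕ} {Λ : AddSubgroup B} {D : Subgroup N} {v : N → B} {μ : B →ₗ[F] B →ₗ[F] B}

/-- hint: on `W = B →ₗ B →ₗ B` with the lattice `M = {ν | ∀ x ∈ Λ, ∀ y ∈ Λ, ν x y ∈ Λ}` the
operators `A1 ν = ν (K ·) ·`, `A2 ν = ν · (K ·)`, `A3 ν = K (ν · ·)` commute and are `Sm p 1`;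
`Ex n (-A1) (Ex n (-A2) μ) = μ (g ·) (g ·)`, `Ex n (-A3) ν = g (ν · ·)`. With `L = A1 + A2 - A3`:
`Ex (-A1) Ex (-A2) ≡ Ex (-A3 + -L) ≡ Ex (-A3) Ex (-L)` (`xp_add` twice), `L μ ≡ μ - mul` modulo
`p ^ (c + 1)` (`xk_df`), so `Ex (-L) μ ≡ mul` (`xp_two`). -/
theorem xs_df (hp : p.Prime) (h2 : p ≠ 2) (h : Gb F p Λ v) (hi : D.index = p ^ w * m)
    (hm : ¬ p ∣ m) (hc : w < c) (ha : Aq p c Λ D v μ) {x y : B} (hx : x ∈ Λ) (hy : y ∈ Λ) :
    μ (Ex (2 * (c + 1)) (-Kop v μ) x) (Ex (2 * (c + 1)) (-Kop v μ) y) -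
      Ex (2 * (c + 1)) (-Kop v μ) (x * y) ∈ Lk F p (c + 1) Λ := by
  have p0 := hp.ne_zero
  have hK : Sm p 1 Λ (-Kop v μ) := fun z hz =>
    neg_mem (Lm_anti (by omega) (xk_sm p0 h hi hm hc.le ha z hz))
  obtain ⟨sA, sB, sC⟩ := zxs_sm p0 hK
  have := (zxs_mem p0).1 (zxs_abs (c := c) (μ := μ) (ν := LinearMap.mul F B) hp h2
    (fun m hm ν hν x hx y hy => h.lat.inv m hm _ (hν x hx y hy)) sA sB sC (zxs_AB _) (zxs_CA _)
    (zxs_CB _) (fun x hx y hy => by
      simpa using add_mem (Lk_le (ha.df x hx y hy)) (h.lat.mul x hx y hy))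
    ((zxs_mem p0).2 fun x hx y hy => ha.df x hx y hy) ((zxs_mem p0).2 fun x hx y hy => by
      have := Lk_anti (show c + 1 ≤ c + (c - w) by omega) (xk_df p0 h hi hm hc.le ha hx hy)
      convert this using 1
      simp only [LinearMap.add_apply, LinearMap.sub_apply, zxsA_ap, zxsB_ap, zxsC_ap,
        LinearMap.mul_apply', LinearMap.neg_apply, neg_mul, mul_neg]
      abel)) x hx y hy
  rw [LinearMap.sub_apply, LinearMap.sub_apply, zxsA_ex, zxsB_ex, zxsC_ex] at this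
  exact this

end Pool.Agent.Lib.MP_1ae3da_al.CT.Z
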